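import Pool.Agent.H305.OS.Time

/-!
The bound of the enstrophy.
-/

set_option autoImplicit false

open MeasureTheory Set Metric Filter Topology
open scoped ContDiff ENNReal

namespace Pool.Agent.H305.OS

open H459R3.NS W221.NS Pool.Agent.V1183.PM
open Pool.Agent.W583.MD (sm_pd pd_mul')
open Pool.Agent.W22.ME.TD (pd_comm)
open Pool.Agent.H305.TI (it it_nil it_cons it_sm J_it dt_it)


lemma hol3 {X : Type*} [MeasurableSpace X] {μ : Measure X} {f g h : X → ℝ≥0∞}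
    (hf : AEMeasurable f μ) (hg : AEMeasurable g μ) (hh : AEMeasurable h μ) {p q r : ℝ}
    (hp : 0 ≤ p) (hq : 0 ≤ q) (hr : 0 ≤ r) (hs : p + q + r = 1) :
    ∫⁻ x, f x ^ p * g x ^ q * h x ^ r ∂μ
      ≤ (∫⁻ x, f x ∂μ) ^ p * (∫⁻ x, g x ∂μ) ^ q * (∫⁻ x, h x ∂μ) ^ r := by
  have h1 := ENNReal.lintegral_prod_norm_pow_le (μ := μ) (Finset.univ : Finset (Fin 3))
    (f := ![f, g, h]) (by
      intro i _
      fin_cases i
      · exact hf
      · exact hg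
      · exact hh) (p := ![p, q, r]) (by simp [Fin.sum_univ_three, hs]) (by
      intro i _
      fin_cases i
      · exact hp
      · exact hq
      · exact hr)
  simpa [Fin.prod_univ_three] using h1

lemma cmp {q ρ : ℝ → ℝ} {ψ : ℝ → ℝ≥0∞} {s t Ys Yt : ℝ} (hq : IntegrableOn q (Ioc s t))
    (hq0 : ∀ τ ∈ Ioc s t, 0 ≤ q τ) (hρ : IntegrableOn ρ (Ioc s t)) (hYt : 0 ≤ Yt)
    (hid : Yt = Ys + ∫ τ in Ioc s t, (ρ τ - 2 * q τ))
    (hb : ∀ τ ∈ Ioc s t, ENNReal.ofReal |ρ τ| ≤ ENNReal.ofReal (q τ) + ψ τ) :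
    ENNReal.ofReal Yt + ∫⁻ τ in Ioc s t, ENNReal.ofReal (q τ)
      ≤ ENNReal.ofReal Ys + ∫⁻ τ in Ioc s t, ψ τ := by
  rw [integral_sub hρ (hq.const_mul 2), integral_const_mul] at hid
  obtain ⟨A, hA⟩ : ∃ A, A = ∫ τ in Ioc s t, q τ := ⟨_, rfl⟩
  have hae : ∀ᵐ τ ∂(volume.restrict (Ioc s t)), 0 ≤ q τ :=
    (ae_restrict_iff' measurableSet_Ioc).2 (Eventually.of_forall hq0)
  have hA0 : 0 ≤ A := by
    rw [hA]
    exact integral_nonneg_of_ae hae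
  have hI : ∫⁻ τ in Ioc s t, ENNReal.ofReal (q τ) = ENNReal.ofReal A := by
    rw [hA]
    exact (ofReal_integral_eq_lintegral_ofReal hq hae).symm
  rw [← hA] at hid
  have h1 : ENNReal.ofReal (Yt + 2 * A) ≤ ENNReal.ofReal Ys
      + ∫⁻ τ in Ioc s t, ENNReal.ofReal |ρ τ| := by
    have e : Yt + 2 * A = Ys + ∫ τ in Ioc s t, ρ τ := by linarith
    rw [e]
    refine ENNReal.ofReal_add_le.trans (add_le_add le_rfl ?_)
    have h2 : ∫ τ in Ioc s t, ρ τ ≤ ∫ τ in Ioc s t, |ρ τ| :=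
      (le_abs_self _).trans abs_integral_le_integral_abs
    refine (ENNReal.ofReal_le_ofReal h2).trans (le_of_eq ?_)
    exact ofReal_integral_eq_lintegral_ofReal hρ.abs (Eventually.of_forall fun _ => abs_nonneg _)
  have h2 : ∫⁻ τ in Ioc s t, ENNReal.ofReal |ρ τ| ≤ ENNReal.ofReal A + ∫⁻ τ in Ioc s t, ψ τ := by
    rw [← hI, ← lintegral_add_left' hq.aestronglyMeasurable.aemeasurable.ennreal_ofReal]
    exact setLIntegral_mono' measurableSet_Ioc hb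
  rw [hI]
  have h3 : (ENNReal.ofReal Yt + ENNReal.ofReal A) + ENNReal.ofReal A
      ≤ (ENNReal.ofReal Ys + ∫⁻ τ in Ioc s t, ψ τ) + ENNReal.ofReal A := by
    calc (ENNReal.ofReal Yt + ENNReal.ofReal A) + ENNReal.ofReal A
        = ENNReal.ofReal (Yt + 2 * A) := by
          rw [← ENNReal.ofReal_add hYt hA0, ← ENNReal.ofReal_add (by positivity) hA0]
          congr 1
          ring
      _ ≤ ENNReal.ofReal Ys + (ENNReal.ofReal A + ∫⁻ τ in Ioc s t, ψ τ) :=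
          h1.trans (by gcongr)
      _ = _ := by ring
  exact (ENNReal.add_le_add_iff_right ENNReal.ofReal_ne_top).1 h3

lemma final_bd {A B γ : ℝ} (hA : 0 ≤ A) (hB : 0 ≤ B) (hγ : 0 ≤ γ)
    (h : γ ≤ A + B * γ ^ (1 / 4 : ℝ) + γ / 4) : γ ≤ 2 * A + (4 * B) ^ (4 / 3 : ℝ) := by
  by_cases h1 : γ ≤ (4 * B) ^ (4 / 3 : ℝ)
  · linarith
  · push Not at h1
    have h2 : 4 * B ≤ γ ^ (3 / 4 : ℝ) := by
      have h3 := Real.rpow_le_rpow (by positivity) h1.le (by norm_num : (0 : ℝ) ≤ 3 / 4)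
      rw [← Real.rpow_mul (by positivity)] at h3
      norm_num at h3
      exact h3
    have h4 : γ ^ (3 / 4 : ℝ) * γ ^ (1 / 4 : ℝ) = γ := by
      rw [← Real.rpow_add_of_nonneg hγ (by norm_num) (by norm_num)]
      norm_num
    have h5 : 4 * B * γ ^ (1 / 4 : ℝ) ≤ γ := by
      calc 4 * B * γ ^ (1 / 4 : ℝ) ≤ γ ^ (3 / 4 : ℝ) * γ ^ (1 / 4 : ℝ) := by gcongr
        _ = γ := h4
    have h6 : 0 ≤ (4 * B) ^ (4 / 3 : ℝ) := by positivity
    linarith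

section
variable {ν T : ℝ} {u : ℝ → V → V} {p : ℝ → V → ℝ} {s t : ℝ} {a b c : Fin 3}

lemma Q2_le (w : Fin 3 → V → ℝ) (a b : Fin 3) : Q2 w a b ≤ 2 * D2 w := by
  have h1 : ∀ m, ∑ l, n2 w m l ≤ D2 w := fun m =>
    Finset.single_le_sum (f := fun m => ∑ l, n2 w m l)
      (fun _ _ => Finset.sum_nonneg fun _ _ => n2_nonneg _ _ _) (Finset.mem_univ m)
  have := h1 a
  have := h1 b
  unfold Q2
  linarith

/-- Bounds on compact time intervals. -/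
lemma HS.bdd (h : HS ν T u p) (hs : 0 < s) (ht : t < T) : ∃ C : ℝ, 0 ≤ C ∧ ∀ τ ∈ Icc s t,
    N2 (cw u τ) ≤ C ∧ D2 (cw u τ) ≤ C := by
  have h1 : ∀ m i, ∃ C : ℝ, 0 ≤ C ∧ ∀ τ ∈ Icc s t, ip (H459R3.NS.pd m (cw u τ i)) (H459R3.NS.pd m (cw u τ i)) ≤ C :=
    fun m i => ((h.uu s t hs ht i).pd m).ip_bd
  have h2 : ∀ m l i, ∃ C : ℝ, 0 ≤ C ∧ ∀ τ ∈ Icc s t,
      ip (H459R3.NS.pd l (H459R3.NS.pd m (cw u τ i))) (H459R3.NS.pd l (H459R3.NS.pd m (cw u τ i))) ≤ C :=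
    fun m l i => (((h.uu s t hs ht i).pd m).pd l).ip_bd
  choose C1 hC1 k1 using h1
  choose C2 hC2 k2 using h2
  refine ⟨(∑ m, ∑ i, C1 m i) + ∑ m, ∑ l, ∑ i, C2 m l i, ?_, ?_⟩
  · exact add_nonneg (Finset.sum_nonneg fun _ _ => Finset.sum_nonneg fun _ _ => hC1 _ _)
      (Finset.sum_nonneg fun _ _ => Finset.sum_nonneg fun _ _ => Finset.sum_nonneg fun _ _ =>
        hC2 _ _ _)
  · intro τ hτ
    have e1 : N2 (cw u τ) ≤ ∑ m, ∑ i, C1 m i :=
      Finset.sum_le_sum fun m _ => Finset.sum_le_sum fun i _ => k1 m i τ hτ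
    have e2 : D2 (cw u τ) ≤ ∑ m, ∑ l, ∑ i, C2 m l i :=
      Finset.sum_le_sum fun m _ => Finset.sum_le_sum fun l _ => Finset.sum_le_sum fun i _ =>
        k2 m l i τ hτ
    have e3 : 0 ≤ ∑ m, ∑ i, C1 m i := Finset.sum_nonneg fun _ _ => Finset.sum_nonneg fun _ _ => hC1 _ _
    have e4 : 0 ≤ ∑ m, ∑ l, ∑ i, C2 m l i :=
      Finset.sum_nonneg fun _ _ => Finset.sum_nonneg fun _ _ => Finset.sum_nonneg fun _ _ => hC2 _ _ _
    exact ⟨by linarith, by linarith⟩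

lemma HS.en_anti (h : HS ν T u p) (hs : 0 < s) (hst : s ≤ t) (ht : t < T) : en u t ≤ en u s := by
  have h1 := h.energy hs hst ht
  have h2 : ∫ τ in Ioc s t, -(2 * ν) * N2 (cw u τ) ≤ 0 := by
    apply integral_nonpos
    intro τ
    have := N2_nonneg (cw u τ)
    have := h.hν
    simp only [Pi.zero_apply]
    nlinarith
  linarith [h1.2]

lemma en_nonneg (u : ℝ → V → V) (t : ℝ) : 0 ≤ en u t := Finset.sum_nonneg fun _ _ => ip_self_nonneg _

/-- The dissipation is small near the final time. -/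
lemma HS.small (h : HS ν T u p) {a₀ : ℝ} (ha : 0 < a₀) (haT : a₀ < T) {κ : ℝ} (hκ : 0 < κ) :
    ∃ s ∈ Ioo a₀ T, ∀ t, s ≤ t → t < T →
      ∫⁻ τ in Ioc s t, ENNReal.ofReal (N2 (cw u τ)) ≤ ENNReal.ofReal κ := by
  have hν := h.hν
  obtain ⟨S, hS⟩ : ∃ S : Set ℝ, S = (en u) '' (Ioo a₀ T) := ⟨_, rfl⟩
  have hne : S.Nonempty := by
    rw [hS]
    exact ⟨_, (a₀ + T) / 2, ⟨by linarith, by linarith⟩, rfl⟩
  have hbd : BddBelow S := by
    refine ⟨0, ?_⟩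
    rw [hS]
    rintro _ ⟨τ, _, rfl⟩
    exact en_nonneg u τ
  obtain ⟨y, hy, hlt⟩ := exists_lt_of_csInf_lt hne (show sInf S < sInf S + 2 * ν * κ by
    have : 0 < 2 * ν * κ := by positivity
    linarith)
  rw [hS] at hy
  obtain ⟨s, hs, rfl⟩ := hy
  refine ⟨s, hs, fun t hst ht => ?_⟩
  have hs0 : 0 < s := ha.trans hs.1
  have h1 := (h.energy hs0 hst ht).2
  rw [integral_const_mul] at h1
  have h2 : sInf S ≤ en u t := csInf_le hbd (by
    rw [hS]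
    exact ⟨t, ⟨hs.1.trans_le hst, ht⟩, rfl⟩)
  rw [← ofReal_integral_eq_lintegral_ofReal (h.N2_int hs0 ht)
    (Eventually.of_forall fun τ => N2_nonneg _)]
  apply ENNReal.ofReal_le_ofReal
  have h3 : 2 * ν * ∫ τ in Ioc s t, N2 (cw u τ) ≤ 2 * ν * κ := by linarith
  exact le_of_mul_le_mul_left h3 (by positivity)

/-- The horizontal inequality. -/
lemma HS.hor (h : HS ν T u p) (hs : 0 < s) (hst : s ≤ t) (ht : t < T) {ψ : ℝ → ℝ≥0∞}
    (hψ : ∀ τ ∈ Ioc s t, ENNReal.ofReal (2 * |RR (cw u τ) a + RR (cw u τ) b|)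
      ≤ ENNReal.ofReal (ν * Q2 (cw u τ) a b) + ψ τ) :
    ENNReal.ofReal (n1 (cw u t) a + n1 (cw u t) b)
        + ∫⁻ τ in Ioc s t, ENNReal.ofReal (ν * Q2 (cw u τ) a b)
      ≤ ENNReal.ofReal (n1 (cw u s) a + n1 (cw u s) b) + ∫⁻ τ in Ioc s t, ψ τ := by
  have ha := h.n1_id hs hst ht a
  have hb := h.n1_id hs hst ht b
  have hQ := h.Q2_int hs ht a b
  have hν := h.hν
  have e : ∀ τ, (-(2 * ν) * ∑ l, n2 (cw u τ) a l - 2 * RR (cw u τ) a)
      + (-(2 * ν) * ∑ l, n2 (cw u τ) b l - 2 * RR (cw u τ) b)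
      = (-(2 * (RR (cw u τ) a + RR (cw u τ) b))) - 2 * (ν * Q2 (cw u τ) a b) := by
    intro τ
    unfold Q2
    ring
  have hI : IntegrableOn (fun τ => (-(2 * (RR (cw u τ) a + RR (cw u τ) b)))
      - 2 * (ν * Q2 (cw u τ) a b)) (Ioc s t) := by
    have := ha.1.add hb.1
    refine this.congr (Eventually.of_forall fun τ => ?_)
    exact e τ
  have hρ : IntegrableOn (fun τ => -(2 * (RR (cw u τ) a + RR (cw u τ) b))) (Ioc s t) := by
    have := hI.add ((hQ.const_mul ν).const_mul 2)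
    refine this.congr (Eventually.of_forall fun τ => ?_)
    simp only [Pi.add_apply]
    ring
  refine cmp (hQ.const_mul ν) (fun τ _ => by
    have := Q2_nonneg (cw u τ) a b
    positivity) hρ (add_nonneg (n1_nonneg _ _) (n1_nonneg _ _)) ?_ ?_
  · rw [ha.2, hb.2]
    have : ∫ τ in Ioc s t, ((-(2 * (RR (cw u τ) a + RR (cw u τ) b))) - 2 * (ν * Q2 (cw u τ) a b))
        = (∫ τ in Ioc s t, (-(2 * ν) * ∑ l, n2 (cw u τ) a l - 2 * RR (cw u τ) a))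
          + ∫ τ in Ioc s t, (-(2 * ν) * ∑ l, n2 (cw u τ) b l - 2 * RR (cw u τ) b) := by
      rw [← integral_add ha.1 hb.1]
      congr 1
      funext τ
      exact (e τ).symm
    rw [this]
    ring
  · intro τ hτ
    rw [abs_neg, abs_mul, abs_of_pos (by norm_num : (0 : ℝ) < 2)]
    exact hψ τ hτ

/-- The full inequality. -/
lemma HS.ful (h : HS ν T u p) (hT : Tri a b c) (hs : 0 < s) (hst : s ≤ t) (ht : t < T)
    {ψ : ℝ → ℝ≥0∞} (hψ : ∀ τ ∈ Ioc s t,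
      ENNReal.ofReal (2 * |RR (cw u τ) a + RR (cw u τ) b + RR (cw u τ) c|) ≤ ψ τ) :
    ENNReal.ofReal (N2 (cw u t)) + ∫⁻ τ in Ioc s t, ENNReal.ofReal (ν * D2 (cw u τ))
      ≤ ENNReal.ofReal (N2 (cw u s)) + ∫⁻ τ in Ioc s t, ψ τ := by
  have ha := h.n1_id hs hst ht a
  have hb := h.n1_id hs hst ht b
  have hc := h.n1_id hs hst ht c
  have hD := h.D2_int hs ht
  have hν := h.hν
  have e : ∀ τ, ((-(2 * ν) * ∑ l, n2 (cw u τ) a l - 2 * RR (cw u τ) a)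
      + (-(2 * ν) * ∑ l, n2 (cw u τ) b l - 2 * RR (cw u τ) b))
      + (-(2 * ν) * ∑ l, n2 (cw u τ) c l - 2 * RR (cw u τ) c)
      = (-(2 * (RR (cw u τ) a + RR (cw u τ) b + RR (cw u τ) c))) - 2 * (ν * D2 (cw u τ)) := by
    intro τ
    unfold D2
    rw [hT.sum (fun m => ∑ l, n2 (cw u τ) m l)]
    ring
  have hI : IntegrableOn (fun τ => (-(2 * (RR (cw u τ) a + RR (cw u τ) b + RR (cw u τ) c)))
      - 2 * (ν * D2 (cw u τ))) (Ioc s t) := by
    have := (ha.1.add hb.1).add hc.1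
    refine this.congr (Eventually.of_forall fun τ => ?_)
    exact e τ
  have hρ : IntegrableOn (fun τ => -(2 * (RR (cw u τ) a + RR (cw u τ) b + RR (cw u τ) c)))
      (Ioc s t) := by
    have := hI.add ((hD.const_mul ν).const_mul 2)
    refine this.congr (Eventually.of_forall fun τ => ?_)
    simp only [Pi.add_apply]
    ring
  refine cmp (hD.const_mul ν) (fun τ _ => by
    have := D2_nonneg (cw u τ)
    positivity) hρ (N2_nonneg _) ?_ ?_
  · have e1 : ∀ τ, N2 (cw u τ) = n1 (cw u τ) a + n1 (cw u τ) b + n1 (cw u τ) c := by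
      intro τ
      unfold N2
      rw [hT.sum]
    rw [e1 t, e1 s, ha.2, hb.2, hc.2]
    have hab : IntegrableOn (fun τ => (-(2 * ν) * ∑ l, n2 (cw u τ) a l - 2 * RR (cw u τ) a)
      + (-(2 * ν) * ∑ l, n2 (cw u τ) b l - 2 * RR (cw u τ) b)) (Ioc s t) := ha.1.add hb.1
    have : ∫ τ in Ioc s t, ((-(2 * (RR (cw u τ) a + RR (cw u τ) b + RR (cw u τ) c)))
          - 2 * (ν * D2 (cw u τ)))
        = ((∫ τ in Ioc s t, (-(2 * ν) * ∑ l, n2 (cw u τ) a l - 2 * RR (cw u τ) a))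
          + ∫ τ in Ioc s t, (-(2 * ν) * ∑ l, n2 (cw u τ) b l - 2 * RR (cw u τ) b))
          + ∫ τ in Ioc s t, (-(2 * ν) * ∑ l, n2 (cw u τ) c l - 2 * RR (cw u τ) c) := by
      rw [← integral_add ha.1 hb.1, ← integral_add hab hc.1]
      congr 1
      funext τ
      exact (e τ).symm
    rw [this]
    ring
  · intro τ hτ
    rw [abs_neg, abs_mul, abs_of_pos (by norm_num : (0 : ℝ) < 2)]
    exact (hψ τ hτ).trans le_add_self

end

end Pool.Agent.H305.OS
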