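import Pool.Agent.H305.OS.KZ

/-!
The energy identities at a fixed time.
-/

set_option autoImplicit false

open MeasureTheory Set Metric Filter Topology
open scoped ContDiff ENNReal

namespace Pool.Agent.H305.OS

open H459R3.NS W221.NS Pool.Agent.V1183.PM
open Pool.Agent.W583.MD (sm_pd pd_mul')
open Pool.Agent.W22.ME.TD (pd_comm)
open Pool.Agent.TH305.DR (pd_sub' pd_add' pd_neg' pd_const')
open Pool.Agent.H305.TI (it it_nil it_cons it_sm)


section
variable {f g h q : V → ℝ} {w F : Fin 3 → V → ℝ} {m : Fin 3} {ν : ℝ}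

lemma it_pd (l : List (Fin 3)) (k : Fin 3) : ∀ {f : V → ℝ}, ContDiff ℝ ∞ f →
    it l (H459R3.NS.pd k f) = H459R3.NS.pd k (it l f) := by
  induction l with
  | nil => intro f _; rfl
  | cons i l ih =>
    intro f hf
    rw [it_cons, it_cons, pd_comm hf i k, ih (sm_pd hf i)]

lemma it_neg (l : List (Fin 3)) {f : V → ℝ} (hf : ContDiff ℝ ∞ f) :
    it l (fun x => - f x) = fun x => - it l f x := by
  have := it_cmul l (-1) hf
  simpa using this

lemma it_sub (l : List (Fin 3)) {f g : V → ℝ} (hf : ContDiff ℝ ∞ f) (hg : ContDiff ℝ ∞ g) :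
    it l (fun x => f x - g x) = fun x => it l f x - it l g x := by
  have := it_add l hf hg.neg
  simp only [it_neg l hg] at this
  simpa [sub_eq_add_neg] using this

lemma it_zero (l : List (Fin 3)) : it l (fun _ => (0 : ℝ)) = fun _ => 0 := by
  have := it_cmul l 0 (f := fun _ : V => (0 : ℝ)) contDiff_const
  simpa using this

lemma it_sum (l : List (Fin 3)) {f : Fin 3 → V → ℝ} (hf : ∀ i, ContDiff ℝ ∞ (f i)) :
    it l (fun x => ∑ i, f i x) = fun x => ∑ i, it l (f i) x := by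
  have h1 := it_add l (hf 0) (hf 1)
  have h2 := it_add l ((hf 0).add (hf 1)) (hf 2)
  simp only [Fin.sum_univ_three]
  rw [h2, h1]

/-- The Laplacian. -/
noncomputable def lp (f : V → ℝ) : V → ℝ := fun x => ∑ k, H459R3.NS.pd k (H459R3.NS.pd k f) x

/-- The nonlinear term. -/
noncomputable def nl (w : Fin 3 → V → ℝ) (i : Fin 3) : V → ℝ := fun x => ∑ j, w j x * H459R3.NS.pd j (w i) x

lemma HF.lp (hf : HF f) : HF (lp f) := HF.sum fun k => (hf.pd k).pd k

lemma nl_HF (hw : ∀ i, HF (w i)) (i : Fin 3) : HF (nl w i) := HF.sum fun j => (hw j).mul ((hw i).pd j)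

lemma ip_neg (f g : V → ℝ) : ip f (fun x => - g x) = - ip f g := by
  unfold ip
  simp only [mul_neg, integral_neg]

lemma ip_cmul (c : ℝ) (f g : V → ℝ) : ip f (fun x => c * g x) = c * ip f g := by
  unfold ip
  rw [← integral_const_mul]
  congr 1
  funext x
  ring

lemma HF.ip_sub (hf : HF f) (hg : HF g) (hh : HF h) : ip f (fun x => g x - h x) = ip f g - ip f h := by
  have := hf.ip_add hg hh.neg
  rw [ip_neg] at this
  simpa [sub_eq_add_neg] using this

lemma HF.ip_sum (hf : HF f) {g : Fin 3 → V → ℝ} (hg : ∀ i, HF (g i)) :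
    ip f (fun x => ∑ i, g i x) = ∑ i, ip f (g i) := by
  simp only [Fin.sum_univ_three]
  have := hf.ip_add ((hg 0).add (hg 1)) (hg 2)
  rw [this, hf.ip_add (hg 0) (hg 1)]

lemma HF.ip_lp (hf : HF f) :
    ip f (Pool.Agent.H305.OS.lp f) = - ∑ k, ip (H459R3.NS.pd k f) (H459R3.NS.pd k f) := by
  unfold Pool.Agent.H305.OS.lp
  rw [hf.ip_sum fun k => (hf.pd k).pd k, ← Finset.sum_neg_distrib]
  apply Finset.sum_congr rfl
  intro k _
  have := hf.ip_ibp (hf.pd k) k
  linarith

/-- The pressure term. -/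
lemma ip_press (hw : ∀ i, HF (w i)) (hq : ∀ i, HF (H459R3.NS.pd i q)) (hqs : ContDiff ℝ ∞ q)
    (hdiv : ∀ x, ∑ i, H459R3.NS.pd i (w i) x = 0) (l : List (Fin 3)) (m : Fin 3) :
    ∑ i, ip (it (m :: l) (w i)) (it (m :: l) (H459R3.NS.pd i q)) = 0 := by
  have e : ∀ i, it (m :: l) (H459R3.NS.pd i q) = H459R3.NS.pd i (it l (H459R3.NS.pd m q)) := by
    intro i
    rw [it_cons, pd_comm hqs m i, it_pd l i (sm_pd hqs m)]
  have h1 : ∀ i, ip (it (m :: l) (w i)) (it (m :: l) (H459R3.NS.pd i q))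
      = - ip (it l (H459R3.NS.pd m q)) (H459R3.NS.pd i (it (m :: l) (w i))) := by
    intro i
    rw [e, ip_comm, ((hq m).it l).ip_ibp ((hw i).it _) i]
  simp only [h1]
  rw [Finset.sum_neg_distrib, ← ((hq m).it l).ip_sum fun i => ((hw i).it _).pd i]
  have h2 : (fun x => ∑ i, H459R3.NS.pd i (it (m :: l) (w i)) x) = fun _ => 0 := by
    have h3 : ∀ i, H459R3.NS.pd i (it (m :: l) (w i)) = it (m :: l) (H459R3.NS.pd i (w i)) := fun i =>
      (it_pd (m :: l) i (hw i).sm).symm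
    simp only [h3]
    have h4 := it_sum (m :: l) (f := fun i => H459R3.NS.pd i (w i)) fun i => sm_pd (hw i).sm i
    rw [← h4]
    have h5 : (fun x => ∑ i, H459R3.NS.pd i (w i) x) = fun _ => 0 := funext hdiv
    rw [h5, it_zero]
  rw [h2]
  unfold ip
  simp

/-- The pressure term in the energy identity. -/
lemma ip_press0 (hw : ∀ i, HF (w i)) (hq : HF q) (hdiv : ∀ x, ∑ i, H459R3.NS.pd i (w i) x = 0) :
    ∑ i, ip (w i) (H459R3.NS.pd i q) = 0 := by
  have h1 : ∀ i, ip (w i) (H459R3.NS.pd i q) = - ip q (H459R3.NS.pd i (w i)) := by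
    intro i
    have := (hw i).ip_ibp hq i
    rw [ip_comm q]
    linarith
  simp only [h1]
  rw [Finset.sum_neg_distrib, ← hq.ip_sum fun i => (hw i).pd i]
  have h5 : (fun x => ∑ i, H459R3.NS.pd i (w i) x) = fun _ => 0 := funext hdiv
  rw [h5]
  unfold ip
  simp

/-- The identity for the derivatives. -/
lemma diss_gen (hw : ∀ i, HF (w i)) (hq : ∀ i, HF (H459R3.NS.pd i q)) (hqs : ContDiff ℝ ∞ q)
    (hdiv : ∀ x, ∑ i, H459R3.NS.pd i (w i) x = 0)
    (hF : ∀ i, F i = fun x => ν * lp (w i) x - nl w i x - H459R3.NS.pd i q x) (l : List (Fin 3)) (m : Fin 3) :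
    ∑ i, ip (it (m :: l) (w i)) (it (m :: l) (F i))
      = - (ν * ∑ i, ∑ k, ip (H459R3.NS.pd k (it (m :: l) (w i))) (H459R3.NS.pd k (it (m :: l) (w i))))
        - ∑ i, ip (it (m :: l) (w i)) (it (m :: l) (nl w i)) := by
  have h0 := ip_press hw hq hqs hdiv l m
  have h1 : ∀ i, ip (it (m :: l) (w i)) (it (m :: l) (F i))
      = - (ν * ∑ k, ip (H459R3.NS.pd k (it (m :: l) (w i))) (H459R3.NS.pd k (it (m :: l) (w i))))
        - ip (it (m :: l) (w i)) (it (m :: l) (nl w i))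
        - ip (it (m :: l) (w i)) (it (m :: l) (H459R3.NS.pd i q)) := by
    intro i
    have s1 := (hw i).lp.sm
    have s2 := (nl_HF hw i).sm
    have e : it (m :: l) (F i) = fun x => (ν * it (m :: l) (lp (w i)) x - it (m :: l) (nl w i) x)
        - it (m :: l) (H459R3.NS.pd i q) x := by
      rw [hF, it_sub _ ((contDiff_const.mul s1).sub s2) (sm_pd hqs i),
        it_sub _ (contDiff_const.mul s1) s2, it_cmul _ _ s1]
    have e2 : it (m :: l) (lp (w i)) = lp (it (m :: l) (w i)) := by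
      unfold Pool.Agent.H305.OS.lp
      rw [it_sum (m :: l) (f := fun k => H459R3.NS.pd k (H459R3.NS.pd k (w i))) fun k => sm_pd (sm_pd (hw i).sm k) k]
      funext x
      apply Finset.sum_congr rfl
      intro k _
      rw [it_pd _ _ (sm_pd (hw i).sm k), it_pd _ _ (hw i).sm]
    have k1 := (hw i).it (m :: l)
    rw [e, k1.ip_sub (((((hw i).lp).it _).cmul ν).sub ((nl_HF hw i).it _)) ((hq i).it _),
      k1.ip_sub ((((hw i).lp).it _).cmul ν) ((nl_HF hw i).it _), ip_cmul, e2, k1.ip_lp]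
    ring
  simp only [h1, Finset.sum_sub_distrib, Finset.sum_neg_distrib, ← Finset.mul_sum]
  rw [h0]
  ring

/-- The transport term. -/
lemma transp (hw : ∀ i, HF (w i)) (hdiv : ∀ x, ∑ i, H459R3.NS.pd i (w i) x = 0) (hf : HF f) :
    ip f (fun x => ∑ j, w j x * H459R3.NS.pd j f x) = 0 := by
  have h1 : ∀ j, ip f (fun x => w j x * H459R3.NS.pd j f x) = ip (w j) (fun x => f x * H459R3.NS.pd j f x) := by
    intro j
    unfold ip
    congr 1
    funext x
    ring
  have h2 : ∀ j, ip (w j) (fun x => f x * H459R3.NS.pd j f x) = - (1 / 2) * ip (fun x => f x * f x) (H459R3.NS.pd j (w j)) := by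
    intro j
    have h3 := (hw j).ip_ibp (hf.mul hf) j
    have e : H459R3.NS.pd j (fun x => f x * f x) = fun x => 2 * (f x * H459R3.NS.pd j f x) := by
      funext x
      rw [pd_mul' hf.sm hf.sm]
      ring
    rw [e, ip_cmul] at h3
    rw [ip_comm (fun x => f x * f x)]
    linarith
  rw [hf.ip_sum fun j => (hw j).mul (hf.pd j)]
  simp only [h1, h2]
  rw [← Finset.mul_sum, ← (hf.mul hf).ip_sum fun j => (hw j).pd j]
  have h5 : (fun x => ∑ i, H459R3.NS.pd i (w i) x) = fun _ => 0 := funext hdiv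
  rw [h5]
  unfold ip
  simp

/-- The first-order identity. -/
lemma diss_one (hw : ∀ i, HF (w i)) (hq : ∀ i, HF (H459R3.NS.pd i q)) (hqs : ContDiff ℝ ∞ q)
    (hdiv : ∀ x, ∑ i, H459R3.NS.pd i (w i) x = 0)
    (hF : ∀ i, F i = fun x => ν * lp (w i) x - nl w i x - H459R3.NS.pd i q x) (m : Fin 3) :
    ∑ i, ip (H459R3.NS.pd m (w i)) (H459R3.NS.pd m (F i))
      = - (ν * ∑ i, ∑ k, ip (H459R3.NS.pd k (H459R3.NS.pd m (w i))) (H459R3.NS.pd k (H459R3.NS.pd m (w i)))) - RR w m := by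
  have h1 := diss_gen hw hq hqs hdiv hF [] m
  simp only [it_cons, it_nil] at h1
  rw [h1]
  congr 1
  have h2 : ∀ i, H459R3.NS.pd m (nl w i) = fun x => (∑ j, H459R3.NS.pd m (w j) x * H459R3.NS.pd j (w i) x)
      + ∑ j, w j x * H459R3.NS.pd j (H459R3.NS.pd m (w i)) x := by
    intro i
    have h3 := it_sum [m] (f := fun j x => w j x * H459R3.NS.pd j (w i) x)
      fun j => ((hw j).mul ((hw i).pd j)).sm
    simp only [it_cons, it_nil] at h3
    unfold nl
    rw [h3]
    funext x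
    rw [← Finset.sum_add_distrib]
    apply Finset.sum_congr rfl
    intro j _
    rw [pd_mul' (hw j).sm ((hw i).pd j).sm, pd_comm (hw i).sm m j]
    ring
  have h4 : ∀ i, ip (H459R3.NS.pd m (w i)) (H459R3.NS.pd m (nl w i))
      = ∑ j, ∫ x, H459R3.NS.pd m (w j) x * H459R3.NS.pd j (w i) x * H459R3.NS.pd m (w i) x := by
    intro i
    rw [h2, ((hw i).pd m).ip_add (HF.sum fun j => ((hw j).pd m).mul ((hw i).pd j))
      (HF.sum fun j => (hw j).mul (((hw i).pd m).pd j)), transp hw hdiv ((hw i).pd m), add_zero,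
      ((hw i).pd m).ip_sum fun j => ((hw j).pd m).mul ((hw i).pd j)]
    apply Finset.sum_congr rfl
    intro j _
    unfold ip
    congr 1
    funext x
    ring
  simp only [h4]
  unfold RR
  rw [integral_finsetSum _ fun i _ => integrable_finsetSum _ fun j _ =>
    ((hw j).pd m).tint ((hw i).pd j) ((hw i).pd m)]
  apply Finset.sum_congr rfl
  intro i _
  rw [integral_finsetSum _ fun j _ => ((hw j).pd m).tint ((hw i).pd j) ((hw i).pd m)]

/-- The energy identity. -/
lemma diss_zero (hw : ∀ i, HF (w i)) (hq : HF q) (hdiv : ∀ x, ∑ i, H459R3.NS.pd i (w i) x = 0)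
    (hF : ∀ i, F i = fun x => ν * lp (w i) x - nl w i x - H459R3.NS.pd i q x) :
    ∑ i, ip (w i) (F i) = - (ν * ∑ i, ∑ k, ip (H459R3.NS.pd k (w i)) (H459R3.NS.pd k (w i))) := by
  have h0 := ip_press0 hw hq hdiv
  have h1 : ∀ i, ip (w i) (F i)
      = - (ν * ∑ k, ip (H459R3.NS.pd k (w i)) (H459R3.NS.pd k (w i))) - ip (w i) (H459R3.NS.pd i q) := by
    intro i
    rw [hF, (hw i).ip_sub (((hw i).lp.cmul ν).sub (nl_HF hw i)) (hq.pd i),
      (hw i).ip_sub ((hw i).lp.cmul ν) (nl_HF hw i), ip_cmul, (hw i).ip_lp]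
    have : ip (w i) (nl w i) = 0 := transp hw hdiv (hw i)
    rw [this]
    ring
  simp only [h1, Finset.sum_sub_distrib, Finset.sum_neg_distrib, ← Finset.mul_sum]
  rw [h0]
  ring

end

end Pool.Agent.H305.OS
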