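import Pool.Agent.H305.OS.Rot

/-!
The criterion.
-/

set_option autoImplicit false

open MeasureTheory Set Metric Filter Topology
open scoped ContDiff ENNReal

namespace Pool.Agent.H305.OS

open H459R3.NS W221.NS Pool.Agent.V1183.PM
open Pool.Agent.W583.MD (sm_pd pd_mul')
open Pool.Agent.H305.TI (it it_nil it_cons it_sm J_it dt_it)

/-- The derivative of `f · u` in the direction `e`. -/
noncomputable def dq (e f : V) (v : V → V) : V → ℝ := fun x =>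
  ∑ i, ∑ j, e i * f j * H459R3.NS.pd i (fun y => v y j) x

lemma SO.lm_lm {M : Matrix (Fin 3) (Fin 3) ℝ} (hM : SO M) (e : V) : lm M (lm M e) = e := by
  funext i
  rw [lm_apply]
  simp only [lm_apply, Fin.sum_univ_three]
  have r : ∀ i k, M i 0 * M 0 k + M i 1 * M 1 k + M i 2 * M 2 k = if i = k then 1 else 0 := by
    intro i k
    have := hM.sq i k
    rwa [Fin.sum_univ_three] at this
  have e1 : M i 0 * (M 0 0 * e 0 + M 0 1 * e 1 + M 0 2 * e 2) + M i 1 * (M 1 0 * e 0 + M 1 1 * e 1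
      + M 1 2 * e 2) + M i 2 * (M 2 0 * e 0 + M 2 1 * e 1 + M 2 2 * e 2)
      = (M i 0 * M 0 0 + M i 1 * M 1 0 + M i 2 * M 2 0) * e 0
      + (M i 0 * M 0 1 + M i 1 * M 1 1 + M i 2 * M 2 1) * e 1
      + (M i 0 * M 0 2 + M i 1 * M 1 2 + M i 2 * M 2 2) * e 2 := by ring
  rw [e1, r i 0, r i 1, r i 2]
  fin_cases i <;> simp

lemma SO.sum_sq {M : Matrix (Fin 3) (Fin 3) ℝ} (hM : SO M) (e : V) :
    ∑ i, lm M e i ^ 2 = ∑ i, e i ^ 2 := by
  have h1 : ∑ i, lm M e i ^ 2 = ∑ i, e i * lm M (lm M e) i := by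
    simp only [lm_apply, Fin.sum_univ_three]
    rw [hM.sy 1 0, hM.sy 2 0, hM.sy 2 1]
    ring
  rw [h1, hM.lm_lm]
  simp only [pow_two]

lemma SO.mp {M : Matrix (Fin 3) (Fin 3) ℝ} (hM : SO M) : MeasurePreserving (lm M) volume volume := by
  refine ⟨(lm M).continuous.measurable, ?_⟩
  have h1 := Real.map_matrix_volume_pi_eq_smul_volume_pi hM.det0
  have h2 : |M.det⁻¹| = 1 := by rw [abs_inv, hM.det, inv_one]
  rw [h2, ENNReal.ofReal_one, one_smul] at h1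
  exact h1

section
variable {ν T : ℝ} {u : ℝ → V → V} {p : ℝ → V → ℝ}

lemma HS.De_uM (h : HS ν T u p) {M : Matrix (Fin 3) (Fin 3) ℝ} (hM : SO M) {f : V}
    (hf : ∀ i, M i 2 = f i) {t : ℝ} (ht : t ∈ Ioo 0 T) (e : V) :
    De (lm M e) (cw (uM M u) t 2) = fun x => dq e f (u t) (lm M x) := by
  funext x
  have hw := fun k => (h.cw_HF ht k).sm
  have k1 : ∀ j, H459R3.NS.pd j (cw (uM M u) t 2) x
      = ∑ k, M 2 k * ∑ l, M l j * H459R3.NS.pd l (cw u t k) (lm M x) := fun j =>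
    congrFun (pd_comb (w := cw u t) hw (fun k => M 2 k) M j) x
  unfold De
  simp only [k1]
  have k2 : ∀ k, M 2 k = f k := fun k => by rw [hM.sy 2 k, hf k]
  simp only [k2]
  have k3 : ∀ l, ∑ i, M l i * lm M e i = e l := by
    intro l
    rw [← lm_apply, hM.lm_lm]
  have k30 := k3 0
  have k31 := k3 1
  have k32 := k3 2
  unfold dq
  have k4 : ∀ i j, H459R3.NS.pd i (fun y => u t y j) (lm M x)
      = H459R3.NS.pd i (cw u t j) (lm M x) := fun _ _ => rfl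
  simp only [k4]
  rw [Fin.sum_univ_three] at k30 k31 k32
  simp only [Fin.sum_univ_three]
  obtain ⟨A, hA⟩ : ∃ A : Fin 3 → Fin 3 → ℝ, A = fun i j =>
    H459R3.NS.pd i (cw u t j) (lm M x) := ⟨_, rfl⟩
  have hA' : ∀ i j, H459R3.NS.pd i (cw u t j) (lm M x) = A i j := by
    intro i j
    rw [hA]
  simp only [hA']
  linear_combination (f 0 * A 0 0 + f 1 * A 0 1 + f 2 * A 0 2) * k30
    + (f 0 * A 1 0 + f 1 * A 1 1 + f 2 * A 1 2) * k31
    + (f 0 * A 2 0 + f 1 * A 2 1 + f 2 * A 2 2) * k32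

/-- The criterion. -/
theorem HS.crit (h : HS ν T u p) {a : ℝ} (ha : 0 ≤ a) (haT : a < T) {f : V}
    (hf : ∑ i, f i ^ 2 = 1) {e : ℝ → V} (he : ∀ t ∈ Ioo a T, ∑ i, e t i ^ 2 = 1) {α β : ℝ≥0∞}
    (hαβ : 4 / α + 3 / β ≤ 1 ∨ (2 < β ∧ 8 / α + 6 / β ≤ 3 ∧
      ∃ δ : ℝ, 0 < δ ∧ ∀ t ∈ Ioo a T, δ ≤ |∑ i, e t i * f i|))
    {g : ℝ → ℝ} (hg : MemLp g α (volume.restrict (Ioo a T)))
    (hb : ∀ t ∈ Ioo a T, eLpNorm (fun x => max (-(dq (e t) f (u t) x)) 0) β volume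
      ≤ ENNReal.ofReal (g t)) :
    ∃ M : ℝ, ∃ s ∈ Ioo 0 T, ∀ t ∈ Ico s T, ∀ x i, |u t x i| ≤ M := by
  obtain ⟨M, hM, hMf⟩ := exists_SO hf
  obtain ⟨a₀, ha₀⟩ : ∃ a₀, a₀ = (a + T) / 2 := ⟨_, rfl⟩
  have h1 : a < a₀ := by rw [ha₀]; linarith
  have h2 : a₀ < T := by rw [ha₀]; linarith
  have h3 : 0 < a₀ := ha.trans_lt h1
  have hr := h.rot hM
  have hsub : Ioo a₀ T ⊆ Ioo a T := Ioo_subset_Ioo_left h1.le
  have hg' : MemLp g α (volume.restrict (Ioo a₀ T)) := hg.mono_measure (Measure.restrict_mono hsub le_rfl)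
  obtain ⟨E, hE⟩ : ∃ E, E = en (uM M u) a₀ := ⟨_, rfl⟩
  have hE0 : 0 ≤ E := by rw [hE]; exact en_nonneg _ _
  have hEn : ∀ τ ∈ Ioo a₀ T, sqi (cw (uM M u) τ 2) ≤ ENNReal.ofReal E := by
    intro τ hτ
    have hτ' : τ ∈ Ioo 0 T := ⟨h3.trans hτ.1, hτ.2⟩
    apply sqi_le_of (hr.cw_HF hτ' 2)
    have k1 := hr.en_anti h3 hτ.1.le hτ.2
    have k2 : ip (cw (uM M u) τ 2) (cw (uM M u) τ 2) ≤ en (uM M u) τ :=
      single1 (F := fun i => ip (cw (uM M u) τ i) (cw (uM M u) τ i)) (fun _ => ip_self_nonneg _) 2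
    rw [hE]
    linarith
  have hbb : ∀ τ ∈ Ioo a₀ T, eLpNorm (fun x => max (-(De (lm M (e τ)) (cw (uM M u) τ 2) x)) 0) β
      volume ≤ ENNReal.ofReal |g τ| := by
    intro τ hτ
    have hτ' : τ ∈ Ioo 0 T := ⟨h3.trans hτ.1, hτ.2⟩
    rw [h.De_uM hM hMf hτ' (e τ)]
    have k1 : Continuous (dq (e τ) f (u τ)) := by
      unfold dq
      refine continuous_finsetSum _ fun i _ => continuous_finsetSum _ fun j _ => ?_
      exact continuous_const.mul ((h.cw_HF hτ' j).pd i).sm.continuous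
    have k2 : AEStronglyMeasurable (fun x => max (-(dq (e τ) f (u τ) x)) 0) volume :=
      (k1.neg.max continuous_const).aestronglyMeasurable
    have k3 := eLpNorm_comp_measurePreserving (p := β) k2 hM.mp
    have k4 : ((fun x => max (-(dq (e τ) f (u τ) x)) 0) ∘ (lm M))
        = fun x => max (-(dq (e τ) f (u τ) (lm M x))) 0 := rfl
    rw [k4] at k3
    rw [k3]
    exact (hb τ (hsub hτ)).trans (ENNReal.ofReal_le_ofReal (le_abs_self _))
  have hβ0 : β ≠ 0 := by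
    rintro rfl
    rcases hαβ with h4 | ⟨h4, -⟩
    · rw [ENNReal.div_zero (by norm_num)] at h4
      simp at h4
    · simp at h4
  have hα0 : α ≠ 0 := by
    rintro rfl
    rcases hαβ with h4 | ⟨-, h4, -⟩
    · rw [ENNReal.div_zero (by norm_num)] at h4
      simp at h4
    · rw [ENNReal.div_zero (by norm_num)] at h4
      simp at h4
  obtain ⟨b, hbdef⟩ : ∃ b, b = β⁻¹.toReal := ⟨_, rfl⟩
  obtain ⟨α', hα'⟩ : ∃ α', α' = α⁻¹.toReal := ⟨_, rfl⟩
  have hb0 : 0 ≤ b := by rw [hbdef]; exact ENNReal.toReal_nonneg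
  have hαi : α⁻¹ = ENNReal.ofReal α' := by
    rw [hα', ENNReal.ofReal_toReal (ENNReal.inv_ne_top.2 hα0)]
  have hβi : β⁻¹ = ENNReal.ofReal b := by
    rw [hbdef, ENNReal.ofReal_toReal (ENNReal.inv_ne_top.2 hβ0)]
  have hα'0 : 0 ≤ α' := by rw [hα']; exact ENNReal.toReal_nonneg
  have conv : ∀ x y z : ℝ, 0 ≤ x → 0 ≤ y → 0 ≤ z →
      ENNReal.ofReal x / α + ENNReal.ofReal y / β ≤ ENNReal.ofReal z → x * α' + y * b ≤ z := by
    intro x y z hx hy hz hxyz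
    rw [div_eq_mul_inv, div_eq_mul_inv, hαi, hβi, ← ENNReal.ofReal_mul hx, ← ENNReal.ofReal_mul hy,
      ← ENNReal.ofReal_add (by positivity) (by positivity)] at hxyz
    exact (ENNReal.ofReal_le_ofReal_iff hz).1 hxyz
  have fin : ∀ K₁ ψ, PS ν T (uM M u) 0 1 a₀ K₁ ψ →
      ∃ M : ℝ, ∃ s ∈ Ioo 0 T, ∀ t ∈ Ico s T, ∀ x i, |u t x i| ≤ M := by
    intro K₁ ψ hps
    obtain ⟨B, s, hs, hB⟩ := hr.bounded (a := 0) (b := 1) (c := 2)
      ⟨by decide, by decide, by decide⟩ h3 h2 hps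
    refine ⟨∑ i, ∑ k, |M i k| * |B|, s, hs, fun t ht x i => ?_⟩
    have e1 : u t x i = ∑ k, M i k * uM M u t (lm M x) k := by
      have k1 : (fun k => uM M u t (lm M x) k) = lm M (u t x) := by
        funext k
        unfold uM
        rw [hM.lm_lm, lm_apply]
      have k2 : uM M u t (lm M x) = lm M (u t x) := k1
      rw [k2, ← lm_apply, hM.lm_lm]
    rw [e1]
    have k3 : |∑ k, M i k * uM M u t (lm M x) k| ≤ ∑ k, |M i k| * |B| := by
      refine (Finset.abs_sum_le_sum_abs _ _).trans (Finset.sum_le_sum fun k _ => ?_)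
      rw [abs_mul]
      have := (hB t ht (lm M x) k).trans (le_abs_self B)
      gcongr
    refine k3.trans ?_
    exact single1 (F := fun i => ∑ k, |M i k| * |B|)
      (fun i => Finset.sum_nonneg fun k _ => by positivity) i
  have ht01 : Tri 0 1 2 := ⟨by decide, by decide, by decide⟩
  rcases hαβ with h4 | ⟨h5, h4, δ, hδ, hδe⟩
  · have hab : 4 * α' + 3 * b ≤ 1 := by
      apply conv 4 3 1 (by norm_num) (by norm_num) (by norm_num)
      simpa using h4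
    have hb3 : b ≤ 1 / 3 := by linarith
    have h1b : 0 < 1 - b := by linarith
    obtain ⟨σ, hσ⟩ : ∃ σ, σ = (1 - b)⁻¹ := ⟨_, rfl⟩
    have hσ0 : 0 < σ := by rw [hσ]; positivity
    have hσb : σ * (1 - b) = 1 := by rw [hσ]; exact inv_mul_cancel₀ h1b.ne'
    have hσ1 : 1 ≤ σ := by nlinarith
    have hσ2 : σ ≤ 3 / 2 := by nlinarith
    obtain ⟨G, hG⟩ := time_off (a₀ := a₀) (T := T) hbdef hα' hα0 hab hσ hg'
    obtain ⟨K₁, ψ, hps⟩ := hr.PS_off ht01 (σ := σ) (E := E) (G := G) h3 hE0 hσ1 hσ2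
      (g := fun τ => |g τ|) (e := fun τ => lm M (e τ))
      (fun τ hτ => by rw [hM.sum_sq]; exact he τ (hsub hτ))
      (fun τ hτ => ⟨abs_nonneg _, space_holder (hr.cw_HF ⟨h3.trans hτ.1, hτ.2⟩ 2) (lm M (e τ))
        hbdef hβ0 (by linarith) hσ (abs_nonneg _) hE0 (hbb τ hτ) (hEn τ hτ)⟩) hG
    exact fin K₁ ψ hps
  · have hab : 8 * α' + 6 * b ≤ 3 := by
      apply conv 8 6 3 (by norm_num) (by norm_num) (by norm_num)
      simpa using h4
    have hb3 : b < 1 / 2 := by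
      have k1 : β⁻¹ < 2⁻¹ := ENNReal.inv_lt_inv.2 h5
      rw [hβi] at k1
      have k2 : (2 : ℝ≥0∞)⁻¹ = ENNReal.ofReal (1 / 2) := by
        rw [one_div, ENNReal.ofReal_inv_of_pos (by norm_num)]
        norm_num
      rw [k2] at k1
      exact (ENNReal.ofReal_lt_ofReal_iff (by norm_num)).1 k1
    have h1b : 0 < 1 - b := by linarith
    obtain ⟨σ, hσ⟩ : ∃ σ, σ = (1 - b)⁻¹ := ⟨_, rfl⟩
    have hσ0 : 0 < σ := by rw [hσ]; positivity
    have hσb : σ * (1 - b) = 1 := by rw [hσ]; exact inv_mul_cancel₀ h1b.ne'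
    have hσ1 : 1 ≤ σ := by nlinarith
    have hσ2 : σ < 2 := by nlinarith
    obtain ⟨G, hG⟩ := time_obl (a₀ := a₀) (T := T) hbdef hα' hα0 hab hb3 hσ hg'
    obtain ⟨K₁, ψ, hps⟩ := hr.PS_obl ht01 (σ := σ) (E := E) (G := G) (δ₀ := δ) h3 hE0 hσ1 hσ2 hδ
      (g := fun τ => |g τ|) (e := fun τ => lm M (e τ))
      (fun τ hτ => by
        have k1 : lm M (e τ) 2 = ∑ i, e τ i * f i := by
          rw [lm_apply]
          apply Finset.sum_congr rfl
          intro j _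
          rw [hM.sy 2 j, hMf, mul_comm]
        rw [k1]
        exact hδe τ (hsub hτ))
      (fun τ hτ => ⟨abs_nonneg _, space_holder (hr.cw_HF ⟨h3.trans hτ.1, hτ.2⟩ 2) (lm M (e τ))
        hbdef hβ0 (by linarith) hσ (abs_nonneg _) hE0 (hbb τ hτ) (hEn τ hτ)⟩) hG
    exact fin K₁ ψ hps

end

end Pool.Agent.H305.OS
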