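import Pool.Agent.H305.OS.Diss

/-!
The cubic terms at a fixed time.
-/

set_option autoImplicit false

open MeasureTheory Set Metric Filter Topology
open scoped ContDiff ENNReal

namespace Pool.Agent.H305.OS

open H459R3.NS W221.NS Pool.Agent.V1183.PM
open Pool.Agent.W583.MD (sm_pd pd_mul')
open Pool.Agent.W22.ME.TD (pd_comm)
open Pool.Agent.H305.TI (it it_nil it_cons it_sm)


lemma young1 {ν r : ℝ} (hν : 0 < ν) (hr : 2 < r) : ∃ K : ℝ, 0 ≤ K ∧ ∀ U q : ℝ, 0 ≤ U → 0 ≤ q →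
    √(U * q ^ ((r + 1) / r)) ≤ ν * q + K * U ^ (r / (r - 1)) := by
  obtain ⟨p1, hp1⟩ : ∃ p1, p1 = 2 * r / (r + 1) := ⟨_, rfl⟩
  obtain ⟨q1, hq1⟩ : ∃ q1, q1 = 2 * r / (r - 1) := ⟨_, rfl⟩
  have h1 : 0 < r := by linarith
  have h2 : 0 < r + 1 := by linarith
  have h3 : 0 < r - 1 := by linarith
  have hp1p : 0 < p1 := by rw [hp1]; positivity
  have hq1p : 0 < q1 := by rw [hq1]; positivity
  have hp11 : 1 < p1 := by
    rw [hp1, lt_div_iff₀ h2]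
    linarith
  have hq11 : 1 < q1 := by
    rw [hq1, lt_div_iff₀ h3]
    linarith
  have hc : p1.HolderConjugate q1 := by
    rw [Real.holderConjugate_iff]
    refine ⟨hp11, ?_⟩
    rw [hp1, hq1]
    field_simp
    ring
  refine ⟨(ν ^ (-(1 / p1))) ^ q1, by positivity, ?_⟩
  intro U q hU hq
  have e1 : √(U * q ^ ((r + 1) / r)) = (ν * q) ^ (1 / p1) * (ν ^ (-(1 / p1)) * U ^ (1 / 2 : ℝ)) := by
    rw [Real.sqrt_mul hU, Real.sqrt_eq_rpow, Real.sqrt_eq_rpow, ← Real.rpow_mul hq,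
      Real.mul_rpow hν.le hq]
    have e2 : (r + 1) / r * (1 / 2) = 1 / p1 := by
      rw [hp1]
      field_simp
    have e3 : ν ^ (1 / p1) * ν ^ (-(1 / p1)) = 1 := by
      rw [← Real.rpow_add hν]
      simp
    rw [e2]
    calc U ^ (1 / 2 : ℝ) * q ^ (1 / p1) = (ν ^ (1 / p1) * ν ^ (-(1 / p1)))
          * (U ^ (1 / 2 : ℝ) * q ^ (1 / p1)) := by rw [e3, one_mul]
      _ = _ := by ring
  rw [e1]
  refine (Real.young_inequality_of_nonneg (by positivity) (by positivity) hc).trans ?_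
  have e2 : ((ν * q) ^ (1 / p1)) ^ p1 = ν * q := by
    rw [← Real.rpow_mul (by positivity)]
    rw [one_div_mul_cancel hp1p.ne', Real.rpow_one]
  have e3 : (ν ^ (-(1 / p1)) * U ^ (1 / 2 : ℝ)) ^ q1 = (ν ^ (-(1 / p1))) ^ q1 * U ^ (r / (r - 1)) := by
    rw [Real.mul_rpow (by positivity) (by positivity), ← Real.rpow_mul hU]
    congr 2
    rw [hq1]
    field_simp
  rw [e2, e3]
  have k1 : ν * q / p1 ≤ ν * q := div_le_self (by positivity) hp11.le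
  have k2 : (ν ^ (-(1 / p1))) ^ q1 * U ^ (r / (r - 1)) / q1
      ≤ (ν ^ (-(1 / p1))) ^ q1 * U ^ (r / (r - 1)) := div_le_self (by positivity) hq11.le
  linarith

/-- `‖∂ₘ w‖²` -/
noncomputable def n1 (w : Fin 3 → V → ℝ) (m : Fin 3) : ℝ := ∑ i, ip (H459R3.NS.pd m (w i)) (H459R3.NS.pd m (w i))

/-- `‖∂ₗ ∂ₘ w‖²` -/
noncomputable def n2 (w : Fin 3 → V → ℝ) (m l : Fin 3) : ℝ :=
  ∑ i, ip (H459R3.NS.pd l (H459R3.NS.pd m (w i))) (H459R3.NS.pd l (H459R3.NS.pd m (w i)))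

/-- `‖∇ w‖²` -/
noncomputable def N2 (w : Fin 3 → V → ℝ) : ℝ := ∑ m, n1 w m

/-- `‖∇ₕ ∇ w‖²` -/
noncomputable def Q2 (w : Fin 3 → V → ℝ) (a b : Fin 3) : ℝ := ∑ l, n2 w a l + ∑ l, n2 w b l

/-- `‖∇² w‖²` -/
noncomputable def D2 (w : Fin 3 → V → ℝ) : ℝ := ∑ m, ∑ l, n2 w m l

section
variable {w : Fin 3 → V → ℝ} {a b c : Fin 3}

lemma n1_nonneg (w : Fin 3 → V → ℝ) (m : Fin 3) : 0 ≤ n1 w m :=
  Finset.sum_nonneg fun _ _ => ip_self_nonneg _

lemma n2_nonneg (w : Fin 3 → V → ℝ) (m l : Fin 3) : 0 ≤ n2 w m l :=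
  Finset.sum_nonneg fun _ _ => ip_self_nonneg _

lemma N2_nonneg (w : Fin 3 → V → ℝ) : 0 ≤ N2 w := Finset.sum_nonneg fun _ _ => n1_nonneg _ _

lemma D2_nonneg (w : Fin 3 → V → ℝ) : 0 ≤ D2 w :=
  Finset.sum_nonneg fun _ _ => Finset.sum_nonneg fun _ _ => n2_nonneg _ _ _

lemma Q2_nonneg (w : Fin 3 → V → ℝ) (a b : Fin 3) : 0 ≤ Q2 w a b :=
  add_nonneg (Finset.sum_nonneg fun _ _ => n2_nonneg _ _ _)
    (Finset.sum_nonneg fun _ _ => n2_nonneg _ _ _)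

lemma ip_le_n1 (w : Fin 3 → V → ℝ) (m i : Fin 3) : ip (H459R3.NS.pd m (w i)) (H459R3.NS.pd m (w i)) ≤ n1 w m :=
  Finset.single_le_sum (f := fun i => ip (H459R3.NS.pd m (w i)) (H459R3.NS.pd m (w i)))
    (fun _ _ => ip_self_nonneg _) (Finset.mem_univ i)

lemma n1_le_N2 (w : Fin 3 → V → ℝ) (m : Fin 3) : n1 w m ≤ N2 w :=
  Finset.single_le_sum (f := fun m => n1 w m) (fun _ _ => n1_nonneg _ _) (Finset.mem_univ m)

lemma ip_le_n2 (w : Fin 3 → V → ℝ) (m l i : Fin 3) :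
    ip (H459R3.NS.pd l (H459R3.NS.pd m (w i))) (H459R3.NS.pd l (H459R3.NS.pd m (w i))) ≤ n2 w m l :=
  Finset.single_le_sum (f := fun i => ip (H459R3.NS.pd l (H459R3.NS.pd m (w i))) (H459R3.NS.pd l (H459R3.NS.pd m (w i))))
    (fun _ _ => ip_self_nonneg _) (Finset.mem_univ i)

lemma n2_le_Qa (w : Fin 3 → V → ℝ) (a b l : Fin 3) : n2 w a l ≤ Q2 w a b := by
  have h1 := Finset.single_le_sum (f := fun l => n2 w a l) (fun _ _ => n2_nonneg _ _ _)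
    (Finset.mem_univ l)
  have h2 : 0 ≤ ∑ l, n2 w b l := Finset.sum_nonneg fun _ _ => n2_nonneg _ _ _
  unfold Q2
  linarith

lemma n2_le_Qb (w : Fin 3 → V → ℝ) (a b l : Fin 3) : n2 w b l ≤ Q2 w a b := by
  have h1 := Finset.single_le_sum (f := fun l => n2 w b l) (fun _ _ => n2_nonneg _ _ _)
    (Finset.mem_univ l)
  have h2 : 0 ≤ ∑ l, n2 w a l := Finset.sum_nonneg fun _ _ => n2_nonneg _ _ _
  unfold Q2
  linarith

lemma n2_le_D (w : Fin 3 → V → ℝ) (m l : Fin 3) : n2 w m l ≤ D2 w := by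
  have h1 := Finset.single_le_sum (f := fun l => n2 w m l) (fun _ _ => n2_nonneg _ _ _)
    (Finset.mem_univ l)
  have h2 := Finset.single_le_sum (f := fun m => ∑ l, n2 w m l)
    (fun _ _ => Finset.sum_nonneg fun _ _ => n2_nonneg _ _ _) (Finset.mem_univ m)
  unfold D2
  linarith

/-- Horizontal second derivatives. -/
lemma hor_Q (hw : ∀ i, HF (w i)) {m : Fin 3} (hm : m = a ∨ m = b) (i j : Fin 3) :
    ip (H459R3.NS.pd m (H459R3.NS.pd j (w i))) (H459R3.NS.pd m (H459R3.NS.pd j (w i))) ≤ Q2 w a b := by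
  rw [pd_comm (hw i).sm m j]
  refine (ip_le_n2 w m j i).trans ?_
  rcases hm with h | h
  · rw [h]; exact n2_le_Qa w a b j
  · rw [h]; exact n2_le_Qb w a b j

lemma all_D (w : Fin 3 → V → ℝ) (m i j : Fin 3) :
    ip (H459R3.NS.pd m (H459R3.NS.pd j (w i))) (H459R3.NS.pd m (H459R3.NS.pd j (w i))) ≤ D2 w :=
  (ip_le_n2 w j m i).trans (n2_le_D w j m)

lemma sqi_le_of {f : V → ℝ} (hf : HF f) {A : ℝ} (h : ip f f ≤ A) : sqi f ≤ ENNReal.ofReal A := by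
  rw [← ip_ofReal hf]
  exact ENNReal.ofReal_le_ofReal h

lemma exists_tri : ∀ j₀ c : Fin 3, ∃ a₀ b₀ : Fin 3, (j₀ ≠ a₀ ∧ j₀ ≠ b₀ ∧ a₀ ≠ b₀) ∧ a₀ ≠ c := by
  decide

/-- The horizontal cubic term. -/
lemma fixed1 {σ ν : ℝ} (h1 : 1 ≤ σ) (h2 : σ ≤ 3 / 2) (hν : 0 < ν) : ∃ C : ℝ, 0 ≤ C ∧
    ∀ (w : Fin 3 → V → ℝ) (j₀ a b c : Fin 3) (x : ℝ), (∀ i, HF (w i)) →
      (∀ x, ∑ i, H459R3.NS.pd i (w i) x = 0) → Tri a b c → 0 ≤ x →
      ∫⁻ y, ENNReal.ofReal (|w c y| ^ (2 / σ) * max (-(H459R3.NS.pd j₀ (w c) y)) 0) ≤ ENNReal.ofReal x →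
      2 * |RR w a + RR w b| ≤ ν * Q2 w a b
        + C * (x ^ σ * (N2 w ^ ((2 - σ) / 2) * D2 w ^ (σ / 2))) := by
  have hσ : 0 < σ := by linarith
  obtain ⟨r, hr⟩ : ∃ r, r = 1 + 2 / σ := ⟨_, rfl⟩
  have hrm : r - 1 = 2 / σ := by rw [hr]; ring
  have hr2 : 2 < r := by
    have : 1 < 2 / σ := by
      rw [lt_div_iff₀ hσ]
      linarith
    linarith
  have hr0 : 0 < r := by linarith
  have hr1 : 0 < r - 1 := by linarith
  have hr3 : 0 < 1 - 2 / r := by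
    rw [sub_pos, div_lt_one hr0]
    exact hr2
  obtain ⟨C, hC, hT⟩ := tri_gen hr2
  obtain ⟨K, hK, hY⟩ := young1 hν hr2
  refine ⟨K * (64 ^ 2 * C) ^ (r / (r - 1)), by positivity, ?_⟩
  intro w j₀ a b c x hw hdiv ht hx hxi
  obtain ⟨a₀, b₀, ht₀, hac⟩ : ∃ a₀ b₀ : Fin 3, Tri j₀ a₀ b₀ ∧ a₀ ≠ c := exists_tri j₀ c
  have ha₀ : a₀ = a ∨ a₀ = b := by
    rcases ht.cases a₀ with h | h | h
    · exact Or.inl h
    · exact Or.inr h
    · exact absurd h hac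
  have hN := N2_nonneg w
  have hD := D2_nonneg w
  have hQ := Q2_nonneg w a b
  obtain ⟨A, hA⟩ : ∃ A, A = x ^ (2 / r) * (N2 w ^ (1 - 2 / r) * D2 w ^ (1 / r)) := ⟨_, rfl⟩
  have hA0 : 0 ≤ A := by rw [hA]; positivity
  have hΛ : ∀ i j, ip (fun x => w c x * H459R3.NS.pd j (w i) x) (fun x => w c x * H459R3.NS.pd j (w i) x)
      ≤ C * A * Q2 w a b ^ (1 / r) := by
    intro i j
    apply ip_le ((hw c).mul ((hw i).pd j)) (by positivity)
    have h3 := hT (H459R3.NS.pd j (w i)) (w c) j₀ a₀ b₀ ((hw i).pd j) (hw c) ht₀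
    rw [hrm] at h3
    have e1 : sqi (fun x => w c x * H459R3.NS.pd j (w i) x)
        = ∫⁻ x, ENNReal.ofReal (w c x ^ 2 * H459R3.NS.pd j (w i) x ^ 2) := by
      unfold sqi
      simp only [mul_pow]
    rw [e1]
    refine h3.trans ?_
    have s1 : sqi (H459R3.NS.pd j (w i)) ≤ ENNReal.ofReal (N2 w) :=
      sqi_le_of ((hw i).pd j) ((ip_le_n1 w j i).trans (n1_le_N2 w j))
    have s2 : sqi (H459R3.NS.pd a₀ (H459R3.NS.pd j (w i))) ≤ ENNReal.ofReal (Q2 w a b) :=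
      sqi_le_of (((hw i).pd j).pd a₀) (hor_Q hw ha₀ i j)
    have s3 : sqi (H459R3.NS.pd b₀ (H459R3.NS.pd j (w i))) ≤ ENNReal.ofReal (D2 w) :=
      sqi_le_of (((hw i).pd j).pd b₀) (all_D w b₀ i j)
    calc ENNReal.ofReal C * (∫⁻ x, ENNReal.ofReal (|w c x| ^ (2 / σ) * max (-(H459R3.NS.pd j₀ (w c) x)) 0))
          ^ (2 / r) * (sqi (H459R3.NS.pd j (w i)) ^ (1 - 2 / r) *
            (sqi (H459R3.NS.pd a₀ (H459R3.NS.pd j (w i))) * sqi (H459R3.NS.pd b₀ (H459R3.NS.pd j (w i)))) ^ (1 / r))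
        ≤ ENNReal.ofReal C * (ENNReal.ofReal x) ^ (2 / r) * ((ENNReal.ofReal (N2 w)) ^ (1 - 2 / r) *
            (ENNReal.ofReal (Q2 w a b) * ENNReal.ofReal (D2 w)) ^ (1 / r)) := by gcongr
      _ = ENNReal.ofReal (C * A * Q2 w a b ^ (1 / r)) := by
          rw [← ENNReal.ofReal_mul hQ, ENNReal.ofReal_rpow_of_nonneg hx (by positivity),
            ENNReal.ofReal_rpow_of_nonneg hN hr3.le,
            ENNReal.ofReal_rpow_of_nonneg (by positivity) (by positivity),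
            ← ENNReal.ofReal_mul (by positivity), ← ENNReal.ofReal_mul (by positivity),
            ← ENNReal.ofReal_mul (by positivity)]
          congr 1
          rw [Real.mul_rpow hQ hD, hA]
          ring
  have hk := kz hw hdiv ht (Λ := √(C * A * Q2 w a b ^ (1 / r))) (Q := √(Q2 w a b))
    (Real.sqrt_nonneg _) (Real.sqrt_nonneg _)
    (fun i j => by rw [Real.sq_sqrt (by positivity)]; exact hΛ i j)
    (fun i j => by rw [Real.sq_sqrt hQ]; exact hor_Q hw (Or.inl rfl) i j)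
    (fun i j => by rw [Real.sq_sqrt hQ]; exact hor_Q hw (Or.inr rfl) i j)
  have e2 : 64 * (√(C * A * Q2 w a b ^ (1 / r)) * √(Q2 w a b))
      = √(64 ^ 2 * C * A * Q2 w a b ^ ((r + 1) / r)) := by
    rw [← Real.sqrt_mul (by positivity)]
    have e3 : 64 ^ 2 * C * A * Q2 w a b ^ ((r + 1) / r)
        = 64 ^ 2 * (C * A * Q2 w a b ^ (1 / r) * Q2 w a b) := by
      have : Q2 w a b ^ ((r + 1) / r) = Q2 w a b ^ (1 / r) * Q2 w a b := by
        rcases eq_or_lt_of_le hQ with h | h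
        · rw [← h, Real.zero_rpow (by positivity), mul_zero]
        · nth_rewrite 3 [← Real.rpow_one (Q2 w a b)]
          rw [← Real.rpow_add h]
          congr 1
          field_simp
          ring
      rw [this]
      ring
    rw [e3, Real.sqrt_mul (by norm_num : (0 : ℝ) ≤ 64 ^ 2), Real.sqrt_sq (by norm_num : (0 : ℝ) ≤ 64)]
  have hY' := hY (64 ^ 2 * C * A) (Q2 w a b) (by positivity) hQ
  have e4 : (64 ^ 2 * C * A) ^ (r / (r - 1)) = (64 ^ 2 * C) ^ (r / (r - 1))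
      * (x ^ σ * (N2 w ^ ((2 - σ) / 2) * D2 w ^ (σ / 2))) := by
    have m1 : 0 ≤ x ^ (2 / r) := by positivity
    have m2 : 0 ≤ N2 w ^ (1 - 2 / r) := by positivity
    have m3 : 0 ≤ D2 w ^ (1 / r) := by positivity
    rw [Real.mul_rpow (by positivity) hA0, hA, Real.mul_rpow m1 (mul_nonneg m2 m3),
      Real.mul_rpow m2 m3, ← Real.rpow_mul hx, ← Real.rpow_mul hN, ← Real.rpow_mul hD]
    have q1 : 2 / r * (r / (r - 1)) = σ := by
      rw [hrm]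
      field_simp
    have q2 : (1 - 2 / r) * (r / (r - 1)) = (2 - σ) / 2 := by
      have : (1 - 2 / r) * (r / (r - 1)) = (r - 1 - 1) / (r - 1) := by
        field_simp
        ring
      rw [this, hrm]
      field_simp
    have q3 : 1 / r * (r / (r - 1)) = σ / 2 := by
      have : 1 / r * (r / (r - 1)) = 1 / (r - 1) := by field_simp
      rw [this, hrm]
      field_simp
    rw [q1, q2, q3]
  rw [e4] at hY'
  calc 2 * |RR w a + RR w b| ≤ 2 * (32 * (√(C * A * Q2 w a b ^ (1 / r)) * √(Q2 w a b))) := by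
        linarith
    _ = 64 * (√(C * A * Q2 w a b ^ (1 / r)) * √(Q2 w a b)) := by ring
    _ ≤ _ := by
        rw [e2]
        refine hY'.trans (le_of_eq ?_)
        ring

/-- The full cubic term. -/
lemma fixed2 (hw : ∀ i, HF (w i)) (hdiv : ∀ x, ∑ i, H459R3.NS.pd i (w i) x = 0) (ht : Tri a b c) :
    2 * |RR w a + RR w b + RR w c| ≤ 240 * ((n1 w a + n1 w b) ^ (1 / 2 : ℝ)
      * (N2 w ^ (1 / 4 : ℝ) * (Q2 w a b ^ (1 / 2 : ℝ) * D2 w ^ (1 / 4 : ℝ)))) := by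
  have hN := N2_nonneg w
  have hD := D2_nonneg w
  have hQ := Q2_nonneg w a b
  have hn := n1_nonneg w a
  have hn' := n1_nonneg w b
  obtain ⟨Θ, hΘ⟩ : ∃ Θ, Θ = 4 * (N2 w ^ (1 / 4 : ℝ) * (Q2 w a b ^ (1 / 2 : ℝ) * D2 w ^ (1 / 4 : ℝ))) :=
    ⟨_, rfl⟩
  have hΘ0 : 0 ≤ Θ := by rw [hΘ]; positivity
  have e4 : ∀ y : ℝ, 0 ≤ y → (y ^ (1 / 4 : ℝ)) ^ 4 = y := by
    intro y hy
    rw [← Real.rpow_natCast, ← Real.rpow_mul hy]
    norm_num
  have e2 : ∀ y : ℝ, 0 ≤ y → (y ^ (1 / 2 : ℝ)) ^ 2 = y := by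
    intro y hy
    rw [← Real.rpow_natCast, ← Real.rpow_mul hy]
    norm_num
  have hΘ4 : Θ ^ 4 = 256 * (N2 w * (Q2 w a b * Q2 w a b * D2 w)) := by
    rw [hΘ]
    have e5 : (Q2 w a b ^ (1 / 2 : ℝ)) ^ 4 = Q2 w a b * Q2 w a b := by
      calc (Q2 w a b ^ (1 / 2 : ℝ)) ^ 4 = ((Q2 w a b ^ (1 / 2 : ℝ)) ^ 2) ^ 2 := by ring
        _ = _ := by rw [e2 _ hQ]; ring
    calc (4 * (N2 w ^ (1 / 4 : ℝ) * (Q2 w a b ^ (1 / 2 : ℝ) * D2 w ^ (1 / 4 : ℝ)))) ^ 4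
        = 256 * ((N2 w ^ (1 / 4 : ℝ)) ^ 4 * ((Q2 w a b ^ (1 / 2 : ℝ)) ^ 4
          * (D2 w ^ (1 / 4 : ℝ)) ^ 4)) := by ring
      _ = _ := by rw [e4 _ hN, e4 _ hD, e5]
  have h4 : ∀ i j, ip (fun x => H459R3.NS.pd j (w i) x * H459R3.NS.pd j (w i) x) (fun x => H459R3.NS.pd j (w i) x * H459R3.NS.pd j (w i) x)
      ≤ Θ ^ 2 := by
    intro i j
    have hf := (hw i).pd j
    have h3 := hf.lady ht
    have e1 : ∫⁻ x, ENNReal.ofReal (H459R3.NS.pd j (w i) x ^ 2 * H459R3.NS.pd j (w i) x ^ 2)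
        = ENNReal.ofReal (ip (fun x => H459R3.NS.pd j (w i) x * H459R3.NS.pd j (w i) x)
          (fun x => H459R3.NS.pd j (w i) x * H459R3.NS.pd j (w i) x)) := by
      rw [ip_ofReal (hf.mul hf)]
      unfold sqi
      congr 1
      funext x
      congr 1
      ring
    rw [e1] at h3
    have s1 : sqi (H459R3.NS.pd j (w i)) ≤ ENNReal.ofReal (N2 w) :=
      sqi_le_of hf ((ip_le_n1 w j i).trans (n1_le_N2 w j))
    have s2 : sqi (H459R3.NS.pd a (H459R3.NS.pd j (w i))) ≤ ENNReal.ofReal (Q2 w a b) :=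
      sqi_le_of (hf.pd a) (hor_Q hw (Or.inl rfl) i j)
    have s3 : sqi (H459R3.NS.pd b (H459R3.NS.pd j (w i))) ≤ ENNReal.ofReal (Q2 w a b) :=
      sqi_le_of (hf.pd b) (hor_Q hw (Or.inr rfl) i j)
    have s4 : sqi (H459R3.NS.pd c (H459R3.NS.pd j (w i))) ≤ ENNReal.ofReal (D2 w) :=
      sqi_le_of (hf.pd c) (all_D w c i j)
    have h5 : ENNReal.ofReal (ip (fun x => H459R3.NS.pd j (w i) x * H459R3.NS.pd j (w i) x)
          (fun x => H459R3.NS.pd j (w i) x * H459R3.NS.pd j (w i) x)) ^ 2 ≤ ENNReal.ofReal ((Θ ^ 2) ^ 2) := by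
      calc _ ≤ 144 * (sqi (H459R3.NS.pd j (w i)) * (sqi (H459R3.NS.pd a (H459R3.NS.pd j (w i))) * sqi (H459R3.NS.pd b (H459R3.NS.pd j (w i)))
            * sqi (H459R3.NS.pd c (H459R3.NS.pd j (w i))))) := h3
        _ ≤ 144 * (ENNReal.ofReal (N2 w) * (ENNReal.ofReal (Q2 w a b) * ENNReal.ofReal (Q2 w a b)
            * ENNReal.ofReal (D2 w))) := by gcongr
        _ = ENNReal.ofReal (144 * (N2 w * (Q2 w a b * Q2 w a b * D2 w))) := by
            rw [ENNReal.ofReal_mul (by norm_num), ENNReal.ofReal_mul hN,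
              ENNReal.ofReal_mul (by positivity), ENNReal.ofReal_mul hQ]
            norm_num
        _ ≤ _ := by
            apply ENNReal.ofReal_le_ofReal
            have : (Θ ^ 2) ^ 2 = Θ ^ 4 := by ring
            rw [this, hΘ4]
            have : 0 ≤ N2 w * (Q2 w a b * Q2 w a b * D2 w) := by positivity
            linarith
    rw [← ENNReal.ofReal_pow (ip_self_nonneg _)] at h5
    have h6 := (ENNReal.ofReal_le_ofReal_iff (by positivity)).1 h5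
    exact (pow_le_pow_iff_left₀ (ip_self_nonneg _) (by positivity) (by norm_num)).1 h6
  have hk := full hw hdiv ht (Y := (n1 w a + n1 w b) ^ (1 / 2 : ℝ)) (Θ := Θ) (by positivity) hΘ0
    (fun i => by
      rw [e2 _ (by positivity)]
      exact (ip_le_n1 w a i).trans (by linarith))
    (fun i => by
      rw [e2 _ (by positivity)]
      exact (ip_le_n1 w b i).trans (by linarith)) h4
  calc 2 * |RR w a + RR w b + RR w c| ≤ 2 * (30 * ((n1 w a + n1 w b) ^ (1 / 2 : ℝ) * Θ)) := by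
        linarith
    _ = _ := by
        rw [hΘ]
        ring

end

end Pool.Agent.H305.OS
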