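import Pool.Agent.H305.OS.Gen
import Pool.Agent.H305.OS.Diss

/-!
Linear changes of variables.
-/

set_option autoImplicit false

open MeasureTheory Set Metric Filter Topology
open scoped ContDiff ENNReal

namespace Pool.Agent.H305.OS

open H459R3.NS W221.NS Pool.Agent.V1183.PM
open Pool.Agent.W583.MD (sm_pd pd_mul')
open Pool.Agent.W22.ME.TD (pd_comm)
open Pool.Agent.H305.TI (it it_nil it_cons it_sm)


/-- The linear map. -/
noncomputable def lm (M : Matrix (Fin 3) (Fin 3) ℝ) : V →L[ℝ] V :=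
  LinearMap.toContinuousLinearMap (Matrix.toLin' M)

lemma lm_apply (M : Matrix (Fin 3) (Fin 3) ℝ) (x : V) (i : Fin 3) : lm M x i = ∑ j, M i j * x j := by
  show Matrix.toLin' M x i = _
  rw [Matrix.toLin'_apply]
  rfl

lemma fderiv_sum (f : V → ℝ) (y v : V) : fderiv ℝ f y v = ∑ i, v i * H459R3.NS.pd i f y := by
  have h1 : v = ∑ i, v i • (Pi.single i 1 : V) := by
    conv_lhs => rw [← Finset.univ_sum_single v]
    apply Finset.sum_congr rfl
    intro i _
    funext k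
    by_cases h : k = i
    · subst h; simp
    · simp [h]
  conv_lhs => rw [h1]
  rw [map_sum]
  apply Finset.sum_congr rfl
  intro i _
  rw [map_smul]
  rfl

section
variable {f : V → ℝ} {M : Matrix (Fin 3) (Fin 3) ℝ} {I : Set ℝ} {F G : ℝ → V → ℝ}

lemma sm_lin (hf : ContDiff ℝ ∞ f) (M : Matrix (Fin 3) (Fin 3) ℝ) :
    ContDiff ℝ ∞ fun x => f (lm M x) := hf.comp (lm M).contDiff

lemma pd_lin (hf : ContDiff ℝ ∞ f) (M : Matrix (Fin 3) (Fin 3) ℝ) (j : Fin 3) :
    H459R3.NS.pd j (fun x => f (lm M x)) = fun x => ∑ i, M i j * H459R3.NS.pd i f (lm M x) := by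
  funext x
  have h1 : HasFDerivAt (fun x => f (lm M x)) ((fderiv ℝ f (lm M x)).comp (lm M)) x :=
    ((hf.differentiable (by simp)) _).hasFDerivAt.comp x (lm M).hasFDerivAt
  unfold H459R3.NS.pd
  rw [h1.fderiv]
  show fderiv ℝ f (lm M x) (lm M (Pi.single j 1)) = _
  rw [fderiv_sum]
  apply Finset.sum_congr rfl
  intro i _
  have : lm M (Pi.single j 1) i = M i j := by
    rw [lm_apply]
    simp [Pi.single_apply]
  rw [this]
  rfl

lemma lint_lin (hM : M.det ≠ 0) {F : V → ℝ≥0∞} (hF : Measurable F) :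
    ∫⁻ x, F (lm M x) = ENNReal.ofReal |M.det⁻¹| * ∫⁻ x, F x := by
  have h1 := Real.map_matrix_volume_pi_eq_smul_volume_pi hM
  have h2 : ∫⁻ x, F x ∂(Measure.map (⇑(Matrix.toLin' M)) volume) = ∫⁻ x, F (lm M x) :=
    lintegral_map hF (lm M).continuous.measurable
  rw [← h2, h1, lintegral_smul_measure]
  rfl

lemma sqi_lin (hM : M.det ≠ 0) (hf : Measurable f) :
    sqi (fun x => f (lm M x)) = ENNReal.ofReal |M.det⁻¹| * sqi f := by
  unfold sqi
  exact lint_lin hM (F := fun x => ENNReal.ofReal (f x ^ 2)) (by fun_prop)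

lemma BL.add (hF : BL I F) (hG : BL I G) (mF : ∀ t ∈ I, Measurable (F t))
    (mG : ∀ t ∈ I, Measurable (G t)) : BL I (fun t x => F t x + G t x) := by
  obtain ⟨C1, hC1, h1⟩ := hF
  obtain ⟨C2, hC2, h2⟩ := hG
  refine ⟨2 * C1 + 2 * C2, by positivity, fun t ht => ⟨fun x => ?_, ?_⟩⟩
  · have a1 := (h1 t ht).1 x
    have a2 := (h2 t ht).1 x
    exact (abs_add_le _ _).trans (by linarith)
  · refine (sqi_add_le (mF t ht) (mG t ht)).trans ?_
    rw [ENNReal.ofReal_add (by positivity) (by positivity), ENNReal.ofReal_mul (by norm_num),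
      ENNReal.ofReal_mul (by norm_num), ENNReal.ofReal_ofNat]
    exact add_le_add (mul_le_mul_right (h1 t ht).2 _) (mul_le_mul_right (h2 t ht).2 _)

lemma BL.cmul (hF : BL I F) (mF : ∀ t ∈ I, Measurable (F t)) (c : ℝ) :
    BL I (fun t x => c * F t x) := by
  obtain ⟨C1, hC1, h1⟩ := hF
  refine ⟨|c| * C1 + c ^ 2 * C1, by positivity, fun t ht => ⟨fun x => ?_, ?_⟩⟩
  · rw [abs_mul]
    have := mul_le_mul_of_nonneg_left ((h1 t ht).1 x) (abs_nonneg c)
    have : 0 ≤ c ^ 2 * C1 := by positivity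
    linarith
  · rw [sqi_cmul c _ (mF t ht)]
    refine (mul_le_mul_right (h1 t ht).2 _).trans ?_
    rw [← ENNReal.ofReal_mul (sq_nonneg c)]
    apply ENNReal.ofReal_le_ofReal
    have : 0 ≤ |c| * C1 := by positivity
    linarith

lemma UF.lin_aux (hM : M.det ≠ 0) (l : List (Fin 3)) : ∀ {F : ℝ → V → ℝ}, UF I F →
    BL I (fun t => it l (fun x => F t (lm M x))) := by
  induction l with
  | nil =>
    intro F hF
    obtain ⟨C, hC, h1⟩ := hF.bd []
    refine ⟨C + |M.det⁻¹| * C, by positivity, fun t ht => ⟨fun x => ?_, ?_⟩⟩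
    · have a1 := (h1 t ht).1 (lm M x)
      have : 0 ≤ |M.det⁻¹| * C := by positivity
      rw [it_nil] at a1
      show |F t (lm M x)| ≤ _
      linarith
    · have a2 := (h1 t ht).2
      rw [it_nil] at a2
      show sqi (fun x => F t (lm M x)) ≤ _
      rw [sqi_lin hM (hF.sm t ht).continuous.measurable]
      refine (mul_le_mul_right a2 _).trans ?_
      rw [← ENNReal.ofReal_mul (abs_nonneg _)]
      apply ENNReal.ofReal_le_ofReal
      linarith
  | cons j l ih =>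
    intro F hF
    have k := fun i => ih (hF.pd i)
    have sm : ∀ i, ∀ t ∈ I, ContDiff ℝ ∞ (fun x => H459R3.NS.pd i (F t) (lm M x)) := fun i t ht =>
      sm_lin (sm_pd (hF.sm t ht) i) M
    have ms : ∀ i, ∀ t ∈ I, Measurable (it l (fun x => H459R3.NS.pd i (F t) (lm M x))) :=
      fun i t ht => (it_sm l (sm i t ht)).continuous.measurable
    have mc : ∀ i, ∀ t ∈ I, Measurable (fun x => M i j * it l (fun x => H459R3.NS.pd i (F t) (lm M x)) x) :=
      fun i t ht => (ms i t ht).const_mul _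
    have k3 := (((k 0).cmul (ms 0) (M 0 j)).add ((k 1).cmul (ms 1) (M 1 j)) (mc 0) (mc 1)).add
      ((k 2).cmul (ms 2) (M 2 j)) (fun t ht => (mc 0 t ht).add (mc 1 t ht)) (mc 2)
    obtain ⟨C, hC, h1⟩ := k3
    refine ⟨C, hC, fun t ht => ?_⟩
    have e : it (j :: l) (fun x => F t (lm M x)) = fun x =>
        M 0 j * it l (fun x => H459R3.NS.pd 0 (F t) (lm M x)) x
        + M 1 j * it l (fun x => H459R3.NS.pd 1 (F t) (lm M x)) x
        + M 2 j * it l (fun x => H459R3.NS.pd 2 (F t) (lm M x)) x := by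
      rw [it_cons, pd_lin (hF.sm t ht)]
      rw [it_sum l fun i => contDiff_const.mul (sm i t ht)]
      funext x
      rw [Fin.sum_univ_three, it_cmul l _ (sm 0 t ht), it_cmul l _ (sm 1 t ht),
        it_cmul l _ (sm 2 t ht)]
    simp only [e]
    exact h1 t ht

lemma UF.lin (hF : UF I F) (hM : M.det ≠ 0) : UF I (fun t x => F t (lm M x)) :=
  ⟨fun t ht => sm_lin (hF.sm t ht) M, fun l => UF.lin_aux hM l hF⟩

lemma HF.lin (hf : HF f) (hM : M.det ≠ 0) : HF (fun x => f (lm M x)) := UF.lin hf hM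

end

/-- The matrix of the shear. -/
def shr (e : V) (j₀ : Fin 3) : Matrix (Fin 3) (Fin 3) ℝ := fun i k =>
  if k = j₀ then e i else if i = k then 1 else 0

lemma shr_det (e : V) (j₀ : Fin 3) : (shr e j₀).det = e j₀ := by
  rw [Matrix.det_fin_three]
  unfold shr
  fin_cases j₀ <;> simp

/-- The derivative in the direction `e`. -/
noncomputable def De (e : V) (f : V → ℝ) : V → ℝ := fun x => ∑ i, e i * H459R3.NS.pd i f x

lemma pd_shr_j {f : V → ℝ} (hf : ContDiff ℝ ∞ f) (e : V) (j₀ : Fin 3) :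
    H459R3.NS.pd j₀ (fun x => f (lm (shr e j₀) x)) = fun x => De e f (lm (shr e j₀) x) := by
  rw [pd_lin hf]
  funext x
  unfold De shr
  simp

lemma pd_shr_o {f : V → ℝ} (hf : ContDiff ℝ ∞ f) (e : V) {j₀ a : Fin 3} (ha : a ≠ j₀) :
    H459R3.NS.pd a (fun x => f (lm (shr e j₀) x)) = fun x => H459R3.NS.pd a f (lm (shr e j₀) x) := by
  rw [pd_lin hf]
  funext x
  unfold shr
  simp [ha]

/-- The one-sided trilinear inequality in all directions. -/
lemma tri_dir {r : ℝ} (hr : 2 < r) {δ₀ : ℝ} (hδ₀ : 0 < δ₀) : ∃ C : ℝ, 0 ≤ C ∧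
    ∀ (f h : V → ℝ) (e : V) (j a b : Fin 3), HF f → HF h → Tri j a b → δ₀ ≤ |e j| →
      ∫⁻ x, ENNReal.ofReal (h x ^ 2 * f x ^ 2) ≤ ENNReal.ofReal C *
        (∫⁻ x, ENNReal.ofReal (|h x| ^ (r - 1) * max (-(De e h x)) 0)) ^ (2 / r)
          * (sqi f ^ (1 - 2 / r) * (sqi (H459R3.NS.pd a f) * sqi (H459R3.NS.pd b f)) ^ (1 / r)) := by
  obtain ⟨C, hC, h1⟩ := tri_gen hr
  refine ⟨C * (δ₀⁻¹) ^ (2 / r), by positivity, ?_⟩
  intro f h e j a b hf hh ht he
  have hr0 : 0 < r := by linarith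
  have hr3 : 0 < 1 - 2 / r := by
    rw [sub_pos, div_lt_one hr0]
    exact hr
  have hej : e j ≠ 0 := by
    intro h0
    rw [h0, abs_zero] at he
    linarith
  obtain ⟨M, hM⟩ : ∃ M, M = shr e j := ⟨_, rfl⟩
  have hdet : M.det = e j := by rw [hM]; exact shr_det e j
  have hd0 : M.det ≠ 0 := by rw [hdet]; exact hej
  obtain ⟨δ, hδ⟩ : ∃ δ : ℝ, δ = |M.det⁻¹| := ⟨_, rfl⟩
  have hδ0 : 0 < δ := by rw [hδ]; exact abs_pos.2 (inv_ne_zero hd0)
  have hδ3 : δ ≤ δ₀⁻¹ := by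
    rw [hδ, hdet, abs_inv]
    exact inv_anti₀ hδ₀ he
  have k := h1 (fun x => f (lm M x)) (fun x => h (lm M x)) j a b (hf.lin hd0) (hh.lin hd0) ht
  have hfm := hf.sm.continuous.measurable
  have hhm := hh.sm.continuous.measurable
  have hDm : Measurable (De e h) := by
    unfold De
    refine Finset.measurable_sum _ fun i _ => ?_
    exact (hh.pd i).sm.continuous.measurable.const_mul _
  have e1 : H459R3.NS.pd j (fun x => h (lm M x)) = fun x => De e h (lm M x) := by rw [hM]; exact pd_shr_j hh.sm e j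
  have e2 : H459R3.NS.pd a (fun x => f (lm M x)) = fun x => H459R3.NS.pd a f (lm M x) := by
    rw [hM]; exact pd_shr_o hf.sm e ht.1.symm
  have e3 : H459R3.NS.pd b (fun x => f (lm M x)) = fun x => H459R3.NS.pd b f (lm M x) := by
    rw [hM]; exact pd_shr_o hf.sm e ht.2.1.symm
  rw [e1, e2, e3, sqi_lin hd0 hfm, sqi_lin hd0 (hf.pd a).sm.continuous.measurable,
    sqi_lin hd0 (hf.pd b).sm.continuous.measurable,
    lint_lin hd0 (F := fun x => ENNReal.ofReal (h x ^ 2 * f x ^ 2)) (by fun_prop),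
    lint_lin hd0 (F := fun x => ENNReal.ofReal (|h x| ^ (r - 1) * max (-(De e h x)) 0))
      (by fun_prop), ← hδ] at k
  obtain ⟨X, hX⟩ : ∃ X, X = ∫⁻ x, ENNReal.ofReal (|h x| ^ (r - 1) * max (-(De e h x)) 0) := ⟨_, rfl⟩
  obtain ⟨D, hD⟩ : ∃ D, D = ENNReal.ofReal δ := ⟨_, rfl⟩
  rw [← hX, ← hD] at k
  rw [← hX]
  have hD0 : D ≠ 0 := by rw [hD]; exact (ENNReal.ofReal_pos.2 hδ0).ne'
  have hDt : D ≠ (⊤ : ℝ≥0∞) := by rw [hD]; exact ENNReal.ofReal_ne_top
  have k2 : D * ∫⁻ x, ENNReal.ofReal (h x ^ 2 * f x ^ 2) ≤ D * (ENNReal.ofReal C * D ^ (2 / r)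
      * X ^ (2 / r) * (sqi f ^ (1 - 2 / r) * (sqi (H459R3.NS.pd a f) * sqi (H459R3.NS.pd b f)) ^ (1 / r))) := by
    refine k.trans (le_of_eq ?_)
    rw [ENNReal.mul_rpow_of_nonneg _ _ (by positivity), ENNReal.mul_rpow_of_nonneg _ _ hr3.le,
      show D * sqi (H459R3.NS.pd a f) * (D * sqi (H459R3.NS.pd b f)) = (D * D) * (sqi (H459R3.NS.pd a f) * sqi (H459R3.NS.pd b f)) by ring,
      ENNReal.mul_rpow_of_nonneg _ _ (by positivity : 0 ≤ 1 / r),
      ENNReal.mul_rpow_of_nonneg D D (by positivity : 0 ≤ 1 / r)]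
    have e4 : D ^ (1 - 2 / r) * (D ^ (1 / r) * D ^ (1 / r)) = D := by
      rw [← ENNReal.rpow_add_of_nonneg _ _ (by positivity) (by positivity),
        ← ENNReal.rpow_add_of_nonneg _ _ hr3.le (by positivity)]
      have : 1 - 2 / r + (1 / r + 1 / r) = 1 := by ring
      rw [this, ENNReal.rpow_one]
    calc ENNReal.ofReal C * (D ^ (2 / r) * X ^ (2 / r)) * (D ^ (1 - 2 / r) * sqi f ^ (1 - 2 / r) *
          (D ^ (1 / r) * D ^ (1 / r) * (sqi (H459R3.NS.pd a f) * sqi (H459R3.NS.pd b f)) ^ (1 / r)))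
        = (D ^ (1 - 2 / r) * (D ^ (1 / r) * D ^ (1 / r))) * (ENNReal.ofReal C * D ^ (2 / r)
      * X ^ (2 / r) * (sqi f ^ (1 - 2 / r) * (sqi (H459R3.NS.pd a f) * sqi (H459R3.NS.pd b f)) ^ (1 / r))) := by ring
      _ = _ := by rw [e4]
  have k3 := (ENNReal.mul_le_mul_iff_right hD0 hDt).1 k2
  refine k3.trans ?_
  rw [ENNReal.ofReal_mul hC]
  have k4 : D ^ (2 / r) ≤ ENNReal.ofReal (δ₀⁻¹ ^ (2 / r)) := by
    rw [← ENNReal.ofReal_rpow_of_nonneg (by positivity) (by positivity), hD]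
    gcongr
  gcongr

end Pool.Agent.H305.OS
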