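import Pool.Agent.H305.OS.Fix
import Pool.Agent.H305.OS.Lin

/-!
The cubic terms at a fixed time, for all directions.
-/

set_option autoImplicit false

open MeasureTheory Set Metric Filter Topology
open scoped ContDiff ENNReal

namespace Pool.Agent.H305.OS

open H459R3.NS W221.NS Pool.Agent.V1183.PM
open Pool.Agent.W583.MD (sm_pd pd_mul')
open Pool.Agent.W22.ME.TD (pd_comm)
open Pool.Agent.H305.TI (it it_nil it_cons it_sm)


lemma youngk {ν k : ℝ} (hν : 0 < ν) (hk0 : 0 < k) (hk : k < 2) : ∃ K : ℝ, 0 ≤ K ∧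
    ∀ U q : ℝ, 0 ≤ U → 0 ≤ q → √(U * q ^ k) ≤ ν * q + K * U ^ (1 / (2 - k)) := by
  obtain ⟨p1, hp1⟩ : ∃ p1, p1 = 2 / k := ⟨_, rfl⟩
  obtain ⟨q1, hq1⟩ : ∃ q1, q1 = 2 / (2 - k) := ⟨_, rfl⟩
  have h2 : 0 < 2 - k := by linarith
  have hp1p : 0 < p1 := by rw [hp1]; positivity
  have hq1p : 0 < q1 := by rw [hq1]; positivity
  have hp11 : 1 < p1 := by
    rw [hp1, lt_div_iff₀ hk0]
    linarith
  have hq11 : 1 < q1 := by
    rw [hq1, lt_div_iff₀ h2]
    linarith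
  have hc : p1.HolderConjugate q1 := by
    rw [Real.holderConjugate_iff]
    refine ⟨hp11, ?_⟩
    rw [hp1, hq1]
    field_simp
    ring
  refine ⟨(ν ^ (-(1 / p1))) ^ q1, by positivity, ?_⟩
  intro U q hU hq
  have e1 : √(U * q ^ k) = (ν * q) ^ (1 / p1) * (ν ^ (-(1 / p1)) * U ^ (1 / 2 : ℝ)) := by
    rw [Real.sqrt_mul hU, Real.sqrt_eq_rpow, Real.sqrt_eq_rpow, ← Real.rpow_mul hq,
      Real.mul_rpow hν.le hq]
    have e2 : k * (1 / 2) = 1 / p1 := by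
      rw [hp1]
      field_simp
    have e3 : ν ^ (1 / p1) * ν ^ (-(1 / p1)) = 1 := by
      rw [← Real.rpow_add hν]
      simp
    rw [e2]
    calc U ^ (1 / 2 : ℝ) * q ^ (1 / p1) = (ν ^ (1 / p1) * ν ^ (-(1 / p1)))
          * (U ^ (1 / 2 : ℝ) * q ^ (1 / p1)) := by rw [e3, one_mul]
      _ = _ := by ring
  rw [e1]
  refine (Real.young_inequality_of_nonneg (by positivity) (by positivity) hc).trans ?_
  have e2 : ((ν * q) ^ (1 / p1)) ^ p1 = ν * q := by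
    rw [← Real.rpow_mul (by positivity)]
    rw [one_div_mul_cancel hp1p.ne', Real.rpow_one]
  have e3 : (ν ^ (-(1 / p1)) * U ^ (1 / 2 : ℝ)) ^ q1 = (ν ^ (-(1 / p1))) ^ q1 * U ^ (1 / (2 - k)) := by
    rw [Real.mul_rpow (by positivity) (by positivity), ← Real.rpow_mul hU]
    congr 2
    rw [hq1]
    field_simp
  rw [e2, e3]
  have k1 : ν * q / p1 ≤ ν * q := div_le_self (by positivity) hp11.le
  have k2 : (ν ^ (-(1 / p1))) ^ q1 * U ^ (1 / (2 - k)) / q1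
      ≤ (ν ^ (-(1 / p1))) ^ q1 * U ^ (1 / (2 - k)) := div_le_self (by positivity) hq11.le
  linarith

/-- The bound of the horizontal cubic term from the bound of the products. -/
lemma kz_of {w : Fin 3 → V → ℝ} {a b c : Fin 3} (hw : ∀ i, HF (w i))
    (hdiv : ∀ x, ∑ i, H459R3.NS.pd i (w i) x = 0) (ht : Tri a b c) {A k ν K : ℝ} (hA : 0 ≤ A) (hk : 0 < k)
    (hY : ∀ U q : ℝ, 0 ≤ U → 0 ≤ q → √(U * q ^ (1 + k)) ≤ ν * q + K * U ^ (1 / (1 - k)))
    (hΛ : ∀ i j, ip (fun x => w c x * H459R3.NS.pd j (w i) x) (fun x => w c x * H459R3.NS.pd j (w i) x)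
      ≤ A * Q2 w a b ^ k) :
    2 * |RR w a + RR w b| ≤ ν * Q2 w a b + K * (64 ^ 2 * A) ^ (1 / (1 - k)) := by
  have hQ := Q2_nonneg w a b
  have hkz := kz hw hdiv ht (Λ := √(A * Q2 w a b ^ k)) (Q := √(Q2 w a b))
    (Real.sqrt_nonneg _) (Real.sqrt_nonneg _)
    (fun i j => by rw [Real.sq_sqrt (by positivity)]; exact hΛ i j)
    (fun i j => by rw [Real.sq_sqrt hQ]; exact hor_Q hw (Or.inl rfl) i j)
    (fun i j => by rw [Real.sq_sqrt hQ]; exact hor_Q hw (Or.inr rfl) i j)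
  have e2 : 64 * (√(A * Q2 w a b ^ k) * √(Q2 w a b))
      = √(64 ^ 2 * A * Q2 w a b ^ (1 + k)) := by
    rw [← Real.sqrt_mul (by positivity)]
    have e3 : 64 ^ 2 * A * Q2 w a b ^ (1 + k)
        = 64 ^ 2 * (A * Q2 w a b ^ k * Q2 w a b) := by
      have : Q2 w a b ^ (1 + k) = Q2 w a b ^ k * Q2 w a b := by
        rw [Real.rpow_add_of_nonneg hQ (by norm_num) hk.le, Real.rpow_one]
        ring
      rw [this]
      ring
    rw [e3, Real.sqrt_mul (by norm_num : (0 : ℝ) ≤ 64 ^ 2), Real.sqrt_sq (by norm_num : (0 : ℝ) ≤ 64)]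
  calc 2 * |RR w a + RR w b| ≤ 2 * (32 * (√(A * Q2 w a b ^ k) * √(Q2 w a b))) := by
        linarith
    _ = 64 * (√(A * Q2 w a b ^ k) * √(Q2 w a b)) := by ring
    _ ≤ _ := by
        rw [e2]
        exact hY _ _ (by positivity) hQ

lemma exists_dir {e : V} (he : ∑ i, e i ^ 2 = 1) : ∃ j, 1 / 2 ≤ |e j| := by
  by_contra h
  push Not at h
  have h1 : ∀ i, e i ^ 2 ≤ 1 / 4 := by
    intro i
    rw [← sq_abs]
    have h2 := (h i).le
    have h3 := abs_nonneg (e i)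
    nlinarith
  rw [Fin.sum_univ_three] at he
  linarith [h1 0, h1 1, h1 2]

/-- The horizontal cubic term: all directions. -/
lemma fixed_off {σ ν : ℝ} (h1 : 1 ≤ σ) (h2 : σ < 2) (hν : 0 < ν) : ∃ C : ℝ, 0 ≤ C ∧
    ∀ (w : Fin 3 → V → ℝ) (e : V) (a b c : Fin 3) (x : ℝ), (∀ i, HF (w i)) →
      (∀ x, ∑ i, H459R3.NS.pd i (w i) x = 0) → Tri a b c → ∑ i, e i ^ 2 = 1 → 0 ≤ x →
      ∫⁻ y, ENNReal.ofReal (|w c y| ^ (2 / σ) * max (-(De e (w c) y)) 0) ≤ ENNReal.ofReal x →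
      2 * |RR w a + RR w b| ≤ ν * Q2 w a b
        + C * (x ^ σ * (N2 w ^ ((2 - σ) / 2) * D2 w ^ (σ / 2))) := by
  have hσ : 0 < σ := by linarith
  obtain ⟨r, hr⟩ : ∃ r, r = 1 + 2 / σ := ⟨_, rfl⟩
  have hrm : r - 1 = 2 / σ := by rw [hr]; ring
  have hr2 : 2 < r := by
    have : 1 < 2 / σ := by
      rw [lt_div_iff₀ hσ]
      linarith
    linarith
  have hr0 : 0 < r := by linarith
  have hr1 : 0 < r - 1 := by linarith
  have hr3 : 0 < 1 - 2 / r := by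
    rw [sub_pos, div_lt_one hr0]
    exact hr2
  have hr4 : 1 / r < 1 := by
    rw [div_lt_one hr0]
    linarith
  obtain ⟨C, hC, hT⟩ := tri_dir hr2 (δ₀ := 1 / 2) (by norm_num)
  obtain ⟨K, hK, hY⟩ := youngk (k := 1 + 1 / r) hν (by positivity) (by linarith)
  refine ⟨K * (64 ^ 2 * C) ^ (r / (r - 1)), by positivity, ?_⟩
  intro w e a b c x hw hdiv ht he hx hxi
  obtain ⟨j₀, hj₀⟩ := exists_dir he
  obtain ⟨a₀, b₀, ht₀, hac⟩ : ∃ a₀ b₀ : Fin 3, Tri j₀ a₀ b₀ ∧ a₀ ≠ c := exists_tri j₀ c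
  have ha₀ : a₀ = a ∨ a₀ = b := by
    rcases ht.cases a₀ with h | h | h
    · exact Or.inl h
    · exact Or.inr h
    · exact absurd h hac
  have hN := N2_nonneg w
  have hD := D2_nonneg w
  have hQ := Q2_nonneg w a b
  obtain ⟨A, hA⟩ : ∃ A, A = x ^ (2 / r) * (N2 w ^ (1 - 2 / r) * D2 w ^ (1 / r)) := ⟨_, rfl⟩
  have hA0 : 0 ≤ A := by rw [hA]; positivity
  have hΛ : ∀ i j, ip (fun x => w c x * H459R3.NS.pd j (w i) x) (fun x => w c x * H459R3.NS.pd j (w i) x)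
      ≤ C * A * Q2 w a b ^ (1 / r) := by
    intro i j
    apply ip_le ((hw c).mul ((hw i).pd j)) (by positivity)
    have h3 := hT (H459R3.NS.pd j (w i)) (w c) e j₀ a₀ b₀ ((hw i).pd j) (hw c) ht₀ hj₀
    rw [hrm] at h3
    have e1 : sqi (fun x => w c x * H459R3.NS.pd j (w i) x)
        = ∫⁻ x, ENNReal.ofReal (w c x ^ 2 * H459R3.NS.pd j (w i) x ^ 2) := by
      unfold sqi
      simp only [mul_pow]
    rw [e1]
    refine h3.trans ?_
    have s1 : sqi (H459R3.NS.pd j (w i)) ≤ ENNReal.ofReal (N2 w) :=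
      sqi_le_of ((hw i).pd j) ((ip_le_n1 w j i).trans (n1_le_N2 w j))
    have s2 : sqi (H459R3.NS.pd a₀ (H459R3.NS.pd j (w i))) ≤ ENNReal.ofReal (Q2 w a b) :=
      sqi_le_of (((hw i).pd j).pd a₀) (hor_Q hw ha₀ i j)
    have s3 : sqi (H459R3.NS.pd b₀ (H459R3.NS.pd j (w i))) ≤ ENNReal.ofReal (D2 w) :=
      sqi_le_of (((hw i).pd j).pd b₀) (all_D w b₀ i j)
    calc ENNReal.ofReal C * (∫⁻ x, ENNReal.ofReal (|w c x| ^ (2 / σ) * max (-(De e (w c) x)) 0))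
          ^ (2 / r) * (sqi (H459R3.NS.pd j (w i)) ^ (1 - 2 / r) *
            (sqi (H459R3.NS.pd a₀ (H459R3.NS.pd j (w i))) * sqi (H459R3.NS.pd b₀ (H459R3.NS.pd j (w i)))) ^ (1 / r))
        ≤ ENNReal.ofReal C * (ENNReal.ofReal x) ^ (2 / r) * ((ENNReal.ofReal (N2 w)) ^ (1 - 2 / r) *
            (ENNReal.ofReal (Q2 w a b) * ENNReal.ofReal (D2 w)) ^ (1 / r)) := by gcongr
      _ = ENNReal.ofReal (C * A * Q2 w a b ^ (1 / r)) := by
          rw [← ENNReal.ofReal_mul hQ, ENNReal.ofReal_rpow_of_nonneg hx (by positivity),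
            ENNReal.ofReal_rpow_of_nonneg hN hr3.le,
            ENNReal.ofReal_rpow_of_nonneg (by positivity) (by positivity),
            ← ENNReal.ofReal_mul (by positivity), ← ENNReal.ofReal_mul (by positivity),
            ← ENNReal.ofReal_mul (by positivity)]
          congr 1
          rw [Real.mul_rpow hQ hD, hA]
          ring
  have e0 : (2 : ℝ) - (1 + 1 / r) = 1 - 1 / r := by ring
  rw [e0] at hY
  have hk := kz_of hw hdiv ht (A := C * A) (k := 1 / r) (by positivity) (by positivity) hY hΛ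
  refine hk.trans (le_of_eq ?_)
  have e5 : 1 / (1 - 1 / r) = r / (r - 1) := by
    field_simp
  rw [e5]
  have e4 : (64 ^ 2 * (C * A)) ^ (r / (r - 1)) = (64 ^ 2 * C) ^ (r / (r - 1))
      * (x ^ σ * (N2 w ^ ((2 - σ) / 2) * D2 w ^ (σ / 2))) := by
    have m1 : 0 ≤ x ^ (2 / r) := by positivity
    have m2 : 0 ≤ N2 w ^ (1 - 2 / r) := by positivity
    have m3 : 0 ≤ D2 w ^ (1 / r) := by positivity
    rw [← mul_assoc, Real.mul_rpow (by positivity) hA0, hA, Real.mul_rpow m1 (mul_nonneg m2 m3),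
      Real.mul_rpow m2 m3, ← Real.rpow_mul hx, ← Real.rpow_mul hN, ← Real.rpow_mul hD]
    have q1 : 2 / r * (r / (r - 1)) = σ := by
      rw [hrm]
      field_simp
    have q2 : (1 - 2 / r) * (r / (r - 1)) = (2 - σ) / 2 := by
      have : (1 - 2 / r) * (r / (r - 1)) = (r - 1 - 1) / (r - 1) := by
        field_simp
        ring
      rw [this, hrm]
      field_simp
    have q3 : 1 / r * (r / (r - 1)) = σ / 2 := by
      have : 1 / r * (r / (r - 1)) = 1 / (r - 1) := by field_simp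
      rw [this, hrm]
      field_simp
    rw [q1, q2, q3]
  rw [e4]
  ring

/-- The horizontal cubic term: oblique directions. -/
lemma fixed_obl {σ ν δ₀ : ℝ} (h1 : 1 ≤ σ) (h2 : σ < 2) (hν : 0 < ν) (hδ₀ : 0 < δ₀) :
    ∃ C : ℝ, 0 ≤ C ∧
    ∀ (w : Fin 3 → V → ℝ) (e : V) (a b c : Fin 3) (x : ℝ), (∀ i, HF (w i)) →
      (∀ x, ∑ i, H459R3.NS.pd i (w i) x = 0) → Tri a b c → δ₀ ≤ |e c| → 0 ≤ x →
      ∫⁻ y, ENNReal.ofReal (|w c y| ^ (2 / σ) * max (-(De e (w c) y)) 0) ≤ ENNReal.ofReal x →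
      2 * |RR w a + RR w b| ≤ ν * Q2 w a b + C * (x ^ (2 * σ / (2 - σ)) * N2 w) := by
  have hσ : 0 < σ := by linarith
  have hσ2 : 0 < 2 - σ := by linarith
  obtain ⟨r, hr⟩ : ∃ r, r = 1 + 2 / σ := ⟨_, rfl⟩
  have hrm : r - 1 = 2 / σ := by rw [hr]; ring
  have hrn : r - 2 = (2 - σ) / σ := by
    rw [hr]
    field_simp
    ring
  have hr2 : 2 < r := by
    have : 1 < 2 / σ := by
      rw [lt_div_iff₀ hσ]
      linarith
    linarith
  have hr0 : 0 < r := by linarith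
  have hr1 : 0 < r - 2 := by linarith
  have hr3 : 0 < 1 - 2 / r := by
    rw [sub_pos, div_lt_one hr0]
    exact hr2
  obtain ⟨C, hC, hT⟩ := tri_dir hr2 hδ₀
  obtain ⟨K, hK, hY⟩ := youngk (k := 1 + 2 / r) hν (by positivity) (by linarith)
  refine ⟨K * (64 ^ 2 * C) ^ (r / (r - 2)), by positivity, ?_⟩
  intro w e a b c x hw hdiv ht he hx hxi
  have ht₀ : Tri c a b := ⟨ht.2.1.symm, ht.2.2.symm, ht.1⟩
  have hN := N2_nonneg w
  have hQ := Q2_nonneg w a b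
  obtain ⟨A, hA⟩ : ∃ A, A = x ^ (2 / r) * N2 w ^ (1 - 2 / r) := ⟨_, rfl⟩
  have hA0 : 0 ≤ A := by rw [hA]; positivity
  have hΛ : ∀ i j, ip (fun x => w c x * H459R3.NS.pd j (w i) x) (fun x => w c x * H459R3.NS.pd j (w i) x)
      ≤ C * A * Q2 w a b ^ (2 / r) := by
    intro i j
    apply ip_le ((hw c).mul ((hw i).pd j)) (by positivity)
    have h3 := hT (H459R3.NS.pd j (w i)) (w c) e c a b ((hw i).pd j) (hw c) ht₀ he
    rw [hrm] at h3
    have e1 : sqi (fun x => w c x * H459R3.NS.pd j (w i) x)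
        = ∫⁻ x, ENNReal.ofReal (w c x ^ 2 * H459R3.NS.pd j (w i) x ^ 2) := by
      unfold sqi
      simp only [mul_pow]
    rw [e1]
    refine h3.trans ?_
    have s1 : sqi (H459R3.NS.pd j (w i)) ≤ ENNReal.ofReal (N2 w) :=
      sqi_le_of ((hw i).pd j) ((ip_le_n1 w j i).trans (n1_le_N2 w j))
    have s2 : sqi (H459R3.NS.pd a (H459R3.NS.pd j (w i))) ≤ ENNReal.ofReal (Q2 w a b) :=
      sqi_le_of (((hw i).pd j).pd a) (hor_Q hw (Or.inl rfl) i j)
    have s3 : sqi (H459R3.NS.pd b (H459R3.NS.pd j (w i))) ≤ ENNReal.ofReal (Q2 w a b) :=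
      sqi_le_of (((hw i).pd j).pd b) (hor_Q hw (Or.inr rfl) i j)
    calc ENNReal.ofReal C * (∫⁻ x, ENNReal.ofReal (|w c x| ^ (2 / σ) * max (-(De e (w c) x)) 0))
          ^ (2 / r) * (sqi (H459R3.NS.pd j (w i)) ^ (1 - 2 / r) *
            (sqi (H459R3.NS.pd a (H459R3.NS.pd j (w i))) * sqi (H459R3.NS.pd b (H459R3.NS.pd j (w i)))) ^ (1 / r))
        ≤ ENNReal.ofReal C * (ENNReal.ofReal x) ^ (2 / r) * ((ENNReal.ofReal (N2 w)) ^ (1 - 2 / r) *
            (ENNReal.ofReal (Q2 w a b) * ENNReal.ofReal (Q2 w a b)) ^ (1 / r)) := by gcongr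
      _ = ENNReal.ofReal (C * A * Q2 w a b ^ (2 / r)) := by
          rw [← ENNReal.ofReal_mul hQ, ENNReal.ofReal_rpow_of_nonneg hx (by positivity),
            ENNReal.ofReal_rpow_of_nonneg hN hr3.le,
            ENNReal.ofReal_rpow_of_nonneg (by positivity) (by positivity),
            ← ENNReal.ofReal_mul (by positivity), ← ENNReal.ofReal_mul (by positivity),
            ← ENNReal.ofReal_mul (by positivity)]
          congr 1
          have e6 : (Q2 w a b * Q2 w a b) ^ (1 / r) = Q2 w a b ^ (2 / r) := by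
            rw [Real.mul_rpow hQ hQ, ← Real.rpow_add_of_nonneg hQ (by positivity) (by positivity)]
            congr 1
            ring
          rw [e6, hA]
          ring
  have e0 : (2 : ℝ) - (1 + 2 / r) = 1 - 2 / r := by ring
  rw [e0] at hY
  have hk := kz_of hw hdiv ht (A := C * A) (k := 2 / r) (by positivity) (by positivity) hY hΛ
  refine hk.trans (le_of_eq ?_)
  have e5 : 1 / (1 - 2 / r) = r / (r - 2) := by
    field_simp
  rw [e5]
  have e4 : (64 ^ 2 * (C * A)) ^ (r / (r - 2)) = (64 ^ 2 * C) ^ (r / (r - 2))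
      * (x ^ (2 * σ / (2 - σ)) * N2 w) := by
    have m1 : 0 ≤ x ^ (2 / r) := by positivity
    have m2 : 0 ≤ N2 w ^ (1 - 2 / r) := by positivity
    rw [← mul_assoc, Real.mul_rpow (by positivity) hA0, hA, Real.mul_rpow m1 m2,
      ← Real.rpow_mul hx, ← Real.rpow_mul hN]
    have q1 : 2 / r * (r / (r - 2)) = 2 * σ / (2 - σ) := by
      rw [hrn]
      field_simp
    have q2 : (1 - 2 / r) * (r / (r - 2)) = 1 := by
      field_simp
    rw [q1, q2, Real.rpow_one]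
  rw [e4]
  ring

end Pool.Agent.H305.OS
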