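import Pool.Agent.H305.OS.Line

/-!
Iterated integrals.
-/

set_option autoImplicit false

open MeasureTheory Set Metric Filter Topology
open scoped ContDiff ENNReal

namespace Pool.Agent.H305.OS

open H459R3.NS W221.NS Pool.Agent.V1183.PM
open Pool.Agent.W583.MD (sm_pd pd_mul')
open Pool.Agent.H305.TI (it it_nil it_cons it_sm)

/-- The three indices are distinct. -/
def Tri (j a b : Fin 3) : Prop := j ≠ a ∧ j ≠ b ∧ a ≠ b

lemma Tri.cases {j a b : Fin 3} (h : Tri j a b) (i : Fin 3) : i = j ∨ i = a ∨ i = b := by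
  obtain ⟨h1, h2, h3⟩ := h
  revert i j a b
  decide

lemma Tri.sum {j a b : Fin 3} (h : Tri j a b) (F : Fin 3 → ℝ) : ∑ i, F i = F j + F a + F b := by
  obtain ⟨h1, h2, h3⟩ := h
  rw [Fin.sum_univ_three]
  fin_cases j <;> fin_cases a <;> fin_cases b <;> simp at h1 h2 h3 ⊢ <;> ring

lemma Tri.univ {j a b : Fin 3} (h : Tri j a b) :
    (Finset.univ : Finset (Fin 3)) = insert b (insert a {j}) := by
  ext i
  simp only [Finset.mem_univ, Finset.mem_insert, Finset.mem_singleton, true_iff]
  rcases h.cases i with h | h | h <;> simp [h]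

/-- The point with coordinates `s`, `α`, `β` in the directions `j`, `a` and the third one. -/
def pt (j a : Fin 3) (s α β : ℝ) : V := fun i => if i = j then s else if i = a then α else β

section
variable {j a b : Fin 3} {s s' α α' β β' : ℝ}

lemma pt_cont : Continuous fun p : ℝ × ℝ × ℝ => pt j a p.1 p.2.1 p.2.2 := by
  apply continuous_pi
  intro i
  unfold pt
  by_cases h1 : i = j
  · simp only [h1, if_true]; fun_prop
  · by_cases h2 : i = a
    · simp only [h1, h2, if_true, if_false]
      subst h2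
      simp only [h1, if_false]
      fun_prop
    · simp only [h1, h2, if_false]; fun_prop

lemma pt_j : Function.update (pt j a s α β) j s' = pt j a s' α β := by
  funext i
  unfold pt
  by_cases h1 : i = j
  · simp [h1]
  · simp [Function.update_apply, h1]

lemma Tri.pt_a (h : Tri j a b) : Function.update (pt j a s α β) a α' = pt j a s α' β := by
  funext i
  unfold pt
  by_cases h1 : i = a
  · subst h1
    simp [h.1.symm]
  · simp [Function.update_apply, h1]

lemma Tri.pt_b (h : Tri j a b) : Function.update (pt j a s α β) b β' = pt j a s α β' := by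
  funext i
  unfold pt
  by_cases h1 : i = b
  · subst h1
    simp [h.2.1.symm, h.2.2.symm]
  · rcases h.cases i with h2 | h2 | h2
    · simp [h2, h.2.1]
    · simp [h2, h.1.symm, h.2.2]
    · exact absurd h2 h1

lemma Tri.fub (h : Tri j a b) {F : V → ℝ≥0∞} (hF : Measurable F) :
    ∫⁻ x, F x = ∫⁻ β, ∫⁻ α, ∫⁻ s, F (pt j a s α β) := by
  have h1 := lintegral_eq_lmarginal_univ (μ := fun _ : Fin 3 => (volume : Measure ℝ)) (f := F) (0 : V)
  rw [← volume_pi] at h1
  have h2 : b ∉ (insert a {j} : Finset (Fin 3)) := by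
    simp [h.2.1.symm, h.2.2.symm]
  have h3 : a ∉ ({j} : Finset (Fin 3)) := by
    simp [h.1.symm]
  have hpt : ∀ β α s : ℝ, Function.update (Function.update (Function.update (0 : V) b β) a α) j s
      = pt j a s α β := by
    intro β α s
    funext i
    unfold pt
    rcases h.cases i with h4 | h4 | h4
    · simp [h4]
    · simp [h4, h.1.symm]
    · simp [h4, h.2.1.symm, h.2.2.symm, h.2.2, h.2.1, Function.update_apply]
  refine h1.trans ?_
  rw [h.univ, lmarginal_insert _ hF h2]
  apply lintegral_congr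
  intro β
  rw [lmarginal_insert _ hF h3]
  apply lintegral_congr
  intro α
  rw [lmarginal_singleton]
  apply lintegral_congr
  intro s
  rw [hpt]

end

/-- Measurability of curried functions. -/
lemma meas_cur {F : V → ℝ≥0∞} (hF : Measurable F) (j a : Fin 3) :
    Measurable fun p : (ℝ × ℝ) × ℝ => F (pt j a p.2 p.1.2 p.1.1) := by
  apply hF.comp
  have h1 : Measurable fun p : ℝ × ℝ × ℝ => pt j a p.1 p.2.1 p.2.2 := pt_cont.measurable
  exact h1.comp (by fun_prop : Measurable fun p : (ℝ × ℝ) × ℝ => (p.2, p.1.2, p.1.1))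

lemma meas_cur1 {F : V → ℝ≥0∞} (hF : Measurable F) (j a : Fin 3) :
    Measurable fun p : ℝ × ℝ => ∫⁻ s, F (pt j a s p.2 p.1) :=
  (meas_cur hF j a).lintegral_prod_right'

/-- The two-dimensional inequality. -/
lemma two_d {K P R : ℝ → ℝ → ℝ≥0∞} (hP : Measurable fun p : ℝ × ℝ => P p.1 p.2)
    (hR : Measurable fun p : ℝ × ℝ => R p.1 p.2)
    (h1 : ∀ β α, K β α ≤ ∫⁻ α', P β α') (h2 : ∀ β α, K β α ≤ ∫⁻ β', R β' α) :
    ∫⁻ β, ∫⁻ α, K β α ^ 2 ≤ (∫⁻ β, ∫⁻ α, P β α) * ∫⁻ β, ∫⁻ α, R β α := by
  have e1 : ∫⁻ β, ∫⁻ α, R β α = ∫⁻ α, ∫⁻ β, R β α := lintegral_lintegral_swap hR.aemeasurable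
  rw [e1]
  have hPm : Measurable fun β => ∫⁻ α, P β α := hP.lintegral_prod_right'
  have hRm : Measurable fun α => ∫⁻ β, R β α := (hR.comp measurable_swap).lintegral_prod_right'
  calc ∫⁻ β, ∫⁻ α, K β α ^ 2 ≤ ∫⁻ β, ∫⁻ α, (∫⁻ α', P β α') * (∫⁻ β', R β' α) := by
        apply lintegral_mono
        intro β
        apply lintegral_mono
        intro α
        simp only
        rw [sq]
        exact mul_le_mul' (h1 β α) (h2 β α)
    _ = ∫⁻ β, (∫⁻ α', P β α') * ∫⁻ α, (∫⁻ β', R β' α) := by
        apply lintegral_congr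
        intro β
        rw [lintegral_const_mul _ hRm]
    _ = _ := by
        rw [lintegral_mul_const _ hPm]

end Pool.Agent.H305.OS
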