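import Pool.Agent.H305.OS.Ineq

/-!
The trilinear inequality with general exponents.
-/

set_option autoImplicit false

open MeasureTheory Set Metric Filter Topology
open scoped ContDiff ENNReal

namespace Pool.Agent.H305.OS

open H459R3.NS W221.NS Pool.Agent.V1183.PM
open Pool.Agent.W583.MD (sm_pd pd_mul')
open Pool.Agent.H305.TI (it it_nil it_cons it_sm)


lemma sqrt_le_of_sq {x y A : ℝ≥0∞} (h : x ^ 2 ≤ y ^ 2 * A) : x ≤ y * A ^ (1 / 2 : ℝ) := by
  have h2 : x ^ 2 ≤ (y * A ^ (1 / 2 : ℝ)) ^ 2 := by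
    rw [mul_pow, ← ENNReal.rpow_natCast (A ^ (1 / 2 : ℝ)), ← ENNReal.rpow_mul]
    norm_num
    exact h
  exact (ENNReal.pow_le_pow_left_iff (by norm_num)).1 h2

/-- Bounds for the integrals of powers. -/
lemma II_gen (n : ℕ) : ∀ p : ℝ, 1 + n ≤ p → p ≤ 2 + n → ∃ C : ℝ, 0 ≤ C ∧
    ∀ (f : V → ℝ) (j a b : Fin 3), HF f → Tri j a b →
      II j a f p ≤ ENNReal.ofReal C * (sqi f * (sqi (H459R3.NS.pd a f) * sqi (H459R3.NS.pd b f)) ^ ((p - 1) / 2)) := by
  induction n with
  | zero =>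
    intro p h1 h2
    simp only [Nat.cast_zero, add_zero] at h1 h2
    refine ⟨4 ^ (p - 1), by positivity, ?_⟩
    intro f j a b hf ht
    have hH := sl_meas hf.sqL.cont j a
    have h3 : II j a f p ≤ (II j a f 1) ^ (2 - p) * (II j a f 2) ^ (p - 1) := by
      have h4 := ENNReal.lintegral_mul_norm_pow_le (μ := (volume : Measure (ℝ × ℝ)))
        (f := fun z => ENNReal.ofReal (sl j a (sqf f) z.2 z.1 ^ (1 : ℝ)))
        (g := fun z => ENNReal.ofReal (sl j a (sqf f) z.2 z.1 ^ (2 : ℝ)))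
        (Measurable.aemeasurable (by simp only [Real.rpow_one]; fun_prop))
        (Measurable.aemeasurable (by fun_prop))
        (p := 2 - p) (q := p - 1) (by linarith) (by linarith) (by ring)
      refine le_trans (le_of_eq ?_) h4
      unfold II
      apply lintegral_congr
      intro z
      have h0 : 0 ≤ sl j a (sqf f) z.2 z.1 := sl_nonneg (sqf_nonneg _) _ _
      rw [ENNReal.ofReal_rpow_of_nonneg (by positivity) (by linarith),
        ENNReal.ofReal_rpow_of_nonneg (by positivity) (by linarith),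
        ← ENNReal.ofReal_mul (by positivity), ← Real.rpow_mul h0, ← Real.rpow_mul h0]
      congr 1
      rcases eq_or_lt_of_le h0 with h5 | h5
      · rw [← h5, Real.zero_rpow (by linarith : p ≠ 0)]
        rcases eq_or_ne p 2 with h6 | h6
        · rw [Real.zero_rpow (by rw [h6]; norm_num : 2 * (p - 1) ≠ 0), mul_zero]
        · have : 1 * (2 - p) ≠ 0 := by
            intro h7
            apply h6
            linarith
          rw [Real.zero_rpow this, zero_mul]
      · rw [← Real.rpow_add h5]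
        congr 1
        ring
    refine h3.trans ?_
    rw [hf.II_one ht]
    have h4 : II j a f 2 ≤ 4 * sqi f * (sqi (H459R3.NS.pd a f) * sqi (H459R3.NS.pd b f)) ^ (1 / 2 : ℝ) := by
      apply sqrt_le_of_sq
      refine (hf.II_two ht).trans (le_of_eq ?_)
      rw [mul_pow]
      norm_num
    calc sqi f ^ (2 - p) * II j a f 2 ^ (p - 1)
        ≤ sqi f ^ (2 - p) * (4 * sqi f * (sqi (H459R3.NS.pd a f) * sqi (H459R3.NS.pd b f)) ^ (1 / 2 : ℝ)) ^ (p - 1) := by
          gcongr
      _ = _ := by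
          rw [ENNReal.mul_rpow_of_nonneg _ _ (by linarith), ENNReal.mul_rpow_of_nonneg _ _ (by linarith),
            ← ENNReal.rpow_mul]
          have e1 : sqi f ^ (2 - p) * sqi f ^ (p - 1) = sqi f := by
            rw [← ENNReal.rpow_add_of_nonneg _ _ (by linarith) (by linarith)]
            norm_num
          have e2 : (4 : ℝ≥0∞) ^ (p - 1) = ENNReal.ofReal (4 ^ (p - 1)) := by
            rw [← ENNReal.ofReal_rpow_of_nonneg (by norm_num) (by linarith)]
            norm_num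
          rw [e2, show 1 / 2 * (p - 1) = (p - 1) / 2 by ring]
          calc sqi f ^ (2 - p) * (ENNReal.ofReal (4 ^ (p - 1)) * sqi f ^ (p - 1)
                * (sqi (H459R3.NS.pd a f) * sqi (H459R3.NS.pd b f)) ^ ((p - 1) / 2))
              = ENNReal.ofReal (4 ^ (p - 1)) * ((sqi f ^ (2 - p) * sqi f ^ (p - 1))
                * (sqi (H459R3.NS.pd a f) * sqi (H459R3.NS.pd b f)) ^ ((p - 1) / 2)) := by ring
            _ = _ := by rw [e1]
  | succ n ih =>
    intro p h1 h2
    push_cast at h1 h2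
    obtain ⟨C, hC, h3⟩ := ih (p - 1) (by linarith) (by linarith)
    refine ⟨p ^ 2 * C, by positivity, ?_⟩
    intro f j a b hf ht
    have hn : (0 : ℝ) ≤ n := Nat.cast_nonneg n
    have h4 := sqrt_le_of_sq (hf.II_rec ht (p := p) (by linarith))
    have h5 := h3 f j a b hf ht
    calc II j a f p ≤ ENNReal.ofReal (p ^ 2) * II j a f (p - 1)
          * (sqi (H459R3.NS.pd a f) * sqi (H459R3.NS.pd b f)) ^ (1 / 2 : ℝ) := h4
      _ ≤ ENNReal.ofReal (p ^ 2) * (ENNReal.ofReal C * (sqi f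
          * (sqi (H459R3.NS.pd a f) * sqi (H459R3.NS.pd b f)) ^ ((p - 1 - 1) / 2)))
          * (sqi (H459R3.NS.pd a f) * sqi (H459R3.NS.pd b f)) ^ (1 / 2 : ℝ) := by gcongr
      _ = _ := by
          rw [ENNReal.ofReal_mul (by positivity)]
          have e1 : (sqi (H459R3.NS.pd a f) * sqi (H459R3.NS.pd b f)) ^ ((p - 1 - 1) / 2)
              * (sqi (H459R3.NS.pd a f) * sqi (H459R3.NS.pd b f)) ^ (1 / 2 : ℝ)
              = (sqi (H459R3.NS.pd a f) * sqi (H459R3.NS.pd b f)) ^ ((p - 1) / 2) := by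
            rw [← ENNReal.rpow_add_of_nonneg _ _ (by linarith) (by norm_num)]
            congr 1
            ring
          rw [← e1]
          ring

/-- The one-sided trilinear inequality with all exponents. -/
lemma tri_gen {r : ℝ} (hr : 2 < r) : ∃ C : ℝ, 0 ≤ C ∧
    ∀ (f h : V → ℝ) (j a b : Fin 3), HF f → HF h → Tri j a b →
      ∫⁻ x, ENNReal.ofReal (h x ^ 2 * f x ^ 2) ≤ ENNReal.ofReal C *
        (∫⁻ x, ENNReal.ofReal (|h x| ^ (r - 1) * max (-(H459R3.NS.pd j h x)) 0)) ^ (2 / r)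
          * (sqi f ^ (1 - 2 / r) * (sqi (H459R3.NS.pd a f) * sqi (H459R3.NS.pd b f)) ^ (1 / r)) := by
  obtain ⟨p, hp⟩ : ∃ p, p = r / (r - 2) := ⟨_, rfl⟩
  have hr2 : 0 < r - 2 := by linarith
  have hr0 : 0 < r := by linarith
  have hp1 : 1 ≤ p := by
    rw [hp, le_div_iff₀ hr2]
    linarith
  have hpinv : 1 - 2 / r = 1 / p := by
    rw [hp]
    field_simp
  have hpp : 0 < 1 - 2 / r := by
    rw [hpinv]
    positivity
  obtain ⟨n, hn⟩ : ∃ n : ℕ, n = ⌊p - 1⌋₊ := ⟨_, rfl⟩
  have hn1 : (n : ℝ) ≤ p - 1 := by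
    rw [hn]
    exact Nat.floor_le (by linarith)
  have hn2 : p - 1 < n + 1 := by
    rw [hn]
    exact Nat.lt_floor_add_one _
  obtain ⟨C, hC, h1⟩ := II_gen n p (by linarith) (by linarith)
  refine ⟨r ^ (2 / r) * C ^ (1 - 2 / r), by positivity, ?_⟩
  intro f h j a b hf hh ht
  have h2 := hf.tri_os hh ht hr
  have h3 := h1 f j a b hf ht
  have e0 : ∫⁻ x, ENNReal.ofReal (r * (|h x| ^ (r - 1) * max (-(H459R3.NS.pd j h x)) 0))
      = ENNReal.ofReal r * ∫⁻ x, ENNReal.ofReal (|h x| ^ (r - 1) * max (-(H459R3.NS.pd j h x)) 0) := by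
    simp_rw [ENNReal.ofReal_mul hr0.le]
    rw [lintegral_const_mul]
    have := hh.sm.continuous.measurable
    have := (hh.pd j).sm.continuous.measurable
    fun_prop
  rw [e0, ← hp] at h2
  refine h2.trans ?_
  calc (ENNReal.ofReal r * ∫⁻ x, ENNReal.ofReal (|h x| ^ (r - 1) * max (-(H459R3.NS.pd j h x)) 0)) ^ (2 / r)
        * II j a f p ^ (1 - 2 / r)
      ≤ (ENNReal.ofReal r * ∫⁻ x, ENNReal.ofReal (|h x| ^ (r - 1) * max (-(H459R3.NS.pd j h x)) 0)) ^ (2 / r)
        * (ENNReal.ofReal C * (sqi f * (sqi (H459R3.NS.pd a f) * sqi (H459R3.NS.pd b f)) ^ ((p - 1) / 2)))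
          ^ (1 - 2 / r) := by gcongr
    _ = _ := by
        rw [ENNReal.mul_rpow_of_nonneg _ _ (by positivity), ENNReal.mul_rpow_of_nonneg _ _ hpp.le,
          ENNReal.mul_rpow_of_nonneg _ _ hpp.le, ← ENNReal.rpow_mul,
          ENNReal.ofReal_rpow_of_nonneg hr0.le (by positivity), ENNReal.ofReal_rpow_of_nonneg hC hpp.le,
          ENNReal.ofReal_mul (by positivity)]
        have e1 : (p - 1) / 2 * (1 - 2 / r) = 1 / r := by
          rw [hp]
          field_simp
          ring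
        rw [e1]
        ring

end Pool.Agent.H305.OS
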