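import Pool.Agent.H305.OS.Fix2

/-!
The nonlinear terms of the higher-order identities at a fixed time.
-/

set_option autoImplicit false

open MeasureTheory Set Metric Filter Topology
open scoped ContDiff ENNReal

namespace Pool.Agent.H305.OS

open H459R3.NS W221.NS Pool.Agent.V1183.PM
open Pool.Agent.W583.MD (sm_pd pd_mul')
open Pool.Agent.W22.ME.TD (pd_comm)
open Pool.Agent.H305.TI (it it_nil it_cons it_sm)


/-- Third-order norm. -/
noncomputable def D3 (w : Fin 3 → V → ℝ) : ℝ :=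
  ∑ m, ∑ k, ∑ n, ∑ i, ip (H459R3.NS.pd n (H459R3.NS.pd k (H459R3.NS.pd m (w i)))) (H459R3.NS.pd n (H459R3.NS.pd k (H459R3.NS.pd m (w i))))

/-- Fourth-order norm. -/
noncomputable def D4 (w : Fin 3 → V → ℝ) : ℝ :=
  ∑ m, ∑ k, ∑ n, ∑ q, ∑ i, ip (H459R3.NS.pd q (H459R3.NS.pd n (H459R3.NS.pd k (H459R3.NS.pd m (w i))))) (H459R3.NS.pd q (H459R3.NS.pd n (H459R3.NS.pd k (H459R3.NS.pd m (w i)))))

/-- The second-order nonlinear term. -/
noncomputable def NL2 (w : Fin 3 → V → ℝ) : ℝ :=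
  ∑ m, ∑ k, ∑ i, ip (H459R3.NS.pd k (H459R3.NS.pd m (w i))) (H459R3.NS.pd k (H459R3.NS.pd m (nl w i)))

/-- The third-order nonlinear term. -/
noncomputable def NL3 (w : Fin 3 → V → ℝ) : ℝ :=
  ∑ m, ∑ k, ∑ n, ∑ i, ip (H459R3.NS.pd n (H459R3.NS.pd k (H459R3.NS.pd m (w i)))) (H459R3.NS.pd n (H459R3.NS.pd k (H459R3.NS.pd m (nl w i))))

lemma single1 {F : Fin 3 → ℝ} (h : ∀ i, 0 ≤ F i) (i : Fin 3) : F i ≤ ∑ i, F i :=
  Finset.single_le_sum (f := F) (fun j _ => h j) (Finset.mem_univ i)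

lemma sum_nn {F : Fin 3 → ℝ} (h : ∀ i, 0 ≤ F i) : 0 ≤ ∑ i, F i := Finset.sum_nonneg fun _ _ => h _

section
variable {w : Fin 3 → V → ℝ}

lemma D3_nonneg (w : Fin 3 → V → ℝ) : 0 ≤ D3 w :=
  sum_nn fun _ => sum_nn fun _ => sum_nn fun _ => sum_nn fun _ => ip_self_nonneg _

lemma D4_nonneg (w : Fin 3 → V → ℝ) : 0 ≤ D4 w :=
  sum_nn fun _ => sum_nn fun _ => sum_nn fun _ => sum_nn fun _ => sum_nn fun _ => ip_self_nonneg _

lemma ip_le_D3 (w : Fin 3 → V → ℝ) (n k m i : Fin 3) :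
    ip (H459R3.NS.pd n (H459R3.NS.pd k (H459R3.NS.pd m (w i)))) (H459R3.NS.pd n (H459R3.NS.pd k (H459R3.NS.pd m (w i)))) ≤ D3 w := by
  have h0 := fun m k n i => ip_self_nonneg (H459R3.NS.pd n (H459R3.NS.pd k (H459R3.NS.pd m (w i))))
  have h1 := single1 (h0 m k n) i
  have h2 := single1 (fun n => sum_nn (h0 m k n)) n
  have h3 := single1 (fun k => sum_nn fun n => sum_nn (h0 m k n)) k
  have h4 := single1 (fun m => sum_nn fun k => sum_nn fun n => sum_nn (h0 m k n)) m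
  exact h1.trans (h2.trans (h3.trans h4))

lemma ip_le_D4 (w : Fin 3 → V → ℝ) (q n k m i : Fin 3) :
    ip (H459R3.NS.pd q (H459R3.NS.pd n (H459R3.NS.pd k (H459R3.NS.pd m (w i))))) (H459R3.NS.pd q (H459R3.NS.pd n (H459R3.NS.pd k (H459R3.NS.pd m (w i))))) ≤ D4 w := by
  have h0 := fun m k n q i => ip_self_nonneg (H459R3.NS.pd q (H459R3.NS.pd n (H459R3.NS.pd k (H459R3.NS.pd m (w i)))))
  have h1 := single1 (h0 m k n q) i
  have h2 := single1 (fun q => sum_nn (h0 m k n q)) q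
  have h3 := single1 (fun n => sum_nn fun q => sum_nn (h0 m k n q)) n
  have h4 := single1 (fun k => sum_nn fun n => sum_nn fun q => sum_nn (h0 m k n q)) k
  have h5 := single1 (fun m => sum_nn fun k => sum_nn fun n => sum_nn fun q => sum_nn (h0 m k n q)) m
  exact h1.trans (h2.trans (h3.trans (h4.trans h5)))

/-- The fourth powers. -/
lemma ord4 {f : V → ℝ} (hf : HF f) {A B : ℝ} (hA : ip f f ≤ A)
    (hB : ∀ m, ip (H459R3.NS.pd m f) (H459R3.NS.pd m f) ≤ B) :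
    ip (fun x => f x * f x) (fun x => f x * f x) ≤ 12 * √(A * B ^ 3) := by
  have hA0 : 0 ≤ A := (ip_self_nonneg f).trans hA
  have hB0 : 0 ≤ B := (ip_self_nonneg _).trans (hB 0)
  have ht : Tri 0 1 2 := ⟨by decide, by decide, by decide⟩
  have h3 := hf.lady ht
  have e1 : ∫⁻ x, ENNReal.ofReal (f x ^ 2 * f x ^ 2)
      = ENNReal.ofReal (ip (fun x => f x * f x) (fun x => f x * f x)) := by
    rw [ip_ofReal (hf.mul hf)]
    unfold sqi
    congr 1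
    funext x
    congr 1
    ring
  rw [e1] at h3
  have s1 : sqi f ≤ ENNReal.ofReal A := sqi_le_of hf hA
  have s2 : ∀ m, sqi (H459R3.NS.pd m f) ≤ ENNReal.ofReal B := fun m => sqi_le_of (hf.pd m) (hB m)
  have s20 := s2 0
  have s21 := s2 1
  have s22 := s2 2
  have h5 : ENNReal.ofReal (ip (fun x => f x * f x) (fun x => f x * f x)) ^ 2
      ≤ ENNReal.ofReal (144 * (A * B ^ 3)) := by
    calc _ ≤ 144 * (sqi f * (sqi (H459R3.NS.pd 0 f) * sqi (H459R3.NS.pd 1 f) * sqi (H459R3.NS.pd 2 f))) := h3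
      _ ≤ 144 * (ENNReal.ofReal A * (ENNReal.ofReal B * ENNReal.ofReal B * ENNReal.ofReal B)) := by
          gcongr
      _ = _ := by
          rw [ENNReal.ofReal_mul (by norm_num), ENNReal.ofReal_mul hA0, ENNReal.ofReal_pow hB0]
          norm_num
          ring
  rw [← ENNReal.ofReal_pow (ip_self_nonneg _)] at h5
  have h6 := (ENNReal.ofReal_le_ofReal_iff (by positivity)).1 h5
  have h7 : (12 * √(A * B ^ 3)) ^ 2 = 144 * (A * B ^ 3) := by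
    rw [mul_pow, Real.sq_sqrt (by positivity)]
    norm_num
  rw [← h7] at h6
  exact (pow_le_pow_iff_left₀ (ip_self_nonneg _) (by positivity) (by norm_num)).1 h6

/-- The part of the second derivatives of the nonlinear term without the transport. -/
noncomputable def An (w : Fin 3 → V → ℝ) (m k i j : Fin 3) : V → ℝ := fun x =>
  H459R3.NS.pd k (H459R3.NS.pd m (w j)) x * H459R3.NS.pd j (w i) x + H459R3.NS.pd m (w j) x * H459R3.NS.pd k (H459R3.NS.pd j (w i)) x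
    + H459R3.NS.pd k (w j) x * H459R3.NS.pd m (H459R3.NS.pd j (w i)) x

lemma dd_nl (hw : ∀ i, HF (w i)) (m k i : Fin 3) :
    H459R3.NS.pd k (H459R3.NS.pd m (nl w i)) = fun x => (∑ j, An w m k i j x)
      + ∑ j, w j x * H459R3.NS.pd j (H459R3.NS.pd k (H459R3.NS.pd m (w i))) x := by
  have h3 := it_sum [m, k] (f := fun j x => w j x * H459R3.NS.pd j (w i) x)
    fun j => ((hw j).mul ((hw i).pd j)).sm
  simp only [it_cons, it_nil] at h3
  unfold nl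
  rw [h3]
  funext x
  rw [← Finset.sum_add_distrib]
  apply Finset.sum_congr rfl
  intro j _
  have e1 : H459R3.NS.pd m (fun x => w j x * H459R3.NS.pd j (w i) x) = fun x => w j x * H459R3.NS.pd m (H459R3.NS.pd j (w i)) x
      + H459R3.NS.pd m (w j) x * H459R3.NS.pd j (w i) x := by
    funext y
    exact pd_mul' (hw j).sm ((hw i).pd j).sm m y
  rw [e1]
  have s1 : ContDiff ℝ ∞ (fun x => w j x * H459R3.NS.pd m (H459R3.NS.pd j (w i)) x) :=
    (hw j).sm.mul (((hw i).pd j).pd m).sm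
  have s2 : ContDiff ℝ ∞ (fun x => H459R3.NS.pd m (w j) x * H459R3.NS.pd j (w i) x) :=
    ((hw j).pd m).sm.mul ((hw i).pd j).sm
  have e2 := Pool.Agent.TH305.DR.pd_add' s1 s2 k
  rw [e2]
  simp only
  rw [pd_mul' (hw j).sm (((hw i).pd j).pd m).sm k x, pd_mul' ((hw j).pd m).sm ((hw i).pd j).sm k x]
  have e3 : H459R3.NS.pd k (H459R3.NS.pd m (H459R3.NS.pd j (w i))) = H459R3.NS.pd j (H459R3.NS.pd k (H459R3.NS.pd m (w i))) := by
    have := it_pd [m, k] j (hw i).sm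
    simpa only [it_cons, it_nil] using this
  rw [e3]
  unfold An
  ring

lemma An_HF (hw : ∀ i, HF (w i)) (m k i j : Fin 3) : HF (An w m k i j) :=
  (((((hw j).pd m).pd k).mul ((hw i).pd j)).add (((hw j).pd m).mul (((hw i).pd j).pd k))).add
    (((hw j).pd k).mul (((hw i).pd j).pd m))

lemma abs_sum3 {F : Fin 3 → ℝ} {K : ℝ} (h : ∀ i, |F i| ≤ K) : |∑ i, F i| ≤ 3 * K := by
  refine (Finset.abs_sum_le_sum_abs _ _).trans ?_
  have : ∑ i : Fin 3, |F i| ≤ ∑ _i : Fin 3, K := Finset.sum_le_sum fun i _ => h i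
  simpa using this

/-- The second-order bound. -/
lemma NL2_le (hw : ∀ i, HF (w i)) (hdiv : ∀ x, ∑ i, H459R3.NS.pd i (w i) x = 0) :
    |NL2 w| ≤ 243 * (√(N2 w) * √(12 * √(D2 w * D3 w ^ 3))) := by
  have hN := N2_nonneg w
  have hD := D2_nonneg w
  have hD3 := D3_nonneg w
  obtain ⟨Θ, hΘ⟩ : ∃ Θ, Θ = √(12 * √(D2 w * D3 w ^ 3)) := ⟨_, rfl⟩
  have hΘ0 : 0 ≤ Θ := by rw [hΘ]; exact Real.sqrt_nonneg _
  have hΘ2 : Θ ^ 2 = 12 * √(D2 w * D3 w ^ 3) := by rw [hΘ]; exact Real.sq_sqrt (by positivity)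
  have h2 : ∀ k m i, ip (fun x => H459R3.NS.pd k (H459R3.NS.pd m (w i)) x * H459R3.NS.pd k (H459R3.NS.pd m (w i)) x)
      (fun x => H459R3.NS.pd k (H459R3.NS.pd m (w i)) x * H459R3.NS.pd k (H459R3.NS.pd m (w i)) x) ≤ Θ ^ 2 := by
    intro k m i
    rw [hΘ2]
    exact ord4 (((hw i).pd m).pd k) (all_D w k i m) (fun n => ip_le_D3 w n k m i)
  have hY : ∀ m i, ip (H459R3.NS.pd m (w i)) (H459R3.NS.pd m (w i)) ≤ √(N2 w) ^ 2 := by
    intro m i
    rw [Real.sq_sqrt hN]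
    exact (ip_le_n1 w m i).trans (n1_le_N2 w m)
  have t1 : ∀ X Y Z : V → ℝ, HF X → HF Y → HF Z → ip Z Z ≤ √(N2 w) ^ 2 →
      ip (fun x => X x * X x) (fun x => X x * X x) ≤ Θ ^ 2 →
      ip (fun x => Y x * Y x) (fun x => Y x * Y x) ≤ Θ ^ 2 →
      |ip X (fun x => Y x * Z x)| ≤ √(N2 w) * Θ := by
    intro X Y Z hX hY' hZ k1 k2 k3
    have := hZ.triple4 hX hY' (Real.sqrt_nonneg _) hΘ0 k1 k2 k3
    have e : ip X (fun x => Y x * Z x) = ∫ x, Z x * X x * Y x := by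
      unfold ip
      congr 1
      funext x
      ring
    rw [e]
    exact this
  have t2 : ∀ X Y Z : V → ℝ, HF X → HF Y → HF Z → ip Z Z ≤ √(N2 w) ^ 2 →
      ip (fun x => X x * X x) (fun x => X x * X x) ≤ Θ ^ 2 →
      ip (fun x => Y x * Y x) (fun x => Y x * Y x) ≤ Θ ^ 2 →
      |ip X (fun x => Z x * Y x)| ≤ √(N2 w) * Θ := by
    intro X Y Z hX hY' hZ k1 k2 k3
    have := t1 X Y Z hX hY' hZ k1 k2 k3
    simpa only [mul_comm] using this
  have hterm : ∀ m k i, |ip (H459R3.NS.pd k (H459R3.NS.pd m (w i))) (H459R3.NS.pd k (H459R3.NS.pd m (nl w i)))| ≤ 9 * (√(N2 w) * Θ) := by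
    intro m k i
    have hX := ((hw i).pd m).pd k
    rw [dd_nl hw, hX.ip_add (HF.sum fun j => An_HF hw m k i j)
      (HF.sum fun j => (hw j).mul (hX.pd j)), transp hw hdiv hX, add_zero,
      hX.ip_sum fun j => An_HF hw m k i j]
    have hj : ∀ j, |ip (H459R3.NS.pd k (H459R3.NS.pd m (w i))) (An w m k i j)| ≤ 3 * (√(N2 w) * Θ) := by
      intro j
      unfold An
      rw [hX.ip_add (((((hw j).pd m).pd k).mul ((hw i).pd j)).add
        (((hw j).pd m).mul (((hw i).pd j).pd k))) (((hw j).pd k).mul (((hw i).pd j).pd m)),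
        hX.ip_add ((((hw j).pd m).pd k).mul ((hw i).pd j)) (((hw j).pd m).mul (((hw i).pd j).pd k))]
      have k1 := t1 _ _ _ hX (((hw j).pd m).pd k) ((hw i).pd j) (hY j i) (h2 k m i) (h2 k m j)
      have k2 := t2 _ _ _ hX (((hw i).pd j).pd k) ((hw j).pd m) (hY m j) (h2 k m i) (h2 k j i)
      have k3 := t2 _ _ _ hX (((hw i).pd j).pd m) ((hw j).pd k) (hY k j) (h2 k m i) (h2 m j i)
      have a1 := abs_add_le (ip (H459R3.NS.pd k (H459R3.NS.pd m (w i))) (fun x => H459R3.NS.pd k (H459R3.NS.pd m (w j)) x * H459R3.NS.pd j (w i) x)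
        + ip (H459R3.NS.pd k (H459R3.NS.pd m (w i))) (fun x => H459R3.NS.pd m (w j) x * H459R3.NS.pd k (H459R3.NS.pd j (w i)) x))
        (ip (H459R3.NS.pd k (H459R3.NS.pd m (w i))) (fun x => H459R3.NS.pd k (w j) x * H459R3.NS.pd m (H459R3.NS.pd j (w i)) x))
      have a2 := abs_add_le (ip (H459R3.NS.pd k (H459R3.NS.pd m (w i))) (fun x => H459R3.NS.pd k (H459R3.NS.pd m (w j)) x * H459R3.NS.pd j (w i) x))
        (ip (H459R3.NS.pd k (H459R3.NS.pd m (w i))) (fun x => H459R3.NS.pd m (w j) x * H459R3.NS.pd k (H459R3.NS.pd j (w i)) x))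
      linarith
    exact (abs_sum3 hj).trans (le_of_eq (by ring))
  have hfin : |NL2 w| ≤ 243 * (√(N2 w) * Θ) := by
    unfold NL2
    refine (abs_sum3 fun m => abs_sum3 fun k => abs_sum3 fun i => hterm m k i).trans
      (le_of_eq (by ring))
  rw [← hΘ]
  exact hfin

/-- The second-order inequality. -/
lemma high2 {ν : ℝ} (hν : 0 < ν) : ∃ K : ℝ, 0 ≤ K ∧ ∀ w : Fin 3 → V → ℝ, (∀ i, HF (w i)) →
    (∀ x, ∑ i, H459R3.NS.pd i (w i) x = 0) → 2 * |NL2 w| ≤ ν * D3 w + K * (N2 w ^ 2 * D2 w) := by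
  obtain ⟨K, hK, hY⟩ := youngk (k := 3 / 2) hν (by norm_num) (by norm_num)
  refine ⟨K * (486 ^ 2 * 12) ^ 2, by positivity, ?_⟩
  intro w hw hdiv
  have hN := N2_nonneg w
  have hD := D2_nonneg w
  have hD3 := D3_nonneg w
  have h1 := NL2_le hw hdiv
  have h2 := hY (486 ^ 2 * 12 * (N2 w * √(D2 w))) (D3 w) (by positivity) hD3
  have e1 : √(D2 w * D3 w ^ 3) = √(D2 w) * D3 w ^ (3 / 2 : ℝ) := by
    rw [Real.sqrt_mul hD, Real.sqrt_eq_rpow (D3 w ^ 3), ← Real.rpow_natCast, ← Real.rpow_mul hD3]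
    norm_num
  have e2 : 2 * (243 * (√(N2 w) * √(12 * √(D2 w * D3 w ^ 3))))
      = √(486 ^ 2 * 12 * (N2 w * √(D2 w)) * D3 w ^ (3 / 2 : ℝ)) := by
    rw [e1, ← Real.sqrt_mul hN]
    have e3 : 486 ^ 2 * 12 * (N2 w * √(D2 w)) * D3 w ^ (3 / 2 : ℝ)
        = 486 ^ 2 * (N2 w * (12 * (√(D2 w) * D3 w ^ (3 / 2 : ℝ)))) := by ring
    rw [e3, Real.sqrt_mul (by norm_num : (0 : ℝ) ≤ 486 ^ 2),
      Real.sqrt_sq (by norm_num : (0 : ℝ) ≤ 486)]
    ring
  have e4 : (486 ^ 2 * 12 * (N2 w * √(D2 w))) ^ (1 / (2 - 3 / 2) : ℝ)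
      = (486 ^ 2 * 12) ^ 2 * (N2 w ^ 2 * D2 w) := by
    rw [show (1 / (2 - 3 / 2) : ℝ) = ((2 : ℕ) : ℝ) by norm_num, Real.rpow_natCast, mul_pow, mul_pow,
      mul_pow, Real.sq_sqrt hD]
  rw [e4] at h2
  calc 2 * |NL2 w| ≤ 2 * (243 * (√(N2 w) * √(12 * √(D2 w * D3 w ^ 3)))) := by linarith
    _ = √(486 ^ 2 * 12 * (N2 w * √(D2 w)) * D3 w ^ (3 / 2 : ℝ)) := e2
    _ ≤ ν * D3 w + K * ((486 ^ 2 * 12) ^ 2 * (N2 w ^ 2 * D2 w)) := h2
    _ = _ := by ring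

lemma prod4 {Y Z : V → ℝ} (hY : HF Y) (hZ : HF Z) {A B : ℝ} (hA : 0 ≤ A) (hB : 0 ≤ B)
    (h1 : ip (fun x => Y x * Y x) (fun x => Y x * Y x) ≤ A)
    (h2 : ip (fun x => Z x * Z x) (fun x => Z x * Z x) ≤ B) :
    ip (fun x => Y x * Z x) (fun x => Y x * Z x) ≤ √(A * B) := by
  have e2 : ip (fun x => Y x * Z x) (fun x => Y x * Z x)
      = ip (fun x => Y x * Y x) (fun x => Z x * Z x) := by
    unfold ip
    congr 1
    funext x
    ring
  rw [e2]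
  have k := (hY.mul hY).ip_abs (hZ.mul hZ) (Real.sqrt_nonneg A) (Real.sqrt_nonneg B)
    (by rw [Real.sq_sqrt hA]; exact h1) (by rw [Real.sq_sqrt hB]; exact h2)
  rw [Real.sqrt_mul hA]
  exact (le_abs_self _).trans k

lemma ip_prod {X Y Z : V → ℝ} (hX : HF X) (hY : HF Y) (hZ : HF Z) {A B D : ℝ} (hA : 0 ≤ A)
    (hB : 0 ≤ B) (hD : 0 ≤ D) (h0 : ip X X ≤ D)
    (h1 : ip (fun x => Y x * Y x) (fun x => Y x * Y x) ≤ A)
    (h2 : ip (fun x => Z x * Z x) (fun x => Z x * Z x) ≤ B) :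
    |ip X (fun x => Y x * Z x)| ≤ √(D * √(A * B)) := by
  have k := hX.ip_abs (hY.mul hZ) (Real.sqrt_nonneg D) (Real.sqrt_nonneg (√(A * B)))
    (by rw [Real.sq_sqrt hD]; exact h0) (by
      rw [Real.sq_sqrt (Real.sqrt_nonneg _)]
      exact prod4 hY hZ hA hB h1 h2)
  rwa [← Real.sqrt_mul hD] at k

/-- The third-order bound. -/
lemma NL3_le (hw : ∀ i, HF (w i)) {K : ℝ} (hE : ∀ i, ip (w i) (w i) ≤ K) (hK1 : 1 ≤ K)
    (hN : N2 w ≤ K) (hD : D2 w ≤ K) :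
    |NL3 w| ≤ 729 * √(D4 w * (12 * √(√(K * D3 w ^ 3) * √(K * K ^ 3))))
      + 243 * √(D4 w * (12 * √(√(K * K ^ 3) * √(D3 w * D4 w ^ 3)))) := by
  have hK0 : 0 ≤ K := by linarith
  have hD3 := D3_nonneg w
  have hD4 := D4_nonneg w
  have q0 : ∀ j, ip (fun x => w j x * w j x) (fun x => w j x * w j x) ≤ 12 * √(K * K ^ 3) :=
    fun j => ord4 (hw j) (hE j) (fun m => (ip_le_n1 w m j).trans ((n1_le_N2 w m).trans hN))
  have q1 : ∀ m j, ip (fun x => H459R3.NS.pd m (w j) x * H459R3.NS.pd m (w j) x) (fun x => H459R3.NS.pd m (w j) x * H459R3.NS.pd m (w j) x)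
      ≤ 12 * √(K * K ^ 3) := fun m j =>
    ord4 ((hw j).pd m) ((ip_le_n1 w m j).trans ((n1_le_N2 w m).trans hN))
      (fun k => (all_D w k j m).trans hD)
  have q2 : ∀ k m i, ip (fun x => H459R3.NS.pd k (H459R3.NS.pd m (w i)) x * H459R3.NS.pd k (H459R3.NS.pd m (w i)) x)
      (fun x => H459R3.NS.pd k (H459R3.NS.pd m (w i)) x * H459R3.NS.pd k (H459R3.NS.pd m (w i)) x) ≤ 12 * √(K * D3 w ^ 3) := fun k m i =>
    ord4 (((hw i).pd m).pd k) ((all_D w k i m).trans hD) (fun n => ip_le_D3 w n k m i)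
  have q3 : ∀ n k m i, ip (fun x => H459R3.NS.pd n (H459R3.NS.pd k (H459R3.NS.pd m (w i))) x * H459R3.NS.pd n (H459R3.NS.pd k (H459R3.NS.pd m (w i))) x)
      (fun x => H459R3.NS.pd n (H459R3.NS.pd k (H459R3.NS.pd m (w i))) x * H459R3.NS.pd n (H459R3.NS.pd k (H459R3.NS.pd m (w i))) x)
      ≤ 12 * √(D3 w * D4 w ^ 3) := fun n k m i =>
    ord4 ((((hw i).pd m).pd k).pd n) (ip_le_D3 w n k m i) (fun q => ip_le_D4 w q n k m i)
  obtain ⟨P, hP⟩ : ∃ P, P = √(D4 w * (12 * √(√(K * D3 w ^ 3) * √(K * K ^ 3)))) := ⟨_, rfl⟩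
  obtain ⟨R, hR⟩ : ∃ R, R = √(D4 w * (12 * √(√(K * K ^ 3) * √(D3 w * D4 w ^ 3)))) := ⟨_, rfl⟩
  have eP : √(D4 w * √((12 * √(K * D3 w ^ 3)) * (12 * √(K * K ^ 3)))) = P := by
    rw [hP]
    congr 2
    rw [show (12 * √(K * D3 w ^ 3)) * (12 * √(K * K ^ 3))
      = 12 ^ 2 * (√(K * D3 w ^ 3) * √(K * K ^ 3)) by ring, Real.sqrt_mul (by norm_num),
      Real.sqrt_sq (by norm_num)]
  have eR : √(D4 w * √((12 * √(K * K ^ 3)) * (12 * √(D3 w * D4 w ^ 3)))) = R := by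
    rw [hR]
    congr 2
    rw [show (12 * √(K * K ^ 3)) * (12 * √(D3 w * D4 w ^ 3))
      = 12 ^ 2 * (√(K * K ^ 3) * √(D3 w * D4 w ^ 3)) by ring, Real.sqrt_mul (by norm_num),
      Real.sqrt_sq (by norm_num)]
  have hterm : ∀ m k n i, |ip (H459R3.NS.pd n (H459R3.NS.pd k (H459R3.NS.pd m (w i)))) (H459R3.NS.pd n (H459R3.NS.pd k (H459R3.NS.pd m (nl w i))))|
      ≤ 9 * P + 3 * R := by
    intro m k n i
    have hX := ((((hw i).pd m).pd k).pd n).pd n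
    have hXX := ip_le_D4 w n n k m i
    have hZ := ((nl_HF hw i).pd m).pd k
    have e0 : ip (H459R3.NS.pd n (H459R3.NS.pd k (H459R3.NS.pd m (w i)))) (H459R3.NS.pd n (H459R3.NS.pd k (H459R3.NS.pd m (nl w i))))
        = - ip (H459R3.NS.pd n (H459R3.NS.pd n (H459R3.NS.pd k (H459R3.NS.pd m (w i))))) (H459R3.NS.pd k (H459R3.NS.pd m (nl w i))) := by
      rw [ip_comm, hZ.ip_ibp ((((hw i).pd m).pd k).pd n) n, ip_comm]
    rw [e0, abs_neg, dd_nl hw, hX.ip_add (HF.sum fun j => An_HF hw m k i j)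
      (HF.sum fun j => (hw j).mul ((((hw i).pd m).pd k).pd j)), hX.ip_sum fun j => An_HF hw m k i j,
      hX.ip_sum fun j => (hw j).mul ((((hw i).pd m).pd k).pd j)]
    have hj : ∀ j, |ip (H459R3.NS.pd n (H459R3.NS.pd n (H459R3.NS.pd k (H459R3.NS.pd m (w i))))) (An w m k i j)| ≤ 3 * P := by
      intro j
      unfold An
      rw [hX.ip_add (((((hw j).pd m).pd k).mul ((hw i).pd j)).add
        (((hw j).pd m).mul (((hw i).pd j).pd k))) (((hw j).pd k).mul (((hw i).pd j).pd m)),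
        hX.ip_add ((((hw j).pd m).pd k).mul ((hw i).pd j)) (((hw j).pd m).mul (((hw i).pd j).pd k))]
      have k1 := ip_prod hX (((hw j).pd m).pd k) ((hw i).pd j) (by positivity) (by positivity) hD4
        hXX (q2 k m j) (q1 j i)
      have k2 := ip_prod hX (((hw i).pd j).pd k) ((hw j).pd m) (by positivity) (by positivity) hD4
        hXX (q2 k j i) (q1 m j)
      have k3 := ip_prod hX (((hw i).pd j).pd m) ((hw j).pd k) (by positivity) (by positivity) hD4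
        hXX (q2 m j i) (q1 k j)
      rw [eP] at k1 k2 k3
      have c2 : (fun x => H459R3.NS.pd k (H459R3.NS.pd j (w i)) x * H459R3.NS.pd m (w j) x)
          = fun x => H459R3.NS.pd m (w j) x * H459R3.NS.pd k (H459R3.NS.pd j (w i)) x := by
        funext x
        ring
      have c3 : (fun x => H459R3.NS.pd m (H459R3.NS.pd j (w i)) x * H459R3.NS.pd k (w j) x)
          = fun x => H459R3.NS.pd k (w j) x * H459R3.NS.pd m (H459R3.NS.pd j (w i)) x := by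
        funext x
        ring
      rw [c2] at k2
      rw [c3] at k3
      have a1 := abs_add_le (ip (H459R3.NS.pd n (H459R3.NS.pd n (H459R3.NS.pd k (H459R3.NS.pd m (w i)))))
          (fun x => H459R3.NS.pd k (H459R3.NS.pd m (w j)) x * H459R3.NS.pd j (w i) x)
        + ip (H459R3.NS.pd n (H459R3.NS.pd n (H459R3.NS.pd k (H459R3.NS.pd m (w i))))) (fun x => H459R3.NS.pd m (w j) x * H459R3.NS.pd k (H459R3.NS.pd j (w i)) x))
        (ip (H459R3.NS.pd n (H459R3.NS.pd n (H459R3.NS.pd k (H459R3.NS.pd m (w i))))) (fun x => H459R3.NS.pd k (w j) x * H459R3.NS.pd m (H459R3.NS.pd j (w i)) x))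
      have a2 := abs_add_le (ip (H459R3.NS.pd n (H459R3.NS.pd n (H459R3.NS.pd k (H459R3.NS.pd m (w i)))))
          (fun x => H459R3.NS.pd k (H459R3.NS.pd m (w j)) x * H459R3.NS.pd j (w i) x))
        (ip (H459R3.NS.pd n (H459R3.NS.pd n (H459R3.NS.pd k (H459R3.NS.pd m (w i))))) (fun x => H459R3.NS.pd m (w j) x * H459R3.NS.pd k (H459R3.NS.pd j (w i)) x))
      linarith
    have hj2 : ∀ j, |ip (H459R3.NS.pd n (H459R3.NS.pd n (H459R3.NS.pd k (H459R3.NS.pd m (w i)))))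
        (fun x => w j x * H459R3.NS.pd j (H459R3.NS.pd k (H459R3.NS.pd m (w i))) x)| ≤ R := by
      intro j
      have k1 := ip_prod hX (hw j) ((((hw i).pd m).pd k).pd j) (by positivity) (by positivity) hD4
        hXX (q0 j) (q3 j k m i)
      rwa [eR] at k1
    have a1 := abs_sum3 hj
    have a2 := abs_sum3 hj2
    have a3 := abs_add_le (∑ j, ip (H459R3.NS.pd n (H459R3.NS.pd n (H459R3.NS.pd k (H459R3.NS.pd m (w i))))) (An w m k i j))
      (∑ j, ip (H459R3.NS.pd n (H459R3.NS.pd n (H459R3.NS.pd k (H459R3.NS.pd m (w i))))) (fun x => w j x * H459R3.NS.pd j (H459R3.NS.pd k (H459R3.NS.pd m (w i))) x))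
    linarith
  rw [← hP, ← hR]
  unfold NL3
  refine (abs_sum3 fun m => abs_sum3 fun k => abs_sum3 fun n => abs_sum3 fun i =>
    hterm m k n i).trans (le_of_eq (by ring))

/-- The third-order inequality. -/
lemma high3 {ν K : ℝ} (hν : 0 < ν) (hK1 : 1 ≤ K) : ∃ C : ℝ, 0 ≤ C ∧ ∀ w : Fin 3 → V → ℝ,
    (∀ i, HF (w i)) → (∀ i, ip (w i) (w i) ≤ K) → N2 w ≤ K → D2 w ≤ K →
    2 * |NL3 w| ≤ ν * D4 w + C * (1 + D3 w) := by
  have hK0 : 0 < K := by linarith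
  obtain ⟨K1, hK1', hY1⟩ := youngk (k := 1) (half_pos hν) (by norm_num) (by norm_num)
  obtain ⟨K2, hK2, hY2⟩ := youngk (k := 7 / 4) (half_pos hν) (by norm_num) (by norm_num)
  refine ⟨K1 * (1458 ^ 2 * 12 * K ^ 2) + K2 * (486 ^ 2 * 12 * K) ^ 4, by positivity, ?_⟩
  intro w hw hE hN hD
  have hD3 := D3_nonneg w
  have hD4 := D4_nonneg w
  have h1 := NL3_le hw hE hK1 hN hD
  -- first term
  have e1 : √(√(K * D3 w ^ 3) * √(K * K ^ 3)) ≤ K ^ 2 * (1 + D3 w) := by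
    apply Real.sqrt_le_iff.2
    refine ⟨by positivity, ?_⟩
    have e2 : √(K * K ^ 3) = K ^ 2 := by
      rw [show K * K ^ 3 = (K ^ 2) ^ 2 by ring, Real.sqrt_sq (by positivity)]
    have e3 : √(K * D3 w ^ 3) ≤ K * (1 + D3 w) ^ 2 := by
      apply Real.sqrt_le_iff.2
      refine ⟨by positivity, ?_⟩
      have k1 : D3 w ^ 3 ≤ (1 + D3 w) ^ 4 := by nlinarith [sq_nonneg (D3 w), sq_nonneg (D3 w ^ 2)]
      calc K * D3 w ^ 3 ≤ K * (1 + D3 w) ^ 4 := by gcongr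
        _ ≤ (K * K) * (1 + D3 w) ^ 4 := by
            have : K ≤ K * K := by nlinarith
            gcongr
        _ = _ := by ring
    rw [e2]
    calc √(K * D3 w ^ 3) * K ^ 2 ≤ (K * (1 + D3 w) ^ 2) * K ^ 2 := by gcongr
      _ = K ^ 3 * (1 + D3 w) ^ 2 := by ring
      _ ≤ (K ^ 3 * K) * (1 + D3 w) ^ 2 := by
          have : K ^ 3 ≤ K ^ 3 * K := by
            have : 0 ≤ K ^ 3 := by positivity
            nlinarith
          gcongr
      _ = _ := by ring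
  have h2 := hY1 (1458 ^ 2 * 12 * K ^ 2 * (1 + D3 w)) (D4 w) (by positivity) hD4
  have h3 : 1458 * √(D4 w * (12 * √(√(K * D3 w ^ 3) * √(K * K ^ 3))))
      ≤ √(1458 ^ 2 * 12 * K ^ 2 * (1 + D3 w) * D4 w ^ (1 : ℝ)) := by
    calc 1458 * √(D4 w * (12 * √(√(K * D3 w ^ 3) * √(K * K ^ 3))))
        ≤ 1458 * √(D4 w * (12 * (K ^ 2 * (1 + D3 w)))) := by gcongr
      _ = √(1458 ^ 2 * (D4 w * (12 * (K ^ 2 * (1 + D3 w))))) := by
          rw [Real.sqrt_mul (by norm_num : (0 : ℝ) ≤ 1458 ^ 2),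
            Real.sqrt_sq (by norm_num : (0 : ℝ) ≤ 1458)]
      _ = _ := by
          rw [Real.rpow_one]
          congr 1
          ring
  have e5 : (1458 ^ 2 * 12 * K ^ 2 * (1 + D3 w)) ^ (1 / (2 - 1) : ℝ)
      = 1458 ^ 2 * 12 * K ^ 2 * (1 + D3 w) := by
    norm_num
  rw [e5] at h2
  -- second term
  have h4 := hY2 (486 ^ 2 * 12 * K * D3 w ^ (1 / 4 : ℝ)) (D4 w) (by positivity) hD4
  have h5 : 486 * √(D4 w * (12 * √(√(K * K ^ 3) * √(D3 w * D4 w ^ 3))))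
      = √(486 ^ 2 * 12 * K * D3 w ^ (1 / 4 : ℝ) * D4 w ^ (7 / 4 : ℝ)) := by
    have e2 : √(K * K ^ 3) = K ^ 2 := by
      rw [show K * K ^ 3 = (K ^ 2) ^ 2 by ring, Real.sqrt_sq (by positivity)]
    have e6 : √(D3 w * D4 w ^ 3) = D3 w ^ (1 / 2 : ℝ) * D4 w ^ (3 / 2 : ℝ) := by
      rw [Real.sqrt_mul hD3, Real.sqrt_eq_rpow, Real.sqrt_eq_rpow, ← Real.rpow_natCast (D4 w),
        ← Real.rpow_mul hD4]
      norm_num
    have e7 : √(K ^ 2 * (D3 w ^ (1 / 2 : ℝ) * D4 w ^ (3 / 2 : ℝ)))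
        = K * (D3 w ^ (1 / 4 : ℝ) * D4 w ^ (3 / 4 : ℝ)) := by
      rw [Real.sqrt_mul (by positivity), Real.sqrt_sq hK0.le, Real.sqrt_mul (by positivity),
        Real.sqrt_eq_rpow, Real.sqrt_eq_rpow, ← Real.rpow_mul hD3, ← Real.rpow_mul hD4]
      norm_num
    have e8 : D4 w * D4 w ^ (3 / 4 : ℝ) = D4 w ^ (7 / 4 : ℝ) := by
      nth_rewrite 1 [← Real.rpow_one (D4 w)]
      rw [← Real.rpow_add_of_nonneg hD4 (by norm_num) (by norm_num)]
      norm_num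
    rw [e2, e6, e7]
    have e9 : 486 ^ 2 * 12 * K * D3 w ^ (1 / 4 : ℝ) * D4 w ^ (7 / 4 : ℝ)
        = 486 ^ 2 * (D4 w * (12 * (K * (D3 w ^ (1 / 4 : ℝ) * D4 w ^ (3 / 4 : ℝ))))) := by
      rw [← e8]
      ring
    rw [e9, Real.sqrt_mul (by norm_num : (0 : ℝ) ≤ 486 ^ 2),
      Real.sqrt_sq (by norm_num : (0 : ℝ) ≤ 486)]
  have e10 : (486 ^ 2 * 12 * K * D3 w ^ (1 / 4 : ℝ)) ^ (1 / (2 - 7 / 4) : ℝ)
      = (486 ^ 2 * 12 * K) ^ 4 * D3 w := by
    rw [show (1 / (2 - 7 / 4) : ℝ) = ((4 : ℕ) : ℝ) by norm_num, Real.rpow_natCast, mul_pow,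
      ← Real.rpow_natCast (D3 w ^ (1 / 4 : ℝ)), ← Real.rpow_mul hD3]
    norm_num
  rw [e10] at h4
  rw [← h5] at h4
  have h6 := h3.trans h2
  have h7 : 0 ≤ K2 * (486 ^ 2 * 12 * K) ^ 4 := by positivity
  have h8 : 2 * |NL3 w| ≤ 1458 * √(D4 w * (12 * √(√(K * D3 w ^ 3) * √(K * K ^ 3))))
      + 486 * √(D4 w * (12 * √(√(K * K ^ 3) * √(D3 w * D4 w ^ 3)))) := by linarith
  have h9 : K2 * ((486 ^ 2 * 12 * K) ^ 4 * D3 w) ≤ K2 * (486 ^ 2 * 12 * K) ^ 4 * (1 + D3 w) := by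
    nlinarith
  calc 2 * |NL3 w| ≤ _ := h8
    _ ≤ (ν / 2 * D4 w + K1 * (1458 ^ 2 * 12 * K ^ 2 * (1 + D3 w)))
        + (ν / 2 * D4 w + K2 * ((486 ^ 2 * 12 * K) ^ 4 * D3 w)) := add_le_add h6 h4
    _ ≤ _ := by linarith

end

end Pool.Agent.H305.OS
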