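import Pool.Agent.H305.OS.Main2

/-!
The conditions of integrability in space and time.
-/

set_option autoImplicit false

open MeasureTheory Set Metric Filter Topology
open scoped ContDiff ENNReal

namespace Pool.Agent.H305.OS

open H459R3.NS W221.NS Pool.Agent.V1183.PM
open Pool.Agent.W583.MD (sm_pd pd_mul')
open Pool.Agent.W22.ME.TD (pd_comm)
open Pool.Agent.H305.TI (it it_nil it_cons it_sm J_it dt_it)


/-- The hypothesis on the one-sided function of time. -/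
def HG (a₀ T σ G : ℝ) (g : ℝ → ℝ) : Prop :=
  ∀ s t : ℝ, a₀ < s → s ≤ t → t < T → ∀ A B : ℝ → ℝ≥0∞,
    AEMeasurable A (volume.restrict (Ioc s t)) → AEMeasurable B (volume.restrict (Ioc s t)) →
    ∫⁻ τ in Ioc s t, ENNReal.ofReal (g τ ^ σ) * (A τ ^ (1 / 4 : ℝ) * B τ ^ (σ / 2))
      ≤ ENNReal.ofReal G * ((∫⁻ τ in Ioc s t, A τ) ^ (1 / 4 : ℝ) * (∫⁻ τ in Ioc s t, B τ) ^ (σ / 2))

lemma De_cont {f : V → ℝ} (hf : HF f) (e : V) : Continuous (De e f) := by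
  unfold De
  exact continuous_finsetSum _ fun i _ => continuous_const.mul (hf.pd i).sm.continuous

/-- The Hölder inequality in space. -/
lemma space_holder {f : V → ℝ} (hf : HF f) (e : V) {β : ℝ≥0∞} {σ b : ℝ} (hb : b = β⁻¹.toReal)
    (hβ : β ≠ 0) (hb1 : b < 1) (hσ : σ = (1 - b)⁻¹) {g M : ℝ} (hg : 0 ≤ g) (hM : 0 ≤ M)
    (hm : eLpNorm (fun x => max (-(De e f x)) 0) β volume ≤ ENNReal.ofReal g)
    (hfM : sqi f ≤ ENNReal.ofReal M) :
    ∫⁻ y, ENNReal.ofReal (|f y| ^ (2 / σ) * max (-(De e f y)) 0)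
      ≤ ENNReal.ofReal (g * M ^ (1 / σ)) := by
  have h1b : 0 < 1 - b := by linarith
  have hσ0 : 0 < σ := by rw [hσ]; positivity
  have hb0 : 0 ≤ b := by rw [hb]; exact ENNReal.toReal_nonneg
  have hβi : β⁻¹ = ENNReal.ofReal b := by
    rw [hb, ENNReal.ofReal_toReal]
    exact ENNReal.inv_ne_top.2 hβ
  have hHT : ENNReal.HolderTriple (ENNReal.ofReal σ) β 1 := by
    refine ⟨?_⟩
    rw [hβi, ← ENNReal.ofReal_inv_of_pos hσ0, hσ, inv_inv, ← ENNReal.ofReal_add h1b.le hb0, inv_one]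
    norm_num
  have hφc : Continuous fun x => |f x| ^ (2 / σ) :=
    hf.sm.continuous.abs.rpow_const fun _ => Or.inr (by positivity)
  have hmc : Continuous fun x => max (-(De e f x)) 0 := ((De_cont hf e).neg).max continuous_const
  have h1 := eLpNorm_smul_le_mul_eLpNorm (μ := (volume : Measure V)) (p := ENNReal.ofReal σ) (q := β)
    (r := 1) (f := fun x => max (-(De e f x)) 0) hmc.aestronglyMeasurable
    (φ := fun x => |f x| ^ (2 / σ)) hφc.aestronglyMeasurable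
  have e1 : eLpNorm ((fun x => |f x| ^ (2 / σ)) • fun x => max (-(De e f x)) 0) 1 volume
      = ∫⁻ y, ENNReal.ofReal (|f y| ^ (2 / σ) * max (-(De e f y)) 0) := by
    rw [eLpNorm_one_eq_lintegral_enorm]
    apply lintegral_congr
    intro x
    simp only [Pi.smul_apply', smul_eq_mul]
    rw [Real.enorm_eq_ofReal (mul_nonneg (Real.rpow_nonneg (abs_nonneg _) _) (le_max_right _ _))]
  have e2 : eLpNorm (fun x => |f x| ^ (2 / σ)) (ENNReal.ofReal σ) volume = (sqi f) ^ (1 / σ) := by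
    rw [eLpNorm_eq_lintegral_rpow_enorm_toReal (ENNReal.ofReal_pos.2 hσ0).ne' ENNReal.ofReal_ne_top,
      ENNReal.toReal_ofReal hσ0.le]
    congr 1
    unfold sqi
    apply lintegral_congr
    intro x
    rw [Real.enorm_eq_ofReal (Real.rpow_nonneg (abs_nonneg _) _),
      ENNReal.ofReal_rpow_of_nonneg (Real.rpow_nonneg (abs_nonneg _) _) hσ0.le,
      ← Real.rpow_mul (abs_nonneg _), div_mul_cancel₀ _ hσ0.ne', Real.rpow_two, sq_abs]
  rw [e1, e2] at h1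
  refine h1.trans ?_
  rw [mul_comm g, ENNReal.ofReal_mul (by positivity), ← ENNReal.ofReal_rpow_of_nonneg hM (by positivity)]
  gcongr

/-- The Hölder inequality in time, for all directions. -/
lemma time_off {a₀ T σ b α : ℝ} {A β : ℝ≥0∞} (hb : b = β⁻¹.toReal) (hα : α = A⁻¹.toReal)
    (hA0 : A ≠ 0) (hab : 4 * α + 3 * b ≤ 1) (hσ : σ = (1 - b)⁻¹) {g : ℝ → ℝ}
    (hg : MemLp g A (volume.restrict (Ioo a₀ T))) :
    ∃ G : ℝ, HG a₀ T σ G (fun τ => |g τ|) := by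
  have hb0 : 0 ≤ b := by rw [hb]; exact ENNReal.toReal_nonneg
  have hα0 : 0 ≤ α := by rw [hα]; exact ENNReal.toReal_nonneg
  have hb3 : b ≤ 1 / 3 := by linarith
  have h1b : 0 < 1 - b := by linarith
  have hσ0 : 0 < σ := by rw [hσ]; positivity
  have hσb : σ * (1 - b) = 1 := by rw [hσ]; exact inv_mul_cancel₀ h1b.ne'
  have hσ2 : σ ≤ 3 / 2 := by nlinarith
  have hAi : A⁻¹ = ENNReal.ofReal α := by
    rw [hα, ENNReal.ofReal_toReal]
    exact ENNReal.inv_ne_top.2 hA0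
  have hsub : ∀ s t : ℝ, a₀ < s → t < T → Ioc s t ⊆ Ioo a₀ T := fun s t hs ht τ hτ =>
    ⟨hs.trans hτ.1, hτ.2.trans_lt ht⟩
  rcases eq_or_lt_of_le hb3 with hb13 | hb13
  · -- the endpoint
    have hα00 : α = 0 := by linarith
    have hAt : A = (⊤ : ℝ≥0∞) := by
      rw [hα00, ENNReal.ofReal_zero] at hAi
      exact ENNReal.inv_eq_zero.1 hAi
    have hσ32 : σ = 3 / 2 := by
      rw [hσ, hb13]
      norm_num
    rw [hAt] at hg
    obtain ⟨G₀, hG₀⟩ : ∃ G₀ : ℝ, G₀ = (eLpNorm g ⊤ (volume.restrict (Ioo a₀ T))).toReal := ⟨_, rfl⟩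
    have hG₀0 : 0 ≤ G₀ := by rw [hG₀]; exact ENNReal.toReal_nonneg
    have hae : ∀ᵐ τ ∂(volume.restrict (Ioo a₀ T)), |g τ| ≤ G₀ := by
      have h1 := ae_le_eLpNormEssSup (f := g) (μ := volume.restrict (Ioo a₀ T))
      have h2 := hg.2
      filter_upwards [h1] with τ hτ
      rw [hG₀, eLpNorm_exponent_top]
      rw [Real.enorm_eq_ofReal_abs] at hτ
      rw [eLpNorm_exponent_top] at h2
      exact (ENNReal.ofReal_le_iff_le_toReal h2.ne).1 hτ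
    refine ⟨G₀ ^ σ, ?_⟩
    intro s t hs hst ht F1 F2 hF1 hF2
    have hae' : ∀ᵐ τ ∂(volume.restrict (Ioc s t)), |g τ| ≤ G₀ :=
      ae_restrict_of_ae_restrict_of_subset (hsub s t hs ht) hae
    calc ∫⁻ τ in Ioc s t, ENNReal.ofReal (|g τ| ^ σ) * (F1 τ ^ (1 / 4 : ℝ) * F2 τ ^ (σ / 2))
        ≤ ∫⁻ τ in Ioc s t, ENNReal.ofReal (G₀ ^ σ) * (F1 τ ^ (1 / 4 : ℝ) * F2 τ ^ (σ / 2)) := by
          apply lintegral_mono_ae
          filter_upwards [hae'] with τ hτ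
          gcongr
      _ = ENNReal.ofReal (G₀ ^ σ) * ∫⁻ τ in Ioc s t, (F1 τ ^ (1 / 4 : ℝ) * F2 τ ^ (σ / 2)) :=
          lintegral_const_mul' _ _ ENNReal.ofReal_ne_top
      _ ≤ _ := by
          gcongr
          exact ENNReal.lintegral_mul_norm_pow_le hF1 hF2 (by norm_num) (by positivity)
            (by rw [hσ32]; norm_num)
  · -- the general case
    obtain ⟨θ, hθ⟩ : ∃ θ, θ = 3 / 4 - σ / 2 := ⟨_, rfl⟩
    have hθ0 : 0 < θ := by
      rw [hθ]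
      nlinarith
    obtain ⟨A', hA'⟩ : ∃ A', A' = σ / θ := ⟨_, rfl⟩
    have hA'0 : 0 < A' := by rw [hA']; positivity
    have hAA : ENNReal.ofReal A' ≤ A := by
      rw [← ENNReal.inv_le_inv, ← ENNReal.ofReal_inv_of_pos hA'0, hAi]
      apply ENNReal.ofReal_le_ofReal
      have e : A'⁻¹ = (1 - 3 * b) / 4 := by
        rw [hA', inv_div, hθ, div_eq_iff hσ0.ne']
        nlinarith
      rw [e]
      linarith
    have hg' : MemLp g (ENNReal.ofReal A') (volume.restrict (Ioo a₀ T)) := hg.mono_exponent hAA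
    have hfin : ∫⁻ τ in Ioo a₀ T, ‖g τ‖ₑ ^ A' ≠ (⊤ : ℝ≥0∞) := by
      have h1 := hg'.2
      rw [eLpNorm_eq_lintegral_rpow_enorm_toReal (ENNReal.ofReal_pos.2 hA'0).ne'
        ENNReal.ofReal_ne_top, ENNReal.toReal_ofReal hA'0.le] at h1
      intro h2
      rw [h2, ENNReal.top_rpow_of_pos (by positivity)] at h1
      exact absurd h1 (lt_irrefl _)
    refine ⟨((∫⁻ τ in Ioo a₀ T, ‖g τ‖ₑ ^ A') ^ θ).toReal, ?_⟩
    intro s t hs hst ht F1 F2 hF1 hF2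
    rw [ENNReal.ofReal_toReal (ENNReal.rpow_ne_top_of_nonneg hθ0.le hfin)]
    have hgm : AEMeasurable (fun τ => ‖g τ‖ₑ ^ A') (volume.restrict (Ioc s t)) := by
      have h1 := (hg.1.mono_measure (Measure.restrict_mono (hsub s t hs ht) le_rfl)).enorm
      exact h1.pow_const _
    have h1 := hol3 hgm hF1 hF2 (p := θ) (q := 1 / 4) (r := σ / 2) hθ0.le (by norm_num)
      (by positivity) (by rw [hθ]; ring)
    have e1 : ∀ τ, (‖g τ‖ₑ ^ A') ^ θ = ENNReal.ofReal (|g τ| ^ σ) := by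
      intro τ
      rw [← ENNReal.rpow_mul, hA', div_mul_cancel₀ _ hθ0.ne', Real.enorm_eq_ofReal_abs,
        ENNReal.ofReal_rpow_of_nonneg (abs_nonneg _) hσ0.le]
    simp only [e1, mul_assoc] at h1
    refine h1.trans ?_
    gcongr
    exact hsub s t hs ht

/-- The Hölder inequality in time, for oblique directions. -/
lemma time_obl {a₀ T σ b α : ℝ} {A β : ℝ≥0∞} (hb : b = β⁻¹.toReal) (hα : α = A⁻¹.toReal)
    (hA0 : A ≠ 0) (hab : 8 * α + 6 * b ≤ 3) (hb2 : b < 1 / 2) (hσ : σ = (1 - b)⁻¹) {g : ℝ → ℝ}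
    (hg : MemLp g A (volume.restrict (Ioo a₀ T))) :
    ∃ G : ℝ, ∀ s t : ℝ, a₀ < s → s ≤ t → t < T → ∀ F1 : ℝ → ℝ≥0∞,
      AEMeasurable F1 (volume.restrict (Ioc s t)) →
      ∫⁻ τ in Ioc s t, ENNReal.ofReal (|g τ| ^ (2 * σ / (2 - σ))) * F1 τ ^ (1 / 4 : ℝ)
        ≤ ENNReal.ofReal G * (∫⁻ τ in Ioc s t, F1 τ) ^ (1 / 4 : ℝ) := by
  have hb0 : 0 ≤ b := by rw [hb]; exact ENNReal.toReal_nonneg
  have h1b : 0 < 1 - b := by linarith
  have hσ0 : 0 < σ := by rw [hσ]; positivity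
  have hσb : σ * (1 - b) = 1 := by rw [hσ]; exact inv_mul_cancel₀ h1b.ne'
  have hσ2 : 0 < 2 - σ := by nlinarith
  have hAi : A⁻¹ = ENNReal.ofReal α := by
    rw [hα, ENNReal.ofReal_toReal]
    exact ENNReal.inv_ne_top.2 hA0
  have hsub : ∀ s t : ℝ, a₀ < s → t < T → Ioc s t ⊆ Ioo a₀ T := fun s t hs ht τ hτ =>
    ⟨hs.trans hτ.1, hτ.2.trans_lt ht⟩
  obtain ⟨ρ, hρ⟩ : ∃ ρ, ρ = 2 * σ / (2 - σ) := ⟨_, rfl⟩
  have hρ0 : 0 < ρ := by rw [hρ]; positivity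
  obtain ⟨A', hA'⟩ : ∃ A', A' = 4 * ρ / 3 := ⟨_, rfl⟩
  have hA'0 : 0 < A' := by rw [hA']; positivity
  have hAA : ENNReal.ofReal A' ≤ A := by
    rw [← ENNReal.inv_le_inv, ← ENNReal.ofReal_inv_of_pos hA'0, hAi]
    apply ENNReal.ofReal_le_ofReal
    have e : A'⁻¹ = 3 * (1 - 2 * b) / 8 := by
      have e1 : 2 - σ = σ * (1 - 2 * b) := by linarith
      have h12 : 0 < 1 - 2 * b := by linarith
      rw [hA', hρ, e1]
      field_simp
      norm_num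
    rw [e]
    linarith
  have hg' : MemLp g (ENNReal.ofReal A') (volume.restrict (Ioo a₀ T)) := hg.mono_exponent hAA
  have hfin : ∫⁻ τ in Ioo a₀ T, ‖g τ‖ₑ ^ A' ≠ (⊤ : ℝ≥0∞) := by
    have h1 := hg'.2
    rw [eLpNorm_eq_lintegral_rpow_enorm_toReal (ENNReal.ofReal_pos.2 hA'0).ne'
      ENNReal.ofReal_ne_top, ENNReal.toReal_ofReal hA'0.le] at h1
    intro h2
    rw [h2, ENNReal.top_rpow_of_pos (by positivity)] at h1
    exact absurd h1 (lt_irrefl _)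
  refine ⟨((∫⁻ τ in Ioo a₀ T, ‖g τ‖ₑ ^ A') ^ (3 / 4 : ℝ)).toReal, ?_⟩
  intro s t hs hst ht F1 hF1
  rw [ENNReal.ofReal_toReal (ENNReal.rpow_ne_top_of_nonneg (by norm_num) hfin), ← hρ]
  have hgm : AEMeasurable (fun τ => ‖g τ‖ₑ ^ A') (volume.restrict (Ioc s t)) := by
    have h1 := (hg.1.mono_measure (Measure.restrict_mono (hsub s t hs ht) le_rfl)).enorm
    exact h1.pow_const _
  have h1 := ENNReal.lintegral_mul_norm_pow_le hgm hF1 (p := 3 / 4) (q := 1 / 4) (by norm_num)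
    (by norm_num) (by norm_num)
  have e1 : ∀ τ, (‖g τ‖ₑ ^ A') ^ (3 / 4 : ℝ) = ENNReal.ofReal (|g τ| ^ ρ) := by
    intro τ
    rw [← ENNReal.rpow_mul, hA', show 4 * ρ / 3 * (3 / 4) = ρ by ring, Real.enorm_eq_ofReal_abs,
      ENNReal.ofReal_rpow_of_nonneg (abs_nonneg _) hρ0.le]
  simp only [e1] at h1
  refine h1.trans ?_
  gcongr
  exact hsub s t hs ht

section
variable {ν T : ℝ} {u : ℝ → V → V} {p : ℝ → V → ℝ} {a b c : Fin 3}

lemma inv_cancel' {ν : ℝ} (hν : 0 < ν) {I k : ℝ≥0∞} (h : ENNReal.ofReal ν * I ≤ k) :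
    I ≤ ENNReal.ofReal ν⁻¹ * k := by
  have hvv : ENNReal.ofReal ν⁻¹ * ENNReal.ofReal ν = 1 := by
    rw [← ENNReal.ofReal_mul (by positivity), inv_mul_cancel₀ hν.ne', ENNReal.ofReal_one]
  calc I = ENNReal.ofReal ν⁻¹ * (ENNReal.ofReal ν * I) := by rw [← mul_assoc, hvv, one_mul]
    _ ≤ _ := by gcongr

/-- The abstract condition in the case of all directions. -/
lemma HS.PS_off (h : HS ν T u p) (hT : Tri a b c) {a₀ σ E G : ℝ} (ha₀ : 0 < a₀) (hE : 0 ≤ E)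
    (h1 : 1 ≤ σ) (h2 : σ ≤ 3 / 2) {g : ℝ → ℝ} {e : ℝ → V}
    (he : ∀ τ ∈ Ioo a₀ T, ∑ i, e τ i ^ 2 = 1)
    (hos : ∀ τ ∈ Ioo a₀ T, 0 ≤ g τ ∧
      ∫⁻ y, ENNReal.ofReal (|cw u τ c y| ^ (2 / σ) * max (-(De (e τ) (cw u τ c) y)) 0)
        ≤ ENNReal.ofReal (g τ * E ^ (1 / σ)))
    (hGh : HG a₀ T σ G g) :
    ∃ K₁ ψ, PS ν T u a b a₀ K₁ ψ := by
  have hν := h.hν
  have hσ : 0 < σ := by linarith
  obtain ⟨C, hC, hfix⟩ := fixed_off h1 (by linarith) hν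
  obtain ⟨G', hG'⟩ : ∃ G', G' = max G 0 := ⟨_, rfl⟩
  have hG0 : 0 ≤ G' := by rw [hG']; exact le_max_right _ _
  have hGG : ENNReal.ofReal G ≤ ENNReal.ofReal G' := by
    rw [hG']
    exact ENNReal.ofReal_le_ofReal (le_max_left _ _)
  obtain ⟨v, hv⟩ : ∃ v : ℝ, v = ν⁻¹ := ⟨_, rfl⟩
  have hv0 : 0 < v := by rw [hv]; positivity
  refine ⟨C * E * G' * v ^ (σ / 2), fun τ => ENNReal.ofReal
    (C * ((g τ * E ^ (1 / σ)) ^ σ * (N2 (cw u τ) ^ ((2 - σ) / 2) * D2 (cw u τ) ^ (σ / 2)))),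
    by positivity, ?_, ?_⟩
  · intro τ hτ
    have hτ' : τ ∈ Ioo 0 T := ⟨ha₀.trans hτ.1, hτ.2⟩
    have k1 := hos τ hτ
    have k2 := hfix (cw u τ) (e τ) a b c (g τ * E ^ (1 / σ)) (fun i => h.cw_HF hτ' i)
      (h.div τ hτ') hT (he τ hτ) (mul_nonneg k1.1 (by positivity)) k1.2
    have hN := N2_nonneg (cw u τ)
    have hD := D2_nonneg (cw u τ)
    have hQ := Q2_nonneg (cw u τ) a b
    have hg := k1.1
    rw [← ENNReal.ofReal_add (by positivity) (by positivity)]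
    exact ENNReal.ofReal_le_ofReal k2
  · intro s t hs hst ht κ k hκt hkt hnk hκ hdk
    have hs0 : 0 < s := ha₀.trans hs
    obtain ⟨n, hn⟩ : ∃ n : ℝ → ℝ≥0∞, n = fun τ => ENNReal.ofReal (N2 (cw u τ)) := ⟨_, rfl⟩
    obtain ⟨d, hd⟩ : ∃ d : ℝ → ℝ≥0∞, d = fun τ => ENNReal.ofReal (D2 (cw u τ)) := ⟨_, rfl⟩
    have hnm : AEMeasurable n (volume.restrict (Ioc s t)) := by
      rw [hn]
      exact (h.N2_int hs0 ht).aestronglyMeasurable.aemeasurable.ennreal_ofReal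
    have hdm : AEMeasurable d (volume.restrict (Ioc s t)) := by
      rw [hd]
      exact (h.D2_int hs0 ht).aestronglyMeasurable.aemeasurable.ennreal_ofReal
    have hdk' : ∫⁻ τ in Ioc s t, d τ ≤ ENNReal.ofReal v * k := by
      rw [hd, hv]
      exact inv_cancel' hν hdk
    have k1 : ∀ τ ∈ Ioc s t, ENNReal.ofReal
        (C * ((g τ * E ^ (1 / σ)) ^ σ * (N2 (cw u τ) ^ ((2 - σ) / 2) * D2 (cw u τ) ^ (σ / 2))))
        ≤ ENNReal.ofReal (C * E) * k ^ ((3 / 2 - σ) / 2)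
        * (ENNReal.ofReal (g τ ^ σ) * (n τ ^ (1 / 4 : ℝ) * d τ ^ (σ / 2))) := by
      intro τ hτ
      have hτ2 : τ ∈ Ioo a₀ T := ⟨hs.trans hτ.1, hτ.2.trans_lt ht⟩
      have hg := (hos τ hτ2).1
      have hN := N2_nonneg (cw u τ)
      have hD := D2_nonneg (cw u τ)
      have e1 : ENNReal.ofReal
          (C * ((g τ * E ^ (1 / σ)) ^ σ * (N2 (cw u τ) ^ ((2 - σ) / 2) * D2 (cw u τ) ^ (σ / 2))))
          = ENNReal.ofReal (C * E) * (ENNReal.ofReal (g τ ^ σ)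
          * (n τ ^ ((2 - σ) / 2) * d τ ^ (σ / 2))) := by
        rw [hn, hd]
        simp only
        rw [ENNReal.ofReal_rpow_of_nonneg hN (by linarith),
          ENNReal.ofReal_rpow_of_nonneg hD (by linarith), ← ENNReal.ofReal_mul (by positivity),
          ← ENNReal.ofReal_mul (by positivity), ← ENNReal.ofReal_mul (by positivity),
          Real.mul_rpow hg (by positivity), ← Real.rpow_mul hE, one_div_mul_cancel hσ.ne',
          Real.rpow_one]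
        congr 1
        ring
      rw [e1]
      have e2 : n τ ^ ((2 - σ) / 2) ≤ k ^ ((3 / 2 - σ) / 2) * n τ ^ (1 / 4 : ℝ) := by
        have e3 : n τ ^ ((2 - σ) / 2) = n τ ^ ((3 / 2 - σ) / 2) * n τ ^ (1 / 4 : ℝ) := by
          rw [← ENNReal.rpow_add_of_nonneg _ _ (by linarith) (by norm_num)]
          congr 1
          ring
        rw [e3]
        have h5 := hnk τ hτ
        have h6 : n τ ≤ k := by rw [hn]; exact h5
        gcongr
      calc ENNReal.ofReal (C * E) * (ENNReal.ofReal (g τ ^ σ)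
          * (n τ ^ ((2 - σ) / 2) * d τ ^ (σ / 2)))
          ≤ ENNReal.ofReal (C * E) * (ENNReal.ofReal (g τ ^ σ)
          * ((k ^ ((3 / 2 - σ) / 2) * n τ ^ (1 / 4 : ℝ)) * d τ ^ (σ / 2))) := by gcongr
        _ = _ := by ring
    have kc : k ^ ((3 / 2 - σ) / 2) ≠ (⊤ : ℝ≥0∞) := ENNReal.rpow_ne_top_of_nonneg (by linarith) hkt
    calc ∫⁻ τ in Ioc s t, ENNReal.ofReal
            (C * ((g τ * E ^ (1 / σ)) ^ σ * (N2 (cw u τ) ^ ((2 - σ) / 2) * D2 (cw u τ) ^ (σ / 2))))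
        ≤ ∫⁻ τ in Ioc s t, ENNReal.ofReal (C * E) * k ^ ((3 / 2 - σ) / 2)
          * (ENNReal.ofReal (g τ ^ σ) * (n τ ^ (1 / 4 : ℝ) * d τ ^ (σ / 2))) :=
          setLIntegral_mono' measurableSet_Ioc k1
      _ = ENNReal.ofReal (C * E) * k ^ ((3 / 2 - σ) / 2) * ∫⁻ τ in Ioc s t,
          (ENNReal.ofReal (g τ ^ σ) * (n τ ^ (1 / 4 : ℝ) * d τ ^ (σ / 2))) :=
          lintegral_const_mul' _ _ (ENNReal.mul_ne_top ENNReal.ofReal_ne_top kc)
      _ ≤ ENNReal.ofReal (C * E) * k ^ ((3 / 2 - σ) / 2) * (ENNReal.ofReal G *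
          ((∫⁻ τ in Ioc s t, n τ) ^ (1 / 4 : ℝ) * (∫⁻ τ in Ioc s t, d τ) ^ (σ / 2))) := by
          gcongr
          exact hGh s t hs hst ht n d hnm hdm
      _ ≤ ENNReal.ofReal (C * E) * k ^ ((3 / 2 - σ) / 2) * (ENNReal.ofReal G' *
          (κ ^ (1 / 4 : ℝ) * (ENNReal.ofReal v * k) ^ (σ / 2))) := by
          have : ∫⁻ τ in Ioc s t, n τ ≤ κ := by rw [hn]; exact hκ
          gcongr
      _ = _ := by
          rw [ENNReal.mul_rpow_of_nonneg _ _ (by linarith : 0 ≤ σ / 2),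
            ENNReal.ofReal_mul (by positivity : 0 ≤ C * E * G'),
            ENNReal.ofReal_mul (by positivity : 0 ≤ C * E),
            ENNReal.ofReal_rpow_of_nonneg hv0.le (by linarith)]
          have e3 : k ^ ((3 / 2 - σ) / 2) * k ^ (σ / 2) = k ^ (3 / 4 : ℝ) := by
            rw [← ENNReal.rpow_add_of_nonneg _ _ (by linarith) (by linarith)]
            congr 1
            ring
          rw [← e3]
          ring

/-- The abstract condition in the case of oblique directions. -/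
lemma HS.PS_obl (h : HS ν T u p) (hT : Tri a b c) {a₀ σ E G δ₀ : ℝ} (ha₀ : 0 < a₀) (hE : 0 ≤ E)
    (h1 : 1 ≤ σ) (h2 : σ < 2) (hδ₀ : 0 < δ₀) {g : ℝ → ℝ} {e : ℝ → V}
    (he : ∀ τ ∈ Ioo a₀ T, δ₀ ≤ |e τ c|)
    (hos : ∀ τ ∈ Ioo a₀ T, 0 ≤ g τ ∧
      ∫⁻ y, ENNReal.ofReal (|cw u τ c y| ^ (2 / σ) * max (-(De (e τ) (cw u τ c) y)) 0)
        ≤ ENNReal.ofReal (g τ * E ^ (1 / σ)))
    (hGh : ∀ s t : ℝ, a₀ < s → s ≤ t → t < T → ∀ F1 : ℝ → ℝ≥0∞,
      AEMeasurable F1 (volume.restrict (Ioc s t)) →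
      ∫⁻ τ in Ioc s t, ENNReal.ofReal (g τ ^ (2 * σ / (2 - σ))) * F1 τ ^ (1 / 4 : ℝ)
        ≤ ENNReal.ofReal G * (∫⁻ τ in Ioc s t, F1 τ) ^ (1 / 4 : ℝ)) :
    ∃ K₁ ψ, PS ν T u a b a₀ K₁ ψ := by
  have hν := h.hν
  have hσ : 0 < σ := by linarith
  have hσ2 : 0 < 2 - σ := by linarith
  obtain ⟨C, hC, hfix⟩ := fixed_obl h1 h2 hν hδ₀
  obtain ⟨G', hG'⟩ : ∃ G', G' = max G 0 := ⟨_, rfl⟩
  have hG0 : 0 ≤ G' := by rw [hG']; exact le_max_right _ _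
  have hGG : ENNReal.ofReal G ≤ ENNReal.ofReal G' := by
    rw [hG']
    exact ENNReal.ofReal_le_ofReal (le_max_left _ _)
  obtain ⟨ρ, hρ⟩ : ∃ ρ, ρ = 2 * σ / (2 - σ) := ⟨_, rfl⟩
  have hρ0 : 0 < ρ := by rw [hρ]; positivity
  obtain ⟨E', hE'⟩ : ∃ E', E' = (E ^ (1 / σ)) ^ ρ := ⟨_, rfl⟩
  have hE'0 : 0 ≤ E' := by rw [hE']; positivity
  rw [← hρ] at hGh hfix
  refine ⟨C * E' * G', fun τ => ENNReal.ofReal
    (C * ((g τ * E ^ (1 / σ)) ^ ρ * N2 (cw u τ))), by positivity, ?_, ?_⟩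
  · intro τ hτ
    have hτ' : τ ∈ Ioo 0 T := ⟨ha₀.trans hτ.1, hτ.2⟩
    have k1 := hos τ hτ
    have k2 := hfix (cw u τ) (e τ) a b c (g τ * E ^ (1 / σ)) (fun i => h.cw_HF hτ' i)
      (h.div τ hτ') hT (he τ hτ) (mul_nonneg k1.1 (by positivity)) k1.2
    have hN := N2_nonneg (cw u τ)
    have hQ := Q2_nonneg (cw u τ) a b
    have hg := k1.1
    rw [← ENNReal.ofReal_add (by positivity) (by positivity)]
    exact ENNReal.ofReal_le_ofReal k2
  · intro s t hs hst ht κ k hκt hkt hnk hκ hdk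
    have hs0 : 0 < s := ha₀.trans hs
    obtain ⟨n, hn⟩ : ∃ n : ℝ → ℝ≥0∞, n = fun τ => ENNReal.ofReal (N2 (cw u τ)) := ⟨_, rfl⟩
    have hnm : AEMeasurable n (volume.restrict (Ioc s t)) := by
      rw [hn]
      exact (h.N2_int hs0 ht).aestronglyMeasurable.aemeasurable.ennreal_ofReal
    have k1 : ∀ τ ∈ Ioc s t, ENNReal.ofReal (C * ((g τ * E ^ (1 / σ)) ^ ρ * N2 (cw u τ)))
        ≤ ENNReal.ofReal (C * E') * k ^ (3 / 4 : ℝ)
        * (ENNReal.ofReal (g τ ^ ρ) * n τ ^ (1 / 4 : ℝ)) := by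
      intro τ hτ
      have hτ2 : τ ∈ Ioo a₀ T := ⟨hs.trans hτ.1, hτ.2.trans_lt ht⟩
      have hg := (hos τ hτ2).1
      have hN := N2_nonneg (cw u τ)
      have e1 : ENNReal.ofReal (C * ((g τ * E ^ (1 / σ)) ^ ρ * N2 (cw u τ)))
          = ENNReal.ofReal (C * E') * (ENNReal.ofReal (g τ ^ ρ) * n τ) := by
        rw [hn]
        simp only
        rw [← ENNReal.ofReal_mul (by positivity), ← ENNReal.ofReal_mul (by positivity),
          Real.mul_rpow hg (by positivity), hE']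
        congr 1
        ring
      rw [e1]
      have e2 : n τ ≤ k ^ (3 / 4 : ℝ) * n τ ^ (1 / 4 : ℝ) := by
        have e3 : n τ = n τ ^ (3 / 4 : ℝ) * n τ ^ (1 / 4 : ℝ) := by
          rw [← ENNReal.rpow_add_of_nonneg _ _ (by norm_num) (by norm_num)]
          norm_num
        have h5 := hnk τ hτ
        have h6 : n τ ≤ k := by rw [hn]; exact h5
        calc n τ = n τ ^ (3 / 4 : ℝ) * n τ ^ (1 / 4 : ℝ) := e3
          _ ≤ _ := by gcongr
      calc ENNReal.ofReal (C * E') * (ENNReal.ofReal (g τ ^ ρ) * n τ)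
          ≤ ENNReal.ofReal (C * E') * (ENNReal.ofReal (g τ ^ ρ)
          * (k ^ (3 / 4 : ℝ) * n τ ^ (1 / 4 : ℝ))) := by gcongr
        _ = _ := by ring
    have kc : k ^ (3 / 4 : ℝ) ≠ (⊤ : ℝ≥0∞) := ENNReal.rpow_ne_top_of_nonneg (by norm_num) hkt
    calc ∫⁻ τ in Ioc s t, ENNReal.ofReal (C * ((g τ * E ^ (1 / σ)) ^ ρ * N2 (cw u τ)))
        ≤ ∫⁻ τ in Ioc s t, ENNReal.ofReal (C * E') * k ^ (3 / 4 : ℝ)
          * (ENNReal.ofReal (g τ ^ ρ) * n τ ^ (1 / 4 : ℝ)) :=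
          setLIntegral_mono' measurableSet_Ioc k1
      _ = ENNReal.ofReal (C * E') * k ^ (3 / 4 : ℝ) * ∫⁻ τ in Ioc s t,
          (ENNReal.ofReal (g τ ^ ρ) * n τ ^ (1 / 4 : ℝ)) :=
          lintegral_const_mul' _ _ (ENNReal.mul_ne_top ENNReal.ofReal_ne_top kc)
      _ ≤ ENNReal.ofReal (C * E') * k ^ (3 / 4 : ℝ) * (ENNReal.ofReal G *
          (∫⁻ τ in Ioc s t, n τ) ^ (1 / 4 : ℝ)) := by
          gcongr
          exact hGh s t hs hst ht n hnm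
      _ ≤ ENNReal.ofReal (C * E') * k ^ (3 / 4 : ℝ) * (ENNReal.ofReal G' * κ ^ (1 / 4 : ℝ)) := by
          have : ∫⁻ τ in Ioc s t, n τ ≤ κ := by rw [hn]; exact hκ
          gcongr
      _ = _ := by
          rw [ENNReal.ofReal_mul (by positivity : 0 ≤ C * E')]
          ring

end

end Pool.Agent.H305.OS
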