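import Pool.Agent.H305.OS.Gen
import Pool.Graph.R_seed8.W22.ME.TD

/-!
Integration by parts and the Cauchy–Schwarz inequality.
-/

set_option autoImplicit false

open MeasureTheory Set Metric Filter Topology
open scoped ContDiff ENNReal

namespace Pool.Agent.H305.OS

open H459R3.NS W221.NS Pool.Agent.V1183.PM
open Pool.Agent.W583.MD (sm_pd pd_mul')
open Pool.Agent.W22.ME.TD (pd_comm)
open Pool.Agent.H305.TI (it it_nil it_cons it_sm)


section
variable {f g h F G : V → ℝ} {j a b m : Fin 3}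

lemma LF.integrable (hF : LF F) : Integrable F := by
  refine ⟨hF.cont.aestronglyMeasurable, ?_⟩
  rw [hasFiniteIntegral_iff_norm]
  exact lt_top_iff_ne_top.2 (hF.int [])

lemma LF.int_pd (hF : LF F) (m : Fin 3) : ∫ x, H459R3.NS.pd m F x = 0 := by
  have h1 := integral_mul_fderiv_eq_neg_fderiv_mul_of_integrable (μ := (volume : Measure V))
    (𝕜 := ℝ) (f := fun _ => (1 : ℝ)) (g := F) (v := (Pi.single m 1 : V)) (by simp)
    (by
      simp only [one_mul]
      exact (hF.pd m).integrable) (by simpa using hF.integrable)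
    (fun x _ => differentiableAt_const _) (fun x _ => (hF.sm.differentiable (by simp)) x)
  simp only [one_mul, fderiv_const_apply, zero_mul, integral_zero, neg_zero,
    ContinuousLinearMap.zero_apply, Pi.zero_apply] at h1
  exact h1

/-- The inner product. -/
noncomputable def ip (f g : V → ℝ) : ℝ := ∫ x, f x * g x

lemma ip_comm (f g : V → ℝ) : ip f g = ip g f := by
  unfold ip
  simp only [mul_comm]

lemma ip_self_nonneg (f : V → ℝ) : 0 ≤ ip f f := integral_nonneg fun x => mul_self_nonneg _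

lemma HF.ip_int (hf : HF f) (hg : HF g) : Integrable fun x => f x * g x := (hf.mulL hg).integrable

lemma HF.ip_ibp (hf : HF f) (hg : HF g) (m : Fin 3) : ip (H459R3.NS.pd m f) g = - ip f (H459R3.NS.pd m g) := by
  have h1 := (hf.mulL hg).int_pd m
  have h2 : ∀ x, H459R3.NS.pd m (fun x => f x * g x) x = f x * H459R3.NS.pd m g x + H459R3.NS.pd m f x * g x := fun x =>
    pd_mul' hf.sm hg.sm m x
  simp only [h2] at h1
  rw [integral_add (hf.ip_int (hg.pd m)) ((hf.pd m).ip_int hg)] at h1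
  unfold ip
  linarith

lemma HF.ip_add (hf : HF f) (hg : HF g) (hh : HF h) : ip f (fun x => g x + h x) = ip f g + ip f h := by
  unfold ip
  simp only [mul_add]
  rw [integral_add (hf.ip_int hg) (hf.ip_int hh)]

lemma ip_ofReal (hf : HF f) : ENNReal.ofReal (ip f f) = sqi f := by
  unfold ip sqi
  rw [ofReal_integral_eq_lintegral_ofReal (hf.ip_int hf) (Eventually.of_forall fun x =>
    mul_self_nonneg _)]
  simp only [sq]

lemma ip_toReal (hf : HF f) : ip f f = (sqi f).toReal := by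
  rw [← ip_ofReal hf, ENNReal.toReal_ofReal (ip_self_nonneg f)]

lemma ip_le (hf : HF f) {C : ℝ} (hC : 0 ≤ C) (h : sqi f ≤ ENNReal.ofReal C) : ip f f ≤ C := by
  rw [ip_toReal hf]
  exact ENNReal.toReal_le_of_le_ofReal hC h

lemma HF.ip_cs (hf : HF f) (hg : HF g) : ip f g ^ 2 ≤ ip f f * ip g g := by
  have h1 : ∀ t : ℝ, 0 ≤ ip f f * (t * t) + 2 * ip f g * t + ip g g := by
    intro t
    have h2 : 0 ≤ ∫ x, (t * f x + g x) ^ 2 := integral_nonneg fun x => sq_nonneg _
    have h3 : ∫ x, (t * f x + g x) ^ 2 = ip f f * (t * t) + 2 * ip f g * t + ip g g := by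
      have e : ∀ x, (t * f x + g x) ^ 2 = (t * t) * (f x * f x) + (2 * t) * (f x * g x) + g x * g x := by
        intro x
        ring
      simp only [e]
      have i1 : Integrable fun x => (t * t) * (f x * f x) := (hf.ip_int hf).const_mul _
      have i2 : Integrable fun x => (2 * t) * (f x * g x) := (hf.ip_int hg).const_mul _
      have i3 : Integrable fun x => (t * t) * (f x * f x) + (2 * t) * (f x * g x) := i1.add i2
      rw [integral_add i3 (hg.ip_int hg), integral_add i1 i2,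
        integral_const_mul, integral_const_mul]
      unfold ip
      ring
    rwa [h3] at h2
  have h4 := discrim_le_zero h1
  unfold discrim at h4
  nlinarith

lemma HF.ip_abs (hf : HF f) (hg : HF g) {A B : ℝ} (hA : 0 ≤ A) (hB : 0 ≤ B)
    (h1 : ip f f ≤ A ^ 2) (h2 : ip g g ≤ B ^ 2) : |ip f g| ≤ A * B := by
  apply abs_le_of_sq_le_sq _ (by positivity)
  calc ip f g ^ 2 ≤ ip f f * ip g g := hf.ip_cs hg
    _ ≤ A ^ 2 * B ^ 2 := mul_le_mul h1 h2 (ip_self_nonneg _) (sq_nonneg _)
    _ = (A * B) ^ 2 := by ring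

/-- The triple product, integrated by parts. -/
lemma HF.triple (hf : HF f) (hg : HF g) (hh : HF h) {m : Fin 3} {Λ Q : ℝ} (hΛ : 0 ≤ Λ) (hQ : 0 ≤ Q)
    (h1 : ip (fun x => f x * g x) (fun x => f x * g x) ≤ Λ ^ 2)
    (h2 : ip (fun x => f x * h x) (fun x => f x * h x) ≤ Λ ^ 2)
    (h3 : ip (H459R3.NS.pd m g) (H459R3.NS.pd m g) ≤ Q ^ 2) (h4 : ip (H459R3.NS.pd m h) (H459R3.NS.pd m h) ≤ Q ^ 2) :
    |∫ x, H459R3.NS.pd m f x * g x * h x| ≤ 2 * (Λ * Q) := by
  have e1 : ∫ x, H459R3.NS.pd m f x * g x * h x = ip (H459R3.NS.pd m f) (fun x => g x * h x) := by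
    unfold ip
    simp only [mul_assoc]
  rw [e1, hf.ip_ibp (hg.mul hh)]
  have e2 : H459R3.NS.pd m (fun x => g x * h x) = fun x => g x * H459R3.NS.pd m h x + H459R3.NS.pd m g x * h x := by
    funext x
    exact pd_mul' hg.sm hh.sm m x
  rw [e2, hf.ip_add (hg.mul (hh.pd m)) ((hg.pd m).mul hh)]
  have e3 : ip f (fun x => g x * H459R3.NS.pd m h x) = ip (fun x => f x * g x) (H459R3.NS.pd m h) := by
    unfold ip
    simp only [mul_assoc]
  have e4 : ip f (fun x => H459R3.NS.pd m g x * h x) = ip (fun x => f x * h x) (H459R3.NS.pd m g) := by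
    unfold ip
    congr 1
    funext x
    ring
  rw [e3, e4, abs_neg]
  have k1 := (hf.mul hg).ip_abs (hh.pd m) hΛ hQ h1 h4
  have k2 := (hf.mul hh).ip_abs (hg.pd m) hΛ hQ h2 h3
  have := abs_add_le (ip (fun x => f x * g x) (H459R3.NS.pd m h)) (ip (fun x => f x * h x) (H459R3.NS.pd m g))
  linarith

/-- The triple product, with fourth powers. -/
lemma HF.triple4 (hf : HF f) (hg : HF g) (hh : HF h) {Y Θ : ℝ} (hY : 0 ≤ Y) (hΘ : 0 ≤ Θ)
    (h1 : ip f f ≤ Y ^ 2)
    (h2 : ip (fun x => g x * g x) (fun x => g x * g x) ≤ Θ ^ 2)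
    (h3 : ip (fun x => h x * h x) (fun x => h x * h x) ≤ Θ ^ 2) :
    |∫ x, f x * g x * h x| ≤ Y * Θ := by
  have e1 : ∫ x, f x * g x * h x = ip f (fun x => g x * h x) := by
    unfold ip
    simp only [mul_assoc]
  rw [e1]
  apply hf.ip_abs (hg.mul hh) hY hΘ h1
  have e2 : ip (fun x => g x * h x) (fun x => g x * h x)
      = ip (fun x => g x * g x) (fun x => h x * h x) := by
    unfold ip
    congr 1
    funext x
    ring
  rw [e2]
  have k := (hg.mul hg).ip_abs (hh.mul hh) hΘ hΘ h2 h3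
  exact (le_abs_self _).trans (k.trans (le_of_eq (by ring)))

end

end Pool.Agent.H305.OS
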