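import Pool.Agent.H305.OS.Slice

/-!
Anisotropic inequalities.
-/

set_option autoImplicit false

open MeasureTheory Set Metric Filter Topology
open scoped ContDiff ENNReal

namespace Pool.Agent.H305.OS

open H459R3.NS W221.NS Pool.Agent.V1183.PM
open Pool.Agent.W583.MD (sm_pd pd_mul')
open Pool.Agent.H305.TI (it it_nil it_cons it_sm)


/-- The Cauchy–Schwarz inequality. -/
lemma gcs {X : Type*} [MeasurableSpace X] {μ : Measure X} {k u v : X → ℝ≥0∞}
    (hu : AEMeasurable u μ) (hv : AEMeasurable v μ) (h : ∀ x, k x ^ 2 ≤ u x * v x) :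
    (∫⁻ x, k x ∂μ) ^ 2 ≤ (∫⁻ x, u x ∂μ) * ∫⁻ x, v x ∂μ := by
  have h1 : ∀ x, k x ≤ u x ^ (1 / 2 : ℝ) * v x ^ (1 / 2 : ℝ) := by
    intro x
    rw [← ENNReal.mul_rpow_of_nonneg _ _ (by norm_num : (0 : ℝ) ≤ 1 / 2)]
    calc k x = (k x ^ 2) ^ (1 / 2 : ℝ) := by
          rw [← ENNReal.rpow_natCast, ← ENNReal.rpow_mul]
          norm_num
      _ ≤ _ := ENNReal.rpow_le_rpow (h x) (by norm_num)
  have h2 : ∫⁻ x, k x ∂μ ≤ (∫⁻ x, u x ∂μ) ^ (1 / 2 : ℝ) * (∫⁻ x, v x ∂μ) ^ (1 / 2 : ℝ) := by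
    refine (lintegral_mono h1).trans ?_
    have h3 := ENNReal.lintegral_mul_le_Lp_mul_Lq μ (p := 2) (q := 2)
      (Real.holderConjugate_iff.2 ⟨by norm_num, by norm_num⟩)
      (f := fun x => u x ^ (1 / 2 : ℝ)) (g := fun x => v x ^ (1 / 2 : ℝ))
      (hu.pow_const _) (hv.pow_const _)
    have h4 : ∀ y : ℝ≥0∞, (y ^ (1 / 2 : ℝ)) ^ (2 : ℝ) = y := by
      intro y
      rw [← ENNReal.rpow_mul]
      norm_num
    simp only [h4, Pi.mul_apply] at h3
    exact h3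
  calc (∫⁻ x, k x ∂μ) ^ 2 ≤ ((∫⁻ x, u x ∂μ) ^ (1 / 2 : ℝ) * (∫⁻ x, v x ∂μ) ^ (1 / 2 : ℝ)) ^ 2 :=
        pow_le_pow_left₀ (zero_le) h2 2
    _ = _ := by
        rw [mul_pow, ← ENNReal.rpow_natCast, ← ENNReal.rpow_natCast, ← ENNReal.rpow_mul,
          ← ENNReal.rpow_mul]
        norm_num

lemma two_d' {K P R : ℝ × ℝ → ℝ≥0∞} (hK : Measurable K) (hP : Measurable P) (hR : Measurable R)
    (h1 : ∀ z, K z ≤ ∫⁻ α', P (z.1, α')) (h2 : ∀ z, K z ≤ ∫⁻ β', R (β', z.2)) :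
    ∫⁻ z, K z ^ 2 ≤ (∫⁻ z, P z) * ∫⁻ z, R z := by
  rw [Measure.volume_eq_prod, lintegral_prod _ (hK.pow_const 2).aemeasurable,
    lintegral_prod _ hP.aemeasurable, lintegral_prod _ hR.aemeasurable]
  exact two_d (K := fun β α => K (β, α)) (P := fun β α => P (β, α)) (R := fun β α => R (β, α))
    hP hR (fun β α => h1 (β, α)) (fun β α => h2 (β, α))

section
variable {f g h F : V → ℝ} {j a b : Fin 3}

lemma Tri.fub2 (ht : Tri j a b) {F : V → ℝ≥0∞} (hF : Measurable F) :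
    ∫⁻ x, F x = ∫⁻ z : ℝ × ℝ, ∫⁻ s, F (pt j a s z.2 z.1) := by
  rw [Measure.volume_eq_prod, lintegral_prod _ (meas_cur1 hF j a).aemeasurable]
  exact ht.fub hF

lemma sl_meas (hF : Continuous F) (j a : Fin 3) : Measurable fun z : ℝ × ℝ => sl j a F z.2 z.1 := by
  have h1 : Continuous fun p : (ℝ × ℝ) × ℝ => F (pt j a p.2 p.1.2 p.1.1) := by
    apply hF.comp
    exact pt_cont.comp (by fun_prop : Continuous fun p : (ℝ × ℝ) × ℝ => (p.2, p.1.2, p.1.1))
  exact (h1.stronglyMeasurable.integral_prod_right').measurable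

lemma LF.sl_ofReal (hF : LF F) (ht : Tri j a b) (h0 : ∀ x, 0 ≤ F x) (α β : ℝ) :
    ENNReal.ofReal (sl j a F α β) = ∫⁻ s, ENNReal.ofReal (F (pt j a s α β)) :=
  ofReal_integral_eq_lintegral_ofReal (hF.s_int ht α β) (Eventually.of_forall fun s => h0 _)

/-- The square. -/
abbrev sqf (f : V → ℝ) : V → ℝ := fun x => f x * f x

lemma sqf_nonneg (f : V → ℝ) (x : V) : 0 ≤ sqf f x := mul_self_nonneg _

lemma HF.sqL (hf : HF f) : LF (sqf f) := hf.mulL hf

/-- The slices of the derivative of the square. -/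
lemma HF.sl_cs (hf : HF f) (ht : Tri j a b) (c : Fin 3) (α β : ℝ) :
    ENNReal.ofReal |sl j a (H459R3.NS.pd c (sqf f)) α β| ^ 2 ≤
      ENNReal.ofReal (4 * sl j a (sqf f) α β) * ENNReal.ofReal (sl j a (sqf (H459R3.NS.pd c f)) α β) := by
  have h1 : ENNReal.ofReal |sl j a (H459R3.NS.pd c (sqf f)) α β|
      ≤ ∫⁻ s, ENNReal.ofReal |H459R3.NS.pd c (sqf f) (pt j a s α β)| := by
    unfold sl
    have h2 := enorm_integral_le_lintegral_enorm (μ := (volume : Measure ℝ))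
      (fun s => H459R3.NS.pd c (sqf f) (pt j a s α β))
    simpa only [Real.enorm_eq_ofReal_abs] using h2
  have h2 : (∫⁻ s, ENNReal.ofReal |H459R3.NS.pd c (sqf f) (pt j a s α β)|) ^ 2
      ≤ (∫⁻ s, ENNReal.ofReal (4 * sqf f (pt j a s α β)))
        * ∫⁻ s, ENNReal.ofReal (sqf (H459R3.NS.pd c f) (pt j a s α β)) := by
    apply gcs
    · exact (continuous_const.mul (hf.sqL.cont_s j a α β)).measurable.ennreal_ofReal.aemeasurable
    · exact ((hf.pd c).sqL.cont_s j a α β).measurable.ennreal_ofReal.aemeasurable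
    · intro s
      rw [← ENNReal.ofReal_mul (by have := sqf_nonneg f (pt j a s α β); positivity),
        ← ENNReal.ofReal_pow (abs_nonneg _), sq_abs]
      apply ENNReal.ofReal_le_ofReal
      rw [sqf, pd_mul' hf.sm hf.sm]
      apply le_of_eq
      simp only [sqf]
      ring
  refine (pow_le_pow_left₀ (zero_le) h1 2).trans (h2.trans (le_of_eq ?_))
  rw [(hf.pd c).sqL.sl_ofReal ht (sqf_nonneg _), ENNReal.ofReal_mul (by norm_num),
    hf.sqL.sl_ofReal ht (sqf_nonneg _)]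
  congr 1
  simp_rw [ENNReal.ofReal_mul (by norm_num : (0 : ℝ) ≤ 4)]
  rw [lintegral_const_mul]
  exact (hf.sqL.cont_s j a α β).measurable.ennreal_ofReal

/-- The integrals of the powers of the integrals over lines. -/
noncomputable def II (j a : Fin 3) (f : V → ℝ) (p : ℝ) : ℝ≥0∞ :=
  ∫⁻ z : ℝ × ℝ, ENNReal.ofReal (sl j a (sqf f) z.2 z.1 ^ p)

lemma HF.II_one (hf : HF f) (ht : Tri j a b) : II j a f 1 = sqi f := by
  unfold II sqi
  have h1 := hf.sm.continuous.measurable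
  rw [ht.fub2 (by fun_prop)]
  apply lintegral_congr
  intro z
  rw [Real.rpow_one, hf.sqL.sl_ofReal ht (sqf_nonneg _)]
  simp only [sqf, sq]

lemma HF.P_aux (hf : HF f) (ht : Tri j a b) (c : Fin 3) {q : ℝ} (hq : 1 ≤ q) :
    (∫⁻ z : ℝ × ℝ, ENNReal.ofReal |sl j a (H459R3.NS.pd c (sqf f)) z.2 z.1 * q
      * sl j a (sqf f) z.2 z.1 ^ (q - 1)|) ^ 2
    ≤ (ENNReal.ofReal (4 * q ^ 2) * II j a f (2 * q - 1)) * sqi (H459R3.NS.pd c f) := by
  have hm := sl_meas hf.sqL.cont j a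
  have hm2 := sl_meas (hf.pd c).sqL.cont j a
  have h1 := (hf.pd c).II_one ht
  have h2 : ENNReal.ofReal (4 * q ^ 2) * II j a f (2 * q - 1)
      = ∫⁻ z : ℝ × ℝ, ENNReal.ofReal (4 * q ^ 2)
        * ENNReal.ofReal (sl j a (sqf f) z.2 z.1 ^ (2 * q - 1)) := by
    rw [lintegral_const_mul _ (by fun_prop)]
    rfl
  rw [h2, ← h1]
  unfold II
  apply gcs
  · refine Measurable.aemeasurable ?_
    fun_prop
  · simp only [Real.rpow_one]
    refine Measurable.aemeasurable ?_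
    fun_prop
  · intro z
    have h3 := hf.sl_cs ht c z.2 z.1
    have h0 : 0 ≤ sl j a (sqf f) z.2 z.1 := sl_nonneg (sqf_nonneg _) _ _
    have hp : 0 ≤ sl j a (sqf f) z.2 z.1 ^ (q - 1) := Real.rpow_nonneg h0 _
    rw [Real.rpow_one, mul_assoc, abs_mul, abs_of_nonneg (by positivity :
      0 ≤ q * sl j a (sqf f) z.2 z.1 ^ (q - 1)), ENNReal.ofReal_mul (abs_nonneg _), mul_pow]
    refine (mul_le_mul_left h3 _).trans (le_of_eq ?_)
    have e : (q * sl j a (sqf f) z.2 z.1 ^ (q - 1)) ^ 2 * (4 * sl j a (sqf f) z.2 z.1)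
        = 4 * q ^ 2 * sl j a (sqf f) z.2 z.1 ^ (2 * q - 1) := by
      rcases eq_or_lt_of_le h0 with h5 | h5
      · rw [← h5, Real.zero_rpow (by linarith : 2 * q - 1 ≠ 0)]
        ring
      · have : sl j a (sqf f) z.2 z.1 ^ (2 * q - 1)
            = sl j a (sqf f) z.2 z.1 ^ (q - 1) * sl j a (sqf f) z.2 z.1 ^ (q - 1)
              * sl j a (sqf f) z.2 z.1 := by
          nth_rewrite 4 [← Real.rpow_one (sl j a (sqf f) z.2 z.1)]
          rw [← Real.rpow_add h5, ← Real.rpow_add h5]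
          congr 1
          ring
        rw [this]
        ring
    rw [← ENNReal.ofReal_pow (by positivity), mul_comm (_ * _) (ENNReal.ofReal (_ ^ 2)), ← mul_assoc,
      ← ENNReal.ofReal_mul (by positivity), e, ENNReal.ofReal_mul (by positivity)]

/-- The recursion. -/
lemma HF.II_rec (hf : HF f) (ht : Tri j a b) {p : ℝ} (hp : 2 ≤ p) :
    II j a f p ^ 2 ≤ (ENNReal.ofReal (p ^ 2) * II j a f (p - 1)) ^ 2
      * (sqi (H459R3.NS.pd a f) * sqi (H459R3.NS.pd b f)) := by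
  obtain ⟨q, hq⟩ : ∃ q, q = p / 2 := ⟨_, rfl⟩
  have hq1 : 1 ≤ q := by rw [hq]; linarith
  have hpq : p = 2 * q := by rw [hq]; ring
  obtain ⟨P, hP⟩ : ∃ P : ℝ × ℝ → ℝ≥0∞, P = fun z => ENNReal.ofReal
      |sl j a (H459R3.NS.pd a (sqf f)) z.2 z.1 * q * sl j a (sqf f) z.2 z.1 ^ (q - 1)| := ⟨_, rfl⟩
  obtain ⟨R, hR⟩ : ∃ R : ℝ × ℝ → ℝ≥0∞, R = fun z => ENNReal.ofReal
      |sl j a (H459R3.NS.pd b (sqf f)) z.2 z.1 * q * sl j a (sqf f) z.2 z.1 ^ (q - 1)| := ⟨_, rfl⟩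
  have hm := sl_meas hf.sqL.cont j a
  have hma := sl_meas (hf.sqL.pd a).cont j a
  have hmb := sl_meas (hf.sqL.pd b).cont j a
  have hPm : Measurable P := by rw [hP]; fun_prop
  have hRm : Measurable R := by rw [hR]; fun_prop
  have h1 : ∀ z : ℝ × ℝ, ENNReal.ofReal (sl j a (sqf f) z.2 z.1 ^ q) ≤ ∫⁻ α', P (z.1, α') := by
    intro z
    rw [hP]
    exact hf.sqL.sl_pow ht (sqf_nonneg _) hq1 z.2 z.1
  have h2 : ∀ z : ℝ × ℝ, ENNReal.ofReal (sl j a (sqf f) z.2 z.1 ^ q) ≤ ∫⁻ β', R (β', z.2) := by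
    intro z
    rw [hR]
    have := hf.sqL.sl_pow ht.jb (sqf_nonneg _) hq1 z.1 z.2
    simp only [ht.sl_symm] at this
    exact this
  have h3 := two_d' (K := fun z : ℝ × ℝ => ENNReal.ofReal (sl j a (sqf f) z.2 z.1 ^ q))
    (by fun_prop) hPm hRm h1 h2
  have h4 : II j a f p = ∫⁻ z : ℝ × ℝ, ENNReal.ofReal (sl j a (sqf f) z.2 z.1 ^ q) ^ 2 := by
    unfold II
    apply lintegral_congr
    intro z
    have h0 : 0 ≤ sl j a (sqf f) z.2 z.1 := sl_nonneg (sqf_nonneg _) _ _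
    rw [← ENNReal.ofReal_pow (Real.rpow_nonneg h0 _), ← Real.rpow_natCast, ← Real.rpow_mul h0, hpq]
    congr 2
    push_cast
    ring
  have hPi := hf.P_aux ht a hq1
  have hRi := hf.P_aux ht b hq1
  rw [h4]
  have e1 : p ^ 2 = 4 * q ^ 2 := by rw [hpq]; ring
  have e2 : p - 1 = 2 * q - 1 := by rw [hpq]
  rw [e1, e2]
  calc (∫⁻ z : ℝ × ℝ, ENNReal.ofReal (sl j a (sqf f) z.2 z.1 ^ q) ^ 2) ^ 2
      ≤ ((∫⁻ z, P z) * ∫⁻ z, R z) ^ 2 := pow_le_pow_left₀ (zero_le) h3 2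
    _ = (∫⁻ z, P z) ^ 2 * (∫⁻ z, R z) ^ 2 := mul_pow _ _ _
    _ ≤ ((ENNReal.ofReal (4 * q ^ 2) * II j a f (2 * q - 1)) * sqi (H459R3.NS.pd a f))
        * ((ENNReal.ofReal (4 * q ^ 2) * II j a f (2 * q - 1)) * sqi (H459R3.NS.pd b f)) := by
        rw [hP, hR]
        exact mul_le_mul' hPi hRi
    _ = _ := by ring

lemma HF.II_two (hf : HF f) (ht : Tri j a b) :
    II j a f 2 ^ 2 ≤ 16 * sqi f ^ 2 * (sqi (H459R3.NS.pd a f) * sqi (H459R3.NS.pd b f)) := by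
  have h1 := hf.II_rec ht le_rfl
  rw [show (2 : ℝ) - 1 = 1 by norm_num, hf.II_one ht] at h1
  refine h1.trans (le_of_eq ?_)
  rw [mul_pow, ← ENNReal.ofReal_pow (by norm_num)]
  norm_num

lemma HF.II_three (hf : HF f) (ht : Tri j a b) :
    II j a f 3 ≤ 36 * (sqi f * (sqi (H459R3.NS.pd a f) * sqi (H459R3.NS.pd b f))) := by
  have h1 := hf.II_rec ht (p := 3) (by norm_num)
  rw [show (3 : ℝ) - 1 = 2 by norm_num] at h1
  have h2 := hf.II_two ht
  have h3 : II j a f 3 ^ 2 ≤ (36 * (sqi f * (sqi (H459R3.NS.pd a f) * sqi (H459R3.NS.pd b f)))) ^ 2 := by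
    refine h1.trans ?_
    rw [mul_pow, ← ENNReal.ofReal_pow (by norm_num)]
    calc ENNReal.ofReal ((3 ^ 2) ^ 2) * II j a f 2 ^ 2 * (sqi (H459R3.NS.pd a f) * sqi (H459R3.NS.pd b f))
        ≤ ENNReal.ofReal ((3 ^ 2) ^ 2) * (16 * sqi f ^ 2 * (sqi (H459R3.NS.pd a f) * sqi (H459R3.NS.pd b f)))
          * (sqi (H459R3.NS.pd a f) * sqi (H459R3.NS.pd b f)) := by gcongr
      _ = _ := by
          norm_num
          ring
  exact (ENNReal.pow_le_pow_left_iff (by norm_num)).1 h3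

/-- The one-sided trilinear inequality. -/
lemma HF.tri_os (hf : HF f) (hh : HF h) (ht : Tri j a b) {r : ℝ} (hr : 2 < r) :
    ∫⁻ x, ENNReal.ofReal (h x ^ 2 * f x ^ 2) ≤
      (∫⁻ x, ENNReal.ofReal (r * (|h x| ^ (r - 1) * max (-(H459R3.NS.pd j h x)) 0))) ^ (2 / r)
        * (II j a f (r / (r - 2))) ^ (1 - 2 / r) := by
  have hhc := hh.sm.continuous
  have hdc := (hh.pd j).sm.continuous
  have hfc := hf.sm.continuous
  have hMc : Measurable fun x => ENNReal.ofReal (r * (|h x| ^ (r - 1) * max (-(H459R3.NS.pd j h x)) 0)) := by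
    have := hhc.measurable
    have := hdc.measurable
    fun_prop
  obtain ⟨M, hM⟩ : ∃ M : ℝ × ℝ → ℝ≥0∞, M = fun z => ∫⁻ s, ENNReal.ofReal
    (r * (|h (pt j a s z.2 z.1)| ^ (r - 1) * max (-(H459R3.NS.pd j h (pt j a s z.2 z.1))) 0)) := ⟨_, rfl⟩
  have hMm : Measurable M := by
    rw [hM]
    exact meas_cur1 hMc j a
  have h1 : ∀ z : ℝ × ℝ, ∀ s, ENNReal.ofReal (h (pt j a s z.2 z.1) ^ 2) ≤ M z ^ (2 / r) := by
    intro z s
    have h2 := os_le hh.sm hh.tendsto_zero hr j (pt j a s z.2 z.1)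
    simp only [pt_j] at h2
    have h3 : ENNReal.ofReal (h (pt j a s z.2 z.1) ^ 2)
        = ENNReal.ofReal (|h (pt j a s z.2 z.1)| ^ r) ^ (2 / r) := by
      rw [ENNReal.ofReal_rpow_of_nonneg (Real.rpow_nonneg (abs_nonneg _) _) (by positivity),
        ← Real.rpow_mul (abs_nonneg _), mul_div_cancel₀ _ (by linarith : r ≠ 0), Real.rpow_two, sq_abs]
    rw [h3, hM]
    exact ENNReal.rpow_le_rpow h2 (by positivity)
  have hH := sl_meas hf.sqL.cont j a
  have hm1 : Measurable fun x => ENNReal.ofReal (h x ^ 2 * f x ^ 2) := by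
    have := hhc.measurable
    have := hfc.measurable
    fun_prop
  rw [ht.fub2 hm1, ht.fub2 hMc]
  have h2 : ∫⁻ z : ℝ × ℝ, ∫⁻ s, ENNReal.ofReal (h (pt j a s z.2 z.1) ^ 2 * f (pt j a s z.2 z.1) ^ 2)
      ≤ ∫⁻ z : ℝ × ℝ, M z ^ (2 / r) * ENNReal.ofReal (sl j a (sqf f) z.2 z.1) := by
    apply lintegral_mono
    intro z
    simp only
    rw [hf.sqL.sl_ofReal ht (sqf_nonneg _), ← lintegral_const_mul _
      (hf.sqL.cont_s j a z.2 z.1).measurable.ennreal_ofReal]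
    apply lintegral_mono
    intro s
    simp only
    rw [ENNReal.ofReal_mul (sq_nonneg _)]
    refine mul_le_mul' (h1 z s) (le_of_eq ?_)
    simp only [sqf, sq]
  refine h2.trans ?_
  have hr2 : r / (r - 2) ≠ 0 := by
    have : 0 < r - 2 := by linarith
    positivity
  have hc : (r / 2).HolderConjugate (r / (r - 2)) := by
    rw [Real.holderConjugate_iff]
    constructor
    · linarith
    · have : r - 2 ≠ 0 := by linarith
      have : r ≠ 0 := by linarith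
      field_simp
      ring
  have h3 := ENNReal.lintegral_mul_le_Lp_mul_Lq (volume : Measure (ℝ × ℝ)) hc
    (f := fun z => M z ^ (2 / r)) (g := fun z => ENNReal.ofReal (sl j a (sqf f) z.2 z.1))
    (hMm.pow_const _).aemeasurable hH.ennreal_ofReal.aemeasurable
  simp only [Pi.mul_apply] at h3
  refine h3.trans (le_of_eq ?_)
  have e1 : ∀ z, (M z ^ (2 / r)) ^ (r / 2) = M z := by
    intro z
    rw [← ENNReal.rpow_mul, show 2 / r * (r / 2) = 1 by
      have : r ≠ 0 := by linarith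
      field_simp, ENNReal.rpow_one]
  have e2 : 1 / (r / 2) = 2 / r := by
    have : r ≠ 0 := by linarith
    field_simp
  have e3 : 1 / (r / (r - 2)) = 1 - 2 / r := by
    have : r ≠ 0 := by linarith
    field_simp
  simp only [e1, e2, e3]
  congr 1
  · rw [hM]
  · congr 1
    unfold II
    apply lintegral_congr
    intro z
    rw [ENNReal.ofReal_rpow_of_nonneg (sl_nonneg (sqf_nonneg _) _ _) (by
      have : 0 < r - 2 := by linarith
      positivity)]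

/-- The Ladyzhenskaya inequality with the product of the norms of the derivatives. -/
lemma HF.lady (hf : HF f) (ht : Tri j a b) :
    (∫⁻ x, ENNReal.ofReal (f x ^ 2 * f x ^ 2)) ^ 2
      ≤ 144 * (sqi f * (sqi (H459R3.NS.pd j f) * sqi (H459R3.NS.pd a f) * sqi (H459R3.NS.pd b f))) := by
  have hfc := hf.sm.continuous
  have hH := sl_meas hf.sqL.cont j a
  have hJ := sl_meas (hf.pd j).sqL.cont j a
  have hm1 : Measurable fun x => ENNReal.ofReal (f x ^ 2 * f x ^ 2) := by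
    have := hfc.measurable
    fun_prop
  have hwc := (hf.sqL.pd j).meas_abs
  obtain ⟨M, hM⟩ : ∃ M : ℝ × ℝ → ℝ≥0∞, M = fun z => ∫⁻ s, ENNReal.ofReal
    |H459R3.NS.pd j (sqf f) (pt j a s z.2 z.1)| := ⟨_, rfl⟩
  have hMm : Measurable M := by
    rw [hM]
    exact meas_cur1 hwc j a
  rw [ht.fub2 hm1]
  have h2 : ∫⁻ z : ℝ × ℝ, ∫⁻ s, ENNReal.ofReal (f (pt j a s z.2 z.1) ^ 2 * f (pt j a s z.2 z.1) ^ 2)
      ≤ ∫⁻ z : ℝ × ℝ, M z * ENNReal.ofReal (sl j a (sqf f) z.2 z.1) := by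
    apply lintegral_mono
    intro z
    simp only
    rw [hf.sqL.sl_ofReal ht (sqf_nonneg _), ← lintegral_const_mul _
      (hf.sqL.cont_s j a z.2 z.1).measurable.ennreal_ofReal]
    apply lintegral_mono
    intro s
    simp only
    rw [ENNReal.ofReal_mul (sq_nonneg _)]
    have h3 := hf.sqL.le_j j a s z.2 z.1
    rw [abs_of_nonneg (sqf_nonneg _ _)] at h3
    have e : sqf f (pt j a s z.2 z.1) = f (pt j a s z.2 z.1) ^ 2 := by
      simp only [sqf, sq]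
    rw [e] at h3 ⊢
    rw [hM]
    exact mul_le_mul' h3 le_rfl
  have h3 : ∀ z, (M z * ENNReal.ofReal (sl j a (sqf f) z.2 z.1)) ^ 2
      ≤ ENNReal.ofReal (4 * sl j a (sqf f) z.2 z.1 ^ (3 : ℝ))
        * ENNReal.ofReal (sl j a (sqf (H459R3.NS.pd j f)) z.2 z.1 ^ (1 : ℝ)) := by
    intro z
    have h0 : 0 ≤ sl j a (sqf f) z.2 z.1 := sl_nonneg (sqf_nonneg _) _ _
    have h4 : M z ^ 2 ≤ ENNReal.ofReal (4 * sl j a (sqf f) z.2 z.1)
        * ENNReal.ofReal (sl j a (sqf (H459R3.NS.pd j f)) z.2 z.1) := by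
      have h5 : (∫⁻ s, ENNReal.ofReal |H459R3.NS.pd j (sqf f) (pt j a s z.2 z.1)|) ^ 2
          ≤ (∫⁻ s, ENNReal.ofReal (4 * sqf f (pt j a s z.2 z.1)))
            * ∫⁻ s, ENNReal.ofReal (sqf (H459R3.NS.pd j f) (pt j a s z.2 z.1)) := by
        apply gcs
        · exact (continuous_const.mul
            (hf.sqL.cont_s j a z.2 z.1)).measurable.ennreal_ofReal.aemeasurable
        · exact ((hf.pd j).sqL.cont_s j a z.2 z.1).measurable.ennreal_ofReal.aemeasurable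
        · intro s
          rw [← ENNReal.ofReal_mul (by have := sqf_nonneg f (pt j a s z.2 z.1); positivity),
            ← ENNReal.ofReal_pow (abs_nonneg _), sq_abs]
          apply ENNReal.ofReal_le_ofReal
          rw [sqf, pd_mul' hf.sm hf.sm]
          apply le_of_eq
          simp only [sqf]
          ring
      rw [hM]
      refine h5.trans (le_of_eq ?_)
      rw [(hf.pd j).sqL.sl_ofReal ht (sqf_nonneg _), ENNReal.ofReal_mul (by norm_num),
        hf.sqL.sl_ofReal ht (sqf_nonneg _)]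
      congr 1
      simp_rw [ENNReal.ofReal_mul (by norm_num : (0 : ℝ) ≤ 4)]
      rw [lintegral_const_mul]
      exact (hf.sqL.cont_s j a _ _).measurable.ennreal_ofReal
    rw [mul_pow, Real.rpow_one]
    refine (mul_le_mul_left h4 _).trans (le_of_eq ?_)
    rw [← ENNReal.ofReal_pow h0, mul_comm (_ * _) (ENNReal.ofReal (_ ^ 2)), ← mul_assoc,
      ← ENNReal.ofReal_mul (by positivity)]
    congr 2
    rw [show (3 : ℝ) = ((3 : ℕ) : ℝ) by norm_num, Real.rpow_natCast]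
    ring
  have h4 := gcs (μ := (volume : Measure (ℝ × ℝ))) (by
    refine Measurable.aemeasurable ?_
    fun_prop) (by
    refine Measurable.aemeasurable ?_
    simp only [Real.rpow_one]
    fun_prop) h3
  have e1 : ∫⁻ z : ℝ × ℝ, ENNReal.ofReal (4 * sl j a (sqf f) z.2 z.1 ^ (3 : ℝ))
      = 4 * II j a f 3 := by
    unfold II
    simp_rw [ENNReal.ofReal_mul (by norm_num : (0 : ℝ) ≤ 4)]
    rw [lintegral_const_mul _ (by fun_prop)]
    norm_num
  have e2 : ∫⁻ z : ℝ × ℝ, ENNReal.ofReal (sl j a (sqf (H459R3.NS.pd j f)) z.2 z.1 ^ (1 : ℝ))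
      = sqi (H459R3.NS.pd j f) := (hf.pd j).II_one ht
  rw [e1, e2] at h4
  refine (ENNReal.pow_le_pow_left h2).trans (h4.trans ?_)
  have h5 := hf.II_three ht
  calc 4 * II j a f 3 * sqi (H459R3.NS.pd j f)
      ≤ 4 * (36 * (sqi f * (sqi (H459R3.NS.pd a f) * sqi (H459R3.NS.pd b f)))) * sqi (H459R3.NS.pd j f) := by gcongr
    _ = _ := by ring

end

end Pool.Agent.H305.OS
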