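import Pool.Agent.H305.OS.Ibp

/-!
The cubic terms of the enstrophy identities.
-/

set_option autoImplicit false

open MeasureTheory Set Metric Filter Topology
open scoped ContDiff ENNReal

namespace Pool.Agent.H305.OS

open H459R3.NS W221.NS Pool.Agent.V1183.PM
open Pool.Agent.W583.MD (sm_pd pd_mul')
open Pool.Agent.W22.ME.TD (pd_comm)
open Pool.Agent.H305.TI (it it_nil it_cons it_sm)


/-- Sums of functions with small integrals. -/
lemma int_list {K : ℝ} (L : List (V → ℝ)) (h : ∀ F ∈ L, Integrable F ∧ |∫ x, F x| ≤ K) :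
    Integrable (fun x => (L.map fun F => F x).sum) ∧
      |∫ x, (L.map fun F => F x).sum| ≤ L.length * K := by
  induction L with
  | nil => simp
  | cons F L ih =>
    have h1 := h F (by simp)
    have h2 := ih fun G hG => h G (by simp [hG])
    simp only [List.map_cons, List.sum_cons, List.length_cons]
    refine ⟨h1.1.add h2.1, ?_⟩
    rw [integral_add h1.1 h2.1]
    have := abs_add_le (∫ x, F x) (∫ x, (L.map fun F => F x).sum)
    push_cast
    linarith [h1.2, h2.2]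

lemma int_sum2 {K : ℝ} {F : Fin 3 → Fin 3 → V → ℝ}
    (h : ∀ i j, Integrable (F i j) ∧ |∫ x, F i j x| ≤ K) :
    Integrable (fun x => ∑ i, ∑ j, F i j x) ∧ |∫ x, ∑ i, ∑ j, F i j x| ≤ 9 * K := by
  have h1 : ∀ i, Integrable fun x => ∑ j, F i j x := fun i =>
    integrable_finsetSum _ fun j _ => (h i j).1
  refine ⟨integrable_finsetSum _ fun i _ => h1 i, ?_⟩
  rw [integral_finsetSum _ fun i _ => h1 i]
  have h2 : ∀ i, |∫ x, ∑ j, F i j x| ≤ 3 * K := by
    intro i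
    rw [integral_finsetSum _ fun j _ => (h i j).1]
    refine (Finset.abs_sum_le_sum_abs _ _).trans ?_
    have : ∑ j : Fin 3, |∫ x, F i j x| ≤ ∑ _j : Fin 3, K := Finset.sum_le_sum fun j _ => (h i j).2
    simpa using this
  refine (Finset.abs_sum_le_sum_abs _ _).trans ?_
  have : ∑ i : Fin 3, |∫ x, ∑ j, F i j x| ≤ ∑ _i : Fin 3, 3 * K := Finset.sum_le_sum fun i _ => h2 i
  refine this.trans (le_of_eq ?_)
  simp
  ring

section
variable {w : Fin 3 → V → ℝ} {a b c : Fin 3}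

/-- The cubic integral. -/
noncomputable def RR (w : Fin 3 → V → ℝ) (m : Fin 3) : ℝ :=
  ∫ x, ∑ i, ∑ j, H459R3.NS.pd m (w j) x * H459R3.NS.pd j (w i) x * H459R3.NS.pd m (w i) x

lemma HF.tint {f g h : V → ℝ} (hf : HF f) (hg : HF g) (hh : HF h) :
    Integrable fun x => f x * g x * h x := (hf.mul hg).ip_int hh

lemma RR_int (hw : ∀ i, HF (w i)) (m : Fin 3) :
    Integrable fun x => ∑ i, ∑ j, H459R3.NS.pd m (w j) x * H459R3.NS.pd j (w i) x * H459R3.NS.pd m (w i) x :=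
  integrable_finsetSum _ fun i _ => integrable_finsetSum _ fun j _ =>
    ((hw j).pd m).tint ((hw i).pd j) ((hw i).pd m)

/-- The horizontal cubic term. -/
lemma kz (hw : ∀ i, HF (w i)) (hdiv : ∀ x, ∑ i, H459R3.NS.pd i (w i) x = 0) (ht : Tri a b c) {Λ Q : ℝ}
    (hΛ0 : 0 ≤ Λ) (hQ0 : 0 ≤ Q)
    (hΛ : ∀ i j, ip (fun x => w c x * H459R3.NS.pd j (w i) x) (fun x => w c x * H459R3.NS.pd j (w i) x) ≤ Λ ^ 2)
    (hQa : ∀ i j, ip (H459R3.NS.pd a (H459R3.NS.pd j (w i))) (H459R3.NS.pd a (H459R3.NS.pd j (w i))) ≤ Q ^ 2)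
    (hQb : ∀ i j, ip (H459R3.NS.pd b (H459R3.NS.pd j (w i))) (H459R3.NS.pd b (H459R3.NS.pd j (w i))) ≤ Q ^ 2) :
    |RR w a + RR w b| ≤ 32 * (Λ * Q) := by
  have ta : ∀ i j k l, Integrable (fun x => H459R3.NS.pd a (w c) x * H459R3.NS.pd j (w i) x * H459R3.NS.pd l (w k) x) ∧
      |∫ x, H459R3.NS.pd a (w c) x * H459R3.NS.pd j (w i) x * H459R3.NS.pd l (w k) x| ≤ 2 * (Λ * Q) := fun i j k l =>
    ⟨((hw c).pd a).tint ((hw i).pd j) ((hw k).pd l),
      (hw c).triple ((hw i).pd j) ((hw k).pd l) hΛ0 hQ0 (hΛ _ _) (hΛ _ _) (hQa _ _) (hQa _ _)⟩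
  have tb : ∀ i j k l, Integrable (fun x => H459R3.NS.pd b (w c) x * H459R3.NS.pd j (w i) x * H459R3.NS.pd l (w k) x) ∧
      |∫ x, H459R3.NS.pd b (w c) x * H459R3.NS.pd j (w i) x * H459R3.NS.pd l (w k) x| ≤ 2 * (Λ * Q) := fun i j k l =>
    ⟨((hw c).pd b).tint ((hw i).pd j) ((hw k).pd l),
      (hw c).triple ((hw i).pd j) ((hw k).pd l) hΛ0 hQ0 (hΛ _ _) (hΛ _ _) (hQb _ _) (hQb _ _)⟩
  have hQc : ∀ i j, j = a ∨ j = b → ip (H459R3.NS.pd c (H459R3.NS.pd j (w i))) (H459R3.NS.pd c (H459R3.NS.pd j (w i))) ≤ Q ^ 2 := by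
    intro i j hj
    rw [pd_comm (hw i).sm c j]
    rcases hj with h | h
    · rw [h]; exact hQa i c
    · rw [h]; exact hQb i c
  have tc : ∀ i j k l, (j = a ∨ j = b) → (l = a ∨ l = b) →
      Integrable (fun x => H459R3.NS.pd c (w c) x * H459R3.NS.pd j (w i) x * H459R3.NS.pd l (w k) x) ∧
      |∫ x, H459R3.NS.pd c (w c) x * H459R3.NS.pd j (w i) x * H459R3.NS.pd l (w k) x| ≤ 2 * (Λ * Q) := fun i j k l hj hl =>
    ⟨((hw c).pd c).tint ((hw i).pd j) ((hw k).pd l),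
      (hw c).triple ((hw i).pd j) ((hw k).pd l) hΛ0 hQ0 (hΛ _ _) (hΛ _ _) (hQc _ _ hj) (hQc _ _ hl)⟩
  have tn : ∀ i j k l, (j = a ∨ j = b) → (l = a ∨ l = b) →
      Integrable (fun x => -(H459R3.NS.pd c (w c) x * H459R3.NS.pd j (w i) x * H459R3.NS.pd l (w k) x)) ∧
      |∫ x, -(H459R3.NS.pd c (w c) x * H459R3.NS.pd j (w i) x * H459R3.NS.pd l (w k) x)| ≤ 2 * (Λ * Q) := fun i j k l hj hl => by
    have := tc i j k l hj hl
    refine ⟨this.1.neg, ?_⟩
    rw [integral_neg, abs_neg]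
    exact this.2
  have la : a = a ∨ a = b := Or.inl rfl
  have lb : b = a ∨ b = b := Or.inr rfl
  obtain ⟨L, hL⟩ : ∃ L : List (V → ℝ), L =
    [fun x => H459R3.NS.pd a (w c) x * H459R3.NS.pd a (w a) x * H459R3.NS.pd a (w c) x,
     fun x => H459R3.NS.pd a (w c) x * H459R3.NS.pd a (w b) x * H459R3.NS.pd b (w c) x,
     fun x => H459R3.NS.pd a (w c) x * H459R3.NS.pd c (w c) x * H459R3.NS.pd a (w c) x,
     fun x => H459R3.NS.pd a (w c) x * H459R3.NS.pd c (w a) x * H459R3.NS.pd a (w a) x,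
     fun x => H459R3.NS.pd a (w c) x * H459R3.NS.pd c (w b) x * H459R3.NS.pd a (w b) x,
     fun x => H459R3.NS.pd b (w c) x * H459R3.NS.pd b (w a) x * H459R3.NS.pd a (w c) x,
     fun x => H459R3.NS.pd b (w c) x * H459R3.NS.pd b (w b) x * H459R3.NS.pd b (w c) x,
     fun x => H459R3.NS.pd b (w c) x * H459R3.NS.pd c (w c) x * H459R3.NS.pd b (w c) x,
     fun x => H459R3.NS.pd b (w c) x * H459R3.NS.pd c (w a) x * H459R3.NS.pd b (w a) x,
     fun x => H459R3.NS.pd b (w c) x * H459R3.NS.pd c (w b) x * H459R3.NS.pd b (w b) x,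
     fun x => -(H459R3.NS.pd c (w c) x * H459R3.NS.pd a (w a) x * H459R3.NS.pd a (w a) x),
     fun x => -(H459R3.NS.pd c (w c) x * H459R3.NS.pd b (w a) x * H459R3.NS.pd b (w a) x),
     fun x => -(H459R3.NS.pd c (w c) x * H459R3.NS.pd a (w b) x * H459R3.NS.pd a (w b) x),
     fun x => -(H459R3.NS.pd c (w c) x * H459R3.NS.pd b (w b) x * H459R3.NS.pd b (w b) x),
     fun x => H459R3.NS.pd c (w c) x * H459R3.NS.pd a (w a) x * H459R3.NS.pd b (w b) x,
     fun x => -(H459R3.NS.pd c (w c) x * H459R3.NS.pd b (w a) x * H459R3.NS.pd a (w b) x)] := ⟨_, rfl⟩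
  have hLi : ∀ F ∈ L, Integrable F ∧ |∫ x, F x| ≤ 2 * (Λ * Q) := by
    rw [hL]
    simp only [List.mem_cons, List.not_mem_nil, or_false, forall_eq_or_imp, forall_eq]
    exact ⟨ta _ _ _ _, ta _ _ _ _, ta _ _ _ _, ta _ _ _ _, ta _ _ _ _, tb _ _ _ _, tb _ _ _ _,
      tb _ _ _ _, tb _ _ _ _, tb _ _ _ _, tn _ _ _ _ la la, tn _ _ _ _ lb lb, tn _ _ _ _ la la,
      tn _ _ _ _ lb lb, tc _ _ _ _ la lb, tn _ _ _ _ lb la⟩
  have h1 := int_list L hLi
  have h2 : RR w a + RR w b = ∫ x, (L.map fun F => F x).sum := by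
    unfold RR
    rw [← integral_add (RR_int hw a) (RR_int hw b)]
    congr 1
    funext x
    have hd := hdiv x
    rw [ht.sum] at hd
    rw [hL]
    simp only [ht.sum, List.map_cons, List.map_nil, List.sum_cons, List.sum_nil]
    have e : H459R3.NS.pd c (w c) x = -(H459R3.NS.pd a (w a) x) - H459R3.NS.pd b (w b) x := by linarith
    rw [e]
    ring
  rw [h2]
  have h3 : (L.length : ℝ) = 16 := by
    rw [hL]
    simp
  rw [h3] at h1
  linarith [h1.2]

/-- The full cubic term. -/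
lemma full (hw : ∀ i, HF (w i)) (hdiv : ∀ x, ∑ i, H459R3.NS.pd i (w i) x = 0) (ht : Tri a b c) {Y Θ : ℝ}
    (hY0 : 0 ≤ Y) (hΘ0 : 0 ≤ Θ)
    (hYa : ∀ i, ip (H459R3.NS.pd a (w i)) (H459R3.NS.pd a (w i)) ≤ Y ^ 2)
    (hYb : ∀ i, ip (H459R3.NS.pd b (w i)) (H459R3.NS.pd b (w i)) ≤ Y ^ 2)
    (hΘ : ∀ i j, ip (fun x => H459R3.NS.pd j (w i) x * H459R3.NS.pd j (w i) x) (fun x => H459R3.NS.pd j (w i) x * H459R3.NS.pd j (w i) x)
      ≤ Θ ^ 2) :
    |RR w a + RR w b + RR w c| ≤ 30 * (Y * Θ) := by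
  have hY : ∀ m, (m = a ∨ m = b) → ∀ i, ip (H459R3.NS.pd m (w i)) (H459R3.NS.pd m (w i)) ≤ Y ^ 2 := by
    intro m hm i
    rcases hm with h | h
    · rw [h]; exact hYa i
    · rw [h]; exact hYb i
  have t : ∀ m, (m = a ∨ m = b) → ∀ n i j k l,
      Integrable (fun x => H459R3.NS.pd m (w n) x * H459R3.NS.pd j (w i) x * H459R3.NS.pd l (w k) x) ∧
      |∫ x, H459R3.NS.pd m (w n) x * H459R3.NS.pd j (w i) x * H459R3.NS.pd l (w k) x| ≤ Y * Θ := fun m hm n i j k l =>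
    ⟨((hw n).pd m).tint ((hw i).pd j) ((hw k).pd l),
      ((hw n).pd m).triple4 ((hw i).pd j) ((hw k).pd l) hY0 hΘ0 (hY m hm n) (hΘ _ _) (hΘ _ _)⟩
  have tn : ∀ m, (m = a ∨ m = b) → ∀ n i j k l,
      Integrable (fun x => -(H459R3.NS.pd m (w n) x * H459R3.NS.pd j (w i) x * H459R3.NS.pd l (w k) x)) ∧
      |∫ x, -(H459R3.NS.pd m (w n) x * H459R3.NS.pd j (w i) x * H459R3.NS.pd l (w k) x)| ≤ Y * Θ := fun m hm n i j k l => by
    have := t m hm n i j k l
    refine ⟨this.1.neg, ?_⟩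
    rw [integral_neg, abs_neg]
    exact this.2
  have la : a = a ∨ a = b := Or.inl rfl
  have lb : b = a ∨ b = b := Or.inr rfl
  have ha : |RR w a| ≤ 9 * (Y * Θ) :=
    (int_sum2 (F := fun i j x => H459R3.NS.pd a (w j) x * H459R3.NS.pd j (w i) x * H459R3.NS.pd a (w i) x)
      fun i j => t a la _ _ _ _ _).2
  have hb : |RR w b| ≤ 9 * (Y * Θ) :=
    (int_sum2 (F := fun i j x => H459R3.NS.pd b (w j) x * H459R3.NS.pd j (w i) x * H459R3.NS.pd b (w i) x)
      fun i j => t b lb _ _ _ _ _).2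
  obtain ⟨L, hL⟩ : ∃ L : Fin 3 → List (V → ℝ), L = fun i =>
    [fun x => H459R3.NS.pd a (w i) x * H459R3.NS.pd c (w a) x * H459R3.NS.pd c (w i) x,
     fun x => H459R3.NS.pd b (w i) x * H459R3.NS.pd c (w b) x * H459R3.NS.pd c (w i) x,
     fun x => -(H459R3.NS.pd a (w a) x * H459R3.NS.pd c (w i) x * H459R3.NS.pd c (w i) x),
     fun x => -(H459R3.NS.pd b (w b) x * H459R3.NS.pd c (w i) x * H459R3.NS.pd c (w i) x)] := ⟨_, rfl⟩
  have hLi : ∀ i, ∀ F ∈ L i, Integrable F ∧ |∫ x, F x| ≤ Y * Θ := by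
    intro i
    rw [hL]
    simp only [List.mem_cons, List.not_mem_nil, or_false, forall_eq_or_imp, forall_eq]
    exact ⟨t a la _ _ _ _ _, t b lb _ _ _ _ _, tn a la _ _ _ _ _, tn b lb _ _ _ _ _⟩
  have h1 := fun i => int_list (L i) (hLi i)
  have hc : |RR w c| ≤ 12 * (Y * Θ) := by
    have e : RR w c = ∑ i, ∫ x, ((L i).map fun F => F x).sum := by
      unfold RR
      rw [← integral_finsetSum _ fun i _ => (h1 i).1]
      congr 1
      funext x
      have hd := hdiv x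
      rw [ht.sum] at hd
      apply Finset.sum_congr rfl
      intro i _
      rw [hL]
      simp only [ht.sum, List.map_cons, List.map_nil, List.sum_cons, List.sum_nil]
      have e : H459R3.NS.pd c (w c) x = -(H459R3.NS.pd a (w a) x) - H459R3.NS.pd b (w b) x := by linarith
      rw [e]
      ring
    rw [e]
    refine (Finset.abs_sum_le_sum_abs _ _).trans ?_
    have h3 : ∀ i, ((L i).length : ℝ) = 4 := by
      intro i
      rw [hL]
      simp
    have : ∑ i : Fin 3, |∫ x, ((L i).map fun F => F x).sum| ≤ ∑ _i : Fin 3, 4 * (Y * Θ) :=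
      Finset.sum_le_sum fun i _ => by
        have := (h1 i).2
        rwa [h3] at this
    refine this.trans (le_of_eq ?_)
    simp
    ring
  have k1 := abs_add_le (RR w a + RR w b) (RR w c)
  have k2 := abs_add_le (RR w a) (RR w b)
  linarith

end

end Pool.Agent.H305.OS
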