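import Pool.Agent.H305.OS.UF

/-!
Inequalities on lines.
-/

set_option autoImplicit false

open MeasureTheory Set Metric Filter Topology
open scoped ContDiff ENNReal

namespace Pool.Agent.H305.OS

open H459R3.NS W221.NS Pool.Agent.V1183.PM
open Pool.Agent.W583.MD (sm_pd pd_mul')
open Pool.Agent.H305.TI (it it_nil it_cons it_sm)

/-- The supremum on a line is bounded by the integral of the derivative. -/
lemma line1 {φ φ' : ℝ → ℝ} (hd : ∀ s, HasDerivAt φ (φ' s) s) (hc : Continuous φ')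
    (h0 : Tendsto φ atBot (𝓝 0)) (x : ℝ) :
    ENNReal.ofReal |φ x| ≤ ∫⁻ s, ENNReal.ofReal |φ' s| := by
  by_cases hfin : ∫⁻ s, ENNReal.ofReal |φ' s| = (⊤ : ℝ≥0∞)
  · rw [hfin]
    exact le_top
  have hint : Integrable φ' := by
    refine ⟨hc.aestronglyMeasurable, ?_⟩
    rw [hasFiniteIntegral_iff_norm]
    exact lt_top_iff_ne_top.2 hfin
  have h1 := integral_Iic_of_hasDerivAt_of_tendsto' (f := φ) (f' := φ') (a := x) (m := 0)
    (fun s _ => hd s) hint.integrableOn h0
  rw [sub_zero] at h1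
  rw [← h1]
  have h2 : |∫ s in Iic x, φ' s| ≤ ∫ s, |φ' s| := by
    calc |∫ s in Iic x, φ' s| ≤ ∫ s in Iic x, |φ' s| := abs_integral_le_integral_abs
      _ ≤ ∫ s, |φ' s| := setIntegral_le_integral hint.abs (Eventually.of_forall fun s => abs_nonneg _)
  refine (ENNReal.ofReal_le_ofReal h2).trans (le_of_eq ?_)
  exact ofReal_integral_eq_lintegral_ofReal hint.abs (Eventually.of_forall fun s => abs_nonneg _)

lemma cube_hd {r : ℝ} (hr : 2 < r) (y : ℝ) :
    HasDerivAt (fun y : ℝ => (|y| ^ r + y * |y| ^ (r - 1)) / 2)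
      (r * (|y| ^ (r - 2) * (y + |y|) / 2)) y := by
  have h1 := hasDerivAt_abs_rpow y (p := r) (by linarith)
  have h2 := hasDerivAt_abs_rpow y (p := r - 1) (by linarith)
  have h3 := (h1.add ((hasDerivAt_id y).mul h2)).div_const 2
  refine h3.congr_deriv ?_
  simp only [id]
  rcases eq_or_ne y 0 with hy | hy
  · subst hy
    simp [Real.zero_rpow (by linarith : r - 1 ≠ 0)]
  · have hp : 0 < |y| := abs_pos.2 hy
    have e1 : |y| ^ (r - 1) = |y| ^ (r - 2) * |y| := by
      rw [show r - 1 = (r - 2) + 1 by ring, Real.rpow_add hp, Real.rpow_one]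
    have e2 : y * ((r - 1) * |y| ^ (r - 1 - 2) * y) = (r - 1) * |y| ^ (r - 1) := by
      have : |y| ^ (r - 1) = |y| ^ (r - 1 - 2) * |y| ^ (2 : ℝ) := by
        rw [← Real.rpow_add hp]
        congr 1
        ring
      rw [this, Real.rpow_two, sq_abs]
      ring
    rw [e2, e1]
    ring

lemma os_pos {φ φ' : ℝ → ℝ} {r : ℝ} (hr : 2 < r) (hd : ∀ s, HasDerivAt φ (φ' s) s)
    (hc : Continuous φ') (h0 : Tendsto φ atTop (𝓝 0)) {x : ℝ} (hx : 0 ≤ φ x) :
    ENNReal.ofReal (φ x ^ r) ≤
      ∫⁻ s, ENNReal.ofReal (r * (|φ s| ^ (r - 1) * max (-φ' s) 0)) := by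
  have hφc : Continuous φ := continuous_iff_continuousAt.2 fun s => (hd s).continuousAt
  have hG : Continuous fun s => r * (|φ s| ^ (r - 1) * max (-φ' s) 0) := by
    refine continuous_const.mul (Continuous.mul ?_ (hc.neg.max continuous_const))
    exact hφc.abs.rpow_const fun s => Or.inr (by linarith)
  have hG0 : ∀ s, 0 ≤ r * (|φ s| ^ (r - 1) * max (-φ' s) 0) := by
    intro s
    have : 0 ≤ |φ s| ^ (r - 1) := Real.rpow_nonneg (abs_nonneg _) _
    positivity
  obtain ⟨F, hF⟩ : ∃ F : ℝ → ℝ, F = fun s => (|φ s| ^ r + φ s * |φ s| ^ (r - 1)) / 2 := ⟨_, rfl⟩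
  have hFd : ∀ s, HasDerivAt F (r * (|φ s| ^ (r - 2) * (φ s + |φ s|) / 2) * φ' s) s := by
    intro s
    rw [hF]
    exact (cube_hd hr (φ s)).comp s (hd s)
  have hFc : Continuous fun s => r * (|φ s| ^ (r - 2) * (φ s + |φ s|) / 2) * φ' s := by
    refine Continuous.mul (continuous_const.mul (Continuous.div_const (Continuous.mul ?_
      (hφc.add hφc.abs)) 2)) hc
    exact hφc.abs.rpow_const fun s => Or.inr (by linarith)
  have hFx : F x = φ x ^ r := by
    rw [hF]
    simp only
    rw [abs_of_nonneg hx]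
    rcases eq_or_lt_of_le hx with h | h
    · rw [← h, Real.zero_rpow (by linarith), Real.zero_rpow (by linarith)]
      simp
    · have : φ x * φ x ^ (r - 1) = φ x ^ r := by
        nth_rewrite 1 [← Real.rpow_one (φ x)]
        rw [← Real.rpow_add h]
        congr 1
        ring
      rw [this]
      ring
  have hF0 : Tendsto F atTop (𝓝 0) := by
    have h1 : Tendsto (fun y : ℝ => (|y| ^ r + y * |y| ^ (r - 1)) / 2) (𝓝 0) (𝓝 0) := by
      have := (cube_hd hr 0).continuousAt.tendsto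
      simpa [Real.zero_rpow (by linarith : r ≠ 0), Real.zero_rpow (by linarith : r - 1 ≠ 0)] using this
    rw [hF]
    exact h1.comp h0
  have hkey : ∀ b, x ≤ b → ENNReal.ofReal (F x) ≤ ENNReal.ofReal (F b)
      + ∫⁻ s, ENNReal.ofReal (r * (|φ s| ^ (r - 1) * max (-φ' s) 0)) := by
    intro b hb
    have h1 := intervalIntegral.integral_eq_sub_of_hasDerivAt (a := x) (b := b)
      (fun s _ => hFd s) (hFc.intervalIntegrable _ _)
    have h2 : -(∫ s in x..b, r * (|φ s| ^ (r - 2) * (φ s + |φ s|) / 2) * φ' s)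
        ≤ ∫ s in x..b, r * (|φ s| ^ (r - 1) * max (-φ' s) 0) := by
      rw [← intervalIntegral.integral_neg]
      apply intervalIntegral.integral_mono_on hb (hFc.neg.intervalIntegrable _ _)
        (hG.intervalIntegrable _ _)
      intro s _
      have k1 : 0 ≤ |φ s| ^ (r - 2) := Real.rpow_nonneg (abs_nonneg _) _
      have k2 : 0 ≤ φ s + |φ s| := by linarith [neg_abs_le (φ s)]
      have k3 : φ s + |φ s| ≤ 2 * |φ s| := by linarith [le_abs_self (φ s)]
      have k4 : |φ s| ^ (r - 2) * |φ s| = |φ s| ^ (r - 1) := by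
        rcases eq_or_ne (φ s) 0 with h | h
        · rw [h, abs_zero, Real.zero_rpow (by linarith : r - 1 ≠ 0), mul_zero]
        · rw [show r - 1 = (r - 2) + 1 by ring, Real.rpow_add (abs_pos.2 h), Real.rpow_one]
      have k5 : 0 ≤ |φ s| ^ (r - 2) * (φ s + |φ s|) / 2 := by positivity
      have k6 : |φ s| ^ (r - 2) * (φ s + |φ s|) / 2 ≤ |φ s| ^ (r - 1) := by
        rw [← k4]
        nlinarith [mul_le_mul_of_nonneg_left k3 k1]
      calc -(r * (|φ s| ^ (r - 2) * (φ s + |φ s|) / 2) * φ' s)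
          = r * ((|φ s| ^ (r - 2) * (φ s + |φ s|) / 2) * (-φ' s)) := by ring
        _ ≤ r * ((|φ s| ^ (r - 2) * (φ s + |φ s|) / 2) * max (-φ' s) 0) := by
            apply mul_le_mul_of_nonneg_left _ (by linarith)
            exact mul_le_mul_of_nonneg_left (le_max_left _ _) k5
        _ ≤ _ := by
            apply mul_le_mul_of_nonneg_left _ (by linarith)
            exact mul_le_mul_of_nonneg_right k6 (le_max_right _ _)
    have h3 : ENNReal.ofReal (∫ s in x..b, r * (|φ s| ^ (r - 1) * max (-φ' s) 0))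
        ≤ ∫⁻ s, ENNReal.ofReal (r * (|φ s| ^ (r - 1) * max (-φ' s) 0)) := by
      rw [intervalIntegral.integral_of_le hb, ofReal_integral_eq_lintegral_ofReal
        ((hG.integrableOn_Icc (a := x) (b := b)).mono_set Ioc_subset_Icc_self)
        (Eventually.of_forall hG0)]
      exact setLIntegral_le_lintegral _ _
    have h4 : F x ≤ F b + ∫ s in x..b, r * (|φ s| ^ (r - 1) * max (-φ' s) 0) := by linarith
    exact (ENNReal.ofReal_le_ofReal h4).trans (ENNReal.ofReal_add_le.trans (by gcongr))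
  rw [← hFx]
  have hlim : Tendsto (fun b => ENNReal.ofReal (F b)
      + ∫⁻ s, ENNReal.ofReal (r * (|φ s| ^ (r - 1) * max (-φ' s) 0))) atTop
      (𝓝 (ENNReal.ofReal 0 + ∫⁻ s, ENNReal.ofReal (r * (|φ s| ^ (r - 1) * max (-φ' s) 0)))) :=
    ((ENNReal.continuous_ofReal.tendsto 0).comp hF0).add tendsto_const_nhds
  rw [ENNReal.ofReal_zero, zero_add] at hlim
  exact ge_of_tendsto hlim ((eventually_ge_atTop x).mono hkey)

/-- The one-sided line inequality. -/
lemma line_os {φ φ' : ℝ → ℝ} {r : ℝ} (hr : 2 < r) (hd : ∀ s, HasDerivAt φ (φ' s) s)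
    (hc : Continuous φ') (hb : Tendsto φ atBot (𝓝 0)) (ht : Tendsto φ atTop (𝓝 0)) (x : ℝ) :
    ENNReal.ofReal (|φ x| ^ r) ≤
      ∫⁻ s, ENNReal.ofReal (r * (|φ s| ^ (r - 1) * max (-φ' s) 0)) := by
  rcases le_total 0 (φ x) with h | h
  · rw [abs_of_nonneg h]
    exact os_pos hr hd hc ht h
  · rw [abs_of_nonpos h]
    have h1 : ∀ s, HasDerivAt (fun s => - φ (-s)) (φ' (-s)) s := by
      intro s
      have h5 : HasDerivAt (fun s => φ (-s)) (φ' (-s) * (-1)) s :=
        (hd (-s)).comp s (hasDerivAt_neg s)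
      have h6 : HasDerivAt (fun s => -(φ (-s))) (-(φ' (-s) * (-1))) s := h5.neg
      exact h6.congr_deriv (by ring)
    have h4 : Tendsto (fun s => - φ (-s)) atTop (𝓝 0) := by
      have := (hb.comp tendsto_neg_atTop_atBot).neg
      simpa using this
    have h2 := os_pos (φ := fun s => - φ (-s)) (φ' := fun s => φ' (-s)) (x := -x) hr h1
      (hc.comp continuous_neg) h4 (by simp only [neg_neg]; linarith)
    simp only [neg_neg, abs_neg] at h2
    refine h2.trans (le_of_eq ?_)
    exact lintegral_neg_eq_self (μ := (volume : Measure ℝ))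
      (fun s => ENNReal.ofReal (r * (|φ s| ^ (r - 1) * max (-φ' s) 0)))

section
variable {f g : V → ℝ}

lemma upd_hd (x : V) (j : Fin 3) (s : ℝ) :
    HasDerivAt (fun s : ℝ => Function.update x j s) (Pi.single j 1 : V) s := by
  have := hasDerivAt_update x j s
  simpa using this

lemma line_hd (hf : ContDiff ℝ ∞ f) (x : V) (j : Fin 3) (s : ℝ) :
    HasDerivAt (fun s : ℝ => f (Function.update x j s)) (pd j f (Function.update x j s)) s :=
  ((hf.differentiable (by simp)) _).hasFDerivAt.comp_hasDerivAt s (upd_hd x j s)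

/-- A function of the class tends to zero at infinity. -/
lemma HF.tendsto_zero (h : HF f) : Tendsto f (cocompact V) (𝓝 0) := by
  obtain ⟨C0, hC0, h0⟩ := h.bd []
  obtain ⟨c0, hc0, k0⟩ := h.bd [0]
  obtain ⟨c1, hc1, k1⟩ := h.bd [1]
  obtain ⟨c2, hc2, k2⟩ := h.bd [2]
  obtain ⟨B, hB⟩ : ∃ B, B = c0 + c1 + c2 := ⟨_, rfl⟩
  have hB0 : 0 ≤ B := by rw [hB]; positivity
  have hpd : ∀ x j, |H459R3.NS.pd j f x| ≤ B := by
    intro x j
    fin_cases j
    · exact ((k0 0 (mem_univ _)).1 x).trans (by rw [hB]; linarith)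
    · exact ((k1 0 (mem_univ _)).1 x).trans (by rw [hB]; linarith)
    · exact ((k2 0 (mem_univ _)).1 x).trans (by rw [hB]; linarith)
  have hlip : ∀ x y, |f x - f y| ≤ 3 * B * ‖x - y‖ := fun x y =>
    lip_sp h.sm convex_univ (fun z _ j => hpd z j) (mem_univ _) (mem_univ _)
  have hsq : sqi f ≠ (⊤ : ℝ≥0∞) := ((h0 0 (mem_univ _)).2.trans_lt ENNReal.ofReal_lt_top).ne
  rw [Metric.tendsto_nhds]
  intro ε hε
  obtain ⟨δ, hδ⟩ : ∃ δ, δ = ε / (2 * (3 * B + 1)) := ⟨_, rfl⟩
  have hδ0 : 0 < δ := by rw [hδ]; positivity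
  have hδ1 : 3 * B * δ ≤ ε / 2 := by
    rw [hδ, mul_div_assoc', div_le_div_iff₀ (by positivity) (by norm_num)]
    nlinarith
  -- the tail
  obtain ⟨ν, hν⟩ : ∃ ν : Measure V, ν = volume.withDensity (fun x => ENNReal.ofReal (f x ^ 2)) :=
    ⟨_, rfl⟩
  have hνs : ∀ s, MeasurableSet s → ν s = ∫⁻ x in s, ENNReal.ofReal (f x ^ 2) := by
    intro s hs
    rw [hν, withDensity_apply _ hs]
  have hanti : Antitone fun n : ℕ => {y : V | (n : ℝ) < ‖y‖} := by
    intro a b hab y hy
    have : (a : ℝ) ≤ b := by exact_mod_cast hab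
    exact lt_of_le_of_lt this hy
  have hms : ∀ n : ℕ, MeasurableSet {y : V | (n : ℝ) < ‖y‖} := fun n =>
    measurableSet_lt measurable_const measurable_norm
  have htail := tendsto_measure_iInter_atTop (μ := ν) (fun n => (hms n).nullMeasurableSet) hanti
    ⟨0, by
      rw [hνs _ (hms 0)]
      exact ((setLIntegral_le_lintegral _ _).trans_lt (lt_top_iff_ne_top.2 hsq)).ne⟩
  have hemp : (⋂ n : ℕ, {y : V | (n : ℝ) < ‖y‖}) = ∅ := by
    rw [eq_empty_iff_forall_notMem]
    intro y hy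
    obtain ⟨n, hn⟩ := exists_nat_gt ‖y‖
    have := mem_iInter.1 hy n
    exact absurd hn (not_lt.2 (le_of_lt this))
  rw [hemp, measure_empty] at htail
  have hm : (0 : ℝ≥0∞) < ENNReal.ofReal ((ε / 2) ^ 2) * ENNReal.ofReal ((2 * δ) ^ 3) := by
    apply ENNReal.mul_pos
    · exact (ENNReal.ofReal_pos.2 (by positivity)).ne'
    · exact (ENNReal.ofReal_pos.2 (by positivity)).ne'
  obtain ⟨n, hn⟩ := (htail.eventually (gt_mem_nhds hm)).exists
  simp only [Function.comp] at hn
  rw [hνs _ (hms n)] at hn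
  have hco : ∀ᶠ x in cocompact V, x ∈ (closedBall (0 : V) (n + δ))ᶜ :=
    (isCompact_closedBall (0 : V) (n + δ)).compl_mem_cocompact
  filter_upwards [hco] with x hx
  rw [dist_zero_right, Real.norm_eq_abs]
  by_contra hcon
  push Not at hcon
  rw [mem_compl_iff, mem_closedBall, dist_zero_right, not_le] at hx
  have hsub : ball x δ ⊆ {y : V | (n : ℝ) < ‖y‖} := by
    intro y hy
    rw [mem_ball, dist_eq_norm] at hy
    have : ‖x‖ ≤ ‖y - x‖ + ‖y‖ := by
      calc ‖x‖ = ‖y - (y - x)‖ := by congr 1; abel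
        _ ≤ ‖y‖ + ‖y - x‖ := norm_sub_le _ _
        _ = _ := by ring
    show (n : ℝ) < ‖y‖
    linarith
  have hlow : ENNReal.ofReal ((ε / 2) ^ 2) * ENNReal.ofReal ((2 * δ) ^ 3)
      ≤ ∫⁻ y in ball x δ, ENNReal.ofReal (f y ^ 2) := by
    have e : ENNReal.ofReal ((ε / 2) ^ 2) * ENNReal.ofReal ((2 * δ) ^ 3)
        = ∫⁻ _y in ball x δ, ENNReal.ofReal ((ε / 2) ^ 2) := by
      rw [setLIntegral_const, Real.volume_pi_ball _ hδ0]
      simp
    rw [e]
    apply setLIntegral_mono' measurableSet_ball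
    intro y hy
    apply ENNReal.ofReal_le_ofReal
    rw [← sq_abs (f y)]
    apply pow_le_pow_left₀ (by positivity)
    have h1 := hlip x y
    rw [mem_ball, dist_eq_norm] at hy
    have h2 : 3 * B * ‖x - y‖ ≤ ε / 2 := by
      rw [norm_sub_rev] at hy
      exact (mul_le_mul_of_nonneg_left hy.le (by positivity)).trans hδ1
    have h3 := abs_sub_abs_le_abs_sub (f x) (f y)
    linarith
  exact absurd (hlow.trans (lintegral_mono_set hsub)) (not_le.2 hn)

lemma upd_norm (x : V) (j : Fin 3) (s : ℝ) : |s| ≤ ‖Function.update x j s‖ := by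
  have := norm_le_pi_norm (Function.update x j s) j
  simpa using this

lemma upd_cocompact_bot (x : V) (j : Fin 3) :
    Tendsto (fun s : ℝ => Function.update x j s) atBot (cocompact V) := by
  rw [← Metric.cobounded_eq_cocompact, ← tendsto_norm_atTop_iff_cobounded]
  exact tendsto_atTop_mono (fun s => upd_norm x j s) tendsto_abs_atBot_atTop

lemma upd_cocompact_top (x : V) (j : Fin 3) :
    Tendsto (fun s : ℝ => Function.update x j s) atTop (cocompact V) := by
  rw [← Metric.cobounded_eq_cocompact, ← tendsto_norm_atTop_iff_cobounded]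
  exact tendsto_atTop_mono (fun s => upd_norm x j s) tendsto_abs_atTop_atTop

/-- The supremum on a line parallel to a coordinate axis. -/
lemma line_le (h : ContDiff ℝ ∞ f) (h0 : Tendsto f (cocompact V) (𝓝 0)) (x : V) (j : Fin 3) :
    ENNReal.ofReal |f x| ≤ ∫⁻ s, ENNReal.ofReal |pd j f (Function.update x j s)| := by
  have h1 := line1 (φ := fun s => f (Function.update x j s))
    (φ' := fun s => pd j f (Function.update x j s)) (fun s => line_hd h x j s)
    ((sm_pd h j).continuous.comp (continuous_const.update j continuous_id))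
    (h0.comp (upd_cocompact_bot x j)) (x j)
  simpa using h1

/-- The one-sided inequality. -/
lemma os_le (h : ContDiff ℝ ∞ f) (h0 : Tendsto f (cocompact V) (𝓝 0)) {r : ℝ} (hr : 2 < r)
    (j : Fin 3) (x : V) :
    ENNReal.ofReal (|f x| ^ r) ≤ ∫⁻ s, ENNReal.ofReal (r * (|f (Function.update x j s)| ^ (r - 1)
      * max (-(pd j f (Function.update x j s))) 0)) := by
  have h1 := line_os (φ := fun s => f (Function.update x j s))
    (φ' := fun s => pd j f (Function.update x j s)) hr (fun s => line_hd h x j s)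
    ((sm_pd h j).continuous.comp (continuous_const.update j continuous_id))
    (h0.comp (upd_cocompact_bot x j)) (h0.comp (upd_cocompact_top x j)) (x j)
  simpa using h1

end

end Pool.Agent.H305.OS
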