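import Pool.Agent.H305.OS.Close
import Pool.Agent.H305.OS.Fix2

/-!
The bound of the enstrophy under an abstract condition.
-/

set_option autoImplicit false

open MeasureTheory Set Metric Filter Topology
open scoped ContDiff ENNReal

namespace Pool.Agent.H305.OS

open H459R3.NS W221.NS Pool.Agent.V1183.PM
open Pool.Agent.W583.MD (sm_pd pd_mul')
open Pool.Agent.W22.ME.TD (pd_comm)
open Pool.Agent.H305.TI (it it_nil it_cons it_sm J_it dt_it)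


/-- The abstract condition on the horizontal cubic term. -/
structure PS (ν T : ℝ) (u : ℝ → V → V) (a b : Fin 3) (a₀ K₁ : ℝ) (ψ : ℝ → ℝ≥0∞) : Prop where
  hK : 0 ≤ K₁
  hb : ∀ τ ∈ Ioo a₀ T, ENNReal.ofReal (2 * |RR (cw u τ) a + RR (cw u τ) b|)
      ≤ ENNReal.ofReal (ν * Q2 (cw u τ) a b) + ψ τ
  hi : ∀ s t : ℝ, a₀ < s → s ≤ t → t < T → ∀ κ k : ℝ≥0∞, κ ≠ (⊤ : ℝ≥0∞) → k ≠ (⊤ : ℝ≥0∞) →
    (∀ τ ∈ Ioc s t, ENNReal.ofReal (N2 (cw u τ)) ≤ k) →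
    ∫⁻ τ in Ioc s t, ENNReal.ofReal (N2 (cw u τ)) ≤ κ →
    ENNReal.ofReal ν * ∫⁻ τ in Ioc s t, ENNReal.ofReal (D2 (cw u τ)) ≤ k →
    ∫⁻ τ in Ioc s t, ψ τ ≤ ENNReal.ofReal K₁ * κ ^ (1 / 4 : ℝ) * k ^ (3 / 4 : ℝ)

section
variable {ν T : ℝ} {u : ℝ → V → V} {p : ℝ → V → ℝ} {s t : ℝ} {a b c : Fin 3}

lemma HS.step' (h : HS ν T u p) {a b c : Fin 3} (hT : Tri a b c) {a₀ K₁ : ℝ} (ha₀ : 0 < a₀)
    {ψ1 : ℝ → ℝ≥0∞} (hps : PS ν T u a b a₀ K₁ ψ1)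
    (hs : a₀ < s) (hst : s ≤ t) (ht : t < T) {κ : ℝ≥0∞}
    (hκ : ∫⁻ τ in Ioc s t, ENNReal.ofReal (N2 (cw u τ)) ≤ κ) (hκt : κ ≠ (⊤ : ℝ≥0∞)) :
    ∃ k : ℝ≥0∞, k ≠ (⊤ : ℝ≥0∞) ∧ ENNReal.ofReal (N2 (cw u t)) ≤ k ∧
      ENNReal.ofReal ν * ∫⁻ τ in Ioc s t, ENNReal.ofReal (D2 (cw u τ)) ≤ k ∧
      k ≤ ENNReal.ofReal (N2 (cw u s))
        + ENNReal.ofReal 240 * ENNReal.ofReal ν⁻¹ ^ (3 / 4 : ℝ) * κ ^ (1 / 4 : ℝ)
            * (ENNReal.ofReal (n1 (cw u s) a + n1 (cw u s) b)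
              + ENNReal.ofReal K₁ * κ ^ (1 / 4 : ℝ) * k ^ (3 / 4 : ℝ)) * k ^ (1 / 4 : ℝ) := by
  have hs0 : 0 < s := ha₀.trans hs
  have hν := h.hν
  obtain ⟨n, hn⟩ : ∃ n : ℝ → ℝ≥0∞, n = fun τ => ENNReal.ofReal (N2 (cw u τ)) := ⟨_, rfl⟩
  obtain ⟨d, hd⟩ : ∃ d : ℝ → ℝ≥0∞, d = fun τ => ENNReal.ofReal (D2 (cw u τ)) := ⟨_, rfl⟩
  obtain ⟨q, hq⟩ : ∃ q : ℝ → ℝ≥0∞, q = fun τ => ENNReal.ofReal (Q2 (cw u τ) a b) := ⟨_, rfl⟩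
  obtain ⟨y, hy⟩ : ∃ y : ℝ → ℝ≥0∞, y = fun τ =>
    ENNReal.ofReal (n1 (cw u τ) a + n1 (cw u τ) b) := ⟨_, rfl⟩
  have hnm : AEMeasurable n (volume.restrict (Ioc s t)) := by
    rw [hn]
    exact (h.N2_int hs0 ht).aestronglyMeasurable.aemeasurable.ennreal_ofReal
  have hdm : AEMeasurable d (volume.restrict (Ioc s t)) := by
    rw [hd]
    exact (h.D2_int hs0 ht).aestronglyMeasurable.aemeasurable.ennreal_ofReal
  have hqm : AEMeasurable q (volume.restrict (Ioc s t)) := by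
    rw [hq]
    exact (h.Q2_int hs0 ht a b).aestronglyMeasurable.aemeasurable.ennreal_ofReal
  have hb1 : ∀ τ ∈ Ioc s t, ENNReal.ofReal (2 * |RR (cw u τ) a + RR (cw u τ) b|)
      ≤ ENNReal.ofReal (ν * Q2 (cw u τ) a b) + ψ1 τ := fun τ hτ =>
    hps.hb τ ⟨hs.trans hτ.1, hτ.2.trans_lt ht⟩
  obtain ⟨ψ2, hψ2⟩ : ∃ ψ2 : ℝ → ℝ≥0∞, ψ2 = fun τ => ENNReal.ofReal
    (240 * ((n1 (cw u τ) a + n1 (cw u τ) b) ^ (1 / 2 : ℝ)
      * (N2 (cw u τ) ^ (1 / 4 : ℝ) * (Q2 (cw u τ) a b ^ (1 / 2 : ℝ) * D2 (cw u τ) ^ (1 / 4 : ℝ))))) :=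
    ⟨_, rfl⟩
  have hb2 : ∀ τ ∈ Ioc s t, ENNReal.ofReal (2 * |RR (cw u τ) a + RR (cw u τ) b + RR (cw u τ) c|)
      ≤ ψ2 τ := by
    intro τ hτ
    have hτ' : τ ∈ Ioo 0 T := ⟨hs0.trans hτ.1, hτ.2.trans_lt ht⟩
    rw [hψ2]
    exact ENNReal.ofReal_le_ofReal (fixed2 (fun i => h.cw_HF hτ' i) (h.div τ hτ') hT)
  obtain ⟨B, hB⟩ : ∃ B : ℝ≥0∞, B = y s + ∫⁻ τ in Ioc s t, ψ1 τ := ⟨_, rfl⟩
  obtain ⟨k, hk⟩ : ∃ k : ℝ≥0∞, k = n s + ∫⁻ τ in Ioc s t, ψ2 τ := ⟨_, rfl⟩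
  have hyB : ∀ τ ∈ Icc s t, y τ ≤ B := by
    intro τ hτ
    have k1 := h.hor (a := a) (b := b) hs0 hτ.1 (hτ.2.trans_lt ht) (ψ := ψ1)
      fun τ' hτ' => hb1 τ' ⟨hτ'.1, hτ'.2.trans hτ.2⟩
    have k2 : ∫⁻ τ in Ioc s τ, ψ1 τ ≤ ∫⁻ τ in Ioc s t, ψ1 τ :=
      lintegral_mono_set (Ioc_subset_Ioc_right hτ.2)
    rw [hB, hy]
    exact (le_self_add.trans k1).trans (add_le_add le_rfl k2)
  have hqB : ENNReal.ofReal ν * ∫⁻ τ in Ioc s t, q τ ≤ B := by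
    have k1 := h.hor (a := a) (b := b) hs0 hst ht (ψ := ψ1) hb1
    have e : ∫⁻ τ in Ioc s t, ENNReal.ofReal (ν * Q2 (cw u τ) a b)
        = ENNReal.ofReal ν * ∫⁻ τ in Ioc s t, q τ := by
      rw [← lintegral_const_mul'' _ hqm, hq]
      simp only [ENNReal.ofReal_mul hν.le]
    rw [e] at k1
    rw [hB, hy]
    exact le_add_self.trans k1
  have hnk : ∀ τ ∈ Icc s t, n τ ≤ k := by
    intro τ hτ
    have k1 := h.ful hT hs0 hτ.1 (hτ.2.trans_lt ht) (ψ := ψ2)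
      fun τ' hτ' => hb2 τ' ⟨hτ'.1, hτ'.2.trans hτ.2⟩
    have k2 : ∫⁻ τ in Ioc s τ, ψ2 τ ≤ ∫⁻ τ in Ioc s t, ψ2 τ :=
      lintegral_mono_set (Ioc_subset_Ioc_right hτ.2)
    rw [hk, hn]
    exact (le_self_add.trans k1).trans (add_le_add le_rfl k2)
  have hdk : ENNReal.ofReal ν * ∫⁻ τ in Ioc s t, d τ ≤ k := by
    have k1 := h.ful hT hs0 hst ht (ψ := ψ2) hb2
    have e : ∫⁻ τ in Ioc s t, ENNReal.ofReal (ν * D2 (cw u τ))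
        = ENNReal.ofReal ν * ∫⁻ τ in Ioc s t, d τ := by
      rw [← lintegral_const_mul'' _ hdm, hd]
      simp only [ENNReal.ofReal_mul hν.le]
    rw [e] at k1
    rw [hk, hn]
    exact le_add_self.trans k1
  have hvv : ENNReal.ofReal ν⁻¹ * ENNReal.ofReal ν = 1 := by
    rw [← ENNReal.ofReal_mul (by positivity), inv_mul_cancel₀ hν.ne', ENNReal.ofReal_one]
  obtain ⟨v, hv⟩ : ∃ v, v = ENNReal.ofReal ν⁻¹ := ⟨_, rfl⟩
  rw [← hv] at hvv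
  have hqB' : ∫⁻ τ in Ioc s t, q τ ≤ v * B := by
    calc ∫⁻ τ in Ioc s t, q τ = v * (ENNReal.ofReal ν * ∫⁻ τ in Ioc s t, q τ) := by
          rw [← mul_assoc, hvv, one_mul]
      _ ≤ _ := by gcongr
  have hdk' : ∫⁻ τ in Ioc s t, d τ ≤ v * k := by
    calc ∫⁻ τ in Ioc s t, d τ = v * (ENNReal.ofReal ν * ∫⁻ τ in Ioc s t, d τ) := by
          rw [← mul_assoc, hvv, one_mul]
      _ ≤ _ := by gcongr
  -- finiteness
  obtain ⟨M, hM, hMb⟩ := h.bdd hs0 ht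
  have hkt : k ≠ (⊤ : ℝ≥0∞) := by
    have k1 : ∫⁻ τ in Ioc s t, ψ2 τ ≤ ∫⁻ _τ in Ioc s t, ENNReal.ofReal
        (240 * ((2 * M) ^ (1 / 2 : ℝ) * (M ^ (1 / 4 : ℝ) * ((2 * M) ^ (1 / 2 : ℝ)
          * M ^ (1 / 4 : ℝ))))) := by
      apply setLIntegral_mono' measurableSet_Ioc
      intro τ hτ
      have hN := N2_nonneg (cw u τ)
      have hD := D2_nonneg (cw u τ)
      have hQ := Q2_nonneg (cw u τ) a b
      have hna := n1_nonneg (cw u τ) a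
      have hnb := n1_nonneg (cw u τ) b
      have hM1 := hMb τ (Ioc_subset_Icc_self hτ)
      have hQ2 : Q2 (cw u τ) a b ≤ 2 * M := (Q2_le _ a b).trans (by linarith [hM1.2])
      have hn2 : n1 (cw u τ) a + n1 (cw u τ) b ≤ 2 * M := by
        have := n1_le_N2 (cw u τ) a
        have := n1_le_N2 (cw u τ) b
        linarith [hM1.1]
      rw [hψ2]
      apply ENNReal.ofReal_le_ofReal
      have hM11 := hM1.1
      have hM12 := hM1.2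
      gcongr
    rw [hk]
    refine ENNReal.add_ne_top.2 ⟨by rw [hn]; exact ENNReal.ofReal_ne_top, ?_⟩
    refine (k1.trans_lt ?_).ne
    rw [setLIntegral_const]
    apply ENNReal.mul_lt_top ENNReal.ofReal_lt_top
    rw [Real.volume_Ioc]
    exact ENNReal.ofReal_lt_top
  -- the integral of `ψ1`
  have hI1 : ∫⁻ τ in Ioc s t, ψ1 τ ≤ ENNReal.ofReal K₁ * κ ^ (1 / 4 : ℝ) * k ^ (3 / 4 : ℝ) := by
    apply hps.hi s t hs hst ht κ k hκt hkt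
    · intro τ hτ
      have := hnk τ (Ioc_subset_Icc_self hτ)
      rwa [hn] at this
    · exact hκ
    · rw [hd] at hdk
      exact hdk
  -- the integral of `ψ2`
  have hBt : B ≤ y s + ENNReal.ofReal K₁ * κ ^ (1 / 4 : ℝ) * k ^ (3 / 4 : ℝ) := by
    rw [hB]
    gcongr
  have hI2 : ∫⁻ τ in Ioc s t, ψ2 τ ≤ ENNReal.ofReal 240 * v ^ (3 / 4 : ℝ) * κ ^ (1 / 4 : ℝ)
      * B * k ^ (1 / 4 : ℝ) := by
    have k1 : ∀ τ ∈ Ioc s t, ψ2 τ ≤ ENNReal.ofReal 240 * (y τ ^ (1 / 2 : ℝ)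
        * (n τ ^ (1 / 4 : ℝ) * q τ ^ (1 / 2 : ℝ) * d τ ^ (1 / 4 : ℝ))) := by
      intro τ hτ
      have hN := N2_nonneg (cw u τ)
      have hD := D2_nonneg (cw u τ)
      have hQ := Q2_nonneg (cw u τ) a b
      have hna := n1_nonneg (cw u τ) a
      have hnb := n1_nonneg (cw u τ) b
      rw [hψ2, hn, hd, hq, hy]
      simp only
      rw [ENNReal.ofReal_rpow_of_nonneg hN (by norm_num),
        ENNReal.ofReal_rpow_of_nonneg hD (by norm_num),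
        ENNReal.ofReal_rpow_of_nonneg hQ (by norm_num),
        ENNReal.ofReal_rpow_of_nonneg (add_nonneg hna hnb) (by norm_num),
        ← ENNReal.ofReal_mul (by positivity), ← ENNReal.ofReal_mul (by positivity),
        ← ENNReal.ofReal_mul (by positivity), ← ENNReal.ofReal_mul (by positivity)]
      apply le_of_eq
      congr 1
      ring
    have hvt : v ≠ (⊤ : ℝ≥0∞) := by rw [hv]; exact ENNReal.ofReal_ne_top
    have hBfin : B ≠ (⊤ : ℝ≥0∞) := by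
      refine (hBt.trans_lt (ENNReal.add_lt_top.2 ⟨by rw [hy]; exact ENNReal.ofReal_lt_top, ?_⟩)).ne
      refine ENNReal.mul_lt_top (ENNReal.mul_lt_top ENNReal.ofReal_lt_top ?_) ?_
      · exact ENNReal.rpow_lt_top_of_nonneg (by norm_num) hκt
      · exact ENNReal.rpow_lt_top_of_nonneg (by norm_num) hkt
    have kc : B ^ (1 / 2 : ℝ) ≠ (⊤ : ℝ≥0∞) := ENNReal.rpow_ne_top_of_nonneg (by norm_num) hBfin
    calc ∫⁻ τ in Ioc s t, ψ2 τ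
        ≤ ∫⁻ τ in Ioc s t, ENNReal.ofReal 240 * B ^ (1 / 2 : ℝ)
          * (n τ ^ (1 / 4 : ℝ) * q τ ^ (1 / 2 : ℝ) * d τ ^ (1 / 4 : ℝ)) := by
          apply setLIntegral_mono' measurableSet_Ioc
          intro τ hτ
          refine (k1 τ hτ).trans ?_
          rw [mul_assoc (ENNReal.ofReal 240) (B ^ (1 / 2 : ℝ))]
          have := hyB τ (Ioc_subset_Icc_self hτ)
          gcongr
      _ = ENNReal.ofReal 240 * B ^ (1 / 2 : ℝ) * ∫⁻ τ in Ioc s t,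
          (n τ ^ (1 / 4 : ℝ) * q τ ^ (1 / 2 : ℝ) * d τ ^ (1 / 4 : ℝ)) :=
          lintegral_const_mul' _ _ (ENNReal.mul_ne_top ENNReal.ofReal_ne_top kc)
      _ ≤ ENNReal.ofReal 240 * B ^ (1 / 2 : ℝ) * ((∫⁻ τ in Ioc s t, n τ) ^ (1 / 4 : ℝ)
          * (∫⁻ τ in Ioc s t, q τ) ^ (1 / 2 : ℝ) * (∫⁻ τ in Ioc s t, d τ) ^ (1 / 4 : ℝ)) := by
          gcongr
          exact hol3 hnm hqm hdm (by norm_num) (by norm_num) (by norm_num) (by norm_num)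
      _ ≤ ENNReal.ofReal 240 * B ^ (1 / 2 : ℝ) * (κ ^ (1 / 4 : ℝ)
          * (v * B) ^ (1 / 2 : ℝ) * (v * k) ^ (1 / 4 : ℝ)) := by
          have : ∫⁻ τ in Ioc s t, n τ ≤ κ := by rw [hn]; exact hκ
          gcongr
      _ = _ := by
          rw [ENNReal.mul_rpow_of_nonneg _ _ (by norm_num : (0 : ℝ) ≤ 1 / 2),
            ENNReal.mul_rpow_of_nonneg _ _ (by norm_num : (0 : ℝ) ≤ 1 / 4)]
          have e3 : B ^ (1 / 2 : ℝ) * B ^ (1 / 2 : ℝ) = B := by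
            rw [← ENNReal.rpow_add_of_nonneg _ _ (by norm_num) (by norm_num)]
            norm_num
          have e4 : v ^ (1 / 2 : ℝ) * v ^ (1 / 4 : ℝ) = v ^ (3 / 4 : ℝ) := by
            rw [← ENNReal.rpow_add_of_nonneg _ _ (by norm_num) (by norm_num)]
            norm_num
          calc ENNReal.ofReal 240 * B ^ (1 / 2 : ℝ) * (κ ^ (1 / 4 : ℝ)
                * (v ^ (1 / 2 : ℝ) * B ^ (1 / 2 : ℝ)) * (v ^ (1 / 4 : ℝ) * k ^ (1 / 4 : ℝ)))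
              = ENNReal.ofReal 240 * (v ^ (1 / 2 : ℝ) * v ^ (1 / 4 : ℝ)) * κ ^ (1 / 4 : ℝ)
                * (B ^ (1 / 2 : ℝ) * B ^ (1 / 2 : ℝ)) * k ^ (1 / 4 : ℝ) := by ring
            _ = _ := by rw [e3, e4]
  refine ⟨k, hkt, ?_, ?_, ?_⟩
  · have := hnk t (right_mem_Icc.2 hst)
    rwa [hn] at this
  · rw [hd] at hdk
    exact hdk
  · calc k = n s + ∫⁻ τ in Ioc s t, ψ2 τ := hk
      _ ≤ n s + ENNReal.ofReal 240 * v ^ (3 / 4 : ℝ) * κ ^ (1 / 4 : ℝ)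
          * (y s + ENNReal.ofReal K₁ * κ ^ (1 / 4 : ℝ) * k ^ (3 / 4 : ℝ)) * k ^ (1 / 4 : ℝ) := by
          refine add_le_add le_rfl (hI2.trans ?_)
          gcongr
      _ = _ := by
          rw [hn, hy, hv]

/-- The enstrophy stays bounded. -/
theorem HS.enstrophy' (h : HS ν T u p) (hT : Tri a b c) {a₀ K1 : ℝ} (ha₀ : 0 < a₀) (haT : a₀ < T)
    {ψ : ℝ → ℝ≥0∞} (hps : PS ν T u a b a₀ K1 ψ) :
    ∃ K : ℝ, 0 ≤ K ∧ ∃ s ∈ Ioo a₀ T, ∀ t ∈ Ico s T, N2 (cw u t) ≤ K ∧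
      ENNReal.ofReal ν * ∫⁻ τ in Ioc s t, ENNReal.ofReal (D2 (cw u τ)) ≤ ENNReal.ofReal K := by
  have hν := h.hν
  obtain ⟨v, hv⟩ : ∃ v : ℝ, v = ν⁻¹ := ⟨_, rfl⟩
  have hv0 : 0 < v := by rw [hv]; positivity
  obtain ⟨K2, hK2⟩ : ∃ K2, K2 = 240 * v ^ (3 / 4 : ℝ) := ⟨_, rfl⟩
  have hK10 : 0 ≤ K1 := hps.hK
  have hK20 : 0 ≤ K2 := by rw [hK2]; positivity
  obtain ⟨θ, hθ⟩ : ∃ θ, θ = 1 / (4 * (K1 * K2 + 1)) := ⟨_, rfl⟩
  have hθ0 : 0 < θ := by rw [hθ]; positivity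
  obtain ⟨s, hs, hsm⟩ := h.small ha₀ haT (κ := θ ^ 2) (by positivity)
  obtain ⟨Z, hZ⟩ : ∃ Z, Z = N2 (cw u s) := ⟨_, rfl⟩
  obtain ⟨Y, hY⟩ : ∃ Y, Y = n1 (cw u s) a + n1 (cw u s) b := ⟨_, rfl⟩
  have hZ0 : 0 ≤ Z := by rw [hZ]; exact N2_nonneg _
  have hY0 : 0 ≤ Y := by rw [hY]; exact add_nonneg (n1_nonneg _ _) (n1_nonneg _ _)
  obtain ⟨B, hB⟩ : ∃ B, B = K2 * (θ ^ 2) ^ (1 / 4 : ℝ) * Y := ⟨_, rfl⟩
  have hB0 : 0 ≤ B := by rw [hB]; positivity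
  refine ⟨2 * Z + (4 * B) ^ (4 / 3 : ℝ), by positivity, s, hs, fun t ht => ?_⟩
  obtain ⟨k, hkt, hk1, hk3, hk2⟩ := h.step' hT ha₀ hps hs.1 ht.1 ht.2 (hsm t ht.1 ht.2)
    ENNReal.ofReal_ne_top
  obtain ⟨γ, hγ0, hγ⟩ : ∃ γ : ℝ, 0 ≤ γ ∧ k = ENNReal.ofReal γ :=
    ⟨k.toReal, ENNReal.toReal_nonneg, (ENNReal.ofReal_toReal hkt).symm⟩
  rw [hγ] at hk1 hk2 hk3
  have hNt : N2 (cw u t) ≤ γ := (ENNReal.ofReal_le_ofReal_iff hγ0).1 hk1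
  have hfin : γ ≤ 2 * Z + (4 * B) ^ (4 / 3 : ℝ) := by
    apply final_bd hZ0 hB0 hγ0
    rw [← hv, ← hZ, ← hY, ENNReal.ofReal_rpow_of_nonneg hv0.le (by norm_num),
      ENNReal.ofReal_rpow_of_nonneg (sq_nonneg θ) (by norm_num),
      ENNReal.ofReal_rpow_of_nonneg hγ0 (by norm_num),
      ENNReal.ofReal_rpow_of_nonneg hγ0 (by norm_num),
      ← ENNReal.ofReal_mul (by positivity), ← ENNReal.ofReal_mul (by positivity),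
      ← ENNReal.ofReal_mul (by positivity), ← ENNReal.ofReal_mul (by positivity),
      ← ENNReal.ofReal_add (by positivity) (by positivity), ← ENNReal.ofReal_mul (by positivity),
      ← ENNReal.ofReal_mul (by positivity), ← ENNReal.ofReal_add (by positivity) (by positivity)]
      at hk2
    have h3 := (ENNReal.ofReal_le_ofReal_iff (by positivity)).1 hk2
    refine h3.trans ?_
    have e1 : (θ ^ 2) ^ (1 / 4 : ℝ) * (θ ^ 2) ^ (1 / 4 : ℝ) = θ := by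
      rw [← Real.rpow_add (by positivity), ← Real.rpow_natCast, ← Real.rpow_mul hθ0.le]
      norm_num
    have e2 : γ ^ (3 / 4 : ℝ) * γ ^ (1 / 4 : ℝ) = γ := by
      rw [← Real.rpow_add_of_nonneg hγ0 (by norm_num) (by norm_num)]
      norm_num
    have e3 : K1 * K2 * θ ≤ 1 / 4 := by
      rw [hθ, mul_one_div, div_le_div_iff₀ (by positivity) (by norm_num)]
      nlinarith
    calc Z + 240 * v ^ (3 / 4 : ℝ) * (θ ^ 2) ^ (1 / 4 : ℝ) * (Y + K1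
          * (θ ^ 2) ^ (1 / 4 : ℝ) * γ ^ (3 / 4 : ℝ)) * γ ^ (1 / 4 : ℝ)
        = Z + B * γ ^ (1 / 4 : ℝ) + K1 * K2 * ((θ ^ 2) ^ (1 / 4 : ℝ) * (θ ^ 2) ^ (1 / 4 : ℝ))
          * (γ ^ (3 / 4 : ℝ) * γ ^ (1 / 4 : ℝ)) := by
          rw [hB, hK2]
          ring
      _ ≤ _ := by
          rw [e1, e2]
          nlinarith
  exact ⟨hNt.trans hfin, hk3.trans (ENNReal.ofReal_le_ofReal hfin)⟩

end

end Pool.Agent.H305.OS
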