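import Pool.Agent.H305.OS.Sup

/-!
Orthogonal changes of variables.
-/

set_option autoImplicit false

open MeasureTheory Set Metric Filter Topology
open scoped ContDiff ENNReal

namespace Pool.Agent.H305.OS

open H459R3.NS W221.NS Pool.Agent.V1183.PM
open Pool.Agent.W583.MD (sm_pd pd_mul')
open Pool.Agent.W22.ME.TD (pd_comm)
open Pool.Agent.H305.TI (it it_nil it_cons it_sm J_it dt_it)


/-- Symmetric orthogonal matrices. -/
structure SO (M : Matrix (Fin 3) (Fin 3) ℝ) : Prop where
  sy : ∀ i j, M i j = M j i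
  sq : ∀ i k, ∑ j, M i j * M j k = if i = k then 1 else 0

lemma SO.mul {M : Matrix (Fin 3) (Fin 3) ℝ} (hM : SO M) : M * M = 1 := by
  ext i k
  rw [Matrix.mul_apply, hM.sq, Matrix.one_apply]

lemma SO.det {M : Matrix (Fin 3) (Fin 3) ℝ} (hM : SO M) : |M.det| = 1 := by
  have h1 : M.det * M.det = 1 := by
    rw [← Matrix.det_mul, hM.mul, Matrix.det_one]
  have h2 : |M.det| * |M.det| = 1 := by rw [← abs_mul, h1, abs_one]
  nlinarith [abs_nonneg M.det]

lemma SO.det0 {M : Matrix (Fin 3) (Fin 3) ℝ} (hM : SO M) : M.det ≠ 0 := by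
  intro h
  have := hM.det
  rw [h, abs_zero] at this
  norm_num at this

/-- A symmetric orthogonal matrix with a given column. -/
lemma exists_SO {f : V} (hf : ∑ i, f i ^ 2 = 1) : ∃ M, SO M ∧ ∀ i, M i 2 = f i := by
  by_cases h2 : f 2 = 1
  · refine ⟨1, ⟨fun i j => by rw [Matrix.one_apply, Matrix.one_apply]; simp only [eq_comm],
      fun i k => by
        have : (1 : Matrix (Fin 3) (Fin 3) ℝ) * 1 = 1 := by simp
        have h3 := congrFun (congrFun this i) k
        rw [Matrix.mul_apply, Matrix.one_apply] at h3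
        exact h3⟩, fun i => ?_⟩
    rw [Fin.sum_univ_three, h2] at hf
    have h0 : f 0 = 0 := by nlinarith [sq_nonneg (f 0), sq_nonneg (f 1)]
    have h1 : f 1 = 0 := by nlinarith [sq_nonneg (f 0), sq_nonneg (f 1)]
    rw [Matrix.one_apply]
    fin_cases i
    · rw [if_neg (by decide)]
      exact h0.symm
    · rw [if_neg (by decide)]
      exact h1.symm
    · show (if (2 : Fin 3) = 2 then (1 : ℝ) else 0) = f 2
      rw [if_pos rfl]
      exact h2.symm
  · have hd : 1 - f 2 ≠ 0 := fun h => h2 (by linarith)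
    rw [Fin.sum_univ_three] at hf
    obtain ⟨v, hv⟩ : ∃ v : V, v = fun i => if i = 2 then 1 - f 2 else - f i := ⟨_, rfl⟩
    have v0 : v 0 = - f 0 := by rw [hv]; simp
    have v1 : v 1 = - f 1 := by rw [hv]; simp
    have v2 : v 2 = 1 - f 2 := by rw [hv]; simp
    have hvv : v 0 * v 0 + v 1 * v 1 + v 2 * v 2 = 2 * (1 - f 2) := by
      rw [v0, v1, v2]
      linarith
    refine ⟨fun i j => (if i = j then 1 else 0) - v i * v j / (1 - f 2), ⟨fun i j => ?_,
      fun i k => ?_⟩, fun i => ?_⟩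
    · simp only [eq_comm, mul_comm]
    · have e : ∀ j, ((if i = j then (1 : ℝ) else 0) - v i * v j / (1 - f 2))
          * ((if j = k then 1 else 0) - v j * v k / (1 - f 2))
          = (if i = j then (1 : ℝ) else 0) * (if j = k then 1 else 0)
            - (if i = j then (1 : ℝ) else 0) * (v j * v k / (1 - f 2))
            - (if j = k then (1 : ℝ) else 0) * (v i * v j / (1 - f 2))
            + (v j * v j) * (v i * v k / (1 - f 2) ^ 2) := by
        intro j
        field_simp
        ring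
      simp only [e]
      rw [Finset.sum_add_distrib, Finset.sum_sub_distrib, Finset.sum_sub_distrib, ← Finset.sum_mul]
      have e2 : ∑ j, v j * v j = 2 * (1 - f 2) := by
        rw [Fin.sum_univ_three]
        exact hvv
      rw [e2]
      simp only [ite_mul, one_mul, zero_mul, Finset.sum_ite_eq, Finset.sum_ite_eq', Finset.mem_univ,
        if_true]
      field_simp
      ring
    · fin_cases i
      · simp [v0, v2]
        field_simp
      · simp [v1, v2]
        field_simp
      · simp [v2]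

/-- The transformed velocity. -/
noncomputable def uM (M : Matrix (Fin 3) (Fin 3) ℝ) (u : ℝ → V → V) : ℝ → V → V := fun t x i =>
  ∑ k, M i k * u t (lm M x) k

/-- The transformed pressure. -/
noncomputable def pM (M : Matrix (Fin 3) (Fin 3) ℝ) (p : ℝ → V → ℝ) : ℝ → V → ℝ := fun t x => p t (lm M x)

section
variable {M : Matrix (Fin 3) (Fin 3) ℝ} {T : ℝ} {F : ℝ → V → ℝ} {f : V → ℝ} {ν : ℝ}
  {u : ℝ → V → V} {p : ℝ → V → ℝ}

lemma J_lin (hF : J T F) (M : Matrix (Fin 3) (Fin 3) ℝ) : J T (fun t x => F t (lm M x)) := by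
  unfold J at hF ⊢
  have h1 : ContDiff ℝ ∞ fun z : ℝ × V => ((z.1, lm M z.2) : ℝ × V) :=
    contDiff_fst.prodMk ((lm M).contDiff.comp contDiff_snd)
  exact hF.comp h1.contDiffOn (fun z hz => ⟨hz.1, mem_univ _⟩)

lemma J_cmul (hF : J T F) (c : ℝ) : J T (fun t x => c * F t x) :=
  (contDiffOn_const (c := c)).mul hF

lemma cw_uM (M : Matrix (Fin 3) (Fin 3) ℝ) (u : ℝ → V → V) (t : ℝ) (i : Fin 3) :
    cw (uM M u) t i = fun x => ∑ k, M i k * cw u t k (lm M x) := rfl

lemma pd_sum3 {f : Fin 3 → V → ℝ} (hf : ∀ k, ContDiff ℝ ∞ (f k)) (j : Fin 3) :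
    H459R3.NS.pd j (fun x => ∑ k, f k x) = fun x => ∑ k, H459R3.NS.pd j (f k) x := by
  have := it_sum [j] hf
  simpa only [it_cons, it_nil] using this

lemma pd_cmul3 {f : V → ℝ} (hf : ContDiff ℝ ∞ f) (c : ℝ) (j : Fin 3) :
    H459R3.NS.pd j (fun x => c * f x) = fun x => c * H459R3.NS.pd j f x := by
  have := it_cmul [j] c hf
  simpa only [it_cons, it_nil] using this

/-- The derivatives of linear combinations. -/
lemma pd_comb {w : Fin 3 → V → ℝ} (hw : ∀ k, ContDiff ℝ ∞ (w k)) (c : Fin 3 → ℝ)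
    (M : Matrix (Fin 3) (Fin 3) ℝ) (j : Fin 3) :
    H459R3.NS.pd j (fun x => ∑ k, c k * w k (lm M x)) = fun x => ∑ k, c k * ∑ l, M l j * H459R3.NS.pd l (w k) (lm M x) := by
  rw [pd_sum3 (f := fun k x => c k * w k (lm M x)) (fun k => contDiff_const.mul (sm_lin (hw k) M))]
  funext x
  apply Finset.sum_congr rfl
  intro k _
  rw [pd_cmul3 (sm_lin (hw k) M), pd_lin (hw k)]

lemma SO.lp_lin (hM : SO M) (hf : ContDiff ℝ ∞ f) : lp (fun x => f (lm M x)) = fun x => lp f (lm M x) := by
  funext x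
  unfold lp
  have e : ∀ k, H459R3.NS.pd k (H459R3.NS.pd k (fun x => f (lm M x))) x
      = ∑ l, M l k * ∑ n, M n k * H459R3.NS.pd n (H459R3.NS.pd l f) (lm M x) := by
    intro k
    rw [pd_lin hf, pd_comb (w := fun l => H459R3.NS.pd l f) (fun l => sm_pd hf l) (fun l => M l k) M k]
  simp only [e]
  have r : ∀ i k, M i 0 * M k 0 + M i 1 * M k 1 + M i 2 * M k 2 = if i = k then 1 else 0 := by
    intro i k
    have := hM.sq i k
    rw [Fin.sum_univ_three] at this
    rw [hM.sy k 0, hM.sy k 1, hM.sy k 2]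
    exact this
  have r00 := r 0 0
  have r01 := r 0 1
  have r02 := r 0 2
  have r10 := r 1 0
  have r11 := r 1 1
  have r12 := r 1 2
  have r20 := r 2 0
  have r21 := r 2 1
  have r22 := r 2 2
  simp only [Fin.sum_univ_three]
  rw [if_pos rfl] at r00 r11 r22
  rw [if_neg (by decide)] at r01 r02 r10 r12 r20 r21
  linear_combination H459R3.NS.pd 0 (H459R3.NS.pd 0 f) (lm M x) * r00 + H459R3.NS.pd 1 (H459R3.NS.pd 0 f) (lm M x) * r01
    + H459R3.NS.pd 2 (H459R3.NS.pd 0 f) (lm M x) * r02 + H459R3.NS.pd 0 (H459R3.NS.pd 1 f) (lm M x) * r10 + H459R3.NS.pd 1 (H459R3.NS.pd 1 f) (lm M x) * r11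
    + H459R3.NS.pd 2 (H459R3.NS.pd 1 f) (lm M x) * r12 + H459R3.NS.pd 0 (H459R3.NS.pd 2 f) (lm M x) * r20 + H459R3.NS.pd 1 (H459R3.NS.pd 2 f) (lm M x) * r21
    + H459R3.NS.pd 2 (H459R3.NS.pd 2 f) (lm M x) * r22

/-- The class is invariant. -/
theorem HS.rot (h : HS ν T u p) (hM : SO M) : HS ν T (uM M u) (pM M p) := by
  have r : ∀ i k, M i 0 * M 0 k + M i 1 * M 1 k + M i 2 * M 2 k = if i = k then 1 else 0 := by
    intro i k
    have := hM.sq i k
    rwa [Fin.sum_univ_three] at this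
  have r00 := r 0 0
  have r01 := r 0 1
  have r02 := r 0 2
  have r10 := r 1 0
  have r11 := r 1 1
  have r12 := r 1 2
  have r20 := r 2 0
  have r21 := r 2 1
  have r22 := r 2 2
  rw [if_pos rfl] at r00 r11 r22
  rw [if_neg (by decide)] at r01 r02 r10 r12 r20 r21
  refine ⟨h.hν, fun i => ?_, J_lin h.jp M, fun s t hs ht i => ?_, fun s t hs ht => ?_, ?_, ?_⟩
  · exact J.sum fun k => J_cmul (J_lin (h.ju k) M) (M i k)
  · exact UF.sum fun k => ((h.uu s t hs ht k).lin hM.det0).cmul (M i k)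
  · exact (h.up s t hs ht).lin hM.det0
  · intro t ht x
    have hw := fun k => (h.cw_HF ht k).sm
    have e : ∀ i, H459R3.NS.pd i (fun y => uM M u t y i) x
        = ∑ k, M i k * ∑ l, M l i * H459R3.NS.pd l (cw u t k) (lm M x) := fun i =>
      congrFun (pd_comb (w := cw u t) hw (fun k => M i k) M i) x
    simp only [e]
    have hd := h.div t ht (lm M x)
    rw [Fin.sum_univ_three] at hd
    simp only [Fin.sum_univ_three]
    have hd' : H459R3.NS.pd 0 (cw u t 0) (lm M x) + H459R3.NS.pd 1 (cw u t 1) (lm M x) + H459R3.NS.pd 2 (cw u t 2) (lm M x) = 0 := hd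
    linear_combination hd' + H459R3.NS.pd 0 (cw u t 0) (lm M x) * r00 + H459R3.NS.pd 1 (cw u t 0) (lm M x) * r10
      + H459R3.NS.pd 2 (cw u t 0) (lm M x) * r20 + H459R3.NS.pd 0 (cw u t 1) (lm M x) * r01
      + H459R3.NS.pd 1 (cw u t 1) (lm M x) * r11 + H459R3.NS.pd 2 (cw u t 1) (lm M x) * r21
      + H459R3.NS.pd 0 (cw u t 2) (lm M x) * r02 + H459R3.NS.pd 1 (cw u t 2) (lm M x) * r12
      + H459R3.NS.pd 2 (cw u t 2) (lm M x) * r22
  · intro i t ht x
    have hw := fun k => (h.cw_HF ht k).sm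
    have e0 : deriv (fun s => uM M u s x i) t = ∑ k, M i k * deriv (fun s => u s (lm M x) k) t := by
      have h1 : ∀ k, HasDerivAt (fun s => M i k * u s (lm M x) k)
          (M i k * deriv (fun s => u s (lm M x) k) t) t := fun k =>
        ((h.ju k).dfT ht (lm M x)).hasDerivAt.const_mul _
      have h2 := HasDerivAt.fun_sum (u := Finset.univ) fun k _ => h1 k
      exact h2.deriv
    have e1 : lp (fun y => uM M u t y i) x = ∑ k, M i k * lp (cw u t k) (lm M x) := by
      have k1 : ∀ k, lp (fun y => cw u t k (lm M y)) x = lp (cw u t k) (lm M x) := fun k =>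
        congrFun (hM.lp_lin (hw k)) x
      have k2 : lp (fun y => uM M u t y i) x = ∑ k, M i k * lp (fun y => cw u t k (lm M y)) x := by
        unfold lp
        have k3 : ∀ q, H459R3.NS.pd q (H459R3.NS.pd q (fun y => uM M u t y i)) x
            = ∑ k, M i k * H459R3.NS.pd q (H459R3.NS.pd q (fun y => cw u t k (lm M y))) x := by
          intro q
          have sk := fun k => sm_lin (hw k) M
          have k4 : (fun y => uM M u t y i) = fun y => ∑ k, M i k * cw u t k (lm M y) := rfl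
          rw [k4, pd_sum3 (f := fun k y => M i k * cw u t k (lm M y))
            (fun k => contDiff_const.mul (sk k))]
          have k5 : ∀ k, H459R3.NS.pd q (fun y => M i k * cw u t k (lm M y))
              = fun y => M i k * H459R3.NS.pd q (fun y => cw u t k (lm M y)) y := fun k =>
            pd_cmul3 (sk k) _ _
          simp only [k5]
          rw [pd_sum3 (f := fun k y => M i k * H459R3.NS.pd q (fun y => cw u t k (lm M y)) y)
            (fun k => contDiff_const.mul (sm_pd (sk k) q))]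
          apply Finset.sum_congr rfl
          intro k _
          exact congrFun (pd_cmul3 (sm_pd (sk k) q) _ _) x
        simp only [k3]
        rw [Finset.sum_comm]
        simp only [← Finset.mul_sum]
      rw [k2]
      simp only [k1]
    have e2 : nl (fun i y => uM M u t y i) i x = ∑ k, M i k * nl (cw u t) k (lm M x) := by
      unfold nl
      have k1 : ∀ j, H459R3.NS.pd j (fun y => uM M u t y i) x
          = ∑ k, M i k * ∑ l, M l j * H459R3.NS.pd l (cw u t k) (lm M x) := fun j =>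
        congrFun (pd_comb (w := cw u t) hw (fun k => M i k) M j) x
      have k2 : ∀ j, uM M u t x j = ∑ k, M j k * cw u t k (lm M x) := fun j => rfl
      simp only [k1, k2]
      simp only [Fin.sum_univ_three]
      linear_combination
        (cw u t 0 (lm M x) * (M i 0 * H459R3.NS.pd 0 (cw u t 0) (lm M x) + M i 1 * H459R3.NS.pd 0 (cw u t 1) (lm M x)
          + M i 2 * H459R3.NS.pd 0 (cw u t 2) (lm M x))) * r00
        + (cw u t 1 (lm M x) * (M i 0 * H459R3.NS.pd 0 (cw u t 0) (lm M x) + M i 1 * H459R3.NS.pd 0 (cw u t 1) (lm M x)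
          + M i 2 * H459R3.NS.pd 0 (cw u t 2) (lm M x))) * r01
        + (cw u t 2 (lm M x) * (M i 0 * H459R3.NS.pd 0 (cw u t 0) (lm M x) + M i 1 * H459R3.NS.pd 0 (cw u t 1) (lm M x)
          + M i 2 * H459R3.NS.pd 0 (cw u t 2) (lm M x))) * r02
        + (cw u t 0 (lm M x) * (M i 0 * H459R3.NS.pd 1 (cw u t 0) (lm M x) + M i 1 * H459R3.NS.pd 1 (cw u t 1) (lm M x)
          + M i 2 * H459R3.NS.pd 1 (cw u t 2) (lm M x))) * r10
        + (cw u t 1 (lm M x) * (M i 0 * H459R3.NS.pd 1 (cw u t 0) (lm M x) + M i 1 * H459R3.NS.pd 1 (cw u t 1) (lm M x)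
          + M i 2 * H459R3.NS.pd 1 (cw u t 2) (lm M x))) * r11
        + (cw u t 2 (lm M x) * (M i 0 * H459R3.NS.pd 1 (cw u t 0) (lm M x) + M i 1 * H459R3.NS.pd 1 (cw u t 1) (lm M x)
          + M i 2 * H459R3.NS.pd 1 (cw u t 2) (lm M x))) * r12
        + (cw u t 0 (lm M x) * (M i 0 * H459R3.NS.pd 2 (cw u t 0) (lm M x) + M i 1 * H459R3.NS.pd 2 (cw u t 1) (lm M x)
          + M i 2 * H459R3.NS.pd 2 (cw u t 2) (lm M x))) * r20
        + (cw u t 1 (lm M x) * (M i 0 * H459R3.NS.pd 2 (cw u t 0) (lm M x) + M i 1 * H459R3.NS.pd 2 (cw u t 1) (lm M x)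
          + M i 2 * H459R3.NS.pd 2 (cw u t 2) (lm M x))) * r21
        + (cw u t 2 (lm M x) * (M i 0 * H459R3.NS.pd 2 (cw u t 0) (lm M x) + M i 1 * H459R3.NS.pd 2 (cw u t 1) (lm M x)
          + M i 2 * H459R3.NS.pd 2 (cw u t 2) (lm M x))) * r22
    have e3 : H459R3.NS.pd i (pM M p t) x = ∑ k, M i k * H459R3.NS.pd k (p t) (lm M x) := by
      have k1 := congrFun (pd_lin (h.p_HF ht).sm M i) x
      have k2 : H459R3.NS.pd i (pM M p t) x = ∑ l, M l i * H459R3.NS.pd l (p t) (lm M x) := k1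
      rw [k2]
      apply Finset.sum_congr rfl
      intro k _
      rw [hM.sy k i]
    rw [e0, e1, e2, e3]
    have hm := fun k => h.mom k t ht (lm M x)
    have hm' : ∀ k, deriv (fun s => u s (lm M x) k) t
        = ν * lp (cw u t k) (lm M x) - nl (cw u t) k (lm M x) - H459R3.NS.pd k (p t) (lm M x) := hm
    simp only [hm']
    simp only [Fin.sum_univ_three]
    ring

end

end Pool.Agent.H305.OS
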