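import Pool.Agent.H305.OS.Fub

/-!
Integrable functions and their slices.
-/

set_option autoImplicit false

open MeasureTheory Set Metric Filter Topology
open scoped ContDiff ENNReal

namespace Pool.Agent.H305.OS

open H459R3.NS W221.NS Pool.Agent.V1183.PM
open Pool.Agent.W583.MD (sm_pd pd_mul')
open Pool.Agent.H305.TI (it it_nil it_cons it_sm)

section
variable {f g F : V → ℝ} {j a b : Fin 3}

lemma HF.it (h : HF f) (l : List (Fin 3)) : HF (Pool.Agent.H305.TI.it l f) := by
  induction l generalizing f with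
  | nil => exact h
  | cons i l ih =>
    rw [it_cons]
    exact ih (h.pd i)

lemma HF.sqi_ne (h : HF f) : sqi f ≠ (⊤ : ℝ≥0∞) := by
  obtain ⟨C, hC, h1⟩ := h.bd []
  exact ((h1 0 (mem_univ _)).2.trans_lt ENNReal.ofReal_lt_top).ne

lemma HF.int_mul (hf : HF f) (hg : HF g) : ∫⁻ x, ENNReal.ofReal |f x * g x| ≠ (⊤ : ℝ≥0∞) := by
  have h1 : ∫⁻ x, ENNReal.ofReal |f x * g x| ≤ sqi f + sqi g := by
    unfold sqi
    have := hf.sm.continuous.measurable
    rw [← lintegral_add_left (by fun_prop)]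
    apply lintegral_mono
    intro x
    simp only
    rw [← ENNReal.ofReal_add (sq_nonneg _) (sq_nonneg _)]
    apply ENNReal.ofReal_le_ofReal
    rw [abs_mul, ← sq_abs (f x), ← sq_abs (g x)]
    nlinarith [sq_nonneg (|f x| - |g x|), sq_nonneg (|f x| + |g x|)]
  exact (h1.trans_lt (ENNReal.add_lt_top.2 ⟨lt_top_iff_ne_top.2 hf.sqi_ne,
    lt_top_iff_ne_top.2 hg.sqi_ne⟩)).ne

/-- All derivatives are integrable and tend to zero. -/
structure LF (F : V → ℝ) : Prop where
  sm : ContDiff ℝ ∞ F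
  int : ∀ l : List (Fin 3), ∫⁻ x, ENNReal.ofReal |it l F x| ≠ (⊤ : ℝ≥0∞)
  zero : ∀ l : List (Fin 3), Tendsto (it l F) (cocompact V) (𝓝 0)

lemma LF.pd (h : LF F) (j : Fin 3) : LF (pd j F) :=
  ⟨sm_pd h.sm j, fun l => h.int (j :: l), fun l => h.zero (j :: l)⟩

lemma int_mul_it (l : List (Fin 3)) : ∀ {f g : V → ℝ}, HF f → HF g →
    ∫⁻ x, ENNReal.ofReal |it l (fun x => f x * g x) x| ≠ (⊤ : ℝ≥0∞) := by
  induction l with
  | nil => intro f g hf hg; exact hf.int_mul hg
  | cons i l ih =>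
    intro f g hf hg
    have h1 := ih hf (hg.pd i)
    have h2 := ih (hf.pd i) hg
    have e : it (i :: l) (fun x => f x * g x)
        = fun x => it l (fun x => f x * H459R3.NS.pd i g x) x
          + it l (fun x => H459R3.NS.pd i f x * g x) x := by
      rw [it_cons, ← it_add l (hf.sm.mul (sm_pd hg.sm i)) ((sm_pd hf.sm i).mul hg.sm)]
      congr 1
      funext x
      rw [pd_mul' hf.sm hg.sm]
    rw [e]
    have m1 := (it_sm l (hf.sm.mul (sm_pd hg.sm i))).continuous.measurable
    have h3 : ∫⁻ x, ENNReal.ofReal |it l (fun x => f x * H459R3.NS.pd i g x) x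
          + it l (fun x => H459R3.NS.pd i f x * g x) x|
        ≤ (∫⁻ x, ENNReal.ofReal |it l (fun x => f x * H459R3.NS.pd i g x) x|)
          + ∫⁻ x, ENNReal.ofReal |it l (fun x => H459R3.NS.pd i f x * g x) x| := by
      rw [← lintegral_add_left (by fun_prop)]
      apply lintegral_mono
      intro x
      simp only
      rw [← ENNReal.ofReal_add (abs_nonneg _) (abs_nonneg _)]
      exact ENNReal.ofReal_le_ofReal (abs_add_le _ _)
    exact (h3.trans_lt (ENNReal.add_lt_top.2 ⟨lt_top_iff_ne_top.2 h1,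
      lt_top_iff_ne_top.2 h2⟩)).ne

lemma HF.mulL (hf : HF f) (hg : HF g) : LF (fun x => f x * g x) :=
  ⟨hf.sm.mul hg.sm, fun l => int_mul_it l hf hg, fun l => ((hf.mul hg).it l).tendsto_zero⟩

lemma LF.cont (h : LF F) : Continuous F := h.sm.continuous

lemma LF.cont_s (h : LF F) (j a : Fin 3) (α β : ℝ) : Continuous fun s => F (pt j a s α β) := by
  have h1 : Continuous fun s : ℝ => pt j a s α β :=
    pt_cont.comp (by fun_prop : Continuous fun s : ℝ => (s, α, β))
  exact h.cont.comp h1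

lemma Tri.pt_ba (h : Tri j a b) (s α β : ℝ) : pt b a β α s = pt j a s α β := by
  funext i
  unfold pt
  rcases h.cases i with h1 | h1 | h1
  · simp [h1, h.1, h.2.1]
  · simp [h1, h.1.symm, h.2.2]
  · simp [h1, h.2.1.symm, h.2.2.symm]

lemma Tri.pt_jb (h : Tri j a b) (s α β : ℝ) : pt j b s β α = pt j a s α β := by
  funext i
  unfold pt
  rcases h.cases i with h1 | h1 | h1
  · simp [h1]
  · simp [h1, h.1.symm, h.2.2]
  · simp [h1, h.2.1.symm, h.2.2.symm]

lemma Tri.pt_aj (h : Tri j a b) (s α β : ℝ) : pt a j α s β = pt j a s α β := by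
  funext i
  unfold pt
  rcases h.cases i with h1 | h1 | h1
  · simp [h1, h.1]
  · simp [h1, h.1.symm]
  · simp [h1, h.2.1.symm, h.2.2.symm]

lemma Tri.ba (h : Tri j a b) : Tri b a j := ⟨h.2.2.symm, h.2.1.symm, h.1.symm⟩
lemma Tri.jb (h : Tri j a b) : Tri j b a := ⟨h.2.1, h.1, h.2.2.symm⟩
lemma Tri.aj (h : Tri j a b) : Tri a j b := ⟨h.1.symm, h.2.2, h.2.1⟩

lemma LF.le_a (hF : LF F) (h : Tri j a b) (s α β : ℝ) :
    ENNReal.ofReal |F (pt j a s α β)| ≤ ∫⁻ α', ENNReal.ofReal |H459R3.NS.pd a F (pt j a s α' β)| := by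
  have := line_le hF.sm (hF.zero []) (pt j a s α β) a
  simpa only [h.pt_a] using this

lemma LF.le_b (hF : LF F) (h : Tri j a b) (s α β : ℝ) :
    ENNReal.ofReal |F (pt j a s α β)| ≤ ∫⁻ β', ENNReal.ofReal |H459R3.NS.pd b F (pt j a s α β')| := by
  have := line_le hF.sm (hF.zero []) (pt j a s α β) b
  simpa only [h.pt_b] using this

lemma LF.le_j (hF : LF F) (j a : Fin 3) (s α β : ℝ) :
    ENNReal.ofReal |F (pt j a s α β)| ≤ ∫⁻ s', ENNReal.ofReal |H459R3.NS.pd j F (pt j a s' α β)| := by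
  have := line_le hF.sm (hF.zero []) (pt j a s α β) j
  simpa only [pt_j] using this

/-- Bound of the slices. -/
lemma LF.dom_lt (hF : LF F) (h : Tri j a b) (β : ℝ) :
    ∫⁻ s, ∫⁻ α', ENNReal.ofReal |H459R3.NS.pd a F (pt j a s α' β)| ≠ (⊤ : ℝ≥0∞) := by
  have h1 : ∫⁻ s, ∫⁻ α', ENNReal.ofReal |H459R3.NS.pd a F (pt j a s α' β)|
      ≤ ∫⁻ s, ∫⁻ α', ∫⁻ β', ENNReal.ofReal |H459R3.NS.pd b (H459R3.NS.pd a F) (pt j a s α' β')| := by
    apply lintegral_mono
    intro s
    apply lintegral_mono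
    intro α'
    exact (hF.pd a).le_b h s α' β
  have h2 := h.ba.fub (F := fun x => ENNReal.ofReal |H459R3.NS.pd b (H459R3.NS.pd a F) x|)
    (by
      have := ((hF.pd a).pd b).cont.measurable
      fun_prop)
  simp only [h.pt_ba] at h2
  have h3 := hF.int [a, b]
  exact (h1.trans_lt (by rw [← h2]; exact lt_top_iff_ne_top.2 h3)).ne

/-- The dominating function. -/
noncomputable def dm (j a : Fin 3) (F : V → ℝ) (β s : ℝ) : ℝ :=
  (∫⁻ α', ENNReal.ofReal |H459R3.NS.pd a F (pt j a s α' β)|).toReal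

lemma meas_sα {F : V → ℝ≥0∞} (hF : Measurable F) (j a : Fin 3) (β : ℝ) :
    Measurable fun s => ∫⁻ α', F (pt j a s α' β) := by
  have h1 : Measurable fun p : ℝ × ℝ => F (pt j a p.1 p.2 β) := by
    apply hF.comp
    exact pt_cont.measurable.comp (by fun_prop : Measurable fun p : ℝ × ℝ => (p.1, p.2, β))
  exact h1.lintegral_prod_right'

lemma LF.meas_abs (hF : LF F) : Measurable fun x => ENNReal.ofReal |F x| := by
  have := hF.cont.measurable
  fun_prop

lemma LF.dm_int (hF : LF F) (h : Tri j a b) (β : ℝ) : Integrable (dm j a F β) :=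
  integrable_toReal_of_lintegral_ne_top (meas_sα (hF.pd a).meas_abs j a β).aemeasurable
    (hF.dom_lt h β)

lemma LF.dm_le (hF : LF F) (h : Tri j a b) (β : ℝ) :
    ∀ᵐ s, ∀ α, |F (pt j a s α β)| ≤ dm j a F β s := by
  filter_upwards [ae_lt_top (meas_sα (hF.pd a).meas_abs j a β) (hF.dom_lt h β)] with s hs α
  have h1 := hF.le_a h s α β
  exact (ENNReal.ofReal_le_iff_le_toReal hs.ne).1 h1

/-- The integral over a line. -/
noncomputable def sl (j a : Fin 3) (F : V → ℝ) (α β : ℝ) : ℝ := ∫ s, F (pt j a s α β)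

lemma LF.s_int (hF : LF F) (h : Tri j a b) (α β : ℝ) : Integrable fun s => F (pt j a s α β) := by
  refine (hF.dm_int h β).mono' (hF.cont_s j a α β).aestronglyMeasurable ?_
  filter_upwards [hF.dm_le h β] with s hs
  exact hs α

lemma LF.sl_hd (hF : LF F) (h : Tri j a b) (α β : ℝ) :
    HasDerivAt (fun α => sl j a F α β) (sl j a (H459R3.NS.pd a F) α β) α := by
  refine (hasDerivAt_integral_of_dominated_loc_of_deriv_le (F := fun α s => F (pt j a s α β))
    (F' := fun α s => H459R3.NS.pd a F (pt j a s α β)) (bound := dm j a (H459R3.NS.pd a F) β)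
    (s := univ) univ_mem
    (Eventually.of_forall fun α => (hF.cont_s j a α β).aestronglyMeasurable) (hF.s_int h α β)
    ((hF.pd a).cont_s j a α β).aestronglyMeasurable ?_ ((hF.pd a).dm_int h β) ?_).2
  · filter_upwards [(hF.pd a).dm_le h β] with s hs α _
    exact hs α
  · refine Eventually.of_forall fun s α _ => ?_
    have h1 := line_hd hF.sm (pt j a s α β) a α
    simpa only [h.pt_a] using h1

lemma LF.sl_cont (hF : LF F) (h : Tri j a b) (β : ℝ) : Continuous fun α => sl j a F α β :=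
  continuous_iff_continuousAt.2 fun α => (hF.sl_hd h α β).continuousAt

lemma LF.sl_zero (hF : LF F) (h : Tri j a b) (β : ℝ) :
    Tendsto (fun α => sl j a F α β) atBot (𝓝 0) := by
  have h1 := tendsto_integral_filter_of_dominated_convergence (μ := (volume : Measure ℝ))
    (F := fun α s => F (pt j a s α β)) (f := fun _ => (0 : ℝ)) (l := atBot)
    (dm j a F β) (Eventually.of_forall fun α => (hF.cont_s j a α β).aestronglyMeasurable)
    (Eventually.of_forall fun α => by
      filter_upwards [hF.dm_le h β] with s hs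
      exact hs α)
    (hF.dm_int h β)
    (Eventually.of_forall fun s => by
      have h2 := (hF.zero []).comp (upd_cocompact_bot (pt j a s 0 β) a)
      simp only [Function.comp_def, h.pt_a] at h2
      exact h2)
  simpa [sl] using h1

lemma sl_nonneg (hF : ∀ x, 0 ≤ F x) (α β : ℝ) : 0 ≤ sl j a F α β :=
  integral_nonneg fun s => hF _

/-- Powers of the integral over a line. -/
lemma LF.sl_pow (hF : LF F) (h : Tri j a b) (h0 : ∀ x, 0 ≤ F x) {q : ℝ} (hq : 1 ≤ q) (α β : ℝ) :
    ENNReal.ofReal (sl j a F α β ^ q) ≤ ∫⁻ α', ENNReal.ofReal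
      |sl j a (H459R3.NS.pd a F) α' β * q * sl j a F α' β ^ (q - 1)| := by
  have h1 := line1 (φ := fun α => sl j a F α β ^ q)
    (φ' := fun α => sl j a (H459R3.NS.pd a F) α β * q * sl j a F α β ^ (q - 1))
    (fun α => (hF.sl_hd h α β).rpow_const (Or.inr hq))
    ((((hF.pd a).sl_cont h β).mul continuous_const).mul
      ((hF.sl_cont h β).rpow_const fun _ => Or.inr (by linarith)))
    (by
      have h2 := (Real.continuous_rpow_const (by linarith : 0 ≤ q)).tendsto (0 : ℝ)
      rw [Real.zero_rpow (by linarith)] at h2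
      exact h2.comp (hF.sl_zero h β)) α
  rwa [abs_of_nonneg (Real.rpow_nonneg (sl_nonneg h0 α β) q)] at h1

lemma Tri.sl_symm (h : Tri j a b) (α β : ℝ) : sl j b F β α = sl j a F α β := by
  unfold sl
  simp only [h.pt_jb]

end

end Pool.Agent.H305.OS
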