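import Pool.Agent.H305.OS.Top

/-!
The maximum.
-/

set_option autoImplicit false

open MeasureTheory Set Metric Filter Topology
open scoped ContDiff ENNReal

namespace Pool.Agent.H305.OS

open H459R3.NS W221.NS Pool.Agent.V1183.PM
open Pool.Agent.W583.MD (sm_pd pd_mul')
open Pool.Agent.W22.ME.TD (pd_comm)
open Pool.Agent.H305.TI (it it_nil it_cons it_sm J_it dt_it)


section
variable {f F : V → ℝ} {j a b : Fin 3}

lemma Tri.pt_self (h : Tri j a b) (x : V) : pt j a (x j) (x a) (x b) = x := by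
  funext i
  unfold pt
  rcases h.cases i with h1 | h1 | h1
  · simp [h1]
  · simp [h1, h.1.symm]
  · simp [h1, h.2.1.symm, h.2.2.symm]

lemma LF.sup (hF : LF F) (h : Tri j a b) (x : V) :
    ENNReal.ofReal |F x| ≤ ∫⁻ y, ENNReal.ofReal |H459R3.NS.pd b (H459R3.NS.pd a (H459R3.NS.pd j F)) y| := by
  have h2 := h.ba.fub (F := fun x => ENNReal.ofReal |H459R3.NS.pd b (H459R3.NS.pd a (H459R3.NS.pd j F)) x|)
    (((hF.pd j).pd a).pd b).meas_abs
  simp only [h.pt_ba] at h2
  rw [h2, ← h.pt_self x]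
  refine (hF.le_j j a (x j) (x a) (x b)).trans ?_
  apply lintegral_mono
  intro s
  refine ((hF.pd j).le_a h s (x a) (x b)).trans ?_
  apply lintegral_mono
  intro α
  exact ((hF.pd j).pd a).le_b h s α (x b)

lemma sqi_of_ip (hf : HF f) {K : ℝ} (h : ip f f ≤ K) : sqi f ≤ ENNReal.ofReal K := sqi_le_of hf h

/-- The bound of the maximum. -/
lemma HF.max (hf : HF f) (h : Tri j a b) {K : ℝ} (hK : 0 ≤ K) (h0 : ip f f ≤ K)
    (h1 : ∀ m, ip (H459R3.NS.pd m f) (H459R3.NS.pd m f) ≤ K) (h2 : ∀ k m, ip (H459R3.NS.pd k (H459R3.NS.pd m f)) (H459R3.NS.pd k (H459R3.NS.pd m f)) ≤ K)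
    (h3 : ∀ n k m, ip (H459R3.NS.pd n (H459R3.NS.pd k (H459R3.NS.pd m f))) (H459R3.NS.pd n (H459R3.NS.pd k (H459R3.NS.pd m f))) ≤ K) (x : V) :
    f x ^ 2 ≤ 8 * K := by
  have k := hf.sqL.sup h x
  have e1 : H459R3.NS.pd j (sqf f) = fun x => 2 * (f x * H459R3.NS.pd j f x) := by
    funext y
    have e : H459R3.NS.pd j (sqf f) y = f y * H459R3.NS.pd j f y + H459R3.NS.pd j f y * f y := pd_mul' hf.sm hf.sm j y
    rw [e]
    ring
  have s1 := hf.sm
  have s2 := sm_pd hf.sm j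
  have s3 := sm_pd hf.sm a
  have s4 := sm_pd s2 a
  have e2 : H459R3.NS.pd a (H459R3.NS.pd j (sqf f)) = fun x => 2 * (f x * H459R3.NS.pd a (H459R3.NS.pd j f) x + H459R3.NS.pd a f x * H459R3.NS.pd j f x) := by
    have e := it_cmul [a] 2 (s1.mul s2)
    simp only [it_cons, it_nil] at e
    rw [e1, e]
    funext y
    rw [pd_mul' s1 s2]
  have e3 : H459R3.NS.pd b (H459R3.NS.pd a (H459R3.NS.pd j (sqf f))) = fun x => 2 * ((f x * H459R3.NS.pd b (H459R3.NS.pd a (H459R3.NS.pd j f)) x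
      + H459R3.NS.pd b f x * H459R3.NS.pd a (H459R3.NS.pd j f) x) + (H459R3.NS.pd a f x * H459R3.NS.pd b (H459R3.NS.pd j f) x + H459R3.NS.pd b (H459R3.NS.pd a f) x * H459R3.NS.pd j f x)) := by
    have e := it_cmul [b] 2 ((s1.mul s4).add (s3.mul s2))
    simp only [it_cons, it_nil] at e
    rw [e2, e]
    have e' := Pool.Agent.TH305.DR.pd_add' (s1.mul s4) (s3.mul s2) b
    rw [e']
    funext y
    simp only
    rw [pd_mul' s1 s4, pd_mul' s3 s2]
  rw [e3] at k
  have hp : ∀ X Y : V → ℝ, HF X → HF Y → ip X X ≤ K → ip Y Y ≤ K →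
      ∫⁻ y, ENNReal.ofReal (2 * |X y * Y y|) ≤ ENNReal.ofReal (2 * K) := by
    intro X Y hX hY hXK hYK
    calc ∫⁻ y, ENNReal.ofReal (2 * |X y * Y y|)
        ≤ ∫⁻ y, (ENNReal.ofReal (X y ^ 2) + ENNReal.ofReal (Y y ^ 2)) := by
          apply lintegral_mono
          intro y
          simp only
          rw [← ENNReal.ofReal_add (sq_nonneg _) (sq_nonneg _)]
          apply ENNReal.ofReal_le_ofReal
          rw [abs_mul, ← sq_abs (X y), ← sq_abs (Y y)]
          nlinarith [sq_nonneg (|X y| - |Y y|)]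
      _ = sqi X + sqi Y := by
          unfold sqi
          have := hX.sm.continuous.measurable
          rw [lintegral_add_left (by fun_prop)]
      _ ≤ ENNReal.ofReal K + ENNReal.ofReal K :=
          add_le_add (sqi_of_ip hX hXK) (sqi_of_ip hY hYK)
      _ = _ := by
          rw [← ENNReal.ofReal_add hK hK]
          congr 1
          ring
  have hk : ∫⁻ y, ENNReal.ofReal |2 * ((f y * H459R3.NS.pd b (H459R3.NS.pd a (H459R3.NS.pd j f)) y
      + H459R3.NS.pd b f y * H459R3.NS.pd a (H459R3.NS.pd j f) y) + (H459R3.NS.pd a f y * H459R3.NS.pd b (H459R3.NS.pd j f) y + H459R3.NS.pd b (H459R3.NS.pd a f) y * H459R3.NS.pd j f y))|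
      ≤ ENNReal.ofReal (8 * K) := by
    have m : ∀ X Y : V → ℝ, HF X → HF Y → Measurable fun y => ENNReal.ofReal (2 * |X y * Y y|) := by
      intro X Y hX hY
      have := hX.sm.continuous.measurable
      have := hY.sm.continuous.measurable
      fun_prop
    have hj := hf.pd j
    have ha := hf.pd a
    have hb := hf.pd b
    have haj := hj.pd a
    have hbj := hj.pd b
    have hba := ha.pd b
    have hbaj := haj.pd b
    calc ∫⁻ y, ENNReal.ofReal |2 * ((f y * H459R3.NS.pd b (H459R3.NS.pd a (H459R3.NS.pd j f)) y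
      + H459R3.NS.pd b f y * H459R3.NS.pd a (H459R3.NS.pd j f) y) + (H459R3.NS.pd a f y * H459R3.NS.pd b (H459R3.NS.pd j f) y + H459R3.NS.pd b (H459R3.NS.pd a f) y * H459R3.NS.pd j f y))|
        ≤ ∫⁻ y, (ENNReal.ofReal (2 * |f y * H459R3.NS.pd b (H459R3.NS.pd a (H459R3.NS.pd j f)) y|)
          + (ENNReal.ofReal (2 * |H459R3.NS.pd b f y * H459R3.NS.pd a (H459R3.NS.pd j f) y|)
          + (ENNReal.ofReal (2 * |H459R3.NS.pd a f y * H459R3.NS.pd b (H459R3.NS.pd j f) y|)
          + ENNReal.ofReal (2 * |H459R3.NS.pd b (H459R3.NS.pd a f) y * H459R3.NS.pd j f y|)))) := by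
          apply lintegral_mono
          intro y
          simp only
          rw [← ENNReal.ofReal_add (by positivity) (by positivity),
            ← ENNReal.ofReal_add (by positivity) (by positivity),
            ← ENNReal.ofReal_add (by positivity) (by positivity)]
          apply ENNReal.ofReal_le_ofReal
          rw [abs_mul, abs_of_pos (by norm_num : (0 : ℝ) < 2)]
          have a1 := abs_add_le (f y * H459R3.NS.pd b (H459R3.NS.pd a (H459R3.NS.pd j f)) y + H459R3.NS.pd b f y * H459R3.NS.pd a (H459R3.NS.pd j f) y)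
            (H459R3.NS.pd a f y * H459R3.NS.pd b (H459R3.NS.pd j f) y + H459R3.NS.pd b (H459R3.NS.pd a f) y * H459R3.NS.pd j f y)
          have a2 := abs_add_le (f y * H459R3.NS.pd b (H459R3.NS.pd a (H459R3.NS.pd j f)) y) (H459R3.NS.pd b f y * H459R3.NS.pd a (H459R3.NS.pd j f) y)
          have a3 := abs_add_le (H459R3.NS.pd a f y * H459R3.NS.pd b (H459R3.NS.pd j f) y) (H459R3.NS.pd b (H459R3.NS.pd a f) y * H459R3.NS.pd j f y)
          linarith
      _ = (∫⁻ y, ENNReal.ofReal (2 * |f y * H459R3.NS.pd b (H459R3.NS.pd a (H459R3.NS.pd j f)) y|))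
          + ((∫⁻ y, ENNReal.ofReal (2 * |H459R3.NS.pd b f y * H459R3.NS.pd a (H459R3.NS.pd j f) y|))
          + ((∫⁻ y, ENNReal.ofReal (2 * |H459R3.NS.pd a f y * H459R3.NS.pd b (H459R3.NS.pd j f) y|))
          + ∫⁻ y, ENNReal.ofReal (2 * |H459R3.NS.pd b (H459R3.NS.pd a f) y * H459R3.NS.pd j f y|))) := by
          rw [lintegral_add_left (m _ _ hf hbaj), lintegral_add_left (m _ _ hb haj),
            lintegral_add_left (m _ _ ha hbj)]
      _ ≤ ENNReal.ofReal (2 * K) + (ENNReal.ofReal (2 * K) + (ENNReal.ofReal (2 * K)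
          + ENNReal.ofReal (2 * K))) := by
          refine add_le_add (hp _ _ hf hbaj h0 (h3 _ _ _)) (add_le_add (hp _ _ hb haj (h1 _) (h2 _ _))
            (add_le_add (hp _ _ ha hbj (h1 _) (h2 _ _)) (hp _ _ hba hj (h2 _ _) (h1 _))))
      _ = _ := by
          rw [← ENNReal.ofReal_add (by positivity) (by positivity),
            ← ENNReal.ofReal_add (by positivity) (by positivity),
            ← ENNReal.ofReal_add (by positivity) (by positivity)]
          congr 1
          ring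
  have k2 := k.trans hk
  rw [abs_of_nonneg (sqf_nonneg f x)] at k2
  have k3 := (ENNReal.ofReal_le_ofReal_iff (by positivity)).1 k2
  rw [sq]
  exact k3

end

section
variable {ν T : ℝ} {u : ℝ → V → V} {p : ℝ → V → ℝ} {a b c : Fin 3}

/-- The velocity is bounded near the final time. -/
theorem HS.bounded (h : HS ν T u p) (hT : Tri a b c) {a₀ K1 : ℝ} (ha₀ : 0 < a₀) (haT : a₀ < T)
    {ψ : ℝ → ℝ≥0∞} (hps : PS ν T u a b a₀ K1 ψ) :
    ∃ M : ℝ, ∃ s ∈ Ioo 0 T, ∀ t ∈ Ico s T, ∀ x i, |u t x i| ≤ M := by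
  obtain ⟨K, hK0, s, hs, h1⟩ := h.enstrophy' hT ha₀ haT hps
  have hs0 : 0 < s := ha₀.trans hs.1
  obtain ⟨K', hK'⟩ : ∃ K', K' = 1 + K + en u s := ⟨_, rfl⟩
  have hen := en_nonneg u s
  have hE : ∀ t ∈ Ico s T, ∀ i, ip (cw u t i) (cw u t i) ≤ K' := by
    intro t ht i
    have k1 := h.en_anti hs0 ht.1 ht.2
    have k2 := single1 (F := fun i => ip (cw u t i) (cw u t i)) (fun i => ip_self_nonneg _) i
    have k3 : ip (cw u t i) (cw u t i) ≤ en u t := k2
    rw [hK']
    linarith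
  have hN : ∀ t ∈ Ico s T, N2 (cw u t) ≤ K' ∧
      ENNReal.ofReal ν * ∫⁻ τ in Ioc s t, ENNReal.ofReal (D2 (cw u τ)) ≤ ENNReal.ofReal K' := by
    intro t ht
    refine ⟨(h1 t ht).1.trans (by rw [hK']; linarith), (h1 t ht).2.trans ?_⟩
    apply ENNReal.ofReal_le_ofReal
    rw [hK']
    linarith
  obtain ⟨M, hKM, h2⟩ := h.higher hs0 (by rw [hK']; linarith : 1 ≤ K') hE hN
  have hM0 : 0 ≤ M := by
    have : 0 ≤ K' := by rw [hK']; linarith
    linarith
  have ht3 : Tri 0 1 2 := ⟨by decide, by decide, by decide⟩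
  refine ⟨√(8 * M), s, ⟨hs0, hs.2⟩, fun t ht x i => ?_⟩
  have hτ : t ∈ Ioo 0 T := ⟨hs0.trans_le ht.1, ht.2⟩
  apply Real.abs_le_sqrt
  have hw := h.cw_HF hτ i
  exact hw.max ht3 hM0 ((hE t ht i).trans hKM)
    (fun m => ((ip_le_n1 (cw u t) m i).trans (n1_le_N2 _ m)).trans ((hN t ht).1.trans hKM))
    (fun k m => (all_D (cw u t) k i m).trans (h2 t ht).1)
    (fun n k m => (ip_le_D3 (cw u t) n k m i).trans (h2 t ht).2) x

end

end Pool.Agent.H305.OS
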