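import Pool.Agent.H305.OS.Fix

/-!
The energy identities in time.
-/

set_option autoImplicit false

open MeasureTheory Set Metric Filter Topology
open scoped ContDiff ENNReal

namespace Pool.Agent.H305.OS

open H459R3.NS W221.NS Pool.Agent.V1183.PM
open Pool.Agent.W583.MD (sm_pd pd_mul')
open Pool.Agent.W22.ME.TD (pd_comm)
open Pool.Agent.H305.TI (it it_nil it_cons it_sm J_it dt_it)


section
variable {F G : ℝ → V → ℝ} {s t T : ℝ} {I : Set ℝ}

lemma UF.it (h : UF I F) (l : List (Fin 3)) : UF I (fun τ => Pool.Agent.H305.TI.it l (F τ)) := by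
  induction l generalizing F with
  | nil => exact h
  | cons i l ih => exact ih (h.pd i)

lemma UF.congr (h : UF I F) (hFG : ∀ τ ∈ I, G τ = F τ) : UF I G := by
  refine ⟨fun τ hτ => by rw [hFG τ hτ]; exact h.sm τ hτ, fun l => ?_⟩
  obtain ⟨C, hC, h1⟩ := h.bd l
  exact ⟨C, hC, fun τ hτ => by rw [hFG τ hτ]; exact h1 τ hτ⟩

lemma UF.mono {I' : Set ℝ} (h : UF I F) (hI : I' ⊆ I) : UF I' F := by
  refine ⟨fun τ hτ => h.sm τ (hI hτ), fun l => ?_⟩
  obtain ⟨C, hC, h1⟩ := h.bd l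
  exact ⟨C, hC, fun τ hτ => h1 τ (hI hτ)⟩

/-- A bound for the inner products. -/
lemma UF.ip_bd (hF : UF I F) : ∃ C : ℝ, 0 ≤ C ∧ ∀ τ ∈ I, ip (F τ) (F τ) ≤ C := by
  obtain ⟨C, hC, h1⟩ := hF.bd []
  exact ⟨C, hC, fun τ hτ => ip_le (hF.at hτ) hC (h1 τ hτ).2⟩

lemma prod_int (hs : 0 < s) (ht : t < T) (jF : J T F) (jG : J T G)
    (hF : UF (Icc s t) F) (hG : UF (Icc s t) G) :
    Integrable (fun z : ℝ × V => F z.1 z.2 * G z.1 z.2)
      ((volume.restrict (Ioc s t)).prod volume) := by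
  have hsub : Ioc s t ×ˢ (univ : Set V) ⊆ Ioo 0 T ×ˢ univ := by
    rintro ⟨τ, x⟩ ⟨hτ, -⟩
    exact ⟨⟨hs.trans hτ.1, hτ.2.trans_lt ht⟩, mem_univ _⟩
  have hmeas : AEStronglyMeasurable (fun z : ℝ × V => F z.1 z.2 * G z.1 z.2)
      ((volume.restrict (Ioc s t)).prod volume) := by
    have h1 : ContinuousOn (fun z : ℝ × V => F z.1 z.2 * G z.1 z.2) (Ioc s t ×ˢ univ) :=
      ((jF.mul jG).continuousOn).mono hsub
    have h2 := h1.aestronglyMeasurable (μ := (volume : Measure ℝ).prod (volume : Measure V))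
      (measurableSet_Ioc.prod MeasurableSet.univ)
    rwa [← Measure.prod_restrict, Measure.restrict_univ] at h2
  refine ⟨hmeas, ?_⟩
  unfold HasFiniteIntegral
  rw [lintegral_prod _ hmeas.enorm]
  obtain ⟨C1, hC1, k1⟩ := hF.bd []
  obtain ⟨C2, hC2, k2⟩ := hG.bd []
  have h3 : ∀ τ ∈ Ioc s t, ∫⁻ x, ‖F τ x * G τ x‖ₑ ≤ ENNReal.ofReal C1 + ENNReal.ofReal C2 := by
    intro τ hτ
    have hτ' := Ioc_subset_Icc_self hτ
    have h4 : ∫⁻ x, ‖F τ x * G τ x‖ₑ ≤ sqi (F τ) + sqi (G τ) := by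
      unfold sqi
      have := (hF.sm τ hτ').continuous.measurable
      rw [← lintegral_add_left (by fun_prop)]
      apply lintegral_mono
      intro x
      simp only
      rw [Real.enorm_eq_ofReal_abs, ← ENNReal.ofReal_add (sq_nonneg _) (sq_nonneg _)]
      apply ENNReal.ofReal_le_ofReal
      rw [abs_mul, ← sq_abs (F τ x), ← sq_abs (G τ x)]
      nlinarith [sq_nonneg (|F τ x| - |G τ x|), sq_nonneg (|F τ x| + |G τ x|)]
    exact h4.trans (add_le_add (k1 τ hτ').2 (k2 τ hτ').2)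
  calc ∫⁻ τ in Ioc s t, ∫⁻ x, ‖F τ x * G τ x‖ₑ
      ≤ ∫⁻ _τ in Ioc s t, (ENNReal.ofReal C1 + ENNReal.ofReal C2) :=
        setLIntegral_mono' measurableSet_Ioc h3
    _ < ⊤ := by
        rw [setLIntegral_const]
        apply ENNReal.mul_lt_top
        · exact ENNReal.add_lt_top.2 ⟨ENNReal.ofReal_lt_top, ENNReal.ofReal_lt_top⟩
        · rw [Real.volume_Ioc]
          exact ENNReal.ofReal_lt_top

lemma ip_intOn (hs : 0 < s) (ht : t < T) (jF : J T F) (jG : J T G)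
    (hF : UF (Icc s t) F) (hG : UF (Icc s t) G) :
    IntegrableOn (fun τ => ip (F τ) (G τ)) (Ioc s t) :=
  (prod_int hs ht jF jG hF hG).integral_prod_left

/-- The energy identity. -/
lemma ip_id (hs : 0 < s) (hst : s ≤ t) (ht : t < T) (jF : J T F) (jG : J T G)
    (hF : UF (Icc s t) F) (hG : UF (Icc s t) G)
    (hd : ∀ τ ∈ Icc s t, ∀ x, deriv (fun s => F s x) τ = G τ x) :
    ip (F t) (F t) = ip (F s) (F s) + ∫ τ in Ioc s t, 2 * ip (F τ) (G τ) := by
  have h1 := integral_integral_swap (f := fun τ x => F τ x * G τ x) (prod_int hs ht jF jG hF hG)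
  have h2 : ∀ x, ∫ τ in Ioc s t, F τ x * G τ x = (1 / 2) * (F t x * F t x - F s x * F s x) := by
    intro x
    have h3 : ∀ τ ∈ uIcc s t, HasDerivAt (fun τ => F τ x * F τ x) (2 * (F τ x * G τ x)) τ := by
      intro τ hτ
      rw [uIcc_of_le hst] at hτ
      have hτ' : τ ∈ Ioo 0 T := ⟨hs.trans_le hτ.1, hτ.2.trans_lt ht⟩
      have h4 : HasDerivAt (fun τ => F τ x) (G τ x) τ := by
        have := (jF.dfT hτ' x).hasDerivAt
        rwa [hd τ hτ x] at this
      refine (h4.mul h4).congr_deriv ?_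
      ring
    have hcont : ContinuousOn (fun τ => 2 * (F τ x * G τ x)) (uIcc s t) := by
      rw [uIcc_of_le hst]
      refine ContinuousOn.mul continuousOn_const ?_
      have h5 : ContinuousOn (fun z : ℝ × V => F z.1 z.2 * G z.1 z.2) (Ioo 0 T ×ˢ univ) :=
        (jF.mul jG).continuousOn
      refine h5.comp (f := fun τ : ℝ => (τ, x)) (by fun_prop) ?_
      intro τ hτ
      exact ⟨⟨hs.trans_le hτ.1, hτ.2.trans_lt ht⟩, mem_univ _⟩
    have h6 := intervalIntegral.integral_eq_sub_of_hasDerivAt h3 hcont.intervalIntegrable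
    rw [intervalIntegral.integral_const_mul, intervalIntegral.integral_of_le hst] at h6
    linarith
  simp only [h2] at h1
  rw [integral_const_mul] at h1
  have hFt := hF.at (right_mem_Icc.2 hst)
  have hFs := hF.at (left_mem_Icc.2 hst)
  rw [integral_sub (hFt.ip_int hFt) (hFs.ip_int hFs)] at h1
  rw [integral_const_mul]
  unfold ip
  linarith

end

/-- Smooth solutions on `(0, T) × ℝ³`, all of whose spatial derivatives are bounded and square
integrable, locally uniformly in time. -/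
structure HS (ν T : ℝ) (u : ℝ → V → V) (p : ℝ → V → ℝ) : Prop where
  hν : 0 < ν
  ju : ∀ i, J T (fun t x => u t x i)
  jp : J T p
  uu : ∀ s t, 0 < s → t < T → ∀ i, UF (Icc s t) (fun τ x => u τ x i)
  up : ∀ s t, 0 < s → t < T → UF (Icc s t) p
  div : ∀ t ∈ Ioo 0 T, ∀ x, ∑ i, H459R3.NS.pd i (fun y => u t y i) x = 0
  mom : ∀ i, ∀ t ∈ Ioo 0 T, ∀ x, deriv (fun s => u s x i) t
    = ν * lp (fun y => u t y i) x - nl (fun i y => u t y i) i x - H459R3.NS.pd i (p t) x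

/-- The components. -/
def cw (u : ℝ → V → V) (τ : ℝ) (i : Fin 3) : V → ℝ := fun y => u τ y i

section
variable {ν T : ℝ} {u : ℝ → V → V} {p : ℝ → V → ℝ} {s t : ℝ}

/-- The time derivative. -/
noncomputable def tdv (ν : ℝ) (u : ℝ → V → V) (p : ℝ → V → ℝ) (τ : ℝ) (i : Fin 3) : V → ℝ :=
  fun x => ν * lp (cw u τ i) x - nl (cw u τ) i x - H459R3.NS.pd i (p τ) x

lemma HS.cw_HF (h : HS ν T u p) {τ : ℝ} (hτ : τ ∈ Ioo 0 T) (i : Fin 3) : HF (cw u τ i) :=
  (h.uu τ τ hτ.1 hτ.2 i).at (left_mem_Icc.2 le_rfl)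

lemma HS.p_HF (h : HS ν T u p) {τ : ℝ} (hτ : τ ∈ Ioo 0 T) : HF (p τ) :=
  (h.up τ τ hτ.1 hτ.2).at (left_mem_Icc.2 le_rfl)

lemma HS.tdv_UF (h : HS ν T u p) (hs : 0 < s) (ht : t < T) (i : Fin 3) :
    UF (Icc s t) (fun τ => tdv ν u p τ i) := by
  have h1 := fun i => h.uu s t hs ht i
  have h2 : UF (Icc s t) (fun τ => lp (cw u τ i)) := UF.sum fun k => ((h1 i).pd k).pd k
  have h3 : UF (Icc s t) (fun τ => nl (cw u τ) i) := UF.sum fun j => (h1 j).mul ((h1 i).pd j)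
  exact ((h2.cmul ν).sub h3).sub ((h.up s t hs ht).pd i)

lemma HS.en_id (h : HS ν T u p) (hs : 0 < s) (hst : s ≤ t) (ht : t < T) (l : List (Fin 3))
    (i : Fin 3) :
    IntegrableOn (fun τ => 2 * ip (it l (cw u τ i)) (it l (tdv ν u p τ i))) (Ioc s t) ∧
    ip (it l (cw u t i)) (it l (cw u t i)) = ip (it l (cw u s i)) (it l (cw u s i))
      + ∫ τ in Ioc s t, 2 * ip (it l (cw u τ i)) (it l (tdv ν u p τ i)) := by
  have jF := J_it l (h.ju i)
  have hF : UF (Icc s t) (fun τ => it l (cw u τ i)) := (h.uu s t hs ht i).it l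
  obtain ⟨G, hG⟩ : ∃ G : ℝ → V → ℝ, G = fun τ x => deriv (fun s => it l (cw u s i) x) τ := ⟨_, rfl⟩
  have jG : J T G := by rw [hG]; exact jF.dt
  have e : ∀ τ ∈ Icc s t, G τ = it l (tdv ν u p τ i) := by
    intro τ hτ
    have hτ' : τ ∈ Ioo 0 T := ⟨hs.trans_le hτ.1, hτ.2.trans_lt ht⟩
    funext x
    rw [hG]
    have h1 := dt_it l (h.ju i) hτ' x
    refine h1.trans ?_
    congr 1
    funext y
    exact h.mom i τ hτ' y
  have hG' : UF (Icc s t) G := ((h.tdv_UF hs ht i).it l).congr e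
  have k1 := ip_id hs hst ht jF jG hF hG' (fun τ _ x => by rw [hG]; rfl)
  have k2 := (ip_intOn hs ht jF jG hF hG').const_mul 2
  have e2 : ∀ τ ∈ Ioc s t, 2 * ip (it l (cw u τ i)) (G τ)
      = 2 * ip (it l (cw u τ i)) (it l (tdv ν u p τ i)) := fun τ hτ => by
    rw [e τ (Ioc_subset_Icc_self hτ)]
  refine ⟨IntegrableOn.congr_fun k2 e2 measurableSet_Ioc, ?_⟩
  refine k1.trans ?_
  congr 1
  exact setIntegral_congr_fun measurableSet_Ioc e2

lemma HS.en_sum (h : HS ν T u p) (hs : 0 < s) (hst : s ≤ t) (ht : t < T) (l : List (Fin 3)) :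
    IntegrableOn (fun τ => 2 * ∑ i, ip (it l (cw u τ i)) (it l (tdv ν u p τ i))) (Ioc s t) ∧
    ∑ i, ip (it l (cw u t i)) (it l (cw u t i)) = ∑ i, ip (it l (cw u s i)) (it l (cw u s i))
      + ∫ τ in Ioc s t, 2 * ∑ i, ip (it l (cw u τ i)) (it l (tdv ν u p τ i)) := by
  have h1 := fun i => h.en_id hs hst ht l i
  simp only [Finset.mul_sum]
  refine ⟨integrable_finsetSum _ fun i _ => (h1 i).1, ?_⟩
  rw [integral_finsetSum _ fun i _ => (h1 i).1, ← Finset.sum_add_distrib]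
  exact Finset.sum_congr rfl fun i _ => (h1 i).2

/-- The energy. -/
noncomputable def en (u : ℝ → V → V) (t : ℝ) : ℝ := ∑ i, ip (cw u t i) (cw u t i)

lemma HS.energy (h : HS ν T u p) (hs : 0 < s) (hst : s ≤ t) (ht : t < T) :
    IntegrableOn (fun τ => -(2 * ν) * N2 (cw u τ)) (Ioc s t) ∧
    en u t = en u s + ∫ τ in Ioc s t, -(2 * ν) * N2 (cw u τ) := by
  have h1 := h.en_sum hs hst ht []
  have e : ∀ τ ∈ Ioc s t, 2 * ∑ i, ip (it [] (cw u τ i)) (it [] (tdv ν u p τ i))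
      = -(2 * ν) * N2 (cw u τ) := by
    intro τ hτ
    have hτ' : τ ∈ Ioo 0 T := ⟨hs.trans hτ.1, hτ.2.trans_lt ht⟩
    simp only [it_nil]
    rw [diss_zero (F := tdv ν u p τ) (ν := ν) (fun i => h.cw_HF hτ' i) (h.p_HF hτ') (h.div τ hτ')
      (fun i => rfl)]
    unfold N2 n1
    rw [Finset.sum_comm]
    ring
  refine ⟨IntegrableOn.congr_fun h1.1 e measurableSet_Ioc, ?_⟩
  refine h1.2.trans ?_
  unfold en
  simp only [it_nil]
  congr 1
  exact setIntegral_congr_fun measurableSet_Ioc e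

lemma HS.n1_id (h : HS ν T u p) (hs : 0 < s) (hst : s ≤ t) (ht : t < T) (m : Fin 3) :
    IntegrableOn (fun τ => -(2 * ν) * ∑ l, n2 (cw u τ) m l - 2 * RR (cw u τ) m) (Ioc s t) ∧
    n1 (cw u t) m = n1 (cw u s) m
      + ∫ τ in Ioc s t, (-(2 * ν) * ∑ l, n2 (cw u τ) m l - 2 * RR (cw u τ) m) := by
  have h1 := h.en_sum hs hst ht [m]
  have e : ∀ τ ∈ Ioc s t, 2 * ∑ i, ip (it [m] (cw u τ i)) (it [m] (tdv ν u p τ i))
      = -(2 * ν) * ∑ l, n2 (cw u τ) m l - 2 * RR (cw u τ) m := by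
    intro τ hτ
    have hτ' : τ ∈ Ioo 0 T := ⟨hs.trans hτ.1, hτ.2.trans_lt ht⟩
    simp only [it_cons, it_nil]
    rw [diss_one (F := tdv ν u p τ) (ν := ν) (fun i => h.cw_HF hτ' i) (fun i => (h.p_HF hτ').pd i) (h.p_HF hτ').sm
      (h.div τ hτ') (fun i => rfl) m]
    unfold n2
    rw [Finset.sum_comm]
    ring
  refine ⟨IntegrableOn.congr_fun h1.1 e measurableSet_Ioc, ?_⟩
  refine h1.2.trans ?_
  unfold n1
  simp only [it_cons, it_nil]
  congr 1
  exact setIntegral_congr_fun measurableSet_Ioc e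

/-- Integrability of the second-order norms. -/
lemma HS.n2_int (h : HS ν T u p) (hs : 0 < s) (ht : t < T) (m l : Fin 3) :
    IntegrableOn (fun τ => n2 (cw u τ) m l) (Ioc s t) := by
  unfold n2
  refine integrable_finsetSum _ fun i _ => ?_
  have jF := ((h.ju i).pd m).pd l
  have hF := ((h.uu s t hs ht i).pd m).pd l
  exact ip_intOn hs ht jF jF hF hF

lemma HS.N2_int (h : HS ν T u p) (hs : 0 < s) (ht : t < T) :
    IntegrableOn (fun τ => N2 (cw u τ)) (Ioc s t) := by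
  unfold N2 n1
  refine integrable_finsetSum _ fun m _ => integrable_finsetSum _ fun i _ => ?_
  have jF := (h.ju i).pd m
  have hF := (h.uu s t hs ht i).pd m
  exact ip_intOn hs ht jF jF hF hF

lemma HS.D2_int (h : HS ν T u p) (hs : 0 < s) (ht : t < T) :
    IntegrableOn (fun τ => D2 (cw u τ)) (Ioc s t) := by
  unfold D2
  exact integrable_finsetSum _ fun m _ => integrable_finsetSum _ fun l _ => h.n2_int hs ht m l

lemma HS.Q2_int (h : HS ν T u p) (hs : 0 < s) (ht : t < T) (a b : Fin 3) :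
    IntegrableOn (fun τ => Q2 (cw u τ) a b) (Ioc s t) := by
  unfold Q2
  exact (integrable_finsetSum _ fun l _ => h.n2_int hs ht a l).add
    (integrable_finsetSum _ fun l _ => h.n2_int hs ht b l)

end

end Pool.Agent.H305.OS
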