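import Pool.Agent.H305.OS.High
import Pool.Agent.H305.OS.Hyp

/-!
From the enstrophy to the maximum.
-/

set_option autoImplicit false

open MeasureTheory Set Metric Filter Topology
open scoped ContDiff ENNReal

namespace Pool.Agent.H305.OS

open H459R3.NS W221.NS Pool.Agent.V1183.PM
open Pool.Agent.W583.MD (sm_pd pd_mul')
open Pool.Agent.W22.ME.TD (pd_comm)
open Pool.Agent.H305.TI (it it_nil it_cons it_sm J_it dt_it)


section
variable {ν T : ℝ} {u : ℝ → V → V} {p : ℝ → V → ℝ} {s t : ℝ}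

lemma HS.D3_int (h : HS ν T u p) (hs : 0 < s) (ht : t < T) :
    IntegrableOn (fun τ => D3 (cw u τ)) (Ioc s t) := by
  unfold D3
  refine integrable_finsetSum _ fun m _ => integrable_finsetSum _ fun k _ =>
    integrable_finsetSum _ fun n _ => integrable_finsetSum _ fun i _ => ?_
  have jF := (((h.ju i).pd m).pd k).pd n
  have hF := (((h.uu s t hs ht i).pd m).pd k).pd n
  exact ip_intOn hs ht jF jF hF hF

lemma HS.D4_int (h : HS ν T u p) (hs : 0 < s) (ht : t < T) :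
    IntegrableOn (fun τ => D4 (cw u τ)) (Ioc s t) := by
  unfold D4
  refine integrable_finsetSum _ fun m _ => integrable_finsetSum _ fun k _ =>
    integrable_finsetSum _ fun n _ => integrable_finsetSum _ fun q _ =>
    integrable_finsetSum _ fun i _ => ?_
  have jF := ((((h.ju i).pd m).pd k).pd n).pd q
  have hF := ((((h.uu s t hs ht i).pd m).pd k).pd n).pd q
  exact ip_intOn hs ht jF jF hF hF

/-- The identity for one list. -/
lemma HS.l_id (h : HS ν T u p) (hs : 0 < s) (hst : s ≤ t) (ht : t < T) (m : Fin 3)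
    (l : List (Fin 3)) :
    IntegrableOn (fun τ => -(2 * ν) * ∑ q, ∑ i, ip (H459R3.NS.pd q (it (m :: l) (cw u τ i)))
        (H459R3.NS.pd q (it (m :: l) (cw u τ i)))
      - 2 * ∑ i, ip (it (m :: l) (cw u τ i)) (it (m :: l) (nl (cw u τ) i))) (Ioc s t) ∧
    ∑ i, ip (it (m :: l) (cw u t i)) (it (m :: l) (cw u t i))
      = ∑ i, ip (it (m :: l) (cw u s i)) (it (m :: l) (cw u s i))
      + ∫ τ in Ioc s t, (-(2 * ν) * ∑ q, ∑ i, ip (H459R3.NS.pd q (it (m :: l) (cw u τ i)))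
        (H459R3.NS.pd q (it (m :: l) (cw u τ i)))
      - 2 * ∑ i, ip (it (m :: l) (cw u τ i)) (it (m :: l) (nl (cw u τ) i))) := by
  have h1 := h.en_sum hs hst ht (m :: l)
  have e : ∀ τ ∈ Ioc s t, 2 * ∑ i, ip (it (m :: l) (cw u τ i)) (it (m :: l) (tdv ν u p τ i))
      = -(2 * ν) * ∑ q, ∑ i, ip (H459R3.NS.pd q (it (m :: l) (cw u τ i)))
        (H459R3.NS.pd q (it (m :: l) (cw u τ i)))
      - 2 * ∑ i, ip (it (m :: l) (cw u τ i)) (it (m :: l) (nl (cw u τ) i)) := by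
    intro τ hτ
    have hτ' : τ ∈ Ioo 0 T := ⟨hs.trans hτ.1, hτ.2.trans_lt ht⟩
    rw [diss_gen (F := tdv ν u p τ) (ν := ν) (fun i => h.cw_HF hτ' i)
      (fun i => (h.p_HF hτ').pd i) (h.p_HF hτ').sm (h.div τ hτ') (fun i => rfl) l m]
    rw [Finset.sum_comm]
    ring
  refine ⟨IntegrableOn.congr_fun h1.1 e measurableSet_Ioc, ?_⟩
  refine h1.2.trans ?_
  congr 1
  exact setIntegral_congr_fun measurableSet_Ioc e

/-- Sums of identities. -/
lemma sum_id {a b : Fin 3 → ℝ} {F : Fin 3 → ℝ → ℝ}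
    (h : ∀ m, IntegrableOn (F m) (Ioc s t) ∧ a m = b m + ∫ τ in Ioc s t, F m τ) :
    IntegrableOn (fun τ => ∑ m, F m τ) (Ioc s t) ∧
      ∑ m, a m = ∑ m, b m + ∫ τ in Ioc s t, ∑ m, F m τ := by
  refine ⟨integrable_finsetSum _ fun m _ => (h m).1, ?_⟩
  rw [integral_finsetSum _ fun m _ => (h m).1, ← Finset.sum_add_distrib]
  exact Finset.sum_congr rfl fun m _ => (h m).2

lemma HS.D2_id (h : HS ν T u p) (hs : 0 < s) (hst : s ≤ t) (ht : t < T) :
    IntegrableOn (fun τ => -(2 * ν) * D3 (cw u τ) - 2 * NL2 (cw u τ)) (Ioc s t) ∧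
    D2 (cw u t) = D2 (cw u s) + ∫ τ in Ioc s t, (-(2 * ν) * D3 (cw u τ) - 2 * NL2 (cw u τ)) := by
  have h1 := sum_id fun m => sum_id fun k => h.l_id hs hst ht m [k]
  simp only [it_cons, it_nil] at h1
  have e : ∀ τ, ∑ m, ∑ k, (-(2 * ν) * ∑ q, ∑ i, ip (H459R3.NS.pd q (H459R3.NS.pd k (H459R3.NS.pd m (cw u τ i))))
        (H459R3.NS.pd q (H459R3.NS.pd k (H459R3.NS.pd m (cw u τ i))))
      - 2 * ∑ i, ip (H459R3.NS.pd k (H459R3.NS.pd m (cw u τ i))) (H459R3.NS.pd k (H459R3.NS.pd m (nl (cw u τ) i))))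
      = -(2 * ν) * D3 (cw u τ) - 2 * NL2 (cw u τ) := by
    intro τ
    unfold D3 NL2
    simp only [Finset.sum_sub_distrib, ← Finset.mul_sum]
  simp only [e] at h1
  exact h1

lemma HS.D3_id (h : HS ν T u p) (hs : 0 < s) (hst : s ≤ t) (ht : t < T) :
    IntegrableOn (fun τ => -(2 * ν) * D4 (cw u τ) - 2 * NL3 (cw u τ)) (Ioc s t) ∧
    D3 (cw u t) = D3 (cw u s) + ∫ τ in Ioc s t, (-(2 * ν) * D4 (cw u τ) - 2 * NL3 (cw u τ)) := by
  have h1 := sum_id fun m => sum_id fun k => sum_id fun n => h.l_id hs hst ht m [k, n]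
  simp only [it_cons, it_nil] at h1
  have e : ∀ τ, ∑ m, ∑ k, ∑ n, (-(2 * ν) * ∑ q, ∑ i, ip (H459R3.NS.pd q (H459R3.NS.pd n (H459R3.NS.pd k (H459R3.NS.pd m (cw u τ i)))))
        (H459R3.NS.pd q (H459R3.NS.pd n (H459R3.NS.pd k (H459R3.NS.pd m (cw u τ i)))))
      - 2 * ∑ i, ip (H459R3.NS.pd n (H459R3.NS.pd k (H459R3.NS.pd m (cw u τ i)))) (H459R3.NS.pd n (H459R3.NS.pd k (H459R3.NS.pd m (nl (cw u τ) i)))))
      = -(2 * ν) * D4 (cw u τ) - 2 * NL3 (cw u τ) := by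
    intro τ
    unfold D4 NL3
    simp only [Finset.sum_sub_distrib, ← Finset.mul_sum]
  simp only [e] at h1
  exact h1

/-- The inequality from the identity. -/
lemma from_id {ν : ℝ} (hν : 0 < ν) {y q n : ℝ → ℝ} {ψ : ℝ → ℝ≥0∞}
    (hq : IntegrableOn q (Ioc s t)) (hq0 : ∀ τ, 0 ≤ q τ) (hy0 : 0 ≤ y t)
    (hid : IntegrableOn (fun τ => -(2 * ν) * q τ - 2 * n τ) (Ioc s t) ∧
      y t = y s + ∫ τ in Ioc s t, (-(2 * ν) * q τ - 2 * n τ))
    (hb : ∀ τ ∈ Ioc s t, ENNReal.ofReal (2 * |n τ|) ≤ ENNReal.ofReal (ν * q τ) + ψ τ) :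
    ENNReal.ofReal (y t) + ∫⁻ τ in Ioc s t, ENNReal.ofReal (ν * q τ)
      ≤ ENNReal.ofReal (y s) + ∫⁻ τ in Ioc s t, ψ τ := by
  have e : ∀ τ, -(2 * ν) * q τ - 2 * n τ = (-(2 * n τ)) - 2 * (ν * q τ) := by
    intro τ
    ring
  simp only [e] at hid
  have hρ : IntegrableOn (fun τ => -(2 * n τ)) (Ioc s t) := by
    have := hid.1.add ((hq.const_mul ν).const_mul 2)
    refine this.congr (Eventually.of_forall fun τ => ?_)
    simp only [Pi.add_apply]
    ring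
  refine cmp (hq.const_mul ν) (fun τ _ => mul_nonneg hν.le (hq0 τ)) hρ hy0 hid.2 ?_
  intro τ hτ
  rw [abs_neg, abs_mul, abs_of_pos (by norm_num : (0 : ℝ) < 2)]
  exact hb τ hτ

/-- The bounds of the norms of the second and the third order. -/
lemma HS.higher (h : HS ν T u p) {K : ℝ} (hs : 0 < s) (hK1 : 1 ≤ K)
    (hE : ∀ t ∈ Ico s T, ∀ i, ip (cw u t i) (cw u t i) ≤ K)
    (hN : ∀ t ∈ Ico s T, N2 (cw u t) ≤ K ∧
      ENNReal.ofReal ν * ∫⁻ τ in Ioc s t, ENNReal.ofReal (D2 (cw u τ)) ≤ ENNReal.ofReal K) :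
    ∃ M : ℝ, K ≤ M ∧ ∀ t ∈ Ico s T, D2 (cw u t) ≤ M ∧ D3 (cw u t) ≤ M := by
  have hν := h.hν
  have hK0 : 0 ≤ K := by linarith
  obtain ⟨C2, hC2, h2⟩ := high2 hν
  -- second order
  obtain ⟨M2, hM2⟩ : ∃ M2, M2 = D2 (cw u s) + C2 * K ^ 2 * (ν⁻¹ * K) := ⟨_, rfl⟩
  have hDs := D2_nonneg (cw u s)
  have hM20 : 0 ≤ M2 := by rw [hM2]; positivity
  have k2 : ∀ t ∈ Ico s T, ENNReal.ofReal (D2 (cw u t))
      + ∫⁻ τ in Ioc s t, ENNReal.ofReal (ν * D3 (cw u τ)) ≤ ENNReal.ofReal M2 := by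
    intro t ht
    have k1 := from_id (y := fun t => D2 (cw u t)) (q := fun τ => D3 (cw u τ))
      (n := fun τ => NL2 (cw u τ)) (ψ := fun τ => ENNReal.ofReal (C2 * K ^ 2)
        * ENNReal.ofReal (D2 (cw u τ))) hν (h.D3_int hs ht.2) (fun τ => D3_nonneg _)
      (D2_nonneg _) (h.D2_id hs ht.1 ht.2) (by
        intro τ hτ
        have hτ' : τ ∈ Ioo 0 T := ⟨hs.trans hτ.1, hτ.2.trans_lt ht.2⟩
        have hN' := (hN τ ⟨hτ.1.le, hτ'.2⟩).1
        have hN0 := N2_nonneg (cw u τ)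
        have hD0 := D2_nonneg (cw u τ)
        have hD3 := D3_nonneg (cw u τ)
        rw [← ENNReal.ofReal_mul (by positivity), ← ENNReal.ofReal_add (by positivity) (by positivity)]
        apply ENNReal.ofReal_le_ofReal
        refine (h2 (cw u τ) (fun i => h.cw_HF hτ' i) (h.div τ hτ')).trans ?_
        have : C2 * (N2 (cw u τ) ^ 2 * D2 (cw u τ)) ≤ C2 * K ^ 2 * D2 (cw u τ) := by
          rw [mul_assoc]
          gcongr
        linarith)
    refine k1.trans ?_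
    rw [lintegral_const_mul' _ _ ENNReal.ofReal_ne_top]
    have k3 := inv_cancel' hν (hN t ht).2
    calc ENNReal.ofReal (D2 (cw u s)) + ENNReal.ofReal (C2 * K ^ 2)
          * ∫⁻ τ in Ioc s t, ENNReal.ofReal (D2 (cw u τ))
        ≤ ENNReal.ofReal (D2 (cw u s)) + ENNReal.ofReal (C2 * K ^ 2)
          * (ENNReal.ofReal ν⁻¹ * ENNReal.ofReal K) := by gcongr
      _ = ENNReal.ofReal M2 := by
          rw [← ENNReal.ofReal_mul (by positivity), ← ENNReal.ofReal_mul (by positivity),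
            ← ENNReal.ofReal_add (by positivity) (by positivity), hM2]
  have k2a : ∀ t ∈ Ico s T, D2 (cw u t) ≤ M2 := fun t ht =>
    (ENNReal.ofReal_le_ofReal_iff hM20).1 (le_self_add.trans (k2 t ht))
  have k2b : ∀ t ∈ Ico s T, ∫⁻ τ in Ioc s t, ENNReal.ofReal (D3 (cw u τ))
      ≤ ENNReal.ofReal ν⁻¹ * ENNReal.ofReal M2 := by
    intro t ht
    apply inv_cancel' hν
    have k3 := le_add_self.trans (k2 t ht)
    simp only [ENNReal.ofReal_mul hν.le] at k3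
    rwa [lintegral_const_mul' _ _ ENNReal.ofReal_ne_top] at k3
  -- third order
  obtain ⟨K', hK'⟩ : ∃ K', K' = K + M2 := ⟨_, rfl⟩
  have hK'1 : 1 ≤ K' := by rw [hK']; linarith
  obtain ⟨C3, hC3, h3⟩ := high3 hν hK'1
  obtain ⟨M3, hM3⟩ : ∃ M3, M3 = D3 (cw u s) + C3 * ((T - s) + ν⁻¹ * M2) := ⟨_, rfl⟩
  have k3 : ∀ t ∈ Ico s T, D3 (cw u t) ≤ M3 := by
    intro t ht
    have hsT : 0 ≤ T - s := by linarith [ht.1, ht.2]
    have hD3s := D3_nonneg (cw u s)
    have hM30 : 0 ≤ M3 := by rw [hM3]; positivity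
    have k1 := from_id (y := fun t => D3 (cw u t)) (q := fun τ => D4 (cw u τ))
      (n := fun τ => NL3 (cw u τ)) (ψ := fun τ => ENNReal.ofReal C3
        * (1 + ENNReal.ofReal (D3 (cw u τ)))) hν (h.D4_int hs ht.2) (fun τ => D4_nonneg _)
      (D3_nonneg _) (h.D3_id hs ht.1 ht.2) (by
        intro τ hτ
        have hτ' : τ ∈ Ioo 0 T := ⟨hs.trans hτ.1, hτ.2.trans_lt ht.2⟩
        have hτs : τ ∈ Ico s T := ⟨hτ.1.le, hτ'.2⟩
        have hD3 := D3_nonneg (cw u τ)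
        have hD4 := D4_nonneg (cw u τ)
        rw [← ENNReal.ofReal_one, ← ENNReal.ofReal_add (by norm_num) hD3,
          ← ENNReal.ofReal_mul hC3, ← ENNReal.ofReal_add (by positivity) (by positivity)]
        apply ENNReal.ofReal_le_ofReal
        exact h3 (cw u τ) (fun i => h.cw_HF hτ' i)
          (fun i => (hE τ hτs i).trans (by rw [hK']; linarith))
          ((hN τ hτs).1.trans (by rw [hK']; linarith)) ((k2a τ hτs).trans (by rw [hK']; linarith)))
    rw [lintegral_const_mul' _ _ ENNReal.ofReal_ne_top, lintegral_add_left measurable_const,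
      setLIntegral_const, one_mul, Real.volume_Ioc] at k1
    have k4 : ENNReal.ofReal (D3 (cw u t)) ≤ ENNReal.ofReal M3 := by
      refine (le_self_add.trans k1).trans ?_
      calc ENNReal.ofReal (D3 (cw u s)) + ENNReal.ofReal C3 * (ENNReal.ofReal (t - s)
            + ∫⁻ τ in Ioc s t, ENNReal.ofReal (D3 (cw u τ)))
          ≤ ENNReal.ofReal (D3 (cw u s)) + ENNReal.ofReal C3 * (ENNReal.ofReal (T - s)
            + ENNReal.ofReal ν⁻¹ * ENNReal.ofReal M2) := by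
            have k5 := k2b t ht
            have k6 : ENNReal.ofReal (t - s) ≤ ENNReal.ofReal (T - s) :=
              ENNReal.ofReal_le_ofReal (by linarith [ht.2])
            gcongr
        _ = ENNReal.ofReal M3 := by
            rw [← ENNReal.ofReal_mul (by positivity), ← ENNReal.ofReal_add hsT (by positivity),
              ← ENNReal.ofReal_mul hC3, ← ENNReal.ofReal_add hD3s (by positivity), hM3]
    exact (ENNReal.ofReal_le_ofReal_iff hM30).1 k4
  refine ⟨K + M2 + |M3|, by linarith [abs_nonneg M3], fun t ht => ⟨?_, ?_⟩⟩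
  · linarith [k2a t ht, abs_nonneg M3]
  · linarith [k3 t ht, le_abs_self M3]

end

end Pool.Agent.H305.OS
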