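import Pool.Agent.H305.TI.Sq

/-!
Smooth functions on `ℝ³` all of whose derivatives are bounded and square integrable.
-/

set_option autoImplicit false

open MeasureTheory Set Metric Filter Topology
open scoped ContDiff ENNReal

namespace Pool.Agent.H305.OS

open H459R3.NS W221.NS Pool.Agent.V1183.PM
open Pool.Agent.W583.MD (sm_pd pd_mul')
open Pool.Agent.TH305.DR (pd_sub' pd_add' pd_neg' pd_const')
open Pool.Agent.H305.TI (it it_nil it_cons it_sm)

/-- The integral of the square. -/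
noncomputable def sqi (f : V → ℝ) : ℝ≥0∞ := ∫⁻ x, ENNReal.ofReal (f x ^ 2)

/-- All derivatives are bounded and square integrable, uniformly for `t ∈ I`. -/
structure UF (I : Set ℝ) (F : ℝ → V → ℝ) : Prop where
  sm : ∀ t ∈ I, ContDiff ℝ ∞ (F t)
  bd : ∀ l : List (Fin 3), ∃ C : ℝ, 0 ≤ C ∧ ∀ t ∈ I, (∀ x, |it l (F t) x| ≤ C) ∧
    sqi (it l (F t)) ≤ ENNReal.ofReal C

/-- The same for one function. -/
def HF (f : V → ℝ) : Prop := UF univ fun _ => f

section
variable {I : Set ℝ} {F G : ℝ → V → ℝ} {f g : V → ℝ}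

lemma UF.at (h : UF I F) {t : ℝ} (ht : t ∈ I) : HF (F t) := by
  refine ⟨fun _ _ => h.sm t ht, fun l => ?_⟩
  obtain ⟨C, hC, h1⟩ := h.bd l
  exact ⟨C, hC, fun _ _ => h1 t ht⟩

lemma HF.sm (h : HF f) : ContDiff ℝ ∞ f := UF.sm h 0 (mem_univ _)

lemma UF.pd (h : UF I F) (j : Fin 3) : UF I (fun t => pd j (F t)) := by
  refine ⟨fun t ht => sm_pd (h.sm t ht) j, fun l => ?_⟩
  exact h.bd (j :: l)

lemma HF.pd (h : HF f) (j : Fin 3) : HF (pd j f) := UF.pd h j

lemma sq_add_le (a b : ℝ) : (a + b) ^ 2 ≤ 2 * a ^ 2 + 2 * b ^ 2 := by nlinarith [sq_nonneg (a - b)]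

lemma sqi_add_le {f g : V → ℝ} (hf : Measurable f) (hg : Measurable g) :
    sqi (fun x => f x + g x) ≤ 2 * sqi f + 2 * sqi g := by
  unfold sqi
  rw [← lintegral_const_mul _ (by fun_prop), ← lintegral_const_mul _ (by fun_prop),
    ← lintegral_add_left (by fun_prop)]
  apply lintegral_mono
  intro x
  simp only
  rw [← ENNReal.ofReal_ofNat, ← ENNReal.ofReal_mul (by norm_num), ← ENNReal.ofReal_mul (by norm_num),
    ← ENNReal.ofReal_add (by positivity) (by positivity)]
  exact ENNReal.ofReal_le_ofReal (sq_add_le _ _)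

lemma it_add (l : List (Fin 3)) : ∀ {f g : V → ℝ}, ContDiff ℝ ∞ f → ContDiff ℝ ∞ g →
    it l (fun x => f x + g x) = fun x => it l f x + it l g x := by
  induction l with
  | nil => intro f g _ _; rfl
  | cons i l ih =>
    intro f g hf hg
    rw [it_cons, it_cons, it_cons]
    have : pd i (fun x => f x + g x) = fun x => pd i f x + pd i g x := by
      rw [pd_add' hf hg]
    rw [this]
    exact ih (sm_pd hf i) (sm_pd hg i)

lemma it_cmul (l : List (Fin 3)) (c : ℝ) : ∀ {f : V → ℝ}, ContDiff ℝ ∞ f →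
    it l (fun x => c * f x) = fun x => c * it l f x := by
  induction l with
  | nil => intro f _; rfl
  | cons i l ih =>
    intro f hf
    rw [it_cons, it_cons]
    have : pd i (fun x => c * f x) = fun x => c * pd i f x := by
      funext x
      unfold H459R3.NS.pd
      have h2 := ((hf.differentiable (by simp)) x).hasFDerivAt.const_mul c
      have h4 : fderiv ℝ (fun x => c * f x) x = _ := h2.fderiv
      rw [h4]
      rfl
    rw [this]
    exact ih (sm_pd hf i)

lemma UF.add (hF : UF I F) (hG : UF I G) : UF I (fun t x => F t x + G t x) := by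
  refine ⟨fun t ht => (hF.sm t ht).add (hG.sm t ht), fun l => ?_⟩
  obtain ⟨C1, hC1, h1⟩ := hF.bd l
  obtain ⟨C2, hC2, h2⟩ := hG.bd l
  refine ⟨2 * C1 + 2 * C2, by positivity, fun t ht => ?_⟩
  rw [it_add l (hF.sm t ht) (hG.sm t ht)]
  refine ⟨fun x => ?_, ?_⟩
  · have a1 := (h1 t ht).1 x
    have a2 := (h2 t ht).1 x
    exact (abs_add_le _ _).trans (by linarith)
  · refine (sqi_add_le (it_sm l (hF.sm t ht)).continuous.measurable
      (it_sm l (hG.sm t ht)).continuous.measurable).trans ?_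
    rw [ENNReal.ofReal_add (by positivity) (by positivity), ENNReal.ofReal_mul (by norm_num),
      ENNReal.ofReal_mul (by norm_num), ENNReal.ofReal_ofNat]
    exact add_le_add (mul_le_mul_right (h1 t ht).2 _) (mul_le_mul_right (h2 t ht).2 _)

lemma sqi_cmul (c : ℝ) (f : V → ℝ) (hf : Measurable f) :
    sqi (fun x => c * f x) = ENNReal.ofReal (c ^ 2) * sqi f := by
  unfold sqi
  rw [← lintegral_const_mul _ (by fun_prop)]
  apply lintegral_congr
  intro x
  rw [← ENNReal.ofReal_mul (sq_nonneg c)]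
  congr 1
  ring

lemma UF.cmul (hF : UF I F) (c : ℝ) : UF I (fun t x => c * F t x) := by
  refine ⟨fun t ht => contDiff_const.mul (hF.sm t ht), fun l => ?_⟩
  obtain ⟨C1, hC1, h1⟩ := hF.bd l
  refine ⟨|c| * C1 + c ^ 2 * C1, by positivity, fun t ht => ?_⟩
  rw [it_cmul l c (hF.sm t ht)]
  refine ⟨fun x => ?_, ?_⟩
  · rw [abs_mul]
    have := mul_le_mul_of_nonneg_left ((h1 t ht).1 x) (abs_nonneg c)
    have : 0 ≤ c ^ 2 * C1 := by positivity
    linarith
  · rw [sqi_cmul c _ (it_sm l (hF.sm t ht)).continuous.measurable]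
    refine (mul_le_mul_right (h1 t ht).2 _).trans ?_
    rw [← ENNReal.ofReal_mul (sq_nonneg c)]
    apply ENNReal.ofReal_le_ofReal
    have : 0 ≤ |c| * C1 := by positivity
    linarith

lemma UF.neg (hF : UF I F) : UF I (fun t x => - F t x) := by
  have := hF.cmul (-1)
  simpa using this

lemma UF.sub (hF : UF I F) (hG : UF I G) : UF I (fun t x => F t x - G t x) := by
  have := hF.add hG.neg
  simpa [sub_eq_add_neg] using this

/-- Bounded and square integrable. -/
def BL (I : Set ℝ) (F : ℝ → V → ℝ) : Prop :=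
  ∃ C : ℝ, 0 ≤ C ∧ ∀ t ∈ I, (∀ x, |F t x| ≤ C) ∧ sqi (F t) ≤ ENNReal.ofReal C

lemma BL_mul (hF : UF I F) (hG : UF I G) : BL I (fun t x => F t x * G t x) := by
  obtain ⟨C1, hC1, h1⟩ := hF.bd []
  obtain ⟨C2, hC2, h2⟩ := hG.bd []
  refine ⟨C1 * C2 + C1 ^ 2 * C2, by positivity, fun t ht => ⟨fun x => ?_, ?_⟩⟩
  · have a1 := (h1 t ht).1 x
    have a2 := (h2 t ht).1 x
    rw [it_nil] at a1 a2
    rw [abs_mul]
    have := mul_le_mul a1 a2 (abs_nonneg _) hC1
    have : 0 ≤ C1 ^ 2 * C2 := by positivity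
    linarith
  · have a2 := (h2 t ht).2
    rw [it_nil] at a2
    have e : sqi (fun x => F t x * G t x) ≤ ENNReal.ofReal (C1 ^ 2) * sqi (G t) := by
      unfold sqi
      rw [← lintegral_const_mul _ (by
        have := (hG.sm t ht).continuous.measurable
        fun_prop)]
      apply lintegral_mono
      intro x
      simp only
      rw [← ENNReal.ofReal_mul (sq_nonneg C1)]
      apply ENNReal.ofReal_le_ofReal
      have a1 := (h1 t ht).1 x
      rw [it_nil] at a1
      rw [mul_pow]
      apply mul_le_mul_of_nonneg_right _ (sq_nonneg _)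
      rw [← sq_abs]
      exact pow_le_pow_left₀ (abs_nonneg _) a1 2
    refine e.trans ((mul_le_mul_right a2 _).trans ?_)
    rw [← ENNReal.ofReal_mul (sq_nonneg C1)]
    apply ENNReal.ofReal_le_ofReal
    have : 0 ≤ C1 * C2 := by positivity
    linarith

lemma UF.mul_aux (l : List (Fin 3)) : ∀ {F G : ℝ → V → ℝ}, UF I F → UF I G →
    BL I (fun t => it l (fun x => F t x * G t x)) := by
  induction l with
  | nil => intro F G hF hG; exact BL_mul hF hG
  | cons i l ih =>
    intro F G hF hG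
    obtain ⟨C1, hC1, h1⟩ := ih hF (hG.pd i)
    obtain ⟨C2, hC2, h2⟩ := ih (hF.pd i) hG
    refine ⟨2 * C1 + 2 * C2, by positivity, fun t ht => ?_⟩
    have sF := hF.sm t ht
    have sG := hG.sm t ht
    have e : it (i :: l) (fun x => F t x * G t x)
        = fun x => it l (fun x => F t x * H459R3.NS.pd i (G t) x) x
          + it l (fun x => H459R3.NS.pd i (F t) x * G t x) x := by
      rw [it_cons, ← it_add l (sF.mul (sm_pd sG i)) ((sm_pd sF i).mul sG)]
      congr 1
      funext x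
      rw [pd_mul' sF sG]
    show (∀ x, |it (i :: l) (fun x => F t x * G t x) x| ≤ 2 * C1 + 2 * C2) ∧
      sqi (it (i :: l) (fun x => F t x * G t x)) ≤ ENNReal.ofReal (2 * C1 + 2 * C2)
    rw [e]
    refine ⟨fun x => ?_, ?_⟩
    · have a1 := (h1 t ht).1 x
      have a2 := (h2 t ht).1 x
      exact (abs_add_le _ _).trans (by linarith)
    · refine (sqi_add_le (it_sm l (sF.mul (sm_pd sG i))).continuous.measurable
        (it_sm l ((sm_pd sF i).mul sG)).continuous.measurable).trans ?_
      rw [ENNReal.ofReal_add (by positivity) (by positivity), ENNReal.ofReal_mul (by norm_num),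
        ENNReal.ofReal_mul (by norm_num), ENNReal.ofReal_ofNat]
      exact add_le_add (mul_le_mul_right (h1 t ht).2 _) (mul_le_mul_right (h2 t ht).2 _)

lemma UF.mul (hF : UF I F) (hG : UF I G) : UF I (fun t x => F t x * G t x) :=
  ⟨fun t ht => (hF.sm t ht).mul (hG.sm t ht), fun l => UF.mul_aux l hF hG⟩

lemma UF.zero : UF I (fun _ _ => 0) := by
  refine ⟨fun t ht => contDiff_const, fun l => ⟨0, le_rfl, fun t ht => ?_⟩⟩
  have e : it l (fun _ => (0 : ℝ)) = fun _ => 0 := by
    have := it_cmul l 0 (f := fun _ : V => (0 : ℝ)) contDiff_const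
    simpa using this
  rw [e]
  simp [sqi]

lemma UF.sum {F : Fin 3 → ℝ → V → ℝ} (hF : ∀ i, UF I (F i)) : UF I (fun t x => ∑ i, F i t x) := by
  have := ((hF 0).add (hF 1)).add (hF 2)
  simpa [Fin.sum_univ_three] using this

lemma HF.mul (hf : HF f) (hg : HF g) : HF (fun x => f x * g x) := UF.mul hf hg
lemma HF.add (hf : HF f) (hg : HF g) : HF (fun x => f x + g x) := UF.add hf hg
lemma HF.sub (hf : HF f) (hg : HF g) : HF (fun x => f x - g x) := UF.sub hf hg
lemma HF.neg (hf : HF f) : HF (fun x => - f x) := UF.neg hf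
lemma HF.cmul (hf : HF f) (c : ℝ) : HF (fun x => c * f x) := UF.cmul hf c
lemma HF.sum {f : Fin 3 → V → ℝ} (hf : ∀ i, HF (f i)) : HF (fun x => ∑ i, f i x) := UF.sum hf

end

end Pool.Agent.H305.OS
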